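import Pool.Agent.H44.Cac.WordDefs

/-!
Cyclic words of profiles: tools.
-/

namespace Pool.Agent.H44.Cac

/-- monotone maps commuting with the shift by 3 -/
structure Mp (P : ℤ → ℤ) : Prop where
  mono : ∀ {a b}, a ≤ b → P a ≤ P b
  per : ∀ l, P (l + 3) = P l + 3

theorem Mp.add {P : ℤ → ℤ} (h : Mp P) (l k : ℤ) : P (l + 3 * k) = P l + 3 * k := by
  induction k using Int.induction_on with
  | zero => simp
  | succ i ih =>
    rw [show l + 3 * ((i : ℤ) + 1) = (l + 3 * i) + 3 by ring, h.per, ih]; ring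
  | pred i ih =>
    have := h.per (l + 3 * (-(i : ℤ) - 1))
    rw [show l + 3 * (-(i : ℤ) - 1) + 3 = l + 3 * (-(i : ℤ)) by ring, ih] at this
    linarith

theorem mp_id : Mp id := ⟨fun h => h, fun _ => rfl⟩

theorem Mp.comp {P Q : ℤ → ℤ} (hQ : Mp Q) (hP : Mp P) : Mp (fun l => Q (P l)) :=
  ⟨fun h => hQ.mono (hP.mono h), fun l => by rw [hP.per, hQ.per]⟩

theorem mp_E (c : Bool) : Mp (E c) :=
  ⟨fun h => E_mono c h, fun l => by simpa using E_add c l 1⟩

theorem mp_glue (b : ℤ) : Mp (fun l => glue l b) :=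
  ⟨fun h => glue_mono_left h b, fun l => by simpa using glue_add l b 1⟩

theorem Fop.mp {g : Pf} {k : ℕ} {P : ℤ → ℤ} (h : Fop g k P) : Mp P := by
  cases h with
  | keep i => exact (mp_glue (g k)).comp (mp_E false)
  | cut i => exact (mp_glue (g i)).comp (mp_E true)

theorem Fw.mp {gs : List Pf} {k : ℕ} {P : ℤ → ℤ} (h : Fw gs k P) : Mp P := by
  induction h with
  | nil => exact mp_id
  | cons h1 _ ih => exact ih.comp h1.mp

theorem mp_base (gs : List Pf) : Mp (base gs) := by
  induction gs with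
  | nil => exact mp_id
  | cons g gs ih => exact ih.comp ((mp_glue (g 0)).comp (mp_E false))

theorem Fw.base (gs : List Pf) : Fw gs 0 (base gs) := by
  induction gs with
  | nil => exact Fw.nil
  | cons g gs ih => exact Fw.cons (Fop.keep 0) ih

theorem fw_zero {gs : List Pf} {P : ℤ → ℤ} (h : Fw gs 0 P) : P = base gs := by
  generalize hk : 0 = k at h
  induction h with
  | nil => rfl
  | @cons g gs i j P Q h1 h2 ih =>
    have hj : 0 = j := by omega
    have hi : i = 0 := by omega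
    subst hi
    rw [ih hj]
    cases h1 with
    | keep i => rfl

theorem base_append (xs ys : List Pf) (l : ℤ) : base (xs ++ ys) l = base ys (base xs l) := by
  induction xs generalizing l with
  | nil => rfl
  | cons g xs ih => simp only [List.cons_append, base]; exact ih _

theorem fw_append {xs ys : List Pf} {k : ℕ} {R : ℤ → ℤ} :
    Fw (xs ++ ys) k R ↔ ∃ i j P Q, k = i + j ∧ Fw xs i P ∧ Fw ys j Q ∧ R = fun l => Q (P l) := by
  constructor
  · intro h
    induction xs generalizing k R with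
    | nil => exact ⟨0, k, id, R, by omega, Fw.nil, h, rfl⟩
    | cons g xs ih =>
      cases h with
      | cons h1 h2 =>
        obtain ⟨i', j', P', Q', rfl, h3, h4, rfl⟩ := ih h2
        exact ⟨_, j', _, Q', by omega, Fw.cons h1 h3, h4, rfl⟩
  · rintro ⟨i, j, P, Q, rfl, h1, h2, rfl⟩
    induction h1 with
    | nil => simpa using h2
    | @cons g xs a b P' Q' h3 _ ih =>
      rw [Nat.add_assoc]
      exact Fw.cons (P := P') (Q := fun l => Q (Q' l)) h3 ih

theorem tr_mono {P : ℤ → ℤ} {c d : ℤ} (h : c ≤ d) (hc : Tr P c) : Tr P d := by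
  obtain ⟨l, hl⟩ := hc
  exact ⟨l, by omega⟩

theorem tr_le {P Q : ℤ → ℤ} {c : ℤ} (h : ∀ l, P l ≤ Q l) (hc : Tr Q c) : Tr P c := by
  obtain ⟨l, hl⟩ := hc
  exact ⟨l, (h l).trans hl⟩

theorem tr_comm {P Q : ℤ → ℤ} (hP : Mp P) (hQ : Mp Q) {c : ℤ} :
    Tr (fun l => Q (P l)) c ↔ Tr (fun l => P (Q l)) c := by
  constructor
  · rintro ⟨l, hl⟩
    exact ⟨P l, (hP.mono hl).trans (le_of_eq (hP.add l c))⟩
  · rintro ⟨l, hl⟩
    exact ⟨Q l, (hQ.mono hl).trans (le_of_eq (hQ.add l c))⟩

theorem tr_exists (P : ℤ → ℤ) : ∃ c, Tr P c := by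
  refine ⟨|P 0|, 0, ?_⟩
  have := le_abs_self (P 0)
  have := abs_nonneg (P 0)
  omega

theorem tr_bdd {P : ℤ → ℤ} (hP : Mp P) : ∃ c, ∀ d, Tr P d → c ≤ d := by
  refine ⟨-(|P 0| + 1), ?_⟩
  rintro d ⟨l, hl⟩
  have h1 : P l ≥ P (0 + 3 * (l / 3)) := hP.mono (by omega)
  rw [hP.add] at h1
  have := neg_abs_le (P 0)
  have := abs_nonneg (P 0)
  omega

theorem exists_min {P : ℤ → ℤ} (hP : Mp P) : ∃ c, Tr P c ∧ ¬ Tr P (c - 1) := by
  obtain ⟨b, hb⟩ := tr_bdd hP
  obtain ⟨c, hc⟩ := tr_exists P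
  by_contra hcon
  push Not at hcon
  have key : ∀ k : ℕ, Tr P (c - k) := by
    intro k
    induction k with
    | zero => simpa using hc
    | succ k ih =>
      have := hcon _ ih
      rwa [show c - ((k + 1 : ℕ) : ℤ) = c - k - 1 by push_cast; ring]
  have h1 := hb _ (key (c - b + 1).toNat)
  have h2 : c - b ≥ 0 := by have := hb _ hc; omega
  omega

theorem good_append_comm {xs ys : List Pf} : Good (xs ++ ys) → Good (ys ++ xs) := by
  intro h c hc k hk R hR
  obtain ⟨i, j, P, Q, rfl, h1, h2, rfl⟩ := fw_append.mp hR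
  rw [tr_comm h1.mp h2.mp]
  refine h c ?_ (i + j) hk _ (fw_append.mpr ⟨j, i, Q, P, by omega, h2, h1, rfl⟩)
  have e1 : base (xs ++ ys) = fun l => base ys (base xs l) := funext (base_append xs ys)
  have e2 : base (ys ++ xs) = fun l => base xs (base ys l) := funext (base_append ys xs)
  rw [e1, tr_comm (mp_base xs) (mp_base ys)]
  rwa [e2] at hc

/-- a factor whose action can be raised by 3 with at most two deletions -/
theorem not_good_of_raise {xs ys : List Pf} {k : ℕ} {P : ℤ → ℤ} (hk : k ≤ 2) (h : Fw xs k P)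
    (hP : ∀ l, base xs l + 3 ≤ P l) : ¬ Good (xs ++ ys) := by
  intro hg
  obtain ⟨c, hc, hc'⟩ := exists_min (mp_base (xs ++ ys))
  apply hc'
  have h1 := hg c hc k hk _ (fw_append.mpr ⟨k, 0, P, base ys, by omega, h, Fw.base ys, rfl⟩)
  obtain ⟨l, hl⟩ := h1
  refine ⟨l, ?_⟩
  rw [base_append]
  have h2 : base ys (base xs l + 3) ≤ base ys (P l) := (mp_base ys).mono (hP l)
  rw [(mp_base ys).per] at h2
  have hl' : base ys (P l) ≤ l + 3 * c := hl
  omega

theorem win_length (p : ℕ → Pf) (i n : ℕ) : (win p i n).length = n := by simp [win]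

theorem win_zero (p : ℕ → Pf) (i : ℕ) : win p i 0 = [] := rfl

theorem win_succ (p : ℕ → Pf) (i n : ℕ) : win p i (n + 1) = p i :: win p (i + 1) n := by
  unfold win
  rw [List.range_succ_eq_map, List.map_cons, List.map_map]
  congr 1
  apply List.map_congr_left
  intro j _
  simp only [Function.comp]
  congr 1
  omega

theorem win_add (p : ℕ → Pf) (i m n : ℕ) : win p i (m + n) = win p i m ++ win p (i + m) n := by
  induction m generalizing i with
  | zero => simp [win_zero]
  | succ m ih =>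
    rw [show m + 1 + n = (m + n) + 1 by ring, win_succ, win_succ, ih]
    simp only [List.cons_append]
    rw [show i + 1 + m = i + (m + 1) by ring]

theorem win_period {p : ℕ → Pf} {n : ℕ} (hp : ∀ i, p (i + n) = p i) (i m : ℕ) :
    win p (i + n) m = win p i m := by
  unfold win
  apply List.map_congr_left
  intro j _
  rw [show i + n + j = (i + j) + n by ring, hp]

theorem mem_win {p : ℕ → Pf} {i n : ℕ} {g : Pf} : g ∈ win p i n ↔ ∃ j < n, g = p (i + j) := by
  simp only [win, List.mem_map, List.mem_range]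
  constructor
  · rintro ⟨j, hj, rfl⟩; exact ⟨j, hj, rfl⟩
  · rintro ⟨j, hj, rfl⟩; exact ⟨j, hj, rfl⟩

theorem good_win_succ {p : ℕ → Pf} {n : ℕ} (hp : ∀ i, p (i + n) = p i) (i : ℕ) :
    Good (win p i n) ↔ Good (win p (i + 1) n) := by
  rcases Nat.eq_zero_or_pos n with rfl | hn
  · simp [win_zero]
  obtain ⟨m, rfl⟩ : ∃ m, n = m + 1 := ⟨n - 1, by omega⟩
  have e1 : win p i (m + 1) = [p i] ++ win p (i + 1) m := by rw [win_succ]; rfl
  have e2 : win p (i + 1) (m + 1) = win p (i + 1) m ++ [p i] := by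
    rw [win_add, win_succ, win_zero, show i + 1 + m = i + (m + 1) by ring, hp]
  rw [e1, e2]
  exact ⟨good_append_comm, good_append_comm⟩

/-- rotation -/
theorem good_win {p : ℕ → Pf} {n : ℕ} (hp : ∀ i, p (i + n) = p i) (i j : ℕ) :
    Good (win p i n) ↔ Good (win p j n) := by
  have key : ∀ i, Good (win p 0 n) ↔ Good (win p i n) := by
    intro i
    induction i with
    | zero => rfl
    | succ i ih => rw [ih]; exact good_win_succ hp i
  rw [← key i, key j]

/-- values on the three residues determine inequalities between monotone periodic maps -/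
theorem mp_le {P Q : ℤ → ℤ} {k : ℤ} (hP : Mp P) (hQ : Mp Q) (h0 : P 0 + k ≤ Q 0)
    (h1 : P 1 + k ≤ Q 1) (h2 : P 2 + k ≤ Q 2) : ∀ l, P l + k ≤ Q l := by
  intro l
  obtain ⟨p, rfl | rfl | rfl⟩ := split3 l
  · have a := hP.add 0 p; have b := hQ.add 0 p
    rw [zero_add] at a b; omega
  · have a := hP.add 1 p; have b := hQ.add 1 p
    rw [add_comm] at a b; omega
  · have a := hP.add 2 p; have b := hQ.add 2 p
    rw [add_comm] at a b; omega

end Pool.Agent.H44.Cac
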