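import Pool.Agent.H44.Cac.Gl
import Pool.Agent.H44.Cac.Words

namespace Pool.Agent.H44.Cac

theorem outP_fop_finite (g : Pf) (k : ℕ) : {P | Fop g k P}.Finite := by
  apply Set.Finite.subset (s := {(fun l => glue (E false l) (g k)),
    (fun l => glue (E true l) (g (k - 1)))}) (Set.toFinite _)
  intro P hP
  cases hP with
  | keep i => exact Or.inl rfl
  | cut i => exact Or.inr rfl

theorem outP_fw_finite (gs : List Pf) : ∀ k, {P | Fw gs k P}.Finite := by
  induction gs with
  | nil =>
    intro k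
    apply Set.Finite.subset (s := {id}) (Set.toFinite _)
    intro P hP
    cases hP
    rfl
  | cons g gs ih =>
    intro k
    apply Set.Finite.subset (s := ⋃ i ∈ Finset.range (k + 1),
      Set.image2 (fun (P Q : ℤ → ℤ) => fun l => Q (P l)) {P | Fop g i P} {Q | Fw gs (k - i) Q})
    · apply Set.Finite.biUnion (Finset.finite_toSet _)
      intro i _
      exact (outP_fop_finite g i).image2 _ (ih _)
    · intro P hP
      cases hP with
      | @cons _ _ i j P Q h1 h2 =>
        rw [Set.mem_iUnion₂]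
        refine ⟨i, Finset.mem_range.2 (by omega), P, h1, Q, ?_, rfl⟩
        rw [show i + j - i = j by omega]
        exact h2

theorem outP_finite (gs : List Pf) (k : ℕ) : {L | ∃ j ≤ k, Out gs j L}.Finite := by
  apply Set.Finite.subset (s := ⋃ i ∈ Finset.range (k + 1),
    (((fun P => clo P false) '' {P | Fw gs i P}) ∪ ((fun P => clo P true) '' {P | Fw gs i P})))
  · apply Set.Finite.biUnion (Finset.finite_toSet _)
    intro i _
    exact ((outP_fw_finite gs i).image _).union ((outP_fw_finite gs i).image _)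
  · rintro L ⟨j, hj, i, P, hP, h⟩
    rw [Set.mem_iUnion₂]
    rcases h with ⟨rfl, rfl⟩ | ⟨rfl, rfl⟩
    · exact ⟨j, Finset.mem_range.2 (by omega), Or.inl ⟨P, hP, rfl⟩⟩
    · exact ⟨i, Finset.mem_range.2 (by omega), Or.inr ⟨P, hP, rfl⟩⟩

theorem outP_zero {gs : List Pf} {L : ℤ} : Out gs 0 L ↔ L = clo (base gs) false := by
  constructor
  · rintro ⟨i, P, hP, h⟩
    rcases h with ⟨h0, rfl⟩ | ⟨h0, rfl⟩
    · subst h0
      rw [fw_zero hP]
    · omega
  · rintro rfl
    exact ⟨0, base gs, Fw.base gs, Or.inl ⟨rfl, rfl⟩⟩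

theorem exists_isOut (gs : List Pf) (hg : ∀ g ∈ gs, Monotone g) : ∃ α, IsOut gs α := by
  have hne : ∀ k, (outP_finite gs k).toFinset.Nonempty := by
    intro k
    refine ⟨clo (base gs) false, ?_⟩
    rw [Set.Finite.mem_toFinset]
    exact ⟨0, Nat.zero_le _, outP_zero.2 rfl⟩
  refine ⟨fun k => (outP_finite gs k).toFinset.max' (hne k), ?_, ?_, ?_⟩
  · intro k L hL
    apply Finset.le_max'
    rw [Set.Finite.mem_toFinset]
    exact ⟨k, le_rfl, hL⟩
  · intro k
    have h := Finset.max'_mem _ (hne k)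
    rw [Set.Finite.mem_toFinset] at h
    exact h
  · intro k k' hk
    apply Finset.max'_subset
    intro L hL
    rw [Set.Finite.mem_toFinset] at hL ⊢
    obtain ⟨j, hj, h⟩ := hL
    exact ⟨j, hj.trans hk, h⟩

theorem outP_zero_eq {gs : List Pf} {α : Pf} (hα : IsOut gs α) : α 0 = clo (base gs) false := by
  obtain ⟨j, hj, h⟩ := hα.2.1 0
  rw [Nat.le_zero.1 hj] at h
  exact outP_zero.1 h

theorem outP_glue_three (X : ℤ) : (glue 3 X + 1) / 3 = (X + 2) / 3 := by
  rw [glue_y]; omega

theorem outP_glue_one (X : ℤ) : (glue 1 X + 1) / 3 = X / 3 := by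
  rw [glue_y]; omega

theorem outP_min (b A B : ℤ) : glue b (min A B) = min (glue b A) (glue b B) := by
  rcases le_total A B with h | h
  · rw [min_eq_left h, min_eq_left (glue_mono le_rfl h)]
  · rw [min_eq_right h, min_eq_right (glue_mono le_rfl h)]

/-- the closing relation for one action -/
theorem outP_tr {Q : ℤ → ℤ} (hQ : Mp Q) (e : Bool) (b c : ℤ) :
    Tr (fun l => glue (E e (Q l)) b) c ↔ (glue b (clo Q e) + 1) / 3 ≤ c := by
  have hX : Mp (fun l => glue (E e (Q l)) b) := (mp_glue b).comp ((mp_E e).comp hQ)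
  have h1 : glue b (E e (Q 1)) = glue (E e (Q 1)) b := glue_comm _ _
  have h0 : glue b (glue 3 (E e (Q 0))) = glue 3 (glue (E e (Q 0)) b) := by
    rw [glue_comm b, glue_assoc]
  have h2 : glue b (glue 1 (E e (Q 2))) = glue 1 (glue (E e (Q 2)) b) := by
    rw [glue_comm b, glue_assoc]
  rw [clo, outP_min, outP_min, h1, h0, h2]
  have g0 := outP_glue_three (glue (E e (Q 0)) b)
  have g2 := outP_glue_one (glue (E e (Q 2)) b)
  have hr : (min (glue (E e (Q 1)) b) (min (glue 3 (glue (E e (Q 0)) b))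
      (glue 1 (glue (E e (Q 2)) b))) + 1) / 3 ≤ c ↔
      glue (E e (Q 1)) b ≤ 1 + 3 * c ∨ glue (E e (Q 0)) b ≤ 0 + 3 * c ∨
        glue (E e (Q 2)) b ≤ 2 + 3 * c := by
    generalize glue (E e (Q 0)) b = X0 at *
    generalize glue (E e (Q 1)) b = X1 at *
    generalize glue (E e (Q 2)) b = X2 at *
    generalize glue 3 X0 = Y0 at *
    generalize glue 1 X2 = Y2 at *
    omega
  rw [hr]
  constructor
  · rintro ⟨l, hl⟩
    obtain ⟨p, rfl | rfl | rfl⟩ := split3 l
    · right; left
      have h := hX.add 0 p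
      rw [zero_add] at h
      simp only at h hl
      rw [h] at hl
      omega
    · left
      have h := hX.add 1 p
      rw [add_comm] at h
      simp only at h hl
      rw [h] at hl
      omega
    · right; right
      have h := hX.add 2 p
      rw [add_comm] at h
      simp only at h hl
      rw [h] at hl
      omega
  · rintro (h | h | h)
    · exact ⟨1, h⟩
    · exact ⟨0, h⟩
    · exact ⟨2, h⟩

theorem outP_fw_last {gs : List Pf} {g0 : Pf} {k : ℕ} {R : ℤ → ℤ} :
    Fw (gs ++ [g0]) k R ↔ ∃ (i j : ℕ) (e : Bool) (Q : ℤ → ℤ), k = i + (j + (if e then 1 else 0)) ∧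
      Fw gs j Q ∧ R = fun l => glue (E e (Q l)) (g0 i) := by
  rw [fw_append]
  constructor
  · rintro ⟨j, m, Q, T, rfl, h1, h2, rfl⟩
    cases h2 with
    | @cons _ _ i' j' P' Q' h3 h4 =>
      cases h4
      cases h3 with
      | keep i => exact ⟨i', j, false, Q, by simp; omega, h1, rfl⟩
      | cut i => exact ⟨i, j, true, Q, by simp; omega, h1, rfl⟩
  · rintro ⟨i, j, e, Q, rfl, h1, rfl⟩
    cases e
    · exact ⟨j, i, Q, fun l => glue (E false l) (g0 i), by simp; omega, h1,
        Fw.cons (Fop.keep i) Fw.nil, rfl⟩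
    · exact ⟨j, i + 1, Q, fun l => glue (E true l) (g0 i), by simp; omega, h1,
        Fw.cons (Fop.cut i) Fw.nil, rfl⟩

theorem outP_gl_mono {f g : Pf} (_ : Monotone f) (hg : Monotone g) : Monotone (gl f g) := by
  intro k k' hk
  obtain ⟨i, j, hij, e⟩ := gl_attained f g k
  rw [e]
  exact (glue_mono le_rfl (hg (show j ≤ j + (k' - k) by omega))).trans
    (le_gl f g (by omega))

/-- closing relation: the value of a cyclic word and the level of the piece glued at its first
vertex -/
theorem good_iff_gl (g0 : Pf) (gs : List Pf) (hm : ∀ g ∈ g0 :: gs, Monotone g) {α : Pf}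
    (hα : IsOut gs α) :
    Good (g0 :: gs) ↔ (gl g0 α 2 + 1) / 3 ≤ (gl g0 α 0 + 1) / 3 := by
  have hg0 : Monotone g0 := hm g0 List.mem_cons_self
  have hrot : Good (g0 :: gs) ↔ Good (gs ++ [g0]) :=
    ⟨fun h => good_append_comm (xs := [g0]) h, fun h => good_append_comm (ys := [g0]) h⟩
  have hbase : base (gs ++ [g0]) = fun l => glue (E false (base gs l)) (g0 0) := by
    funext l
    rw [base_append]
    rfl
  rw [hrot]
  constructor
  · intro h
    obtain ⟨i, m, him, e1⟩ := gl_attained g0 α 2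
    obtain ⟨j, hj, j', Q, hQ, hL⟩ := hα.2.1 m
    have hc : Tr (base (gs ++ [g0])) ((gl g0 α 0 + 1) / 3) := by
      rw [hbase, outP_tr (mp_base gs), gl_zero, outP_zero_eq hα]
    obtain ⟨e, he, hL'⟩ : ∃ e : Bool, j = j' + (if e then 1 else 0) ∧ α m = clo Q e := by
      rcases hL with ⟨h1, h2⟩ | ⟨h1, h2⟩
      · exact ⟨false, by simpa using h1, h2⟩
      · exact ⟨true, by simpa using h1, h2⟩
    have h1 := h _ hc (i + j) (by omega) _
      (outP_fw_last.2 ⟨i, j', e, Q, by rw [← he], hQ, rfl⟩)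
    rw [outP_tr hQ.mp] at h1
    rw [e1, hL']
    exact h1
  · intro h c hc k hk P hP
    obtain ⟨i, j, e, Q, rfl, hQ, rfl⟩ := outP_fw_last.1 hP
    rw [outP_tr hQ.mp]
    rw [hbase, outP_tr (mp_base gs), ← outP_zero_eq hα, ← gl_zero] at hc
    have h1 : clo Q e ≤ α (j + (if e then 1 else 0)) := by
      apply hα.1
      refine ⟨j, Q, hQ, ?_⟩
      cases e
      · exact Or.inl ⟨by simp, rfl⟩
      · exact Or.inr ⟨by simp, rfl⟩
    have h2 : glue (g0 i) (clo Q e) ≤ gl g0 α 2 :=
      ((glue_mono le_rfl h1).trans (le_gl g0 α rfl)).trans (outP_gl_mono hg0 hα.2.2 hk)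
    omega

/-- isolating the root: a single block has profile rising to type 2 -/
theorem isOut_iso {gs : List Pf} (hg : ∀ g ∈ gs, Monotone g) {α : Pf} (hα : IsOut gs α) :
    3 * (α 0 / 3) + 2 ≤ α 2 := by
  have h0 := outP_zero_eq hα
  cases gs with
  | nil =>
    have h1 : α 0 ≤ E false ((base [] : ℤ → ℤ) 1) := by
      rw [h0]; exact min_le_left _ _
    have h2 : (E false ((base [] : ℤ → ℤ) 1)) = 2 := by simp [base, E]
    have h3 : α 0 = 2 := by
      rw [h0]
      simp [clo, base, E, glue, tab]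
    have := hα.2.2 (show 0 ≤ 2 by omega)
    omega
  | cons g t =>
    set P : ℤ → ℤ := fun l => base t (glue (E true l) (g 0)) with hP
    have hF : Fw (g :: t) (0 + 1 + 0) P := Fw.cons (Fop.cut 0) (Fw.base t)
    have h1 : α 0 ≤ P 1 + 1 := by
      have e1 : P 1 + 1 = E false (base (g :: t) 1) := by
        simp [hP, base, E]
      rw [h0, e1]
      exact min_le_left _ _
    have hmp := hF.mp
    have e0 : P 0 = P 1 := by simp [hP, E]
    have e2 : P 2 = P 1 + 3 := by
      have := hmp.per (-1)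
      have e3 : P (-1 + 3) = P 2 := by norm_num
      have e4 : P (-1) = P 1 := by simp [hP, E]
      omega
    have h2 : clo P true = 3 * ((P 1 + 1) / 3) + 2 := by
      rw [clo, e0, e2]
      have a1 : E true (P 1) = 3 * ((P 1 + 1) / 3) + 2 := by simp [E]
      have a2 : E true (P 1 + 3) = 3 * ((P 1 + 1) / 3 + 1) + 2 := by simp [E]; omega
      rw [a1, a2]
      have b1 := glue02 1 ((P 1 + 1) / 3)
      have b2 := glue12 0 ((P 1 + 1) / 3 + 1)
      simp only [mul_one, mul_zero, zero_add] at b1 b2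
      rw [b1, b2]
      omega
    have h3 : clo P true ≤ α 2 := hα.1 2 _ ⟨1, P, hF, Or.inr ⟨rfl, rfl⟩⟩
    omega

end Pool.Agent.H44.Cac
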