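import Pool.Agent.H44.Cac.Words

/-! alternating lists: components (critical, type 1) and (critical, critical, type 1) -/

namespace Pool.Agent.H44.Cac

/-- the levels which are 0 or 1 modulo 3, in the order of the integers -/
def psi (v : ℤ) : ℤ := 3 * (v / 2) + v % 2

/-- alternating lists; `C1` and `C2` are conditions on single critical letters and pairs -/
inductive AltL (C1 : Pf → Prop) (C2 : Pf → Pf → Prop) : List Pf → ℤ → Prop
  | nil : AltL C1 C2 [] 0
  | single {k w : Pf} {gs : List Pf} {N : ℤ} (hk : ty k = 2) (hc : C1 k) (hw : ty w = 1)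
      (h : AltL C1 C2 gs N) : AltL C1 C2 (k :: w :: gs) (N + 1 + 2 * (k 0 / 3) + 2 * (w 0 / 3))
  | pair {k k' w : Pf} {gs : List Pf} {N : ℤ} (hk : ty k = 2) (hk' : ty k' = 2) (hc : C2 k k')
      (hw : ty w = 1) (h : AltL C1 C2 gs N) :
      AltL C1 C2 (k :: k' :: w :: gs) (N + 2 + 2 * (k 0 / 3) + 2 * (k' 0 / 3) + 2 * (w 0 / 3))

theorem psi_add (v k : ℤ) : psi (v + 2 * k) = psi v + 3 * k := by
  unfold psi; omega

theorem psi_mono {v w : ℤ} (h : v ≤ w) : psi v ≤ psi w := by
  unfold psi; omega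

theorem psi_even (q : ℤ) : psi (2 * q) = 3 * q := by
  unfold psi; omega

theorem psi_odd (q : ℤ) : psi (2 * q + 1) = 3 * q + 1 := by
  unfold psi; omega

lemma altL_crit {k : Pf} (hk : ty k = 2) (l : ℤ) :
    glue (E false l) (k 0) = l + 1 + 3 * (k 0 / 3) := by
  have h0 : k 0 = 3 * (k 0 / 3) + 2 := by unfold ty at hk; omega
  set z := k 0 / 3
  rw [h0]
  obtain ⟨q, hq⟩ := split3 (l + 1)
  have hE : E false l = l + 1 := by simp [E]
  rw [hE]
  rcases hq with h | h | h <;> rw [h]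
  · rw [glue02]; omega
  · rw [glue12]; omega
  · rw [glue22]; omega

/-- a letter of type 1, entered at a level not divisible by 3 minus one, shifts `psi` -/
lemma altL_one {w : Pf} (hw : ty w = 1) (v : ℤ) :
    glue (E false (psi v + 1)) (w 0) = psi (v + 1 + 2 * (w 0 / 3)) ∧
    glue (E false (psi v + 2)) (w 0) = psi (v + 2 + 2 * (w 0 / 3)) := by
  have h0 : w 0 = 3 * (w 0 / 3) + 1 := by unfold ty at hw; omega
  set z := w 0 / 3
  rw [h0]
  have hE : ∀ l, E false l = l + 1 := by intro l; simp [E]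
  simp only [hE]
  obtain ⟨q, hq | hq⟩ : ∃ q, v = 2 * q ∨ v = 2 * q + 1 := ⟨v / 2, by omega⟩
  · subst hq
    constructor
    · rw [psi_even, show 3 * q + 1 + 1 = 3 * q + 2 by ring, glue21,
        show 2 * q + 1 + 2 * z = 2 * (q + z) + 1 by ring, psi_odd]
    · rw [psi_even, show 3 * q + 2 + 1 = 3 * (q + 1) by ring, glue01,
        show 2 * q + 2 + 2 * z = 2 * (q + 1 + z) by ring, psi_even]
  · subst hq
    constructor
    · rw [psi_odd, show 3 * q + 1 + 1 + 1 = 3 * (q + 1) by ring, glue01,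
        show 2 * q + 1 + 1 + 2 * z = 2 * (q + 1 + z) by ring, psi_even]
    · rw [psi_odd, show 3 * q + 1 + 2 + 1 = 3 * (q + 1) + 1 by ring, glue11,
        show 2 * q + 1 + 2 + 2 * z = 2 * (q + 1 + z) + 1 by ring, psi_odd]

theorem altL_base {C1 : Pf → Prop} {C2 : Pf → Pf → Prop} {gs : List Pf} {N : ℤ}
    (h : AltL C1 C2 gs N) (v : ℤ) : base gs (psi v) = psi (v + N) := by
  induction h generalizing v with
  | nil => simp [base]
  | @single k w gs N hk hc hw h ih =>
    simp only [base]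
    rw [altL_crit hk, show psi v + 1 + 3 * (k 0 / 3) = psi (v + 2 * (k 0 / 3)) + 1 by
      rw [psi_add]; ring, (altL_one hw _).1, ih]
    congr 1
    ring
  | @pair k k' w gs N hk hk' hc hw h ih =>
    simp only [base]
    rw [altL_crit hk, altL_crit hk',
      show psi v + 1 + 3 * (k 0 / 3) + 1 + 3 * (k' 0 / 3) =
        psi (v + 2 * (k 0 / 3 + k' 0 / 3)) + 2 by rw [psi_add]; ring, (altL_one hw _).2, ih]
    congr 1
    ring

lemma altL_cnt (p : ℕ → Pf) (i m : ℕ) :
    ((Finset.range (m + 1)).filter (fun j => ty (p (i + j)) = 2)).card =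
      (if ty (p i) = 2 then 1 else 0) +
        ((Finset.range m).filter (fun j => ty (p (i + 1 + j)) = 2)).card := by
  rw [Finset.card_filter, Finset.card_filter, Finset.sum_range_succ', add_zero, add_comm]
  congr 1
  apply Finset.sum_congr rfl
  intro j _
  rw [show i + (j + 1) = i + 1 + j by ring]

theorem altL_win {C1 : Pf → Prop} {C2 : Pf → Pf → Prop} {p : ℕ → Pf}
    (h1 : ∀ i, ty (p i) = 2 ∨ ty (p (i + 1)) = 2)
    (h2 : ∀ i, ty (p i) = 2 → ty (p (i + 1)) = 2 → ty (p (i + 2)) ≠ 2)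
    (h0 : ∀ i, ty (p i) = 2 → ty (p (i + 1)) ≠ 0)
    (hc1 : ∀ i, ty (p i) ≠ 2 → ty (p (i + 1)) = 2 → ty (p (i + 2)) ≠ 2 → C1 (p (i + 1)))
    (hc2 : ∀ i, ty (p i) = 2 → ty (p (i + 1)) = 2 → C2 (p i) (p (i + 1)))
    (m i : ℕ) (ha : ty (p i) ≠ 2) (hb : ty (p (i + m)) ≠ 2) :
    ∃ N, AltL C1 C2 (win p (i + 1) m) N ∧
      N % 2 = (((Finset.range m).filter (fun j => ty (p (i + 1 + j)) = 2)).card : ℤ) % 2 := by
  have hty : ∀ g : Pf, ty g ≠ 2 → ty g ≠ 0 → ty g = 1 := by
    intro g; unfold ty; omega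
  induction m using Nat.strong_induction_on generalizing i with
  | _ m ih =>
    rcases Nat.eq_zero_or_pos m with rfl | hm
    · exact ⟨0, AltL.nil, by simp⟩
    have k1 : ty (p (i + 1)) = 2 := (h1 i).resolve_left ha
    have hm2 : 2 ≤ m := by
      by_contra hcon
      obtain rfl : m = 1 := by omega
      exact hb k1
    obtain ⟨m, rfl⟩ : ∃ m', m = m' + 2 := ⟨m - 2, by omega⟩
    by_cases k2 : ty (p (i + 2)) = 2
    · have k3 : ty (p (i + 3)) ≠ 2 := h2 (i + 1) k1 k2
      have hm3 : 1 ≤ m := by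
        by_contra hcon
        obtain rfl : m = 0 := by omega
        exact hb k2
      obtain ⟨m, rfl⟩ : ∃ m', m = m' + 1 := ⟨m - 1, by omega⟩
      have t3 : ty (p (i + 3)) = 1 := hty _ k3 (h0 (i + 2) k2)
      obtain ⟨N, hN, hN2⟩ := ih m (by omega) (i + 3) k3 (by
        rwa [show i + 3 + m = i + (m + 1 + 2) by ring])
      refine ⟨N + 2 + 2 * (p (i + 1) 0 / 3) + 2 * (p (i + 2) 0 / 3) + 2 * (p (i + 3) 0 / 3),
        ?_, ?_⟩
      · rw [show m + 1 + 2 = m + 1 + 1 + 1 by ring, win_succ, win_succ, win_succ]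
        exact AltL.pair k1 k2 (hc2 (i + 1) k1 k2) t3 hN
      · rw [show m + 1 + 2 = m + 1 + 1 + 1 by ring, altL_cnt, altL_cnt, altL_cnt,
          if_pos k1, if_pos k2, if_neg k3]
        have e : i + 1 + 1 + 1 + 1 = i + 3 + 1 := by ring
        rw [e]
        push_cast
        omega
    · have t2 : ty (p (i + 2)) = 1 := hty _ k2 (h0 (i + 1) k1)
      obtain ⟨N, hN, hN2⟩ := ih m (by omega) (i + 2) k2 (by
        rwa [show i + 2 + m = i + (m + 2) by ring])
      refine ⟨N + 1 + 2 * (p (i + 1) 0 / 3) + 2 * (p (i + 2) 0 / 3), ?_, ?_⟩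
      · rw [show m + 2 = m + 1 + 1 by ring, win_succ, win_succ]
        exact AltL.single k1 (hc1 i ha k1 k2) t2 hN
      · rw [show m + 2 = m + 1 + 1 by ring, altL_cnt, altL_cnt, if_pos k1, if_neg k2]
        have e : i + 1 + 1 + 1 = i + 2 + 1 := by ring
        rw [e]
        push_cast
        omega

theorem nK_shift {p : ℕ → Pf} {n : ℕ} (hp : ∀ i, p (i + n) = p i) (i : ℕ) :
    ((Finset.range n).filter (fun j => ty (p (i + j)) = 2)).card = nK p n := by
  induction i with
  | zero =>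
    unfold nK
    simp only [zero_add]
  | succ i ih =>
    rw [← ih]
    have e1 := altL_cnt p i n
    have e2 : ((Finset.range (n + 1)).filter (fun j => ty (p (i + j)) = 2)).card =
        ((Finset.range n).filter (fun j => ty (p (i + j)) = 2)).card +
          (if ty (p i) = 2 then 1 else 0) := by
      rw [Finset.card_filter, Finset.card_filter, Finset.sum_range_succ, hp]
    omega

end Pool.Agent.H44.Cac
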