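import Pool.Agent.H44.Cac.Words

/-! isolating a critical vertex; forbidden patterns next to a critical vertex -/

namespace Pool.Agent.H44.Cac

lemma iso_E (l : ℤ) : E false l = l + 1 := by simp [E]

lemma iso_k {k : Pf} (hk : ty k = 2) (l : ℤ) :
    glue (E false l) (k 0) = l + 1 + 3 * (k 0 / 3) := by
  have h0 : k 0 = 3 * (k 0 / 3) + 2 := by unfold ty at hk; omega
  set z := k 0 / 3
  rw [h0]
  obtain ⟨q, hq⟩ := split3 (l + 1)
  rw [iso_E]
  rcases hq with h | h | h <;> rw [h]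
  · rw [glue02]; omega
  · rw [glue12]; omega
  · rw [glue22]; omega

lemma iso_kcut {k : Pf} (hk : ty k = 2) (l : ℤ) :
    glue (E true l) (k 0) = 3 * ((l + 1) / 3) + 2 + 3 * (k 0 / 3) := by
  have h0 : k 0 = 3 * (k 0 / 3) + 2 := by unfold ty at hk; omega
  set z := k 0 / 3
  rw [h0]
  have hE : E true l = 3 * ((l + 1) / 3) + 2 := by simp [E]
  rw [hE, glue22]; ring

/-- cutting both edges around a critical vertex -/
theorem iso_crit {k : Pf} {rest : List Pf} (hr : rest ≠ []) (hk : ty k = 2)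
    (h : Good (k :: rest)) :
    base rest 1 % 3 = 1 ∧ base rest 1 < base rest 2 ∧ base rest 1 ≤ base rest 0 + 1 := by
  obtain ⟨y, t, rfl⟩ : ∃ y t, rest = y :: t := by
    cases rest with
    | nil => exact absurd rfl hr
    | cons y t => exact ⟨y, t, rfl⟩
  set A := base (y :: t) with hA
  have mA : Mp A := mp_base _
  set z := k 0 / 3 with hz
  -- the action with two deletions
  have hP := Fw.cons (Fop.cut (g := k) 0) (Fw.cons (Fop.cut (g := y) 0) (Fw.base t))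
  have hPl : ∀ l, base t (glue (E true (glue (E true l) (k 0))) (y 0)) =
      A 1 + 3 + 3 * z + 3 * ((l + 1) / 3) := by
    intro l
    rw [iso_kcut hk]
    have e1 : E true (3 * ((l + 1) / 3) + 2 + 3 * z) = E false (1 + 3 * ((l + 1) / 3 + z + 1)) := by
      rw [iso_E]
      have : E true (3 * ((l + 1) / 3) + 2 + 3 * z) =
        3 * ((3 * ((l + 1) / 3) + 2 + 3 * z + 1) / 3) + 2 := by simp [E]
      rw [this]; omega
    rw [e1]
    have e2 : base t (glue (E false (1 + 3 * ((l + 1) / 3 + z + 1))) (y 0)) =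
      A (1 + 3 * ((l + 1) / 3 + z + 1)) := rfl
    rw [e2, mA.add]; ring
  have hB : ∀ l, base (k :: y :: t) l = A (l + 1) + 3 * z := by
    intro l
    have e1 : base (k :: y :: t) l = A (glue (E false l) (k 0)) := rfl
    rw [e1, iso_k hk, show l + 1 + 3 * (k 0 / 3) = l + 1 + 3 * z from rfl, mA.add]
  have key : ∀ c m, A m + 3 * z + 1 ≤ m + 3 * c → A 1 + 2 + 3 * z ≤ 3 * c := by
    intro c m hm
    obtain ⟨l, hl⟩ := h c ⟨m - 1, by rw [hB, sub_add_cancel]; omega⟩ 2 le_rfl _ hP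
    simp only [hPl] at hl
    omega
  have m1 : A 1 ≤ A 2 := mA.mono (by norm_num)
  have m0 : A 0 ≤ A 1 := mA.mono (by norm_num)
  have r1 : A 1 % 3 = 1 := by
    by_contra hcon
    have := key ((A 1 + 2) / 3 + z) 1 (by omega)
    omega
  refine ⟨r1, ?_, ?_⟩
  · by_contra hcon
    have := key (A 1 / 3 + z) 2 (by omega)
    omega
  · by_contra hcon
    have := key (A 1 / 3 + z) 0 (by omega)
    omega

/-- a vertex of type 1 -/
lemma iso_w {w : Pf} (hw : ty w = 1) (l : ℤ) :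
    (l % 3 = 2 → glue (E false l) (w 0) = l + 1 + 3 * (w 0 / 3)) ∧
    (l % 3 = 0 → glue (E false l) (w 0) = l + 1 + 3 * (w 0 / 3)) ∧
    (l % 3 = 1 → glue (E false l) (w 0) = l + 3 * (w 0 / 3)) := by
  have h0 : w 0 = 3 * (w 0 / 3) + 1 := by unfold ty at hw; omega
  set z := w 0 / 3
  rw [h0, iso_E]
  obtain ⟨q, hq⟩ := split3 (l + 1)
  rcases hq with h | h | h <;> rw [h]
  · rw [glue01]; omega
  · rw [glue11]; omega
  · rw [glue21]; omega

/-- a vertex which is not critical -/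
lemma iso_x {x : Pf} (hx : ty x ≠ 2) (l : ℤ) : glue (E false l) (x 0) % 3 ≠ 2 := by
  obtain ⟨q, hq⟩ := split3 (l + 1)
  rw [iso_E]
  obtain ⟨z, hz | hz⟩ : ∃ z, x 0 = 3 * z ∨ x 0 = 3 * z + 1 := ⟨x 0 / 3, by
    unfold ty at hx; omega⟩ <;> rw [hz] <;> rcases hq with h | h | h <;> rw [h]
  · rw [glue00]; omega
  · rw [glue10]; omega
  · rw [glue20]; omega
  · rw [glue01]; omega
  · rw [glue11]; omega
  · rw [glue21]; omega

lemma iso_x_eq {x : Pf} (hx : ty x ≠ 2) {l : ℤ} (hl : l % 3 = 0) :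
    glue (E false (l + 1)) (x 0) = glue (E false l) (x 0) := by
  obtain ⟨q, rfl⟩ : ∃ q, l = 3 * q := ⟨l / 3, by omega⟩
  rw [iso_E, iso_E, show 3 * q + 1 + 1 = 3 * q + 2 by ring]
  obtain ⟨z, hz | hz⟩ : ∃ z, x 0 = 3 * z ∨ x 0 = 3 * z + 1 := ⟨x 0 / 3, by
    unfold ty at hx; omega⟩ <;> rw [hz]
  · rw [glue10, glue20]
  · rw [glue11, glue21]

theorem no_before1 {k x w k' : Pf} {xs : List Pf} (hk : ty k = 2) (hx : ty x ≠ 2) (hw : ty w = 1)
    (hk' : ty k' = 2) : ¬ Good (k :: (xs ++ [x, w, k'])) := by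
  intro h
  have h1 := (iso_crit (by simp) hk h).1
  rw [base_append] at h1
  simp only [base] at h1
  set l := base xs 1
  have a := iso_x hx l
  set u := glue (E false l) (x 0)
  obtain ⟨b1, b2, b3⟩ := iso_w hw u
  rw [iso_k hk'] at h1
  omega

theorem no_before2 {k w k1 k2 : Pf} {xs : List Pf} (hk : ty k = 2) (hw : ty w = 1)
    (h1 : ty k1 = 2) (h2 : ty k2 = 2) : ¬ Good (k :: (xs ++ [w, k1, k2])) := by
  intro h
  have h' := (iso_crit (by simp) hk h).1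
  rw [base_append] at h'
  simp only [base] at h'
  set l := base xs 1
  obtain ⟨b1, b2, b3⟩ := iso_w hw l
  rw [iso_k h2, iso_k h1] at h'
  omega

theorem no_before3 {k x w k' w' : Pf} {xs : List Pf} (hk : ty k = 2) (hx : ty x ≠ 2)
    (hw : ty w = 1) (hk' : ty k' = 2) (hw' : ty w' = 1) :
    ¬ Good (k :: (xs ++ [x, w, k', w'])) := by
  intro h
  have h1 := (iso_crit (by simp) hk h).1
  rw [base_append] at h1
  simp only [base] at h1
  set l := base xs 1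
  have a := iso_x hx l
  set u := glue (E false l) (x 0)
  obtain ⟨b1, b2, b3⟩ := iso_w hw u
  rw [iso_k hk'] at h1
  set v := glue (E false u) (w 0) + 1 + 3 * (k' 0 / 3) with hv
  obtain ⟨c1, c2, c3⟩ := iso_w hw' v
  omega

theorem no_after1 {k k' w x : Pf} {xs : List Pf} (hk : ty k = 2) (hk' : ty k' = 2)
    (hw : ty w = 1) (hx : ty x ≠ 2) : ¬ Good (k :: k' :: w :: x :: xs) := by
  intro h
  have h1 := (iso_crit (by simp) hk h).2.1
  simp only [base, iso_k hk'] at h1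
  have e1 := (iso_w hw (1 + 1 + 3 * (k' 0 / 3))).1 (by omega)
  have e2 := (iso_w hw (2 + 1 + 3 * (k' 0 / 3))).2.1 (by omega)
  rw [e1, e2, show 2 + 1 + 3 * (k' 0 / 3) + 1 + 3 * (w 0 / 3) =
    1 + 1 + 3 * (k' 0 / 3) + 1 + 3 * (w 0 / 3) + 1 by ring, iso_x_eq hx (by omega)] at h1
  exact lt_irrefl _ h1

theorem no_after2 {k k1 k2 w : Pf} {xs : List Pf} (hk : ty k = 2) (h1 : ty k1 = 2)
    (h2 : ty k2 = 2) (hw : ty w = 1) : ¬ Good (k :: k1 :: k2 :: w :: xs) := by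
  intro h
  have h' := (iso_crit (by simp) hk h).2.1
  simp only [base, iso_k h1, iso_k h2] at h'
  have e1 := (iso_w hw (1 + 1 + 3 * (k1 0 / 3) + 1 + 3 * (k2 0 / 3))).2.1 (by omega)
  have e2 := (iso_w hw (2 + 1 + 3 * (k1 0 / 3) + 1 + 3 * (k2 0 / 3))).2.2 (by omega)
  rw [e1, e2, show 1 + 1 + 3 * (k1 0 / 3) + 1 + 3 * (k2 0 / 3) + 1 + 3 * (w 0 / 3) =
    2 + 1 + 3 * (k1 0 / 3) + 1 + 3 * (k2 0 / 3) + 3 * (w 0 / 3) by ring] at h'
  exact lt_irrefl _ h'

theorem no_after3 {k w k' w' x : Pf} {xs : List Pf} (hk : ty k = 2) (hw : ty w = 1)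
    (hk' : ty k' = 2) (hw' : ty w' = 1) (hx : ty x ≠ 2) :
    ¬ Good (k :: w :: k' :: w' :: x :: xs) := by
  intro h
  have h1 := (iso_crit (by simp) hk h).2.1
  simp only [base] at h1
  have e1 := (iso_w hw 1).2.2 (by omega)
  have e2 := (iso_w hw 2).1 (by omega)
  rw [e1, e2, iso_k hk', iso_k hk'] at h1
  have f1 := (iso_w hw' (1 + 3 * (w 0 / 3) + 1 + 3 * (k' 0 / 3))).1 (by omega)
  have f2 := (iso_w hw' (2 + 1 + 3 * (w 0 / 3) + 1 + 3 * (k' 0 / 3))).2.2 (by omega)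
  rw [f1, f2, show 2 + 1 + 3 * (w 0 / 3) + 1 + 3 * (k' 0 / 3) + 3 * (w' 0 / 3) =
    1 + 3 * (w 0 / 3) + 1 + 3 * (k' 0 / 3) + 1 + 3 * (w' 0 / 3) + 1 by ring,
    iso_x_eq hx (by omega)] at h1
  exact lt_irrefl _ h1

end Pool.Agent.H44.Cac
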