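import Pool.Agent.H44.Cac.Alg

/-!
Weighted domination on a core `R` of a graph: every vertex `v` of `R` carries a branch of level
`b v`.  Definitions.
-/

namespace Pool.Agent.H44.Cac

open Classical

variable {V : Type*}

/-- cost of a vertex with a branch of level `b`, `s`: the vertex is in the set,
`d`: it has a neighbour in the set -/
noncomputable def cost (b : ℤ) (s d : Prop) : ℤ :=
  if s then (b + 2) / 3 else if d then b / 3 else (b + 1) / 3

/-- cost of the set `S` -/
noncomputable def wc (H : SimpleGraph V) (R : Finset V) (b : V → ℤ) (S : Finset V) : ℤ :=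
  ∑ v ∈ R, cost (b v) (v ∈ S) (∃ u ∈ S, H.Adj u v)

/-- weighted domination number at most `n` -/
def WD (H : SimpleGraph V) (R : Finset V) (b : V → ℤ) (n : ℤ) : Prop :=
  ∃ S ⊆ R, wc H R b S ≤ n

/-- levels along a path `l` (first vertex first) hanging at `v`: the pending level `a` is glued at
the first vertex; returns the level arriving at `v` -/
noncomputable def pr (H : SimpleGraph V) (b : V → ℤ) (v : V) : ℤ → List V → ℤ
  | a, [] => a
  | a, c :: l => pr H b v (E (decide ¬ H.Adj c (l.headD v)) (glue (b c) a)) l

/-- `l` is a path hanging at `v`, outside of `R` -/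
def PathL (H : SimpleGraph V) (R : Finset V) (v : V) : List V → Prop
  | [] => True
  | c :: l => c ∉ R ∧ c ∉ l ∧ (∀ y, y ∈ R ∨ y ∈ l → H.Adj c y → y = l.headD v) ∧ PathL H R v l

/-- a run along a chain of vertices given by (is the edge to the previous vertex missing, level of
the branch) -/
def run : List (Bool × ℤ) → ℤ → ℤ
  | [], l => l
  | x :: xs, l => run xs (glue (E x.1 l) x.2)

/-- closing of a chain at a new vertex: the level of the piece formed by the cycle, `P` the action
of the chain, `e` : is the last edge missing -/
def clo (P : ℤ → ℤ) (e : Bool) : ℤ :=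
  min (E e (P 1)) (min (glue 3 (E e (P 0))) (glue 1 (E e (P 2))))

/-- the list of (edge missing, level) along the vertices `l` after `v` -/
noncomputable def chn (H : SimpleGraph V) (b : V → ℤ) : V → List V → List (Bool × ℤ)
  | _, [] => []
  | v, c :: l => (decide ¬ H.Adj v c, b c) :: chn H b c l

end Pool.Agent.H44.Cac
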