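import Pool.Agent.H44.Cac.Words
import Pool.Agent.H44.Cac.WDomDefs

/-! explicit deletion patterns -/

namespace Pool.Agent.H44.Cac

theorem pt_glue_add (a b k : ℤ) : glue a (b + 3 * k) = glue a b + 3 * k := by
  rw [glue_comm, glue_add, glue_comm]

theorem pt_run_mono : ∀ (xs : List (Bool × ℤ)) {a b : ℤ}, a ≤ b → run xs a ≤ run xs b
  | [], _, _, h => h
  | x :: xs, _, _, h => pt_run_mono xs (glue_mono_left (E_mono x.1 h) x.2)

theorem pt_run_add : ∀ (xs : List (Bool × ℤ)) (l k : ℤ), run xs (l + 3 * k) = run xs l + 3 * k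
  | [], _, _ => rfl
  | x :: xs, l, k => by
    simp only [run]
    rw [E_add, glue_add, pt_run_add xs]

theorem pt_mp_run (xs : List (Bool × ℤ)) : Mp (run xs) :=
  ⟨fun h => pt_run_mono xs h, fun l => by simpa using pt_run_add xs l 1⟩

/-- decision of the value of a closed chain -/
theorem pt_tr_iff {P : ℤ → ℤ} (hP : Mp P) (c : ℤ) :
    Tr P c ↔ P 0 ≤ 3 * c ∨ P 1 ≤ 1 + 3 * c ∨ P 2 ≤ 2 + 3 * c := by
  constructor
  · rintro ⟨l, hl⟩
    obtain ⟨q, rfl | rfl | rfl⟩ := split3 l
    · left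
      have := hP.add 0 q
      rw [zero_add] at this
      omega
    · right; left
      have := hP.add 1 q
      rw [add_comm] at this
      omega
    · right; right
      have := hP.add 2 q
      rw [add_comm] at this
      omega
  · rintro (h | h | h)
    · exact ⟨0, by omega⟩
    · exact ⟨1, h⟩
    · exact ⟨2, h⟩

/-- pattern: (cut, failures, type, relative level after the failures) -/
abbrev Pt := Bool × ℕ × ℤ × ℤ

/-- the pattern fits to the letters -/
def Fit : List Pf → List Pt → Prop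
  | [], [] => True
  | g :: gs, x :: xs => g 0 % 3 = x.2.2.1 ∧ 3 * (g 0 / 3) + x.2.2.2 ≤ g x.2.1 ∧ Fit gs xs
  | _, _ => False

def psum (ps : List Pt) : ℕ := (ps.map (fun x => x.2.1 + if x.1 then 1 else 0)).sum
def pbase (ps : List Pt) : List (Bool × ℤ) := ps.map (fun x => (false, x.2.2.1))
def pfail (ps : List Pt) : List (Bool × ℤ) := ps.map (fun x => (x.1, x.2.2.2))

theorem fit_spec : ∀ (gs : List Pf) (ps : List Pt), Fit gs ps →
    ∃ (F : ℤ) (P : ℤ → ℤ), Fw gs (psum ps) P ∧ (∀ l, base gs l = run (pbase ps) l + 3 * F) ∧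
      (∀ l, run (pfail ps) l + 3 * F ≤ P l)
  | [], [], _ => ⟨0, id, Fw.nil, fun l => by simp [base, pbase, run], fun l => by simp [pfail, run]⟩
  | g :: gs, x :: xs, h => by
    obtain ⟨h1, h2, h3⟩ := h
    obtain ⟨F, P, hP, hb, hf⟩ := fit_spec gs xs h3
    obtain ⟨c, k, t, s⟩ := x
    simp only at h1 h2
    have e0 : g 0 = t + 3 * (g 0 / 3) := by omega
    have hbase : ∀ l, base (g :: gs) l = run (pbase ((c, k, t, s) :: xs)) l + 3 * (g 0 / 3 + F) := by
      intro l
      have : base (g :: gs) l = base gs (glue (E false l) (g 0)) := rfl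
      rw [this, hb]
      have h4 : glue (E false l) (g 0) = glue (E false l) t + 3 * (g 0 / 3) := by
        conv_lhs => rw [e0, pt_glue_add]
      rw [h4, pt_run_add]
      simp only [pbase, List.map_cons, run]
      ring
    have hm : ∀ l b, 3 * (g 0 / 3) + s ≤ b →
        run (pfail ((c, k, t, s) :: xs)) l + 3 * (g 0 / 3 + F) ≤ P (glue (E c l) b) := by
      intro l b hb'
      refine le_trans ?_ (hf _)
      have h5 : glue (E c l) (s + 3 * (g 0 / 3)) ≤ glue (E c l) b := by
        rw [glue_comm _ (s + 3 * (g 0 / 3)), glue_comm _ b]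
        exact glue_mono_left (by omega) _
      rw [pt_glue_add] at h5
      have h6 := pt_run_mono (pfail xs) h5
      rw [pt_run_add] at h6
      have h7 : run (pfail ((c, k, t, s) :: xs)) l = run (pfail xs) (glue (E c l) s) := rfl
      rw [h7]
      linarith
    cases c
    · refine ⟨g 0 / 3 + F, fun l => P (glue (E false l) (g k)), ?_, hbase, fun l => hm l _ h2⟩
      have e : psum ((false, k, t, s) :: xs) = k + psum xs := by simp [psum]
      rw [e]
      exact Fw.cons (Fop.keep k) hP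
    · refine ⟨g 0 / 3 + F, fun l => P (glue (E true l) (g k)), ?_, hbase, fun l => hm l _ h2⟩
      have e : psum ((true, k, t, s) :: xs) = (k + 1) + psum xs := by simp [psum]
      rw [e]
      exact Fw.cons (Fop.cut k) hP
  | [], _ :: _, h => h.elim
  | _ :: _, [], h => h.elim

/-- a pattern of a factor which raises the action by 3 -/
theorem not_good_pat {gs ys : List Pf} (ps : List Pt) (hf : Fit gs ps) (hs : psum ps ≤ 2)
    (h0 : run (pbase ps) 0 + 3 ≤ run (pfail ps) 0) (h1 : run (pbase ps) 1 + 3 ≤ run (pfail ps) 1)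
    (h2 : run (pbase ps) 2 + 3 ≤ run (pfail ps) 2) : ¬ Good (gs ++ ys) := by
  obtain ⟨F, P, hP, hb, hl⟩ := fit_spec gs ps hf
  refine not_good_of_raise hs hP ?_
  intro l
  have := mp_le (pt_mp_run (pbase ps)) (pt_mp_run (pfail ps)) h0 h1 h2 l
  have := hb l
  have := hl l
  omega

/-- a pattern of the whole word which raises the value -/
theorem not_good_tr {gs : List Pf} (ps : List Pt) (hf : Fit gs ps) (hs : psum ps ≤ 2) (c : ℤ)
    (hb : run (pbase ps) 0 ≤ 3 * c ∨ run (pbase ps) 1 ≤ 1 + 3 * c ∨ run (pbase ps) 2 ≤ 2 + 3 * c)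
    (hl : ¬ (run (pfail ps) 0 ≤ 3 * c ∨ run (pfail ps) 1 ≤ 1 + 3 * c ∨
      run (pfail ps) 2 ≤ 2 + 3 * c)) : ¬ Good gs := by
  intro hg
  obtain ⟨F, P, hP, hb', hl'⟩ := fit_spec gs ps hf
  have h1 : Tr (base gs) (c + F) := by
    obtain ⟨l, h⟩ := (pt_tr_iff (pt_mp_run (pbase ps)) c).mpr hb
    exact ⟨l, by rw [hb']; linarith⟩
  obtain ⟨l, h⟩ := hg _ h1 _ hs _ hP
  apply hl
  rw [← pt_tr_iff (pt_mp_run (pfail ps)) c]
  exact ⟨l, by have := hl' l; linarith⟩

end Pool.Agent.H44.Cac
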