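import Pool.Agent.H44.Cac.GoodLoc
import Pool.Agent.H44.Cac.Iso
import Pool.Agent.H44.Cac.AltL
import Pool.Agent.H44.Cac.Pat

/-! a good word has one of the four global shapes -/

namespace Pool.Agent.H44.Cac

theorem gg_ty (g : Pf) : ty g = 0 ∨ ty g = 1 ∨ ty g = 2 := by
  unfold ty; omega

/-- context: a good periodic word -/
structure Gw (p : ℕ → Pf) (n : ℕ) : Prop where
  hn : 3 ≤ n
  per : ∀ i, p (i + n) = p i
  live : ∀ i, Live (p i)
  good : ∀ i, Good (win p i n)
  k0 : ∀ i, ty (p i) = 2 → ty (p (i + 1)) ≠ 0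
  k0' : ∀ i, ty (p i) = 0 → ty (p (i + 1)) ≠ 2

theorem gw_of {p : ℕ → Pf} {n : ℕ} (hn : 3 ≤ n) (hp : ∀ i, p (i + n) = p i)
    (hl : ∀ i, Live (p i)) (h : Good (win p 0 n)) : Gw p n := by
  have hloc := good_loc hn hp hl h
  refine ⟨hn, hp, hl, fun i => (good_win hp 0 i).mp h, ?_, ?_⟩
  · intro i hi
    have e : p (i + n) = p i := hp i
    have h1 := (hloc (i + n - 2)).1
    rw [show i + n - 2 + 2 = i + n by omega, e] at h1
    have h2 := (h1 hi).2
    rwa [show i + n - 2 + 3 = (i + 1) + n by omega, hp] at h2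
  · intro i hi h2
    have h1 := (hloc (i + n - 1)).1
    rw [show i + n - 1 + 2 = (i + 1) + n by omega, hp,
      show i + n - 1 + 1 = i + n by omega, hp] at h1
    exact (h1 h2).1 hi

namespace Gw

variable {p : ℕ → Pf} {n : ℕ}

theorem w1 (G : Gw p n) {i : ℕ} (h : ty (p i) = 2) (h' : ty (p (i + 1)) ≠ 2) :
    ty (p (i + 1)) = 1 := by
  have := G.k0 i h
  have := gg_ty (p (i + 1))
  omega

theorem w1' (G : Gw p n) {i : ℕ} (h : ty (p i) ≠ 2) (h' : ty (p (i + 1)) = 2) :
    ty (p i) = 1 := by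
  have h1 := gg_ty (p i)
  rcases h1 with h1 | h1 | h1
  · exact absurd h' (G.k0' i h1)
  · exact h1
  · exact absurd h1 h

/-- windows of a good word with a forbidden factor -/
theorem no_factor (G : Gw p n) (i m : ℕ) (hm : m ≤ n) (ps : List Pt)
    (hf : Fit (win p i m) ps) (hs : psum ps ≤ 2)
    (h0 : run (pbase ps) 0 + 3 ≤ run (pfail ps) 0) (h1 : run (pbase ps) 1 + 3 ≤ run (pfail ps) 1)
    (h2 : run (pbase ps) 2 + 3 ≤ run (pfail ps) 2) : False := by
  obtain ⟨k, rfl⟩ : ∃ k, n = m + k := ⟨n - m, by omega⟩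
  have := G.good i
  rw [win_add] at this
  exact not_good_pat ps hf hs h0 h1 h2 this

theorem first (G : Gw p n) (i m : ℕ) (hm : m + 1 = n) : Good (p i :: win p (i + 1) m) := by
  have := G.good i
  rwa [← hm, win_succ] at this

/-- no critical pair after (noncritical, type 1) -/
theorem b1 (G : Gw p n) (h4 : 4 ≤ n) (i : ℕ) (hx : ty (p i) ≠ 2) (hw : ty (p (i + 1)) = 1)
    (hk : ty (p (i + 2)) = 2) (hk' : ty (p (i + 3)) = 2) : False := by
  obtain ⟨m, rfl⟩ : ∃ m, n = m + 4 := ⟨n - 4, by omega⟩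
  have h := G.first (i + 3) (m + 3) (by omega)
  rw [win_add, win_succ, win_succ, win_succ, win_zero] at h
  rw [show i + 3 + 1 + m = i + (m + 4) by ring, G.per,
    show i + (m + 4) + 1 = (i + 1) + (m + 4) by ring, G.per,
    show i + 1 + (m + 4) + 1 = (i + 2) + (m + 4) by ring, G.per] at h
  exact no_before1 hk' hx hw hk h

theorem b2 (G : Gw p n) (h4 : 4 ≤ n) (i : ℕ) (hw : ty (p i) = 1) (hk : ty (p (i + 1)) = 2)
    (hk' : ty (p (i + 2)) = 2) (hk'' : ty (p (i + 3)) = 2) : False := by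
  obtain ⟨m, rfl⟩ : ∃ m, n = m + 4 := ⟨n - 4, by omega⟩
  have h := G.first (i + 3) (m + 3) (by omega)
  rw [win_add, win_succ, win_succ, win_succ, win_zero] at h
  rw [show i + 3 + 1 + m = i + (m + 4) by ring, G.per,
    show i + (m + 4) + 1 = (i + 1) + (m + 4) by ring, G.per,
    show i + 1 + (m + 4) + 1 = (i + 2) + (m + 4) by ring, G.per] at h
  exact no_before2 hk'' hw hk hk' h

theorem a1 (G : Gw p n) (h4 : 4 ≤ n) (i : ℕ) (hk : ty (p i) = 2) (hk' : ty (p (i + 1)) = 2)
    (hw : ty (p (i + 2)) = 1) (hx : ty (p (i + 3)) ≠ 2) : False := by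
  obtain ⟨m, rfl⟩ : ∃ m, n = m + 4 := ⟨n - 4, by omega⟩
  have h := G.first i (m + 3) (by omega)
  rw [win_succ, win_succ, win_succ] at h
  exact no_after1 hk hk' hw hx h

theorem a2 (G : Gw p n) (h4 : 4 ≤ n) (i : ℕ) (hk : ty (p i) = 2) (hk' : ty (p (i + 1)) = 2)
    (hk'' : ty (p (i + 2)) = 2) (hw : ty (p (i + 3)) = 1) : False := by
  obtain ⟨m, rfl⟩ : ∃ m, n = m + 4 := ⟨n - 4, by omega⟩
  have h := G.first i (m + 3) (by omega)
  rw [win_succ, win_succ, win_succ] at h
  exact no_after2 hk hk' hk'' hw h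

theorem a3 (G : Gw p n) (h4 : 5 ≤ n) (i : ℕ) (hk : ty (p i) = 2) (hw : ty (p (i + 1)) = 1)
    (hk' : ty (p (i + 2)) = 2) (hw' : ty (p (i + 3)) = 1) (hx : ty (p (i + 4)) ≠ 2) : False := by
  obtain ⟨m, rfl⟩ : ∃ m, n = m + 5 := ⟨n - 5, by omega⟩
  have h := G.first i (m + 4) (by omega)
  rw [win_succ, win_succ, win_succ, win_succ] at h
  exact no_after3 hk hw hk' hw' hx h

theorem perm (G : Gw p n) (i j : ℕ) : p (i + n * j) = p i := by
  induction j with
  | zero => simp
  | succ j ih => rw [Nat.mul_succ, ← Nat.add_assoc, G.per, ih]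

/-- an index beyond any bound with the same letter -/
theorem far (G : Gw p n) (i j : ℕ) : ∃ m, j + m = i + n * j := by
  have := G.hn
  refine ⟨i + n * j - j, ?_⟩
  have : j ≤ n * j := by nlinarith
  omega

/-- if there is a noncritical letter then there are no three critical letters in a row -/
theorem no3 (G : Gw p n) (h4 : 4 ≤ n) (hW : ∃ i, ty (p i) ≠ 2) (i : ℕ) (h0 : ty (p i) = 2)
    (h1 : ty (p (i + 1)) = 2) : ty (p (i + 2)) ≠ 2 := by
  intro h2
  obtain ⟨j, hj⟩ := hW
  obtain ⟨m, hm⟩ := G.far j i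
  have key : ∀ t, ty (p (i + t)) = 2 ∧ ty (p (i + t + 1)) = 2 ∧ ty (p (i + t + 2)) = 2 := by
    intro t
    induction t with
    | zero => exact ⟨h0, h1, h2⟩
    | succ t ih =>
      refine ⟨?_, ?_, ?_⟩
      · rw [show i + (t + 1) = i + t + 1 by ring]; exact ih.2.1
      · rw [show i + (t + 1) + 1 = i + t + 2 by ring]; exact ih.2.2
      · by_contra hc
        rw [show i + (t + 1) + 2 = i + t + 2 + 1 by ring] at hc
        have hw := G.w1 ih.2.2 hc
        exact G.a2 h4 (i + t) ih.1 ih.2.1 ih.2.2 hw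
  have := (key m).1
  rw [hm, G.perm] at this
  exact hj this

/-- action of critical letters -/
theorem base_K (gs : List Pf) (h : ∀ g ∈ gs, ty g = 2) :
    ∃ F : ℤ, ∀ l, base gs l = l + gs.length + 3 * F := by
  induction gs with
  | nil => exact ⟨0, fun l => by simp [base]⟩
  | cons g gs ih =>
    obtain ⟨F, hF⟩ := ih (fun x hx => h x (List.mem_cons_of_mem g hx))
    refine ⟨F + g 0 / 3, fun l => ?_⟩
    have hg : ty g = 2 := h g List.mem_cons_self
    unfold ty at hg
    have e : glue (E false l) (g 0) = l + 1 + 3 * (g 0 / 3) := by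
      have e0 : g 0 = 2 + 3 * (g 0 / 3) := by omega
      conv_lhs => rw [e0, pt_glue_add, glue_comm, glue_two]
      simp [E]
    show base gs (glue (E false l) (g 0)) = _
    rw [e, hF]
    simp only [List.length_cons]
    push_cast
    ring

theorem allK (G : Gw p n) (h : ∀ i, ty (p i) = 2) : AllK p n := by
  refine ⟨h, ?_, ?_⟩
  · have hn := G.hn
    have h1 := G.first 0 (n - 1) (by omega)
    have h2 := iso_crit (by
      intro e
      have := congrArg List.length e
      rw [win_length] at this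
      simp at this
      omega) (h 0) h1
    obtain ⟨F, hF⟩ := base_K (win p (0 + 1) (n - 1)) (by
      intro g hg
      rw [mem_win] at hg
      obtain ⟨j, -, rfl⟩ := hg
      exact h _)
    rw [hF, win_length] at h2
    omega
  · intro i
    by_contra hc
    have a0 := h i
    have a1 := h (i + 1)
    have a2 := h (i + 1 + 1)
    apply G.no_factor i 3 G.hn [(false, 1, 2, 4), (false, 0, 2, 2), (true, 0, 2, 2)]
    · rw [win_succ, win_succ, win_succ, win_zero]
      unfold ty at *
      refine ⟨?_, ?_, ?_, ?_, ?_, ?_, trivial⟩ <;> simp only <;> omega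
    · decide
    · decide
    · decide
    · decide

/-- after (critical, type 1, critical) no two noncritical letters are adjacent, in the case n >= 4 -/
theorem alt_from (G : Gw p n) (h4 : 4 ≤ n) {j : ℕ} (h0 : ty (p j) = 2) (h1 : ty (p (j + 1)) ≠ 2)
    (h2 : ty (p (j + 2)) = 2) (i : ℕ) : ty (p i) = 2 ∨ ty (p (i + 1)) = 2 := by
  have hW : ∃ i, ty (p i) ≠ 2 := ⟨_, h1⟩
  -- propagation
  let Q : ℕ → Prop := fun t => ty (p t) = 2 ∧ ty (p (t + 1)) ≠ 2 ∧ ty (p (t + 2)) = 2
  have step : ∀ t, Q t → Q (t + 2) ∨ Q (t + 3) := by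
    rintro t ⟨q0, q1, q2⟩
    have w1 := G.w1 q0 q1
    by_cases h3 : ty (p (t + 3)) = 2
    · right
      have h5 : ty (p (t + 4)) ≠ 2 := G.no3 h4 hW (t + 2) q2 h3
      have w5 : ty (p (t + 4)) = 1 := G.w1 (i := t + 3) h3 h5
      refine ⟨h3, h5, ?_⟩
      by_contra hc
      exact G.a1 h4 (t + 2) q2 h3 w5 hc
    · left
      have w3 : ty (p (t + 3)) = 1 := G.w1 (i := t + 2) q2 h3
      refine ⟨q2, h3, ?_⟩
      by_contra hc
      rcases Nat.lt_or_ge n 5 with h5 | h5
      · have : n = 4 := by omega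
        subst this
        apply hc
        show ty (p (t + 2 + 2)) = 2
        rw [show t + 2 + 2 = t + 4 by ring, G.per]
        exact q0
      · exact G.a3 h5 t q0 w1 q2 w3 hc
  have key : ∀ m, ∃ t, Q t ∧ (j + m = t ∨ j + m = t + 1 ∨ (j + m = t + 2 ∧ Q (t + 3))) := by
    intro m
    induction m with
    | zero => exact ⟨j, ⟨h0, h1, h2⟩, Or.inl rfl⟩
    | succ m ih =>
      obtain ⟨t, ht, e | e | ⟨e, e'⟩⟩ := ih
      · exact ⟨t, ht, Or.inr (Or.inl (by omega))⟩
      · rcases step t ht with h | h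
        · exact ⟨t + 2, h, Or.inl (by omega)⟩
        · exact ⟨t, ht, Or.inr (Or.inr ⟨by omega, h⟩)⟩
      · exact ⟨t + 3, e', Or.inl (by omega)⟩
  obtain ⟨m, hm⟩ := G.far i j
  have e : p (i + n * j) = p i := G.perm i j
  have e' : p (i + n * j + 1) = p (i + 1) := by
    rw [show i + n * j + 1 = (i + 1) + n * j by ring]; exact G.perm (i + 1) j
  obtain ⟨t, ⟨q0, q1, q2⟩, h | h | ⟨h, -⟩⟩ := key m
  · left; rw [← e, ← hm, h]; exact q0
  · right; rw [← e', ← hm, h]; exact q2
  · left; rw [← e, ← hm, h]; exact q2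

/-- parity -/
theorem alt_odd (G : Gw p n) (h4 : 4 ≤ n)
    (hA : ∀ i, ty (p i) = 2 ∨ ty (p (i + 1)) = 2) {i : ℕ} (hi : ty (p i) ≠ 2) :
    nK p n % 2 = 1 := by
  have hW : ∃ i, ty (p i) ≠ 2 := ⟨_, hi⟩
  have h3 : ∀ i, ty (p i) = 2 → ty (p (i + 1)) = 2 → ty (p (i + 2)) ≠ 2 :=
    fun i a b => G.no3 h4 hW i a b
  have k1 : ty (p (i + 1)) = 2 := by
    rcases hA i with h | h
    · exact absurd h hi
    · exact h
  have hcount := nK_shift G.per (i + 1)
  have hodd : ∀ v : ℤ, psi v % 3 = 1 → v % 2 = 1 := by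
    intro v hv
    unfold psi at hv
    omega
  obtain ⟨m, rfl⟩ : ∃ m, n = m + 4 := ⟨n - 4, by omega⟩
  have hg := G.first (i + 1) (m + 3) (by omega)
  have hiso := (iso_crit (by rw [win_succ]; exact List.cons_ne_nil _ _) k1 hg).1
  rw [Finset.card_filter] at hcount
  by_cases k2 : ty (p (i + 2)) = 2
  · have k3 : ty (p (i + 3)) ≠ 2 := h3 (i + 1) k1 k2
    have w3 : ty (p (i + 3)) = 1 := G.w1 (i := i + 2) k2 k3
    obtain ⟨N, hN, hpar⟩ := altL_win (C1 := fun _ => True) (C2 := fun _ _ => True) hA h3 G.k0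
      (fun _ _ _ _ => trivial) (fun _ _ _ => trivial) (m + 1) (i + 3) k3 (by
        rw [show i + 3 + (m + 1) = i + (m + 4) by ring, G.per]; exact hi)
    rw [Finset.card_filter] at hpar
    have e : base (win p (i + 1 + 1) (m + 3)) 1 =
        psi (2 * (1 + p (i + 2) 0 / 3 + p (i + 3) 0 / 3) + N) := by
      rw [show m + 3 = (m + 1) + 2 by ring, win_succ, win_succ]
      show base (win p (i + 1 + 1 + 1 + 1) (m + 1))
        (glue (E false (glue (E false 1) (p (i + 1 + 1) 0))) (p (i + 1 + 1 + 1) 0)) = _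
      rw [show i + 1 + 1 + 1 + 1 = i + 3 + 1 by ring, show i + 1 + 1 + 1 = i + 3 by ring,
        show i + 1 + 1 = i + 2 by ring, ← altL_base hN]
      congr 1
      rw [psi_even]
      unfold ty at k2 w3
      have e2 : E false 1 = 2 := rfl
      have e3 : E false (p (i + 2) 0) = 3 * (1 + p (i + 2) 0 / 3) := by
        simp only [E]; simp; omega
      have e4 : p (i + 3) 0 = 3 * (p (i + 3) 0 / 3) + 1 := by omega
      rw [e2, glue_two, e3]
      conv_lhs => rw [e4, glue01]
    rw [e] at hiso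
    have h5 := hodd _ hiso
    have hc : nK p (m + 4) = 2 + ∑ j ∈ Finset.range (m + 1),
        (if ty (p (i + 3 + 1 + j)) = 2 then 1 else 0) := by
      rw [← hcount, show m + 4 = (m + 1) + 1 + 1 + 1 by ring, Finset.sum_range_succ',
        Finset.sum_range_succ', Finset.sum_range_succ']
      have e1 : ∀ j, i + 1 + (j + 1 + 1 + 1) = i + 3 + 1 + j := fun j => by ring
      simp only [e1]
      rw [show i + 1 + (0 + 1 + 1) = i + 3 by ring, show i + 1 + (0 + 1) = i + 2 by ring,
        show i + 1 + 0 = i + 1 by ring, if_neg k3, if_pos k2, if_pos k1]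
      ring
    push_cast at hpar
    rw [hc]
    zify
    push_cast
    omega
  · have w2 : ty (p (i + 2)) = 1 := G.w1 (i := i + 1) k1 k2
    obtain ⟨N, hN, hpar⟩ := altL_win (C1 := fun _ => True) (C2 := fun _ _ => True) hA h3 G.k0
      (fun _ _ _ _ => trivial) (fun _ _ _ => trivial) (m + 2) (i + 2) k2 (by
        rw [show i + 2 + (m + 2) = i + (m + 4) by ring, G.per]; exact hi)
    rw [Finset.card_filter] at hpar
    have e : base (win p (i + 1 + 1) (m + 3)) 1 = psi (2 * (p (i + 2) 0 / 3) + 1 + N) := by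
      rw [show m + 3 = (m + 2) + 1 by ring, win_succ]
      show base (win p (i + 1 + 1 + 1) (m + 2)) (glue (E false 1) (p (i + 1 + 1) 0)) = _
      rw [show i + 1 + 1 + 1 = i + 2 + 1 by ring,
        show i + 1 + 1 = i + 2 by ring, ← altL_base hN]
      congr 1
      rw [psi_odd]
      unfold ty at w2
      have e2 : E false 1 = 2 := rfl
      rw [e2, glue_two]
      omega
    rw [e] at hiso
    have h5 := hodd _ hiso
    have hc : nK p (m + 4) = 1 + ∑ j ∈ Finset.range (m + 2),
        (if ty (p (i + 2 + 1 + j)) = 2 then 1 else 0) := by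
      rw [← hcount, show m + 4 = (m + 2) + 1 + 1 by ring, Finset.sum_range_succ',
        Finset.sum_range_succ']
      have e1 : ∀ j, i + 1 + (j + 1 + 1) = i + 2 + 1 + j := fun j => by ring
      simp only [e1]
      rw [show i + 1 + (0 + 1) = i + 2 by ring,
        show i + 1 + 0 = i + 1 by ring, if_neg k2, if_pos k1]
      ring
    push_cast at hpar
    rw [hc]
    zify
    push_cast
    omega

/-- a single critical letter in an alternating word -/
theorem alt_single (G : Gw p n) (h4 : 4 ≤ n) (j : ℕ) (h0 : ty (p j) = 2)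
    (h1 : ty (p (j + 1)) = 1) (h2 : ty (p (j + 2)) = 2) (h3 : ty (p (j + 3)) = 1) :
    p (j + 2) 1 ≤ p (j + 2) 0 := by
  by_contra hc
  apply G.no_factor j 4 h4 [(true, 0, 2, 2), (false, 0, 1, 1), (false, 1, 2, 3), (false, 0, 1, 1)]
  · rw [win_succ, win_succ, win_succ, win_succ, win_zero]
    rw [show j + 1 + 1 = j + 2 by ring, show j + 2 + 1 = j + 3 by ring]
    unfold ty at *
    refine ⟨?_, ?_, ?_, ?_, ?_, ?_, ?_, ?_, trivial⟩ <;> simp only <;> omega
  · decide
  · decide
  · decide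
  · decide

/-- a pair of critical letters in an alternating word -/
theorem alt_pair (G : Gw p n) (h5 : 5 ≤ n) (j : ℕ) (h0 : ty (p j) = 1)
    (h1 : ty (p (j + 1)) = 2) (h2 : ty (p (j + 2)) = 2) (h3 : ty (p (j + 3)) = 1)
    (h4 : ty (p (j + 4)) = 2) :
    p (j + 1) 1 + p (j + 2) 1 ≤ p (j + 1) 0 + p (j + 2) 0 + 1 := by
  by_contra hc
  have l1 := (G.live (j + 1)).le1
  have l2 := (G.live (j + 2)).le1
  rcases (by omega : (p (j + 1) 0 + 1 ≤ p (j + 1) 1 ∧ p (j + 2) 0 + 1 ≤ p (j + 2) 1) ∨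
      p (j + 1) 0 + 2 ≤ p (j + 1) 1 ∨ p (j + 2) 0 + 2 ≤ p (j + 2) 1) with h | h | h
  · apply G.no_factor j 4 (by omega)
      [(false, 0, 1, 1), (false, 1, 2, 3), (false, 1, 2, 3), (false, 0, 1, 1)]
    · rw [win_succ, win_succ, win_succ, win_succ, win_zero]
      rw [show j + 1 + 1 = j + 2 by ring, show j + 2 + 1 = j + 3 by ring]
      unfold ty at *
      refine ⟨?_, ?_, ?_, ?_, ?_, ?_, ?_, ?_, trivial⟩ <;> simp only <;> omega
    · decide
    · decide
    · decide
    · decide
  · apply G.no_factor j 5 h5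
      [(false, 0, 1, 1), (false, 1, 2, 4), (false, 0, 2, 2), (false, 0, 1, 1), (true, 0, 2, 2)]
    · rw [win_succ, win_succ, win_succ, win_succ, win_succ, win_zero]
      rw [show j + 1 + 1 = j + 2 by ring, show j + 2 + 1 = j + 3 by ring,
        show j + 3 + 1 = j + 4 by ring]
      unfold ty at *
      refine ⟨?_, ?_, ?_, ?_, ?_, ?_, ?_, ?_, ?_, ?_, trivial⟩ <;> simp only <;> omega
    · decide
    · decide
    · decide
    · decide
  · apply G.no_factor j 4 (by omega)
      [(true, 0, 1, 1), (false, 0, 2, 2), (false, 1, 2, 4), (false, 0, 1, 1)]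
    · rw [win_succ, win_succ, win_succ, win_succ, win_zero]
      rw [show j + 1 + 1 = j + 2 by ring, show j + 2 + 1 = j + 3 by ring]
      unfold ty at *
      refine ⟨?_, ?_, ?_, ?_, ?_, ?_, ?_, ?_, trivial⟩ <;> simp only <;> omega
    · decide
    · decide
    · decide
    · decide

theorem alt (G : Gw p n) (h4 : 4 ≤ n) (hA : ∀ i, ty (p i) = 2 ∨ ty (p (i + 1)) = 2)
    (hW : ∃ i, ty (p i) ≠ 2) : Alt p n := by
  have h3 : ∀ i, ty (p i) = 2 → ty (p (i + 1)) = 2 → ty (p (i + 2)) ≠ 2 :=
    fun i a b => G.no3 h4 hW i a b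
  obtain ⟨i0, hi0⟩ := hW
  refine ⟨⟨i0, hi0⟩, hA, h3, G.alt_odd h4 hA hi0, ?_, ?_⟩
  · intro i a b c
    obtain ⟨m, hm⟩ : ∃ m, m + 1 = i + n := ⟨i + n - 1, by omega⟩
    have e1 : p (m + 1) = p i := by rw [hm, G.per]
    have e2 : p (m + 2) = p (i + 1) := by
      rw [show m + 2 = (i + 1) + n by omega, G.per]
    have e3 : p (m + 3) = p (i + 2) := by
      rw [show m + 3 = (i + 2) + n by omega, G.per]
    have k0 : ty (p m) = 2 := by
      rcases hA m with h | h
      · exact h
      · rw [e1] at h; exact absurd h a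
    have := G.alt_single h4 m k0 (by rw [e1]; exact G.w1' a b) (by rw [e2]; exact b)
      (by rw [e3]; exact G.w1 b c)
    rwa [e2] at this
  · intro i a b
    obtain ⟨m, hm⟩ : ∃ m, m + 1 = i + n := ⟨i + n - 1, by omega⟩
    have e1 : p (m + 1) = p i := by rw [hm, G.per]
    have e2 : p (m + 2) = p (i + 1) := by
      rw [show m + 2 = (i + 1) + n by omega, G.per]
    have e3 : p (m + 3) = p (i + 2) := by
      rw [show m + 3 = (i + 2) + n by omega, G.per]
    have e4 : p (m + 4) = p (i + 3) := by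
      rw [show m + 4 = (i + 3) + n by omega, G.per]
    have c : ty (p (i + 2)) ≠ 2 := h3 i a b
    have k0 : ty (p m) ≠ 2 := by
      intro h
      have := h3 m h (by rw [e1]; exact a)
      rw [e2] at this
      exact this b
    have k4 : ty (p (i + 3)) = 2 := by
      rcases hA (i + 2) with h | h
      · exact absurd h c
      · exact h
    have h5 : 5 ≤ n := by
      by_contra hc
      have : n = 4 := by omega
      subst this
      have e5 : p (m + 4) = p m := G.per m
      rw [e4] at e5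
      rw [e5] at k4
      exact k0 k4
    have := G.alt_pair h5 m (by apply G.w1' k0; rw [e1]; exact a) (by rw [e1]; exact a)
      (by rw [e2]; exact b) (by rw [e3]; exact G.w1 (i := i + 1) b c) (by rw [e4]; exact k4)
    rwa [e1, e2] at this

/-- the exceptions of spread words -/
theorem spr (G : Gw p n) (hK : ∃ i, ty (p i) = 2)
    (hS : ∀ i, ty (p i) = 2 → ty (p (i + 1)) ≠ 2 ∧ ty (p (i + 2)) ≠ 2) : Spr p n := by
  refine ⟨hK, hS, fun _ i hi => ⟨?_, ?_, ?_⟩⟩
  · rintro rfl
    have w1 := G.w1 hi (hS i hi).1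
    have w2 : ty (p (i + 2)) = 1 := by
      apply G.w1' (i := i + 2) (hS i hi).2
      rw [show i + 2 + 1 = i + 3 by ring, G.per]
      exact hi
    by_contra hc
    push Not at hc
    obtain ⟨c1, c2⟩ := hc
    have hg := G.good i
    rw [win_succ, win_succ, win_succ, win_zero, show i + 1 + 1 = i + 2 by ring] at hg
    by_cases h : cT (p (i + 1)) = 2
    · have h' := c2 h
      have h2 : p (i + 2) 0 + 1 ≤ p (i + 2) 1 := by
        unfold cT at h'
        by_contra hc
        rw [if_pos (by omega)] at h'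
        exact h' rfl
      refine not_good_tr [(false, 1, 2, 4), (false, 0, 1, 1), (false, 1, 1, 2)] ?_ (by decide) 1
        (by decide) (by decide) hg
      unfold ty at *
      refine ⟨?_, ?_, ?_, ?_, ?_, ?_, trivial⟩ <;> simp only <;> omega
    · have h2 : p (i + 1) 0 + 1 ≤ p (i + 1) 1 := by
        unfold cT at h
        by_contra hc
        rw [if_pos (by omega)] at h
        exact h rfl
      refine not_good_tr [(false, 1, 2, 4), (false, 1, 1, 2), (false, 0, 1, 1)] ?_ (by decide) 1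
        (by decide) (by decide) hg
      unfold ty at *
      refine ⟨?_, ?_, ?_, ?_, ?_, ?_, trivial⟩ <;> simp only <;> omega
  · rintro rfl
    have w1 := G.w1 hi (hS i hi).1
    have n3 : ty (p (i + 3)) ≠ 2 := by
      intro h
      have := (hS (i + 3) h).1
      rw [show i + 3 + 1 = i + 4 by ring, G.per] at this
      exact this hi
    have w3 : ty (p (i + 3)) = 1 := by
      apply G.w1' (i := i + 3) n3
      rw [show i + 3 + 1 = i + 4 by ring, G.per]
      exact hi
    by_contra hc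
    push Not at hc
    obtain ⟨c1, c2⟩ := hc
    have hg := G.good i
    rw [win_succ, win_succ, win_succ, win_succ, win_zero, show i + 1 + 1 = i + 2 by ring,
      show i + 2 + 1 = i + 3 by ring] at hg
    have l1 := (G.live (i + 2)).le1
    have l2 := (G.live (i + 2)).le2
    rcases gg_ty (p (i + 2)) with t | t | t
    · have h2 : p (i + 2) 0 + 2 ≤ p (i + 2) 1 := by
        unfold cX cS at c2
        rw [if_pos t] at c2
        split_ifs at c2 <;> omega
      refine not_good_tr [(false, 1, 2, 3), (false, 0, 1, 1), (false, 1, 0, 2), (false, 0, 1, 1)]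
        ?_ (by decide) 1 (by decide) (by decide) hg
      unfold ty at *
      refine ⟨?_, ?_, ?_, ?_, ?_, ?_, ?_, ?_, trivial⟩ <;> simp only <;> omega
    · have h2 : p (i + 2) 0 + 1 ≤ p (i + 2) 1 := by
        unfold cX cN at c2
        rw [if_neg (by omega), if_neg (by omega)] at c2
        split_ifs at c2 <;> omega
      refine not_good_tr [(false, 1, 2, 3), (false, 0, 1, 1), (false, 1, 1, 2), (false, 0, 1, 1)]
        ?_ (by decide) 1 (by decide) (by decide) hg
      unfold ty at *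
      refine ⟨?_, ?_, ?_, ?_, ?_, ?_, ?_, ?_, trivial⟩ <;> simp only <;> omega
    · exact (hS i hi).2 t
  · rintro rfl ⟨t2, t3, s2, s3⟩
    have w1 := G.w1 hi (hS i hi).1
    have n4 : ty (p (i + 4)) ≠ 2 := by
      intro h
      have := (hS (i + 4) h).1
      rw [show i + 4 + 1 = i + 5 by ring, G.per] at this
      exact this hi
    have w4 : ty (p (i + 4)) = 1 := by
      apply G.w1' (i := i + 4) n4
      rw [show i + 4 + 1 = i + 5 by ring, G.per]
      exact hi
    have hg := G.good i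
    rw [win_succ, win_succ, win_succ, win_succ, win_succ, win_zero, show i + 1 + 1 = i + 2 by ring,
      show i + 2 + 1 = i + 3 by ring, show i + 3 + 1 = i + 4 by ring] at hg
    have l1 := (G.live (i + 2)).le2
    have l2 := (G.live (i + 3)).le2
    have h2 : p (i + 2) 0 + 2 ≤ p (i + 2) 1 := by
      unfold cS at s2
      split_ifs at s2 <;> omega
    have h3 : p (i + 3) 0 + 2 ≤ p (i + 3) 1 := by
      unfold cS at s3
      split_ifs at s3 <;> omega
    refine not_good_tr [(false, 0, 2, 2), (false, 0, 1, 1), (false, 1, 0, 2), (false, 1, 0, 2),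
      (false, 0, 1, 1)] ?_ (by decide) 1 (by decide) (by decide) hg
    unfold ty at *
    refine ⟨?_, ?_, ?_, ?_, ?_, ?_, ?_, ?_, ?_, ?_, trivial⟩ <;> simp only <;> omega

/-- n = 3: no two adjacent critical letters -/
theorem no_pair3 (G : Gw p n) (h3 : n = 3) (hW : ∃ i, ty (p i) ≠ 2) (i : ℕ)
    (h0 : ty (p i) = 2) : ty (p (i + 1)) ≠ 2 := by
  subst h3
  intro h1
  by_cases h2 : ty (p (i + 2)) = 2
  · obtain ⟨j, hj⟩ := hW
    obtain ⟨m, hm⟩ := G.far j i
    have key : ∀ t, ty (p (i + t)) = 2 ∧ ty (p (i + t + 1)) = 2 ∧ ty (p (i + t + 2)) = 2 := by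
      intro t
      induction t with
      | zero => exact ⟨h0, h1, h2⟩
      | succ t ih =>
        refine ⟨?_, ?_, ?_⟩
        · rw [show i + (t + 1) = i + t + 1 by ring]; exact ih.2.1
        · rw [show i + (t + 1) + 1 = i + t + 2 by ring]; exact ih.2.2
        · rw [show i + (t + 1) + 2 = i + t + 3 by ring, G.per]; exact ih.1
    have := (key m).1
    rw [hm, G.perm] at this
    exact hj this
  · have w2 := G.w1 (i := i + 1) h1 h2
    have hg := G.good i
    rw [win_succ, win_succ, win_succ, win_zero] at hg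
    refine not_good_tr [(true, 0, 2, 2), (true, 0, 2, 2), (false, 0, 1, 1)] ?_ (by decide) 1
      (by decide) (by decide) hg
    rw [show i + 1 + 1 = i + 2 by ring] at *
    unfold ty at *
    refine ⟨?_, ?_, ?_, ?_, ?_, ?_, trivial⟩ <;> simp only <;> omega

end Gw

theorem good_glob {p : ℕ → Pf} {n : ℕ} (hn : 3 ≤ n) (hp : ∀ i, p (i + n) = p i)
    (hl : ∀ i, Live (p i)) (h : Good (win p 0 n)) : AllK p n ∨ AllW p ∨ Alt p n ∨ Spr p n := by
  have G := gw_of hn hp hl h
  by_cases hW : ∃ i, ty (p i) ≠ 2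
  swap
  · push Not at hW
    exact Or.inl (G.allK hW)
  by_cases hK : ∃ i, ty (p i) = 2
  swap
  · push Not at hK
    exact Or.inr (Or.inl hK)
  rcases Nat.lt_or_ge n 4 with h4 | h4
  · have h3 : n = 3 := by omega
    right; right; right
    apply G.spr hK
    intro i hi
    refine ⟨G.no_pair3 h3 hW i hi, fun h2 => ?_⟩
    have := G.no_pair3 h3 hW (i + 2) h2
    apply this
    subst h3
    rw [show i + 2 + 1 = i + 3 by ring, hp]
    exact hi
  · by_cases hA : ∃ j, ty (p j) = 2 ∧ ty (p (j + 1)) ≠ 2 ∧ ty (p (j + 2)) = 2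
    · obtain ⟨j, h0, h1, h2⟩ := hA
      exact Or.inr (Or.inr (Or.inl (G.alt h4 (G.alt_from h4 h0 h1 h2) hW)))
    · push Not at hA
      have hKK : ∀ i, ty (p i) = 2 → ty (p (i + 1)) ≠ 2 := by
        intro i a b
        obtain ⟨m, hm⟩ : ∃ m, m + 2 = i + n := ⟨i + n - 2, by omega⟩
        have e2 : p (m + 2) = p i := by rw [hm, G.per]
        have e3 : p (m + 3) = p (i + 1) := by
          rw [show m + 3 = (i + 1) + n by omega, G.per]
        have e4 : p (m + 4) = p (i + 2) := by
          rw [show m + 4 = (i + 2) + n by omega, G.per]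
        have w1 : ty (p (m + 1)) ≠ 2 := by
          intro hc
          have := G.no3 h4 hW (m + 1) hc (by rw [show m + 1 + 1 = m + 2 by ring, e2]; exact a)
          apply this
          rw [show m + 1 + 2 = m + 3 by ring, e3]
          exact b
        have w0 : ty (p m) ≠ 2 := by
          intro hc
          exact hA m hc w1 (by rw [e2]; exact a)
        have t1 : ty (p (m + 1)) = 1 := by
          apply G.w1' w1
          rw [show m + 1 + 1 = m + 2 by ring, e2]
          exact a
        exact G.b1 h4 m w0 t1 (by rw [e2]; exact a) (by rw [e3]; exact b)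
      right; right; right
      apply G.spr hK
      intro i hi
      exact ⟨hKK i hi, hA i hi (hKK i hi)⟩

end Pool.Agent.H44.Cac
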