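import Pool.Agent.H44.Cac.Words

namespace Pool.Agent.H44.Cac

/-- critical letters which rise by at most one with one deletion -/
def raCrit (g : Pf) : Prop := ty g = 2 ∧ Live g ∧ g 1 ≤ g 0 + 1

/-- the shift of a list of critical letters -/
def raSh : List Pf → ℤ
  | [] => 0
  | g :: gs => (1 + 3 * (g 0 / 3)) + raSh gs

/-- the bounds for the action with `j` deletions, total shift `N` -/
def raB (j : ℕ) (N : ℤ) (P : ℤ → ℤ) : Prop :=
  (j = 0 → ∀ l, P l = l + N) ∧
  (j = 1 → (∀ l, P l ≤ l + N + 2) ∧ ∃ l, P l ≤ l + N) ∧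
  (j = 2 → ∃ l, P l ≤ l + N + 2)

lemma ra_keep0 {z : ℤ} (l : ℤ) : glue (E false l) (3 * z + 2) = l + (1 + 3 * z) := by
  obtain ⟨q, hq⟩ := split3 (l + 1)
  have hE : E false l = l + 1 := by simp [E]
  rw [hE]
  rcases hq with h | h | h <;> rw [h]
  · rw [glue02]; omega
  · rw [glue12]; omega
  · rw [glue22]; omega

lemma ra_keep1 {z : ℤ} (l : ℤ) : glue (E false l) (3 * (z + 1)) ≤ l + (1 + 3 * z) + 2 := by
  obtain ⟨q, hq⟩ := split3 (l + 1)
  have hE : E false l = l + 1 := by simp [E]
  rw [hE]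
  rcases hq with h | h | h <;> rw [h]
  · rw [glue00]; omega
  · rw [glue10]; omega
  · rw [glue20]; omega

lemma ra_keep1' {z : ℤ} : glue (E false (-1)) (3 * (z + 1)) ≤ -1 + (1 + 3 * z) := by
  have hE : E false (-1) = 3 * 0 := by simp [E]
  rw [hE, glue00]; omega

lemma ra_cut0 {z : ℤ} (l : ℤ) : glue (E true l) (3 * z + 2) ≤ l + (1 + 3 * z) + 2 := by
  have hE : E true l = 3 * ((l + 1) / 3) + 2 := by simp [E]
  rw [hE, glue22]; omega

lemma ra_cut0' {z : ℤ} : glue (E true 1) (3 * z + 2) ≤ 1 + (1 + 3 * z) := by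
  have hE : E true 1 = 3 * 0 + 2 := by simp [E]
  rw [hE, glue22]; omega

lemma ra_keep2 {z : ℤ} : glue (E false 1) (3 * (z + 1) + 1) ≤ 1 + (1 + 3 * z) + 2 := by
  have hE : E false 1 = 3 * 0 + 2 := by simp [E]
  rw [hE, glue21]; omega

lemma ra_cut1 {z : ℤ} : glue (E true 1) (3 * (z + 1)) ≤ 1 + (1 + 3 * z) + 2 := by
  have hE : E true 1 = 3 * 0 + 2 := by simp [E]
  rw [hE, glue20]; omega

lemma ra_fop {g : Pf} (hg : raCrit g) {i : ℕ} (hi : i ≤ 2) {P : ℤ → ℤ} (h : Fop g i P) :
    raB i (1 + 3 * (g 0 / 3)) P := by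
  obtain ⟨ht, hl, h1⟩ := hg
  set z := g 0 / 3 with hz
  have h0 : g 0 = 3 * z + 2 := by unfold ty at ht; omega
  have h1' : g 1 ≤ 3 * (z + 1) := by omega
  have h2' : g 2 ≤ 3 * (z + 1) + 1 := by have := hl.le3; omega
  cases h with
  | keep i =>
    refine ⟨?_, ?_, ?_⟩
    · rintro rfl l
      simp only [h0]
      exact ra_keep0 l
    · rintro rfl
      exact ⟨fun l => (glue_mono le_rfl h1').trans (ra_keep1 l), -1,
        (glue_mono le_rfl h1').trans ra_keep1'⟩
    · rintro rfl
      exact ⟨1, (glue_mono le_rfl h2').trans ra_keep2⟩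
  | cut i =>
    refine ⟨by omega, ?_, ?_⟩
    · intro hi1
      obtain rfl : i = 0 := by omega
      simp only [h0]
      exact ⟨fun l => ra_cut0 l, 1, ra_cut0'⟩
    · intro hi1
      obtain rfl : i = 1 := by omega
      exact ⟨1, (glue_mono le_rfl h1').trans ra_cut1⟩

lemma ra_fw {gs : List Pf} (hgs : ∀ g ∈ gs, raCrit g) {j : ℕ} {P : ℤ → ℤ} (h : Fw gs j P) :
    j ≤ 2 → raB j (raSh gs) P := by
  induction h with
  | nil =>
    intro _
    refine ⟨fun _ l => ?_, by omega, by omega⟩
    simp [raSh]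
  | @cons g gs i j P Q h1 h2 ih =>
    intro hij
    have hQ := ih (fun g hg => hgs g (List.mem_cons_of_mem _ hg)) (by omega)
    have hP := ra_fop (hgs g List.mem_cons_self) (by omega) h1
    have mQ := h2.mp
    set s : ℤ := 1 + 3 * (g 0 / 3) with hs
    set N := raSh gs with hN
    have hsh : raSh (g :: gs) = s + N := rfl
    rw [hsh]
    obtain ⟨P0, P1, P2⟩ := hP
    obtain ⟨Q0, Q1, Q2⟩ := hQ
    refine ⟨?_, ?_, ?_⟩
    · intro h l
      have e1 := P0 (by omega) l
      have e2 := Q0 (by omega) (P l)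
      simp only []
      omega
    · intro h
      rcases Nat.eq_zero_or_pos i with rfl | hi
      · have e1 := P0 rfl
        obtain ⟨q1, l, q2⟩ := Q1 (by omega)
        refine ⟨fun l => ?_, l - s, ?_⟩
        · simp only []
          have := q1 (P l)
          have := e1 l
          omega
        · simp only []
          have := e1 (l - s)
          rw [show P (l - s) = l by omega]
          omega
      · have e2 := Q0 (by omega)
        obtain ⟨p1, l, p2⟩ := P1 (by omega)
        refine ⟨fun l => ?_, l, ?_⟩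
        · simp only []
          have := p1 l
          have := e2 (P l)
          omega
        · simp only []
          have := e2 (P l)
          omega
    · intro h
      rcases Nat.eq_zero_or_pos i with rfl | hi
      · have e1 := P0 rfl
        obtain ⟨l, q2⟩ := Q2 (by omega)
        refine ⟨l - s, ?_⟩
        simp only []
        have := e1 (l - s)
        rw [show P (l - s) = l by omega]
        omega
      · rcases Nat.eq_zero_or_pos j with rfl | hj
        · have e2 := Q0 rfl
          obtain ⟨l, p2⟩ := P2 (by omega)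
          refine ⟨l, ?_⟩
          simp only []
          have := e2 (P l)
          omega
        · obtain ⟨p1, l, p2⟩ := P1 (by omega)
          obtain ⟨q1, _⟩ := Q1 (by omega)
          refine ⟨l, ?_⟩
          simp only []
          have h3 := mQ.mono p2
          have := q1 (l + s)
          omega

lemma ra_mod (gs : List Pf) : raSh gs % 3 = (gs.length : ℤ) % 3 := by
  induction gs with
  | nil => simp [raSh]
  | cons g gs ih =>
    simp only [raSh, List.length_cons]
    push_cast
    omega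

theorem allK_good {p : ℕ → Pf} {n : ℕ} (hn : 3 ≤ n) (hp : ∀ i, p (i + n) = p i)
    (hl : ∀ i, Live (p i)) (h : AllK p n) : Good (win p 0 n) := by
  obtain ⟨hk, hn3, h1⟩ := h
  intro c hc k hk2 P hP
  have hcrit : ∀ g ∈ win p 0 n, raCrit g := by
    intro g hg
    obtain ⟨j, _, rfl⟩ := mem_win.1 hg
    exact ⟨hk _, hl _, h1 _⟩
  obtain ⟨B0, -, -⟩ := ra_fw hcrit (Fw.base (win p 0 n)) (by omega)
  obtain ⟨P0, P1, P2⟩ := ra_fw hcrit hP hk2
  have hm := ra_mod (win p 0 n)
  rw [win_length] at hm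
  obtain ⟨l, hl'⟩ := hc
  rw [B0 rfl l] at hl'
  have hN : raSh (win p 0 n) + 2 ≤ 3 * c := by omega
  interval_cases k
  · exact ⟨0, by rw [P0 rfl]; omega⟩
  · obtain ⟨_, l, hl⟩ := P1 rfl
    exact ⟨l, by omega⟩
  · obtain ⟨l, hl⟩ := P2 rfl
    exact ⟨l, by omega⟩

end Pool.Agent.H44.Cac
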