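import Pool.Agent.H44.Cac.AltL
import Pool.Agent.H44.Cac.WDomDefs

/-! alternating words are good -/

namespace Pool.Agent.H44.Cac

/-- bounds for the operations of a letter with data `(t, r1, r2)`: type, largest raises by one and
two deletions -/
def ralOps (x : ℤ × ℤ × ℤ) : ℕ → List (Bool × ℤ)
  | 0 => [(false, x.1)]
  | 1 => [(false, x.1 + x.2.1), (true, x.1)]
  | 2 => [(false, x.1 + x.2.2), (true, x.1 + x.2.1)]
  | _ => []

/-- all sequences of operations -/
def ralSeqs : List (ℤ × ℤ × ℤ) → ℕ → List (List (Bool × ℤ))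
  | [], 0 => [[]]
  | [], _ + 1 => []
  | x :: xs, j => (List.range (j + 1)).flatMap fun i =>
      (ralOps x i).flatMap fun o => (ralSeqs xs (j - i)).map fun s => o :: s

/-- the letter `g` with floor `z` has data `x` -/
structure RalB (g : Pf) (z : ℤ) (x : ℤ × ℤ × ℤ) : Prop where
  h0 : g 0 = 3 * z + x.1
  h1 : g 1 ≤ g 0 + x.2.1
  h2 : g 2 ≤ g 0 + x.2.2

theorem ral_glue_right (a b k : ℤ) : glue a (b + 3 * k) = glue a b + 3 * k := by
  rw [glue_comm a (b + 3 * k), glue_add, glue_comm]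

theorem ral_fop {g : Pf} {z : ℤ} {x : ℤ × ℤ × ℤ} (hb : RalB g z x) {j : ℕ} (hj : j ≤ 2)
    {P : ℤ → ℤ} (h : Fop g j P) :
    ∃ o ∈ ralOps x j, ∀ l, P l ≤ glue (E o.1 l) o.2 + 3 * z := by
  obtain ⟨h0, h1, h2⟩ := hb
  cases h with
  | keep i =>
    have hj' : j = 0 ∨ j = 1 ∨ j = 2 := by omega
    rcases hj' with rfl | rfl | rfl
    · refine ⟨(false, x.1), by simp [ralOps], fun l => ?_⟩
      rw [← ral_glue_right]
      exact glue_mono le_rfl (by simp only; omega)
    · refine ⟨(false, x.1 + x.2.1), by simp [ralOps], fun l => ?_⟩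
      rw [← ral_glue_right]
      exact glue_mono le_rfl (by simp only; omega)
    · refine ⟨(false, x.1 + x.2.2), by simp [ralOps], fun l => ?_⟩
      rw [← ral_glue_right]
      exact glue_mono le_rfl (by simp only; omega)
  | cut i =>
    have hj' : i = 0 ∨ i = 1 := by omega
    rcases hj' with rfl | rfl
    · refine ⟨(true, x.1), by simp [ralOps], fun l => ?_⟩
      rw [← ral_glue_right]
      exact glue_mono le_rfl (by simp only; omega)
    · refine ⟨(true, x.1 + x.2.1), by simp [ralOps], fun l => ?_⟩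
      rw [← ral_glue_right]
      exact glue_mono le_rfl (by simp only; omega)

theorem ral_run_mp (s : List (Bool × ℤ)) : Mp (run s) := by
  induction s with
  | nil => exact mp_id
  | cons o s ih => exact ih.comp ((mp_glue o.2).comp (mp_E o.1))

/-- lists of letters with data -/
inductive RalL : List Pf → ℤ → List (ℤ × ℤ × ℤ) → Prop
  | nil : RalL [] 0 []
  | cons {g : Pf} {gs : List Pf} {z Z : ℤ} {x : ℤ × ℤ × ℤ} {xs : List (ℤ × ℤ × ℤ)}
      (hg : RalB g z x) (h : RalL gs Z xs) : RalL (g :: gs) (z + Z) (x :: xs)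

theorem ral_fw {gs : List Pf} {Z : ℤ} {xs : List (ℤ × ℤ × ℤ)} (hb : RalL gs Z xs) {j : ℕ}
    (hj : j ≤ 2) {P : ℤ → ℤ} (h : Fw gs j P) :
    ∃ s ∈ ralSeqs xs j, ∀ l, P l ≤ run s l + 3 * Z := by
  induction hb generalizing j P with
  | nil =>
    cases h with
    | nil => exact ⟨[], by simp [ralSeqs], fun l => by simp [run]⟩
  | @cons g gs z Z x xs hg hb ih =>
    cases h with
    | @cons _ _ i j' P Q h1 h2 =>
      obtain ⟨o, ho, hP⟩ := ral_fop hg (by omega) h1
      obtain ⟨s, hs, hQ⟩ := ih (by omega) h2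
      refine ⟨o :: s, ?_, fun l => ?_⟩
      · simp only [ralSeqs, List.mem_flatMap, List.mem_map, List.mem_range]
        exact ⟨i, by omega, o, ho, s, by rwa [Nat.add_sub_cancel_left], rfl⟩
      · have a := hQ (P l)
        have b := (ral_run_mp s).mono (hP l)
        rw [(ral_run_mp s).add] at b
        simp only [run]
        linarith

theorem ral_two (v : ℤ) : ∃ q, v = 2 * q ∨ v = 2 * q + 1 := ⟨v / 2, by omega⟩

/-- finite check for one deletion -/
def ralC1 (N : ℤ) (s : List (Bool × ℤ)) : Prop :=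
  run s 0 ≤ psi (N + 1) ∧ run s 1 ≤ psi (N + 2) ∧ (run s 0 ≤ psi N ∨ run s 1 ≤ psi (N + 1))

/-- finite check for two deletions -/
def ralC2 (N : ℤ) (s : List (Bool × ℤ)) : Prop :=
  run s 0 ≤ psi (N + 1) ∨ run s 1 ≤ psi (N + 2)

instance (N : ℤ) (s : List (Bool × ℤ)) : Decidable (ralC1 N s) := by
  unfold ralC1; infer_instance

instance (N : ℤ) (s : List (Bool × ℤ)) : Decidable (ralC2 N s) := by
  unfold ralC2; infer_instance

theorem ral_chk1 : ∀ s ∈ ralSeqs [(2, 0, 2), (1, 1, 2)] 1, ralC1 1 s := by decide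
theorem ral_chk2 : ∀ s ∈ ralSeqs [(2, 0, 2), (1, 1, 2)] 2, ralC2 1 s := by decide
theorem ral_chk3 : ∀ s ∈ ralSeqs [(2, 0, 2), (2, 1, 2), (1, 1, 2)] 1, ralC1 2 s := by decide
theorem ral_chk4 : ∀ s ∈ ralSeqs [(2, 0, 2), (2, 1, 2), (1, 1, 2)] 2, ralC2 2 s := by decide
theorem ral_chk5 : ∀ s ∈ ralSeqs [(2, 1, 2), (2, 0, 2), (1, 1, 2)] 1, ralC1 2 s := by decide
theorem ral_chk6 : ∀ s ∈ ralSeqs [(2, 1, 2), (2, 0, 2), (1, 1, 2)] 2, ralC2 2 s := by decide

/-- the three properties of a factor -/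
structure RalG (gs : List Pf) (N : ℤ) : Prop where
  b0 : ∀ v, base gs (psi v) = psi (v + N)
  b1 : ∀ P, Fw gs 1 P → (∀ v, P (psi v) ≤ psi (v + N + 1)) ∧ ∃ v, P (psi v) ≤ psi (v + N)
  b2 : ∀ P, Fw gs 2 P → ∃ v, P (psi v) ≤ psi (v + N + 1)

theorem RalG.append {xs ys : List Pf} {M N : ℤ} (hx : RalG xs M) (hy : RalG ys N) :
    RalG (xs ++ ys) (M + N) := by
  refine ⟨fun v => ?_, fun R hR => ?_, fun R hR => ?_⟩
  · rw [base_append, hx.b0, hy.b0, add_assoc]
  · obtain ⟨i, j, P, Q, hk, h1, h2, rfl⟩ := fw_append.mp hR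
    have hij : (i = 1 ∧ j = 0) ∨ (i = 0 ∧ j = 1) := by omega
    rcases hij with ⟨rfl, rfl⟩ | ⟨rfl, rfl⟩
    · obtain ⟨ha, v0, hv⟩ := hx.b1 P h1
      rw [fw_zero h2]
      refine ⟨fun v => ?_, v0, ?_⟩
      · refine ((mp_base ys).mono (ha v)).trans (le_of_eq ?_)
        rw [hy.b0]; congr 1; ring
      · refine ((mp_base ys).mono hv).trans (le_of_eq ?_)
        rw [hy.b0]; congr 1; ring
    · obtain ⟨ha, v0, hv⟩ := hy.b1 Q h2
      rw [fw_zero h1]
      refine ⟨fun v => ?_, v0 - M, ?_⟩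
      · simp only [hx.b0]
        refine (ha _).trans (le_of_eq ?_)
        congr 1; ring
      · simp only [hx.b0]
        rw [sub_add_cancel]
        refine hv.trans (le_of_eq ?_)
        congr 1; ring
  · obtain ⟨i, j, P, Q, hk, h1, h2, rfl⟩ := fw_append.mp hR
    have hij : (i = 2 ∧ j = 0) ∨ (i = 1 ∧ j = 1) ∨ (i = 0 ∧ j = 2) := by omega
    rcases hij with ⟨rfl, rfl⟩ | ⟨rfl, rfl⟩ | ⟨rfl, rfl⟩
    · obtain ⟨v0, hv⟩ := hx.b2 P h1
      rw [fw_zero h2]
      refine ⟨v0, ?_⟩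
      refine ((mp_base ys).mono hv).trans (le_of_eq ?_)
      rw [hy.b0]; congr 1; ring
    · obtain ⟨-, v0, hv⟩ := hx.b1 P h1
      obtain ⟨ha, -⟩ := hy.b1 Q h2
      refine ⟨v0, ?_⟩
      refine (h2.mp.mono hv).trans ((ha _).trans (le_of_eq ?_))
      congr 1; ring
    · obtain ⟨v0, hv⟩ := hy.b2 Q h2
      rw [fw_zero h1]
      refine ⟨v0 - M, ?_⟩
      simp only [hx.b0]
      rw [sub_add_cancel]
      refine hv.trans (le_of_eq ?_)
      congr 1; ring

theorem ral_psi_shift (N q : ℤ) : psi (2 * q + N) = psi N + 3 * q := by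
  rw [add_comm, psi_add]

/-- the finite checks give the properties of a component -/
theorem ral_comp {gs : List Pf} {Z M N : ℤ} {xs : List (ℤ × ℤ × ℤ)} (hb : RalL gs Z xs)
    (h0 : ∀ v, base gs (psi v) = psi (v + N)) (hN : N = M + 2 * Z)
    (h1 : ∀ s ∈ ralSeqs xs 1, ralC1 M s) (h2 : ∀ s ∈ ralSeqs xs 2, ralC2 M s) :
    RalG gs N := by
  subst hN
  have key : ∀ s : List (Bool × ℤ), ∀ t q k : ℤ, run s t ≤ psi k →
      run s (t + 3 * q) + 3 * Z ≤ psi (2 * q + (k + 2 * Z)) := by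
    intro s t q k h
    rw [(ral_run_mp s).add, ral_psi_shift, psi_add]
    linarith
  have e0 : ∀ q : ℤ, psi (2 * q) = 0 + 3 * q := fun q => by rw [psi_even]; ring
  have e1 : ∀ q : ℤ, psi (2 * q + 1) = 1 + 3 * q := fun q => by rw [psi_odd]; ring
  refine ⟨h0, fun P hP => ?_, fun P hP => ?_⟩
  · obtain ⟨s, hs, hle⟩ := ral_fw hb (by norm_num) hP
    obtain ⟨c0, c1, c2⟩ := h1 s hs
    constructor
    · intro v
      refine (hle _).trans ?_
      obtain ⟨q, rfl | rfl⟩ := ral_two v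
      · rw [e0]
        refine (key s 0 q _ c0).trans (le_of_eq ?_)
        congr 1; ring
      · rw [e1]
        refine (key s 1 q _ c1).trans (le_of_eq ?_)
        congr 1; ring
    · rcases c2 with c2 | c2
      · refine ⟨2 * 0, (hle _).trans ?_⟩
        rw [e0]
        refine (key s 0 0 _ c2).trans (le_of_eq ?_)
        congr 1
      · refine ⟨2 * 0 + 1, (hle _).trans ?_⟩
        rw [e1]
        refine (key s 1 0 _ c2).trans (le_of_eq ?_)
        congr 1; ring
  · obtain ⟨s, hs, hle⟩ := ral_fw hb le_rfl hP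
    rcases h2 s hs with c2 | c2
    · refine ⟨2 * 0, (hle _).trans ?_⟩
      rw [e0]
      refine (key s 0 0 _ c2).trans (le_of_eq ?_)
      congr 1; ring
    · refine ⟨2 * 0 + 1, (hle _).trans ?_⟩
      rw [e1]
      refine (key s 1 0 _ c2).trans (le_of_eq ?_)
      congr 1; ring

theorem ral_nil : RalG [] 0 := by
  refine ⟨fun v => by simp [base], fun P hP => ?_, fun P hP => ?_⟩
  · exact absurd hP (by intro h; cases h)
  · exact absurd hP (by intro h; cases h)

/-- all alternating lists of live letters -/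
theorem ral_altL {gs : List Pf} {N : ℤ}
    (h : AltL (fun k => k 1 ≤ k 0) (fun k k' => k 1 + k' 1 ≤ k 0 + k' 0 + 1) gs N)
    (hl : ∀ g ∈ gs, Live g) : RalG gs N := by
  induction h with
  | nil => exact ral_nil
  | @single k w gs N hk hc hw h ih =>
    have lk := hl k (by simp)
    have lw := hl w (by simp)
    have hr := ih (fun g hg => hl g (by simp [hg]))
    have h3 : AltL (fun k => k 1 ≤ k 0) (fun k k' => k 1 + k' 1 ≤ k 0 + k' 0 + 1) [k, w]
      (0 + 1 + 2 * (k 0 / 3) + 2 * (w 0 / 3)) := AltL.single hk hc hw AltL.nil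
    have hc' : RalG [k, w] (0 + 1 + 2 * (k 0 / 3) + 2 * (w 0 / 3)) := by
      refine ral_comp (Z := k 0 / 3 + (w 0 / 3 + 0)) (M := 1)
        (xs := [(2, 0, 2), (1, 1, 2)]) ?_ (altL_base h3) (by ring) ral_chk1 ral_chk2
      refine RalL.cons ⟨?_, ?_, ?_⟩ (RalL.cons ⟨?_, ?_, ?_⟩ RalL.nil)
      · unfold ty at hk; simp only; omega
      · simpa using hc
      · simpa using lk.le3
      · unfold ty at hw; simp only; omega
      · simpa using lw.no12 hw
      · simpa using lw.le3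
    have := hc'.append hr
    have e : (0 + 1 + 2 * (k 0 / 3) + 2 * (w 0 / 3)) + N = N + 1 + 2 * (k 0 / 3) + 2 * (w 0 / 3) := by
      ring
    rwa [e] at this
  | @pair k k' w gs N hk hk' hc hw h ih =>
    have lk := hl k (by simp)
    have lk' := hl k' (by simp)
    have lw := hl w (by simp)
    have hr := ih (fun g hg => hl g (by simp [hg]))
    have h3 : AltL (fun k => k 1 ≤ k 0) (fun k k' => k 1 + k' 1 ≤ k 0 + k' 0 + 1) [k, k', w]
      (0 + 2 + 2 * (k 0 / 3) + 2 * (k' 0 / 3) + 2 * (w 0 / 3)) := AltL.pair hk hk' hc hw AltL.nil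
    have hc' : RalG [k, k', w] (0 + 2 + 2 * (k 0 / 3) + 2 * (k' 0 / 3) + 2 * (w 0 / 3)) := by
      have a1 := lk.le1
      have a2 := lk'.le1
      have hcase : (k 1 ≤ k 0 ∧ k' 1 ≤ k' 0 + 1) ∨ (k 1 ≤ k 0 + 1 ∧ k' 1 ≤ k' 0) := by omega
      rcases hcase with ⟨q1, q2⟩ | ⟨q1, q2⟩
      · refine ral_comp (Z := k 0 / 3 + (k' 0 / 3 + (w 0 / 3 + 0))) (M := 2)
          (xs := [(2, 0, 2), (2, 1, 2), (1, 1, 2)]) ?_ (altL_base h3) (by ring) ral_chk3 ral_chk4
        refine RalL.cons ⟨?_, ?_, ?_⟩ (RalL.cons ⟨?_, ?_, ?_⟩ (RalL.cons ⟨?_, ?_, ?_⟩ RalL.nil))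
        · unfold ty at hk; simp only; omega
        · simpa using q1
        · simpa using lk.le3
        · unfold ty at hk'; simp only; omega
        · simpa using q2
        · simpa using lk'.le3
        · unfold ty at hw; simp only; omega
        · simpa using lw.no12 hw
        · simpa using lw.le3
      · refine ral_comp (Z := k 0 / 3 + (k' 0 / 3 + (w 0 / 3 + 0))) (M := 2)
          (xs := [(2, 1, 2), (2, 0, 2), (1, 1, 2)]) ?_ (altL_base h3) (by ring) ral_chk5 ral_chk6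
        refine RalL.cons ⟨?_, ?_, ?_⟩ (RalL.cons ⟨?_, ?_, ?_⟩ (RalL.cons ⟨?_, ?_, ?_⟩ RalL.nil))
        · unfold ty at hk; simp only; omega
        · simpa using q1
        · simpa using lk.le3
        · unfold ty at hk'; simp only; omega
        · simpa using q2
        · simpa using lk'.le3
        · unfold ty at hw; simp only; omega
        · simpa using lw.no12 hw
        · simpa using lw.le3
    have := hc'.append hr
    have e : (0 + 2 + 2 * (k 0 / 3) + 2 * (k' 0 / 3) + 2 * (w 0 / 3)) + N =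
        N + 2 + 2 * (k 0 / 3) + 2 * (k' 0 / 3) + 2 * (w 0 / 3) := by
      ring
    rwa [e] at this

theorem ral_psi_between (l : ℤ) : ∃ v, psi v ≤ l ∧ l < psi (v + 1) := by
  obtain ⟨q, rfl | rfl | rfl⟩ := split3 l
  · exact ⟨2 * q, by rw [psi_even], by rw [psi_odd]; omega⟩
  · refine ⟨2 * q + 1, by rw [psi_odd], ?_⟩
    rw [show 2 * q + 1 + 1 = 2 * (q + 1) by ring, psi_even]; omega
  · refine ⟨2 * q + 1, by rw [psi_odd]; omega, ?_⟩
    rw [show 2 * q + 1 + 1 = 2 * (q + 1) by ring, psi_even]; omega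

theorem ral_good {gs : List Pf} {N : ℤ} (h : RalG gs N) (hN : N % 2 = 1) : Good gs := by
  intro c hc k hk P hP
  obtain ⟨l, hl⟩ := hc
  obtain ⟨v, hv1, hv2⟩ := ral_psi_between l
  have h1 : psi (v + N) ≤ l + 3 * c := by
    rw [← h.b0 v]
    exact ((mp_base gs).mono hv1).trans hl
  have h2 : N ≤ 2 * c := by
    by_contra hcon
    have h3 : psi (v + 1 + 2 * c) ≤ psi (v + N) := psi_mono (by omega)
    rw [psi_add] at h3
    omega
  have h3 : N + 1 ≤ 2 * c := by omega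
  have h4 : ∃ w, P (psi w) ≤ psi (w + N + 1) := by
    have hk' : k = 0 ∨ k = 1 ∨ k = 2 := by omega
    rcases hk' with rfl | rfl | rfl
    · refine ⟨0, ?_⟩
      rw [fw_zero hP, h.b0]
      exact psi_mono (by omega)
    · exact ⟨0, (h.b1 P hP).1 0⟩
    · exact h.b2 P hP
  obtain ⟨w, hw⟩ := h4
  refine ⟨psi w, hw.trans ?_⟩
  rw [← psi_add]
  exact psi_mono (by omega)

theorem alt_good {p : ℕ → Pf} {n : ℕ} (hn : 3 ≤ n) (hp : ∀ i, p (i + n) = p i)
    (hl : ∀ i, Live (p i))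
    (hloc : ∀ i, Loc (p i) (p (i + 1)) (p (i + 2)) (p (i + 3)) (p (i + 4)))
    (h : Alt p n) : Good (win p 0 n) := by
  obtain ⟨⟨i0, hi0⟩, h1, h2, hodd, hc1, hc2⟩ := h
  have h0 : ∀ i, ty (p i) = 2 → ty (p (i + 1)) ≠ 0 := by
    intro i hi
    have e : p (i + n) = p i := hp i
    have h1 := (hloc (i + n - 2)).1
    rw [show i + n - 2 + 2 = i + n by omega, e] at h1
    have h2 := (h1 hi).2
    rwa [show i + n - 2 + 3 = (i + 1) + n by omega, hp] at h2
  obtain ⟨N, hA, hN⟩ := altL_win (C1 := fun k => k 1 ≤ k 0)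
    (C2 := fun k k' => k 1 + k' 1 ≤ k 0 + k' 0 + 1) h1 h2 h0 hc1 hc2 n i0 hi0
    (by rw [hp]; exact hi0)
  rw [nK_shift hp] at hN
  have hN' : N % 2 = 1 := by omega
  rw [good_win hp 0 (i0 + 1)]
  refine ral_good (ral_altL hA fun g hg => ?_) hN'
  obtain ⟨j, -, rfl⟩ := mem_win.mp hg
  exact hl _

end Pool.Agent.H44.Cac
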