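import Pool.Agent.H44.Cac.Words
import Pool.Agent.H44.Cac.WDomDefs

/-! upper bounds for the value of a closed chain by assignments -/

namespace Pool.Agent.H44.Cac

open Classical

theorem asg_fw (p : ℕ → Pf) (n : ℕ) : ∀ (i0 k : ℕ) (P : ℤ → ℤ), Fw (win p i0 n) k P →
    ∃ (d : ℕ → Bool) (κ : ℕ → ℕ),
      (∑ i ∈ Finset.range n, (κ i + if d i then 1 else 0)) = k ∧
      P = run ((List.range n).map (fun i => (d i, p (i0 + i) (κ i)))) := by
  induction n with
  | zero =>
    intro i0 k P h
    rw [win_zero] at h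
    cases h
    exact ⟨fun _ => false, fun _ => 0, by simp, rfl⟩
  | succ n ih =>
    intro i0 k P h
    rw [win_succ] at h
    cases h with
    | @cons _ _ i j P' Q hP hQ =>
      obtain ⟨d, κ, h1, h2⟩ := ih _ _ _ hQ
      have h3 : ∃ (d0 : Bool) (κ0 : ℕ), (κ0 + if d0 then 1 else 0) = i ∧
          P' = fun l => glue (E d0 l) (p i0 κ0) := by
        cases hP with
        | keep i => exact ⟨false, i, by simp, rfl⟩
        | cut i => exact ⟨true, i, by simp, rfl⟩
      obtain ⟨d0, κ0, h4, h5⟩ := h3
      refine ⟨fun i => Nat.casesOn i d0 d, fun i => Nat.casesOn i κ0 κ, ?_, ?_⟩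
      · rw [Finset.sum_range_succ', add_comm]
        exact congrArg₂ _ h4 h1
      · rw [List.range_succ_eq_map, List.map_cons, List.map_map]
        funext l
        rw [h2, h5]
        show run _ (glue (E d0 l) (p i0 κ0)) = run _ (glue (E d0 l) (p (i0 + 0) κ0))
        rw [add_zero]
        congr 1
        apply List.map_congr_left
        intro i _
        show (d i, p (i0 + 1 + i) (κ i)) = (d i, p (i0 + (i + 1)) (κ i))
        rw [show i0 + 1 + i = i0 + (i + 1) by ring]

/-- data of a deletion pattern -/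
theorem fw_data {p : ℕ → Pf} {n k : ℕ} {P : ℤ → ℤ} (hn : 1 ≤ n) (hp : ∀ i, p (i + n) = p i)
    (h : Fw (win p 0 n) k P) :
    ∃ (d : ℕ → Bool) (κ : ℕ → ℕ), (∀ i, d (i + n) = d i) ∧ (∀ i, κ (i + n) = κ i) ∧
      (∑ i ∈ Finset.range n, (κ i + if d i then 1 else 0)) = k ∧
      P = run ((List.range n).map (fun i => (d i, p i (κ i)))) := by
  obtain ⟨d, κ, h1, h2⟩ := asg_fw p n 0 k P h
  refine ⟨fun i => d (i % n), fun i => κ (i % n), fun i => by simp, fun i => by simp, ?_, ?_⟩
  · rw [← h1]
    apply Finset.sum_congr rfl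
    intro i hi
    rw [Finset.mem_range] at hi
    simp only [Nat.mod_eq_of_lt hi]
  · rw [h2]
    congr 1
    apply List.map_congr_left
    intro i hi
    rw [List.mem_range] at hi
    simp only [Nat.mod_eq_of_lt hi, zero_add]

theorem asg_run_append (xs : List (Bool × ℤ)) (y : Bool × ℤ) (l : ℤ) :
    run (xs ++ [y]) l = glue (E y.1 (run xs l)) y.2 := by
  induction xs generalizing l with
  | nil => rfl
  | cons x xs ih => exact ih _

/-- the level which an assignment allows after a vertex -/
noncomputable def asgT (s l r : Prop) : ℤ := if s then 0 else if l then 1 else if r then 2 else 1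

theorem asg_step (b : ℤ) (c c' : Bool) (sp s s' D : Prop) :
    glue (E c (asgT sp D (s ∧ c = false))) b ≤
      3 * cost b s ((sp ∧ c = false) ∨ (s' ∧ c' = false)) +
        asgT s (sp ∧ c = false) (s' ∧ c' = false) := by
  obtain ⟨q, hq⟩ := split3 b
  by_cases h1 : sp <;> by_cases h2 : s <;> by_cases h3 : s' <;> by_cases h4 : D <;>
    cases c <;> cases c' <;> rcases hq with rfl | rfl | rfl <;>
    simp only [asgT, cost, h1, h2, h3, h4, E, glue, tab, if_true, if_false, and_true, and_false,
      true_and, false_and, or_true, or_false, true_or, false_or, Bool.false_eq_true,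
      Bool.true_eq_false] <;>
    (split_ifs <;> omega)

/-- every assignment `s` gives an upper bound -/
theorem tr_assign {n : ℕ} (hn : 2 ≤ n) {x : ℕ → Bool × ℤ} {s : ℕ → Prop}
    (hx : ∀ i, x (i + n) = x i) (hs : ∀ i, s (i + n) ↔ s i) :
    Tr (run ((List.range n).map x)) (∑ i ∈ Finset.range n, cost (x i).2 (s i)
      ((s (i + (n - 1)) ∧ (x i).1 = false) ∨ (s (i + 1) ∧ (x (i + 1)).1 = false))) := by
  set T : ℕ → ℤ := fun i => asgT (s i) (s (i + (n - 1)) ∧ (x i).1 = false)
    (s (i + 1) ∧ (x (i + 1)).1 = false) with hT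
  have hTp : ∀ i, T (i + n) = T i := by
    intro i
    simp only [hT]
    rw [hx, show i + n + (n - 1) = i + (n - 1) + n by omega,
      show i + n + 1 = i + 1 + n by omega, hx]
    simp only [hs]
  have key : ∀ m, run ((List.range m).map x) (T (n - 1)) ≤
      T (m + (n - 1)) + 3 * ∑ i ∈ Finset.range m, cost (x i).2 (s i)
      ((s (i + (n - 1)) ∧ (x i).1 = false) ∨ (s (i + 1) ∧ (x (i + 1)).1 = false)) := by
    intro m
    induction m with
    | zero =>
      simp [run]
    | succ m ih =>
      rw [List.range_succ, List.map_append, List.map_singleton, asg_run_append,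
        Finset.sum_range_succ]
      refine (glue_mono_left (E_mono _ ih) _).trans ?_
      rw [E_add, glue_add]
      have h1 := asg_step (x m).2 (x m).1 (x (m + 1)).1 (s (m + (n - 1))) (s m) (s (m + 1))
        (s (m + (n - 1) + (n - 1)) ∧ (x (m + (n - 1))).1 = false)
      have h2 : T (m + (n - 1)) = asgT (s (m + (n - 1)))
          (s (m + (n - 1) + (n - 1)) ∧ (x (m + (n - 1))).1 = false) (s m ∧ (x m).1 = false) := by
        simp only [hT]
        rw [show m + (n - 1) + 1 = m + n by omega, hx, hs]
      have h3 : T (m + 1 + (n - 1)) = asgT (s m) (s (m + (n - 1)) ∧ (x m).1 = false)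
          (s (m + 1) ∧ (x (m + 1)).1 = false) := by
        rw [show m + 1 + (n - 1) = m + n by omega, hTp]
      rw [h2, h3]
      linarith
  refine ⟨T (n - 1), ?_⟩
  have h := key n
  rwa [show n + (n - 1) = n - 1 + n by omega, hTp] at h

end Pool.Agent.H44.Cac
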