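import Pool.Agent.H44.Cac.Serve
import Pool.Agent.H44.Cac.Assign

namespace Pool.Agent.H44.Cac

open Classical

theorem spr_good {p : ℕ → Pf} {n : ℕ} (hn : 3 ≤ n) (hp : ∀ i, p (i + n) = p i)
    (hl : ∀ i, Live (p i))
    (hloc : ∀ i, Loc (p i) (p (i + 1)) (p (i + 2)) (p (i + 3)) (p (i + 4)))
    (h : AllW p ∨ Spr p n) : Good (win p 0 n) := by
  intro c hc k hk P hP
  have h0 : ∀ i, ty (p i) = 2 → ty (p (i + 1)) ≠ 0 := by
    intro i hi
    have e : p (i + n) = p i := hp i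
    have h1 := (hloc (i + n - 2)).1
    rw [show i + n - 2 + 2 = i + n by omega, e] at h1
    have h2 := (h1 hi).2
    rwa [show i + n - 2 + 3 = (i + 1) + n by omega, hp] at h2
  have h0' : ∀ i, ty (p i) = 0 → ty (p (i + 1)) ≠ 2 := by
    intro i hi h2
    have h1 := (hloc (i + n - 1)).1
    rw [show i + n - 1 + 2 = (i + 1) + n by omega, hp,
      show i + n - 1 + 1 = i + n by omega, hp] at h1
    exact (h1 h2).1 hi
  have h1 : ∀ i, ty (p i) = 2 → ty (p (i + 1)) ≠ 2 ∧ ty (p (i + 2)) ≠ 2 := by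
    rcases h with h | h
    · exact fun i _ => ⟨h _, h _⟩
    · exact h.2.1
  have hc' := spr_base hn hp h0 h0' h1 hc
  obtain ⟨d, κ, hd, hκ, hs, rfl⟩ := fw_data (by omega) hp hP
  obtain ⟨s, hsp, hle⟩ := serve hn hp hl hloc h hd hκ (by omega)
  have := tr_assign (n := n) (by omega) (x := fun i => (d i, p i (κ i))) (s := s)
    (fun i => by simp only [hd, hκ, hp]) hsp
  exact tr_mono (hle.trans hc') this

end Pool.Agent.H44.Cac
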