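import Pool.Agent.H44.Cac.GoodLoc
import Pool.Agent.H44.Cac.GoodGlob
import Pool.Agent.H44.Cac.RuleAll
import Pool.Agent.H44.Cac.RuleAlt
import Pool.Agent.H44.Cac.RuleSpr

namespace Pool.Agent.H44.Cac

theorem good_rule {p : ℕ → Pf} {n : ℕ} (hn : 3 ≤ n) (hp : ∀ i, p (i + n) = p i)
    (hl : ∀ i, Live (p i)) : Good (win p 0 n) ↔ Rule p n := by
  constructor
  · intro h
    exact ⟨good_loc hn hp hl h, good_glob hn hp hl h⟩
  · rintro ⟨h1, h2 | h2 | h2 | h2⟩
    · exact allK_good hn hp hl h2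
    · exact spr_good hn hp hl h1 (Or.inl h2)
    · exact alt_good hn hp hl h1 h2
    · exact spr_good hn hp hl h1 (Or.inr h2)

end Pool.Agent.H44.Cac
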