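import Pool.Agent.H44.Cac.Fin1
import Pool.Agent.H44.Cac.ThmA
import Pool.Agent.H44.Cac.OutP

namespace Pool.Agent.H44.Cac

theorem admO_rule {P Q : ℕ → Pf} {n : ℕ} (hP : ∀ i, P (i + n) = P i)
    (h1 : ∀ i, ty (P i) = ty (Q i)) (h2 : ∀ i, ty (P i) = 0 → cS (P i) = cS (Q i))
    (h3 : ∀ i, ty (P i) ≠ 0 → P i = Q i) (h : Rule P n) : Rule Q n := by
  have hX : ∀ a x c, cX (P a) (P x) (P c) = cX (Q a) (Q x) (Q c) := by
    intro a x c
    unfold cX
    rw [h1 x, h1 a, h1 c]
    by_cases hx : ty (Q x) = 0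
    · rw [if_pos hx, if_pos hx]; exact h2 x (by rw [h1]; exact hx)
    · rw [if_neg hx, if_neg hx, h3 x (by rw [h1]; exact hx)]
  have hK : nK P n = nK Q n := by
    unfold nK
    congr 1
    apply Finset.filter_congr
    intro i _
    rw [h1]
  have hcrit : ∀ i, ty (Q i) = 2 → P i = Q i := fun i hi => h3 i (by rw [h1, hi]; norm_num)
  obtain ⟨hL, hR⟩ := h
  refine ⟨?_, ?_⟩
  · intro i
    have := hL i
    unfold Loc str at this ⊢
    rw [hX, h1, h1, h1, h1, h1] at this
    exact this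
  · rcases hR with ⟨a1, a2, a3⟩ | a | ⟨a1, a2, a3, a4, a5, a6⟩ | ⟨a1, a2, a3⟩
    · left
      refine ⟨fun i => by rw [← h1]; exact a1 i, a2, fun i => ?_⟩
      rw [← h3 i (by rw [a1]; norm_num)]
      exact a3 i
    · right; left
      intro i; rw [← h1]; exact a i
    · right; right; left
      refine ⟨?_, ?_, ?_, ?_, ?_, ?_⟩
      · obtain ⟨i, hi⟩ := a1; exact ⟨i, by rw [← h1]; exact hi⟩
      · intro i; rw [← h1, ← h1]; exact a2 i
      · intro i; rw [← h1, ← h1, ← h1]; exact a3 i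
      · rw [← hK]; exact a4
      · intro i b1 b2 b3
        rw [← hcrit (i + 1) b2]
        exact a5 i (by rw [h1]; exact b1) (by rw [h1]; exact b2) (by rw [h1]; exact b3)
      · intro i b1 b2
        rw [← hcrit (i + 1) b2, ← hcrit i b1]
        exact a6 i (by rw [h1]; exact b1) (by rw [h1]; exact b2)
    · right; right; right
      refine ⟨?_, ?_, ?_⟩
      · obtain ⟨i, hi⟩ := a1; exact ⟨i, by rw [← h1]; exact hi⟩
      · intro i; rw [← h1, ← h1, ← h1]; exact a2 i
      · intro hn i hi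
        obtain ⟨b3, b4, b5⟩ := a3 (by rw [hK]; exact hn) i (by rw [h1]; exact hi)
        refine ⟨?_, ?_, ?_⟩
        · intro e
          subst e
          have hl := (hL (i + 1)).1 (by
            rw [show i + 1 + 2 = i + 3 by ring, hP, h1]; exact hi)
          have e1 : P (i + 1 + 1) = Q (i + 2) := h3 (i + 2) hl.1
          have e2 : P (i + 1 + 3) = P (i + 1) := hP (i + 1)
          have e3 : P (i + 1) = Q (i + 1) := h3 (i + 1) (by rw [← e2]; exact hl.2)
          rw [← hcrit i hi, ← e3, ← e1]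
          exact b3 rfl
        · intro e
          rw [← hcrit i hi, ← hX]
          exact b4 e
        · intro e hh
          apply b5 e
          obtain ⟨c1, c2, c3, c4⟩ := hh
          have c1' : ty (P (i + 2)) = 0 := by rw [h1]; exact c1
          have c2' : ty (P (i + 3)) = 0 := by rw [h1]; exact c2
          exact ⟨c1', c2', by rw [h2 _ c1']; exact c3, by rw [h2 _ c2']; exact c4⟩

/-- the sequence with the test letter -/
def admOseq (T : Pf) (p : ℕ → Pf) (n : ℕ) : ℕ → Pf := fun i => if n ∣ i then T else p i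

theorem admO_per (T : Pf) {p : ℕ → Pf} {n : ℕ} (hp : ∀ i, p (i + n) = p i) (i : ℕ) :
    admOseq T p n (i + n) = admOseq T p n i := by
  unfold admOseq
  rw [hp]
  congr 1
  simp

theorem admO_win (T : Pf) (p : ℕ → Pf) {n : ℕ} (hn : 1 ≤ n) :
    win (admOseq T p n) 0 n = T :: win p 1 (n - 1) := by
  obtain ⟨m, rfl⟩ : ∃ m, n = m + 1 := ⟨n - 1, by omega⟩
  rw [win_succ, show admOseq T p (m + 1) 0 = T by simp [admOseq], Nat.add_sub_cancel]
  congr 1
  unfold win
  apply List.map_congr_left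
  intro j hj
  have hj' := List.mem_range.mp hj
  unfold admOseq
  have hd : ¬ (m + 1 ∣ 0 + 1 + j) := by
    intro hd
    have := Nat.le_of_dvd (by omega) hd
    omega
  rw [if_neg hd]

theorem admO_tst_mono {t a b : ℤ} (h1 : 0 ≤ a) (h2 : a ≤ b) : Monotone (tst t a b) := by
  apply monotone_nat_of_le_succ
  intro k
  unfold tst
  rcases k with _ | _ | k <;> simp <;> omega

theorem admO_good {p : ℕ → Pf} {n : ℕ} (hn : 3 ≤ n) (hp : ∀ i, p (i + n) = p i)
    (h : ∀ i, ¬ n ∣ i → Adm (p i)) (hl : ∀ i, ¬ n ∣ i → Live (p i))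
    {α : Pf} (hα : IsOut (win p 1 (n - 1)) α)
    {a b : ℤ} (h1 : 0 ≤ a) (h2 : a ≤ b) (h3 : b ≤ 2) :
    gg 0 a b α ↔ Rule (admOseq (tst 0 a b) p n) n := by
  rw [← good_rule hn (admO_per _ hp), admO_win _ _ (by omega), good_iff_gl _ _ _ hα]
  · rfl
  · intro g hg
    rcases List.mem_cons.mp hg with rfl | hg
    · exact admO_tst_mono h1 h2
    · obtain ⟨j, hj, rfl⟩ := mem_win.mp hg
      apply (h (1 + j) _).1
      intro hd
      have := Nat.le_of_dvd (by omega) hd
      omega
  · intro i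
    unfold admOseq
    split_ifs with hd
    · refine ⟨?_, ?_, ?_, ?_⟩ <;> simp [tst, ty] <;> omega
    · exact hl i hd

theorem admO_rule_congr {p : ℕ → Pf} {n : ℕ} (hp : ∀ i, p (i + n) = p i)
    {a b a' b' : ℤ} (h1 : b ≤ 1) (h1' : b' ≤ 1) :
    Rule (admOseq (tst 0 a b) p n) n → Rule (admOseq (tst 0 a' b') p n) n := by
  have t0 : ∀ a b, ty (tst 0 a b) = 0 := by intro a b; simp [ty, tst]
  have c0 : ∀ a b, b ≤ 1 → cS (tst 0 a b) = 3 := by
    intro a b hb; simp [cS, tst, hb]
  apply admO_rule (admO_per _ hp)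
  · intro i; unfold admOseq; split_ifs
    · rw [t0, t0]
    · rfl
  · intro i hi; unfold admOseq; split_ifs
    · rw [c0 _ _ h1, c0 _ _ h1']
    · rfl
  · intro i hi
    unfold admOseq at hi ⊢
    split_ifs at hi ⊢ with hd
    · exact absurd (t0 _ _) hi
    · rfl

theorem admO_keep {f : Pf} (hf : f 0 + 3 ≤ f 2) (l : ℤ) :
    glue (E false l) (f 0) + 3 ≤ glue (E false l) (f 2) := by
  have h2 := glue_mono (le_refl (E false l)) hf
  have h3 := glue_add (f 0) (E false l) 1
  rw [glue_comm, glue_comm (f 0)] at h3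
  norm_num at h3
  omega

theorem admO_dead {gs : List Pf} {g : Pf} (hg : g ∈ gs) (hd : g 0 + 3 ≤ g 2) :
    ∃ P, Fw gs 2 P ∧ ∀ l, base gs l + 3 ≤ P l := by
  induction gs with
  | nil => simp at hg
  | cons f gs ih =>
    rcases List.mem_cons.mp hg with rfl | hg
    · refine ⟨_, Fw.cons (i := 2) (j := 0) (Fop.keep 2) (Fw.base gs), ?_⟩
      intro l
      simp only [base]
      rw [← (mp_base gs).per]
      exact (mp_base gs).mono (admO_keep hd l)
    · obtain ⟨P, hP, hP'⟩ := ih hg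
      refine ⟨_, Fw.cons (i := 0) (j := 2) (Fop.keep 0) hP, ?_⟩
      intro l
      simp only [base]
      exact hP' _

theorem admO_clo {P Q : ℤ → ℤ} (h : ∀ l, P l + 3 ≤ Q l) : clo P false + 3 ≤ clo Q false := by
  have g3 : ∀ x y : ℤ, x + 3 ≤ y → glue 3 x + 3 ≤ glue 3 y := by
    intro x y hxy
    rw [fin1_glue3, fin1_glue3]; omega
  have g1 : ∀ x y : ℤ, x + 3 ≤ y → glue 1 x + 3 ≤ glue 1 y := by
    intro x y hxy
    rw [fin1_glue1, fin1_glue1]; omega
  have a0 := g3 (E false (P 0)) (E false (Q 0)) (by have := h 0; simp [E]; omega)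
  have a2 := g1 (E false (P 2)) (E false (Q 2)) (by have := h 2; simp [E]; omega)
  have a1 : E false (P 1) + 3 ≤ E false (Q 1) := by have := h 1; simp [E]; omega
  unfold clo
  omega

theorem adm_out {p : ℕ → Pf} {n : ℕ} (hn : 3 ≤ n) (hp : ∀ i, p (i + n) = p i)
    (h : ∀ i, Adm (p i)) {α : Pf} (hα : IsOut (win p 1 (n - 1)) α) : Adm α := by
  refine ⟨hα.2.2, ?_⟩
  by_cases hd : ∃ g ∈ win p 1 (n - 1), g 0 + 3 ≤ g 2
  · left
    obtain ⟨g, hg, hd⟩ := hd
    obtain ⟨P, hP, hP'⟩ := admO_dead hg hd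
    have e0 : α 0 = clo (base (win p 1 (n - 1))) false := by
      obtain ⟨j, hj, i, Q, hQ, hh⟩ := hα.2.1 0
      rcases hh with ⟨h1, h2⟩ | ⟨h1, h2⟩
      · have : i = 0 := by omega
        subst this
        rw [h2, fw_zero hQ]
      · omega
    have e2 := hα.1 2 _ ⟨2, P, hP, Or.inl ⟨rfl, rfl⟩⟩
    have := admO_clo hP'
    omega
  push Not at hd
  by_cases hα2 : α 0 + 3 ≤ α 2
  · exact Or.inl hα2
  right
  have hL : ∀ i, ¬ n ∣ i → L15 (p i) := by
    intro i hi
    have hmod : p i = p (i % n) := by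
      conv_lhs => rw [← Nat.mod_add_div i n]
      generalize i / n = k
      induction k with
      | zero => simp
      | succ k ih => rw [show i % n + n * (k + 1) = i % n + n * k + n by ring, hp, ih]
    have hpos : 0 < i % n := Nat.pos_of_ne_zero (fun h0 => hi (Nat.dvd_of_mod_eq_zero h0))
    have hlt := Nat.mod_lt i (show 0 < n by omega)
    have hmem : p i ∈ win p 1 (n - 1) := by
      rw [mem_win]
      exact ⟨i % n - 1, by omega, by rw [hmod]; congr 1; omega⟩
    rcases (h i).2 with h1 | h1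
    · have := hd _ hmem; omega
    · exact h1
  have hl : ∀ i, ¬ n ∣ i → Live (p i) := fun i hi => (hL i hi).toLive
  have key := fun (a b : ℤ) h1 h2 h3 =>
    admO_good hn hp (fun i _ => h i) hl hα (a := a) (b := b) h1 h2 h3
  have k00 := key 0 0 (by norm_num) (by norm_num) (by norm_num)
  have k01 := key 0 1 (by norm_num) (by norm_num) (by norm_num)
  have k11 := key 1 1 (by norm_num) (by norm_num) (by norm_num)
  have m := hα.2.2
  rw [if_00 m] at k00
  rw [if_S0' m] at k01
  rw [if_S0 m] at k11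
  have c1 : Rule (admOseq (tst 0 0 0) p n) n → Rule (admOseq (tst 0 0 1) p n) n :=
    admO_rule_congr hp (by norm_num) (by norm_num)
  have c2 : Rule (admOseq (tst 0 0 1) p n) n → Rule (admOseq (tst 0 1 1) p n) n :=
    admO_rule_congr hp (by norm_num) (by norm_num)
  rw [← k00, ← k01] at c1
  rw [← k01, ← k11] at c2
  have m1 := m (show 0 ≤ 1 by norm_num)
  have m2 := m (show 1 ≤ 2 by norm_num)
  simp only [okS, ty] at c1 c2
  refine ⟨⟨m1, m2, by omega, ?_⟩, ?_, ?_⟩
  · simp only [ty]; intro h0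
    have := c2 (Or.inl ⟨h0, by omega⟩)
    omega
  · simp only [ty]; intro h0
    by_contra hc
    have := c1 (Or.inl ⟨h0, by omega⟩)
    omega
  · simp only [ty]; intro h0 h1
    by_contra hc
    have := c2 (Or.inr ⟨h0, by omega, by omega⟩)
    omega

end Pool.Agent.H44.Cac
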