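import Mathlib

/-!
Level algebra for domination in rooted graphs.

A rooted piece has the three numbers x, y, z: least size of a set dominating the piece with the root
in the set, dominated, not necessarily dominated.  They are encoded by the single integer
`x + y + z = 3 z + t`, `t = 0, 1, 2`.
-/

namespace Pool.Agent.H44.Cac

/-- table of gluing for types -/
def tab (s t : ℤ) : ℤ :=
  if s = 0 then (if t = 0 then -3 else 0)
  else if t = 0 then 0 else if s = 1 then 1 else if t = 1 then 1 else 2

/-- identify the roots of two pieces -/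
def glue (a b : ℤ) : ℤ := 3 * (a / 3) + 3 * (b / 3) + tab (a % 3) (b % 3)

/-- hang a piece of level `a` at a new root by an edge (`cut = false`), or by a deleted edge
(`cut = true`) -/
def E (cut : Bool) (a : ℤ) : ℤ := if cut then 3 * ((a + 1) / 3) + 2 else a + 1

theorem split3 (a : ℤ) : ∃ p, a = 3 * p ∨ a = 3 * p + 1 ∨ a = 3 * p + 2 := ⟨a / 3, by omega⟩

section table
variable (p q : ℤ)

theorem glue00 : glue (3 * p) (3 * q) = 3 * (p + q - 1) := by
  unfold glue tab; split_ifs <;> omega
theorem glue01 : glue (3 * p) (3 * q + 1) = 3 * (p + q) := by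
  unfold glue tab; split_ifs <;> omega
theorem glue02 : glue (3 * p) (3 * q + 2) = 3 * (p + q) := by
  unfold glue tab; split_ifs <;> omega
theorem glue10 : glue (3 * p + 1) (3 * q) = 3 * (p + q) := by
  unfold glue tab; split_ifs <;> omega
theorem glue11 : glue (3 * p + 1) (3 * q + 1) = 3 * (p + q) + 1 := by
  unfold glue tab; split_ifs <;> omega
theorem glue12 : glue (3 * p + 1) (3 * q + 2) = 3 * (p + q) + 1 := by
  unfold glue tab; split_ifs <;> omega
theorem glue20 : glue (3 * p + 2) (3 * q) = 3 * (p + q) := by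
  unfold glue tab; split_ifs <;> omega
theorem glue21 : glue (3 * p + 2) (3 * q + 1) = 3 * (p + q) + 1 := by
  unfold glue tab; split_ifs <;> omega
theorem glue22 : glue (3 * p + 2) (3 * q + 2) = 3 * (p + q) + 2 := by
  unfold glue tab; split_ifs <;> omega

end table

theorem glue_comm (a b : ℤ) : glue a b = glue b a := by
  obtain ⟨p, hp⟩ := split3 a
  obtain ⟨q, hq⟩ := split3 b
  rcases hp with rfl | rfl | rfl <;> rcases hq with rfl | rfl | rfl <;>
    simp only [glue00, glue01, glue02, glue10, glue11, glue12, glue20, glue21, glue22] <;> ring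

theorem glue_assoc (a b c : ℤ) : glue (glue a b) c = glue a (glue b c) := by
  obtain ⟨p, hp⟩ := split3 a
  obtain ⟨q, hq⟩ := split3 b
  obtain ⟨r, hr⟩ := split3 c
  rcases hp with rfl | rfl | rfl <;> rcases hq with rfl | rfl | rfl <;>
    rcases hr with rfl | rfl | rfl <;>
    simp only [glue00, glue01, glue02, glue10, glue11, glue12, glue20, glue21, glue22] <;> ring

theorem glue_eq (a b : ℤ) : glue a b =
    ((a + 2) / 3 + (b + 2) / 3 - 1)
    + min ((a + 2) / 3 + (b + 2) / 3 - 1) (min ((a + 1) / 3 + b / 3) (a / 3 + (b + 1) / 3))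
    + min ((a + 2) / 3 + (b + 2) / 3 - 1) (a / 3 + b / 3) := by
  obtain ⟨p, hp⟩ := split3 a
  obtain ⟨q, hq⟩ := split3 b
  rcases hp with rfl | rfl | rfl <;> rcases hq with rfl | rfl | rfl <;>
    simp only [glue00, glue01, glue02, glue10, glue11, glue12, glue20, glue21, glue22] <;> omega

theorem glue_x (a b : ℤ) : (glue a b + 2) / 3 = (a + 2) / 3 + (b + 2) / 3 - 1 := by
  obtain ⟨p, hp⟩ := split3 a
  obtain ⟨q, hq⟩ := split3 b
  rcases hp with rfl | rfl | rfl <;> rcases hq with rfl | rfl | rfl <;>
    simp only [glue00, glue01, glue02, glue10, glue11, glue12, glue20, glue21, glue22] <;> omega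

theorem glue_y (a b : ℤ) : (glue a b + 1) / 3 =
    min ((a + 2) / 3 + (b + 2) / 3 - 1) (min ((a + 1) / 3 + b / 3) (a / 3 + (b + 1) / 3)) := by
  obtain ⟨p, hp⟩ := split3 a
  obtain ⟨q, hq⟩ := split3 b
  rcases hp with rfl | rfl | rfl <;> rcases hq with rfl | rfl | rfl <;>
    simp only [glue00, glue01, glue02, glue10, glue11, glue12, glue20, glue21, glue22] <;> omega

theorem glue_z (a b : ℤ) : (glue a b) / 3 =
    min ((a + 2) / 3 + (b + 2) / 3 - 1) (a / 3 + b / 3) := by
  obtain ⟨p, hp⟩ := split3 a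
  obtain ⟨q, hq⟩ := split3 b
  rcases hp with rfl | rfl | rfl <;> rcases hq with rfl | rfl | rfl <;>
    simp only [glue00, glue01, glue02, glue10, glue11, glue12, glue20, glue21, glue22] <;> omega

theorem glue_two (a : ℤ) : glue 2 a = a := by
  obtain ⟨p, hp⟩ := split3 a
  rcases hp with rfl | rfl | rfl
  · have := glue20 0 p; simpa using this
  · have := glue21 0 p; simpa using this
  · have := glue22 0 p; simpa using this

theorem glue_mono_left {a b : ℤ} (h : a ≤ b) (c : ℤ) : glue a c ≤ glue b c := by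
  obtain ⟨p, hp⟩ := split3 a
  obtain ⟨q, hq⟩ := split3 b
  obtain ⟨r, hr⟩ := split3 c
  rcases hp with rfl | rfl | rfl <;> rcases hq with rfl | rfl | rfl <;>
    rcases hr with rfl | rfl | rfl <;>
    simp only [glue00, glue01, glue02, glue10, glue11, glue12, glue20, glue21, glue22] <;> omega

theorem glue_mono {a b c d : ℤ} (h : a ≤ b) (h' : c ≤ d) : glue a c ≤ glue b d :=
  (glue_mono_left h c).trans (by rw [glue_comm b c, glue_comm b d]; exact glue_mono_left h' b)

theorem glue_add (a b k : ℤ) : glue (a + 3 * k) b = glue a b + 3 * k := by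
  obtain ⟨p, hp⟩ := split3 a
  obtain ⟨q, hq⟩ := split3 b
  rcases hp with rfl | rfl | rfl <;> rcases hq with rfl | rfl | rfl
  · rw [show 3 * p + 3 * k = 3 * (p + k) by ring, glue00, glue00]; ring
  · rw [show 3 * p + 3 * k = 3 * (p + k) by ring, glue01, glue01]; ring
  · rw [show 3 * p + 3 * k = 3 * (p + k) by ring, glue02, glue02]; ring
  · rw [show 3 * p + 1 + 3 * k = 3 * (p + k) + 1 by ring, glue10, glue10]; ring
  · rw [show 3 * p + 1 + 3 * k = 3 * (p + k) + 1 by ring, glue11, glue11]; ring
  · rw [show 3 * p + 1 + 3 * k = 3 * (p + k) + 1 by ring, glue12, glue12]; ring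
  · rw [show 3 * p + 2 + 3 * k = 3 * (p + k) + 2 by ring, glue20, glue20]; ring
  · rw [show 3 * p + 2 + 3 * k = 3 * (p + k) + 2 by ring, glue21, glue21]; ring
  · rw [show 3 * p + 2 + 3 * k = 3 * (p + k) + 2 by ring, glue22, glue22]; ring

theorem E_mono (c : Bool) {a b : ℤ} (h : a ≤ b) : E c a ≤ E c b := by
  cases c <;> simp only [E] <;> simp <;> omega

theorem E_add (c : Bool) (a k : ℤ) : E c (a + 3 * k) = E c a + 3 * k := by
  cases c <;> simp only [E] <;> simp <;> omega

end Pool.Agent.H44.Cac
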