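import Pool.Agent.H44.Cac.Fin1

/-! merging of demands at a vertex -/

namespace Pool.Agent.H44.Cac

/-- same small values up to a multiple of three -/
def mgEqv (f g : Pf) : Prop := ∃ p : ℤ, f 0 = g 0 + 3 * p ∧ f 1 = g 1 + 3 * p ∧ f 2 = g 2 + 3 * p

theorem mg_okO_congr {f g : Pf} (h : mgEqv f g) (n : ℕ) : okO n f ↔ okO n g := by
  obtain ⟨p, h0, h1, h2⟩ := h
  have e0 : ty f = ty g := by simp only [ty]; omega
  have e1 : cS f = cS g := by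
    simp only [cS, show (f 2 ≤ f 0 + 1) ↔ (g 2 ≤ g 0 + 1) by omega,
      show (f 1 ≤ f 0 + 1) ↔ (g 1 ≤ g 0 + 1) by omega]
  simp only [okO, e0, e1]
  omega

theorem mg_okS_congr {f g : Pf} (h : mgEqv f g) (n : ℕ) : okS n f ↔ okS n g := by
  obtain ⟨p, h0, h1, h2⟩ := h
  have e0 : ty f = ty g := by simp only [ty]; omega
  have e1 : cT f = cT g := by
    simp only [cT, show (f 1 ≤ f 0) ↔ (g 1 ≤ g 0) by omega]
  simp only [okS, e0, e1]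
  omega

theorem mg_okN_congr {f g : Pf} (h : mgEqv f g) (n : ℕ) : okN n f ↔ okN n g := by
  obtain ⟨p, h0, h1, h2⟩ := h
  have e0 : ty f = ty g := by simp only [ty]; omega
  have e1 : cN f = cN g := by
    simp only [cN, show (f 2 ≤ f 0) ↔ (g 2 ≤ g 0) by omega,
      show (f 1 ≤ f 0) ↔ (g 1 ≤ g 0) by omega, show (f 2 ≤ f 0 + 1) ↔ (g 2 ≤ g 0 + 1) by omega]
  simp only [okN, e0, e1]
  omega

theorem mg_okO_le {f : Pf} {n : ℕ} (h : okO n f) : n < 4 := by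
  have := h.2.2
  unfold cS at this
  split_ifs at this <;> omega

theorem mg_okN_le {f : Pf} {n : ℕ} (h : okN n f) : n < 4 := by
  rcases h with ⟨_, _, h⟩ | ⟨_, _, h⟩
  · unfold cN at h
    split_ifs at h <;> omega
  · omega

theorem mg_dead_O {f : Pf} (h : f 0 + 3 ≤ f 2) (n : ℕ) : ¬ okO n f := by
  intro h'; have := h'.2.1; omega

theorem mg_dead_S {f : Pf} (h : f 0 + 3 ≤ f 2) (n : ℕ) : ¬ okS n f := by
  rintro (⟨_, _, h', _⟩ | ⟨_, _, h', _⟩) <;> omega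

theorem mg_dead_N {f : Pf} (h : f 0 + 3 ≤ f 2) (n : ℕ) : ¬ okN n f := by
  rintro (⟨_, h', _⟩ | ⟨_, h', _⟩) <;> omega

theorem mg_dead_gl {f g : Pf} (h : f 0 + 3 ≤ f 2 ∨ g 0 + 3 ≤ g 2) : gl f g 0 + 3 ≤ gl f g 2 := by
  rcases h with h | h
  · exact fin1_dead h
  · rw [gl_comm f g, gl_comm f g]
    exact fin1_dead h

def mgT (x : ℤ × ℤ × ℤ) : Pf := tst x.1 x.2.1 x.2.2
def mgG (x y : ℤ × ℤ × ℤ) : Pf :=
  tst (fin1d0 x y) (fin1d1 x y - fin1d0 x y) (fin1d2 x y - fin1d0 x y)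

theorem mg_red {f g : Pf} (hf : L15 f) (hg : L15 g) : ∃ x ∈ fin1L, ∃ y ∈ fin1L,
    mgEqv f (mgT x) ∧ mgEqv g (mgT y) ∧ mgEqv (gl f g) (mgG x y) := by
  obtain ⟨p, x, hx, f0, f1, f2⟩ := fin1_mem hf
  obtain ⟨q, y, hy, g0, g1, g2⟩ := fin1_mem hg
  obtain ⟨e0, e1, e2⟩ := fin1_gl f0 f1 f2 g0 g1 g2
  refine ⟨x, hx, y, hy, ⟨p, ?_, ?_, ?_⟩, ⟨q, ?_, ?_, ?_⟩, ⟨p + q, ?_, ?_, ?_⟩⟩ <;>
    simp [mgT, mgG, tst, f0, f1, f2, g0, g1, g2, e0, e1, e2]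

instance (n : ℕ) (g : Pf) : Decidable (okO n g) := by unfold okO; infer_instance
instance (n : ℕ) (g : Pf) : Decidable (okS n g) := by unfold okS; infer_instance
instance (n : ℕ) (g : Pf) : Decidable (okN n g) := by unfold okN; infer_instance

theorem mg_O_aux : ∀ x ∈ fin1L, ∀ y ∈ fin1L, ∀ n ∈ Finset.range 4,
    (okO n (mgG x y) ↔
      (∃ a ∈ Finset.range 4, ∃ b ∈ Finset.range 3, n ≤ a + b ∧ okO a (mgT x) ∧ okS b (mgT y)) ∨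
      (∃ a ∈ Finset.range 3, ∃ b ∈ Finset.range 4, n ≤ a + b ∧ okS a (mgT x) ∧ okO b (mgT y))) := by
  decide +kernel

theorem mg_S_aux : ∀ x ∈ fin1L, ∀ y ∈ fin1L, ∀ n ∈ Finset.range 3,
    (okS n (mgG x y) ↔ ∃ a ∈ Finset.range 3, ∃ b ∈ Finset.range 3,
      n ≤ a + b ∧ okS a (mgT x) ∧ okS b (mgT y)) := by
  decide +kernel

theorem mg_N_aux : ∀ x ∈ fin1L, ∀ y ∈ fin1L, ∀ n ∈ Finset.range 4,
    (okN n (mgG x y) ↔ ∃ a ∈ Finset.range 4, ∃ b ∈ Finset.range 4,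
      n ≤ a + b ∧ okN a (mgT x) ∧ okN b (mgT y)) := by
  decide +kernel

theorem mg_K_aux : ∀ x ∈ fin1L, ∀ y ∈ fin1L,
    ((fin1d0 x y % 3 = 2 ∧ fin1d2 x y ≤ fin1d0 x y + 2) ↔
      (x.1 % 3 = 2 ∧ y.1 % 3 = 2 ∧ (1 ≤ x.2.1 → y.2.1 ≤ 1) ∧ (1 ≤ y.2.1 → x.2.1 ≤ 1))) ∧
    ((fin1d0 x y % 3 = 2 ∧ fin1d2 x y ≤ fin1d0 x y + 2) →
      fin1d1 x y - fin1d0 x y = max x.2.1 y.2.1) := by
  decide +kernel

theorem mg_K {f g : Pf} (hf : Adm f) (hg : Adm g) :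
    (ty (gl f g) = 2 ∧ gl f g 2 ≤ gl f g 0 + 2) ↔
      (ty f = 2 ∧ f 2 ≤ f 0 + 2 ∧ ty g = 2 ∧ g 2 ≤ g 0 + 2 ∧
        (f 0 + 1 ≤ f 1 → g 1 ≤ g 0 + 1) ∧ (g 0 + 1 ≤ g 1 → f 1 ≤ f 0 + 1)) := by
  rcases hf.2 with h | h
  · have := mg_dead_gl (f := f) (g := g) (Or.inl h)
    omega
  rcases hg.2 with h' | h'
  · have := mg_dead_gl (f := f) (g := g) (Or.inr h')
    omega
  obtain ⟨p, x, hx, f0, f1, f2⟩ := fin1_mem h
  obtain ⟨q, y, hy, g0, g1, g2⟩ := fin1_mem h'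
  obtain ⟨e0, e1, e2⟩ := fin1_gl f0 f1 f2 g0 g1 g2
  have h1 := h.le3
  have h2 := h'.le3
  have := (mg_K_aux x hx y hy).1
  simp only [ty, e0, e1, e2]
  omega

theorem mg_K1 {f g : Pf} (hf : Adm f) (hg : Adm g)
    (h : ty (gl f g) = 2 ∧ gl f g 2 ≤ gl f g 0 + 2) :
    gl f g 1 - gl f g 0 = max (f 1 - f 0) (g 1 - g 0) := by
  rcases hf.2 with h1 | h1
  · have := mg_dead_gl (f := f) (g := g) (Or.inl h1)
    omega
  rcases hg.2 with h' | h'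
  · have := mg_dead_gl (f := f) (g := g) (Or.inr h')
    omega
  obtain ⟨p, x, hx, f0, f1, f2⟩ := fin1_mem h1
  obtain ⟨q, y, hy, g0, g1, g2⟩ := fin1_mem h'
  obtain ⟨e0, e1, e2⟩ := fin1_gl f0 f1 f2 g0 g1 g2
  have := (mg_K_aux x hx y hy).2 (by simp only [ty, e0, e2] at h; omega)
  omega

theorem mg_O' {f g : Pf} (hf : Adm f) (hg : Adm g) (n : ℕ) (hn : n ≤ 3) :
    okO n (gl f g) ↔
      (∃ a b, n ≤ a + b ∧ b ≤ 2 ∧ okO a f ∧ okS b g) ∨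
      (∃ a b, n ≤ a + b ∧ a ≤ 2 ∧ okS a f ∧ okO b g) := by
  rcases hf.2 with h | h
  · have e := mg_dead_gl (f := f) (g := g) (Or.inl h)
    constructor
    · intro h1; exact absurd h1 (mg_dead_O e _)
    · rintro (⟨a, b, _, _, h1, _⟩ | ⟨a, b, _, _, h1, _⟩)
      · exact absurd h1 (mg_dead_O h _)
      · exact absurd h1 (mg_dead_S h _)
  rcases hg.2 with h' | h'
  · have e := mg_dead_gl (f := f) (g := g) (Or.inr h')
    constructor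
    · intro h1; exact absurd h1 (mg_dead_O e _)
    · rintro (⟨a, b, _, _, _, h1⟩ | ⟨a, b, _, _, _, h1⟩)
      · exact absurd h1 (mg_dead_S h' _)
      · exact absurd h1 (mg_dead_O h' _)
  obtain ⟨x, hx, y, hy, ef, eg, e⟩ := mg_red h h'
  rw [mg_okO_congr e, mg_O_aux x hx y hy n (by simp; omega)]
  simp only [mg_okO_congr ef, mg_okO_congr eg, mg_okS_congr ef, mg_okS_congr eg, Finset.mem_range]
  constructor
  · rintro (⟨a, ha, b, hb, h1, h2, h3⟩ | ⟨a, ha, b, hb, h1, h2, h3⟩)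
    · exact Or.inl ⟨a, b, h1, by omega, h2, h3⟩
    · exact Or.inr ⟨a, b, h1, by omega, h2, h3⟩
  · rintro (⟨a, b, h1, hb, h2, h3⟩ | ⟨a, b, h1, hb, h2, h3⟩)
    · exact Or.inl ⟨a, mg_okO_le h2, b, by omega, h1, h2, h3⟩
    · exact Or.inr ⟨a, by omega, b, mg_okO_le h3, h1, h2, h3⟩

/-- own strength on one side -/
theorem mg_O {f g : Pf} (hf : Adm f) (hg : Adm g) (n : ℕ) (hn : n ≤ 3) :
    (ty (gl f g) = 0 ∧ gl f g 2 ≤ gl f g 0 + 2 ∧ n ≤ cS (gl f g)) ↔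
      (∃ a b, n ≤ a + b ∧ b ≤ 2 ∧ okO a f ∧ okS b g) ∨ (∃ a b, n ≤ a + b ∧ a ≤ 2 ∧ okS a f ∧ okO b g) :=
  mg_O' hf hg n hn

theorem mg_S {f g : Pf} (hf : Adm f) (hg : Adm g) (n : ℕ) (hn : n ≤ 2) :
    okS n (gl f g) ↔ ∃ a b, n ≤ a + b ∧ a ≤ 2 ∧ b ≤ 2 ∧ okS a f ∧ okS b g := by
  rcases hf.2 with h | h
  · have e := mg_dead_gl (f := f) (g := g) (Or.inl h)
    constructor
    · intro h1; exact absurd h1 (mg_dead_S e _)
    · rintro ⟨a, b, _, _, _, h1, _⟩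
      exact absurd h1 (mg_dead_S h _)
  rcases hg.2 with h' | h'
  · have e := mg_dead_gl (f := f) (g := g) (Or.inr h')
    constructor
    · intro h1; exact absurd h1 (mg_dead_S e _)
    · rintro ⟨a, b, _, _, _, _, h1⟩
      exact absurd h1 (mg_dead_S h' _)
  obtain ⟨x, hx, y, hy, ef, eg, e⟩ := mg_red h h'
  rw [mg_okS_congr e, mg_S_aux x hx y hy n (by simp; omega)]
  simp only [mg_okS_congr ef, mg_okS_congr eg, Finset.mem_range]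
  constructor
  · rintro ⟨a, ha, b, hb, h1, h2, h3⟩
    exact ⟨a, b, h1, by omega, by omega, h2, h3⟩
  · rintro ⟨a, b, h1, ha, hb, h2, h3⟩
    exact ⟨a, by omega, b, by omega, h1, h2, h3⟩

theorem mg_N {f g : Pf} (hf : Adm f) (hg : Adm g) (n : ℕ) (hn : n ≤ 3) :
    okN n (gl f g) ↔ ∃ a b, n ≤ a + b ∧ okN a f ∧ okN b g := by
  rcases hf.2 with h | h
  · have e := mg_dead_gl (f := f) (g := g) (Or.inl h)
    constructor
    · intro h1; exact absurd h1 (mg_dead_N e _)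
    · rintro ⟨a, b, _, h1, _⟩
      exact absurd h1 (mg_dead_N h _)
  rcases hg.2 with h' | h'
  · have e := mg_dead_gl (f := f) (g := g) (Or.inr h')
    constructor
    · intro h1; exact absurd h1 (mg_dead_N e _)
    · rintro ⟨a, b, _, _, h1⟩
      exact absurd h1 (mg_dead_N h' _)
  obtain ⟨x, hx, y, hy, ef, eg, e⟩ := mg_red h h'
  rw [mg_okN_congr e, mg_N_aux x hx y hy n (by simp; omega)]
  simp only [mg_okN_congr ef, mg_okN_congr eg, Finset.mem_range]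
  constructor
  · rintro ⟨a, ha, b, hb, h1, h2, h3⟩
    exact ⟨a, b, h1, h2, h3⟩
  · rintro ⟨a, b, h1, h2, h3⟩
    exact ⟨a, mg_okN_le h2, b, mg_okN_le h3, h1, h2, h3⟩

end Pool.Agent.H44.Cac
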