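import Pool.Agent.H44.Cac.CertE
import Pool.Agent.H44.Cac.Merge

namespace Pool.Agent.H44.Cac

open Classical

variable {V : Type*}

namespace AttachAux

/-- conditions of a certificate at a critical vertex -/
def Crit (𝓑 : Finset (Finset V)) (q : Finset V → ℕ) (v : V) (g : Pf) : Prop :=
  ty g = 2 ∧ g 2 ≤ g 0 + 2 ∧
    (∀ B ∈ 𝓑, v ∈ B → q B ≤ 2) ∧
    (∀ B ∈ 𝓑, v ∈ B → 1 ≤ q B → g 1 ≤ g 0 + 1) ∧
    (∀ B ∈ 𝓑, v ∈ B → 2 ≤ q B → g 1 ≤ g 0) ∧
    (∀ B ∈ 𝓑, ∀ B' ∈ 𝓑, v ∈ B → v ∈ B' → B ≠ B' → 2 ≤ q B → q B' = 0)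

/-- conditions of a certificate at a vertex -/
structure VOK (G : SimpleGraph V) (𝓑 : Finset (Finset V)) (K : Finset V)
    (m q : V → Finset V → ℕ) (w : V) (g : Pf) : Prop where
  crit : w ∈ K → Crit 𝓑 (q w) w g
  own : w ∉ K → ty g = 0 →
    (∀ x ∈ K, ¬ G.Adj w x) ∧ g 2 ≤ g 0 + 2 ∧ 3 ≤ cS g + sm 𝓑 m w
  strong : w ∉ K → ty g ≠ 0 → (∃ x ∈ K, G.Adj w x) →
    (∀ B ∈ 𝓑, ∀ B' ∈ 𝓑, w ∈ B → w ∈ B' → (∃ x ∈ K, x ∈ B ∧ G.Adj w x) →
      (∃ x ∈ K, x ∈ B' ∧ G.Adj w x) → B = B') ∧
    (ty g = 1 → g 2 ≤ g 0 + 2 ∧ 3 ≤ cT g + sm 𝓑 m w) ∧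
    (ty g = 2 → g 1 ≤ g 0 ∧ g 2 ≤ g 0 + 1 ∧ 3 ≤ sm 𝓑 m w)
  weak : w ∉ K → ty g ≠ 0 → (∀ x ∈ K, ¬ G.Adj w x) →
    (ty g = 1 → g 2 ≤ g 0 + 1 ∧ 3 ≤ cN g + sm 𝓑 m w) ∧
    (ty g = 2 → g 2 ≤ g 0 ∧ 3 ≤ sm 𝓑 m w)

theorem wcert_iff_vok {G : SimpleGraph V} {R : Finset V} {𝓑 : Finset (Finset V)} {f : V → Pf}
    {K : Finset V} {m q : V → Finset V → ℕ} :
    WCert G R 𝓑 f K m q ↔ K ⊆ R ∧ (∀ w ∈ R, VOK G 𝓑 K m q w (f w)) ∧
      ∀ B ∈ 𝓑, BRule G K (Sg G f K) m q B := by
  constructor
  · intro h
    exact ⟨h.sub, fun w hw => ⟨fun hk => h.crit w hk, h.own w hw, h.strong w hw, h.weak w hw⟩,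
      h.block⟩
  · rintro ⟨h1, h2, h3⟩
    exact ⟨h1, fun x hx => (h2 x (h1 hx)).crit hx, fun w hw => (h2 w hw).own,
      fun w hw => (h2 w hw).strong, fun w hw => (h2 w hw).weak, h3⟩

theorem sm_congr {𝓑 𝓑' : Finset (Finset V)} {m m' : V → Finset V → ℕ} {w : V}
    (hb : ∀ B, w ∈ B → (B ∈ 𝓑 ↔ B ∈ 𝓑')) (hm : ∀ B ∈ 𝓑, w ∈ B → m w B = m' w B) :
    sm 𝓑 m w = sm 𝓑' m' w := by
  unfold sm
  have e : 𝓑.filter (fun B => w ∈ B) = 𝓑'.filter (fun B => w ∈ B) := by
    ext B
    simp only [Finset.mem_filter]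
    constructor
    · rintro ⟨h, h'⟩; exact ⟨(hb B h').1 h, h'⟩
    · rintro ⟨h, h'⟩; exact ⟨(hb B h').2 h, h'⟩
  rw [← e]
  apply Finset.sum_congr rfl
  intro B hB
  simp only [Finset.mem_filter] at hB
  exact hm B hB.1 hB.2

theorem VOK.congr {G : SimpleGraph V} {𝓑 𝓑' : Finset (Finset V)} {K K' : Finset V}
    {m q m' q' : V → Finset V → ℕ} {w : V} {g : Pf}
    (h : VOK G 𝓑 K m q w g)
    (hb : ∀ B, w ∈ B → (B ∈ 𝓑 ↔ B ∈ 𝓑'))
    (hm : ∀ B ∈ 𝓑, w ∈ B → m w B = m' w B) (hq : ∀ B ∈ 𝓑, w ∈ B → q w B = q' w B)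
    (hK : w ∈ K ↔ w ∈ K') (hN : ∀ x, G.Adj w x → (x ∈ K ↔ x ∈ K')) :
    VOK G 𝓑' K' m' q' w g := by
  have hs := sm_congr hb hm
  have hex : ∀ P : V → Prop, (∃ x ∈ K', P x ∧ G.Adj w x) → (∃ x ∈ K, P x ∧ G.Adj w x) := by
    rintro P ⟨x, hx, hP, ha⟩
    exact ⟨x, (hN x ha).2 hx, hP, ha⟩
  have hall : (∀ x ∈ K', ¬ G.Adj w x) → ∀ x ∈ K, ¬ G.Adj w x := by
    intro h x hx ha
    exact h x ((hN x ha).1 hx) ha
  refine ⟨?_, ?_, ?_, ?_⟩
  · intro hk
    obtain ⟨h1, h2, h3, h4, h5, h6⟩ := h.crit (hK.2 hk)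
    refine ⟨h1, h2, ?_, ?_, ?_, ?_⟩
    · intro B hB hw
      have hB' := (hb B hw).2 hB
      rw [← hq B hB' hw]; exact h3 B hB' hw
    · intro B hB hw
      have hB' := (hb B hw).2 hB
      rw [← hq B hB' hw]; exact h4 B hB' hw
    · intro B hB hw
      have hB' := (hb B hw).2 hB
      rw [← hq B hB' hw]; exact h5 B hB' hw
    · intro B hB C hC hw hw'
      have hB' := (hb B hw).2 hB
      have hC' := (hb C hw').2 hC
      rw [← hq B hB' hw, ← hq C hC' hw']; exact h6 B hB' C hC' hw hw'
  · intro hk h0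
    rw [← hs]
    obtain ⟨h1, h2⟩ := h.own (fun h => hk (hK.1 h)) h0
    refine ⟨?_, h2⟩
    intro x hx ha
    exact h1 x ((hN x ha).2 hx) ha
  · intro hk h0 hx
    rw [← hs]
    obtain ⟨x, hx, hxa⟩ := hx
    obtain ⟨h1, h2⟩ := h.strong (fun h => hk (hK.1 h)) h0 ⟨x, (hN x hxa).2 hx, hxa⟩
    refine ⟨?_, h2⟩
    intro B hB B' hB' hw hw' he he'
    exact h1 B ((hb B hw).2 hB) B' ((hb B' hw').2 hB') hw hw' (hex _ he) (hex _ he')
  · intro hk h0 hx
    rw [← hs]
    exact h.weak (fun h => hk (hK.1 h)) h0 (hall hx)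

theorem brule_congr {G : SimpleGraph V} {K K' : Finset V} {S S' : V → Prop}
    {m q m' q' : V → Finset V → ℕ} {B : Finset V} (h : BRule G K S m q B)
    (hK : ∀ w ∈ B, (w ∈ K ↔ w ∈ K')) (hS : ∀ w ∈ B, S w → S' w)
    (hm : ∀ w ∈ B, m w B = m' w B) (hq : ∀ w ∈ B, q w B = q' w B) :
    BRule G K' S' m' q' B := by
  have hBK : B ∩ K = B ∩ K' := by
    ext w
    simp only [Finset.mem_inter]
    constructor
    · rintro ⟨h1, h2⟩; exact ⟨h1, (hK w h1).1 h2⟩
    · rintro ⟨h1, h2⟩; exact ⟨h1, (hK w h1).2 h2⟩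
  have hsub : B ⊆ K' → B ⊆ K := fun h w hw => (hK w hw).2 (h hw)
  have hsub' : ¬ B ⊆ K' → ¬ B ⊆ K := fun h h' => h fun w hw => (hK w hw).1 (h' hw)
  refine ⟨?_, ?_, ?_, ?_⟩
  · intro w hw hk
    rw [← hm w hw]
    refine (h.bound w hw (fun h => hk ((hK w hw).1 h))).trans (Finset.card_le_card ?_)
    intro u hu
    simp only [Finset.mem_filter] at hu ⊢
    exact ⟨hu.1, hu.2.1, hS u hu.1 hu.2.2⟩
  · intro h2 h'
    exact h.edge h2 (hsub h')
  · intro h3 h'
    obtain ⟨h4, h5⟩ := h.full h3 (hsub h')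
    refine ⟨h4, fun x hx => ?_⟩
    rw [← hq x hx]; exact h5 x hx
  · intro h3 h4 h5
    rw [← hBK] at h5 ⊢
    rcases h.mixed h3 (hsub' h4) h5 with ⟨a1, a2, a3, a4, a5⟩ | ⟨a1, a2, a3⟩
    · left
      refine ⟨?_, ?_, a3, ?_, ?_⟩
      · intro u hu w hw ha
        rcases a1 u hu w hw ha with h | h
        · exact Or.inl ((hK u hu).1 h)
        · exact Or.inr ((hK w hw).1 h)
      · intro x hx
        obtain ⟨w, hw, ha, hk⟩ := a2 x hx
        exact ⟨w, hw, ha, fun h => hk ((hK w hw).2 h)⟩
      · intro x hx hy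
        rw [← hq x (Finset.mem_inter.1 hx).1]
        exact a4 x hx hy
      · intro x hx y hy ha
        rw [← hq x (Finset.mem_inter.1 hx).1, ← hq y (Finset.mem_inter.1 hy).1]
        exact a5 x hx y hy ha
    · right
      refine ⟨a1, ?_, ?_⟩
      · intro w hw hk
        obtain ⟨u, hu, ha, hk'⟩ := a2 w hw (fun h => hk ((hK w hw).1 h))
        exact ⟨u, hu, ha, fun h => hk' ((hK u hu).2 h)⟩
      · intro x hx
        obtain ⟨b3, b4, b5⟩ := a3 x hx
        have hxB : x ∈ B := by
          have : x ∈ B ∩ K := by rw [hx]; exact Finset.mem_singleton_self x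
          exact (Finset.mem_inter.1 this).1
        refine ⟨?_, ?_, ?_⟩
        · intro h
          rcases b3 h with h | h
          · left; rw [← hq x hxB]; exact h
          · right
            intro w hw hne
            rw [← hm w hw]; exact h w hw hne
        · intro h
          rcases b4 h with h | h
          · left; rw [← hq x hxB]; exact h
          · right
            intro w hw hne
            rw [← hm w hw]; exact h w hw hne
        · intro h
          have := b5 h
          rw [Finset.sum_congr rfl (g := fun u => m' u B)] at this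
          · exact this
          · intro u hu
            exact hm u (Finset.mem_filter.1 hu).1

/-- labels raised to one at the vertices outside of `K` with a neighbour in `K` in the block -/
noncomputable def nm (G : SimpleGraph V) (K : Finset V) (m : V → Finset V → ℕ) (w : V)
    (B : Finset V) : ℕ :=
  if w ∉ K ∧ ∃ x ∈ K, x ∈ B ∧ G.Adj w x then max 1 (m w B) else m w B

theorem le_nm (G : SimpleGraph V) (K : Finset V) (m : V → Finset V → ℕ) (w : V)
    (B : Finset V) : m w B ≤ nm G K m w B := by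
  unfold nm
  split_ifs
  · exact le_max_right _ _
  · exact le_rfl

theorem nm_le_one {G : SimpleGraph V} {K : Finset V} {m : V → Finset V → ℕ} {w : V}
    {B : Finset V} (h : m w B ≤ 1) : nm G K m w B ≤ 1 := by
  unfold nm
  split_ifs
  · exact max_le le_rfl h
  · exact h

theorem sm_nm (G : SimpleGraph V) (𝓑 : Finset (Finset V)) (K : Finset V)
    (m : V → Finset V → ℕ) (w : V) : sm 𝓑 m w ≤ sm 𝓑 (nm G K m) w :=
  Finset.sum_le_sum fun B _ => le_nm G K m w B

theorem brule_nm {G : SimpleGraph V} {K : Finset V} {S : V → Prop}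
    {m q : V → Finset V → ℕ} {B : Finset V} (h : BRule G K S m q B) (hS : ∀ x ∈ K, S x) :
    BRule G K S (nm G K m) q B := by
  refine ⟨?_, h.edge, h.full, ?_⟩
  · intro w hw hk
    have hb := h.bound w hw hk
    unfold nm
    split_ifs with hc
    · obtain ⟨-, x, hx, hxB, ha⟩ := hc
      apply max_le _ hb
      apply Finset.card_pos.2
      exact ⟨x, Finset.mem_filter.2 ⟨hxB, ha, hS x hx⟩⟩
    · exact hb
  · intro h3 h4 h5
    rcases h.mixed h3 h4 h5 with h | ⟨a1, a2, a3⟩
    · exact Or.inl h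
    · right
      refine ⟨a1, a2, ?_⟩
      intro x hx
      obtain ⟨b3, b4, b5⟩ := a3 x hx
      refine ⟨?_, ?_, ?_⟩
      · intro h
        rcases b3 h with h | h
        · exact Or.inl h
        · right; intro w hw hne; exact nm_le_one (h w hw hne)
      · intro h
        rcases b4 h with h | h
        · exact Or.inl h
        · right; intro w hw hne ha; exact nm_le_one (h w hw hne ha)
      · intro h
        have := b5 h
        rw [Finset.sum_congr rfl (g := fun u => nm G K m u B)] at this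
        · exact this
        · intro u hu
          obtain ⟨hu1, hu2, hu3⟩ := Finset.mem_filter.1 hu
          unfold nm
          rw [if_neg]
          rintro ⟨-, y, hy, hyB, ha⟩
          have : y ∈ B ∩ K := Finset.mem_inter.2 ⟨hyB, hy⟩
          rw [hx, Finset.mem_singleton] at this
          subst this
          exact hu3 ha.symm

theorem wcert_nm {G : SimpleGraph V} {R : Finset V} {𝓑 : Finset (Finset V)} {f : V → Pf}
    {K : Finset V} {m q : V → Finset V → ℕ} (h : WCert G R 𝓑 f K m q) :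
    WCert G R 𝓑 f K (nm G K m) q := by
  refine ⟨h.sub, h.crit, ?_, ?_, ?_, ?_⟩
  · intro w hw hk h0
    obtain ⟨h1, h2, h3⟩ := h.own w hw hk h0
    exact ⟨h1, h2, h3.trans (Nat.add_le_add_left (sm_nm G 𝓑 K m w) _)⟩
  · intro w hw hk h0 hx
    obtain ⟨h1, h2, h3⟩ := h.strong w hw hk h0 hx
    refine ⟨h1, fun h => ?_, fun h => ?_⟩
    · obtain ⟨a, b⟩ := h2 h
      exact ⟨a, b.trans (Nat.add_le_add_left (sm_nm G 𝓑 K m w) _)⟩
    · obtain ⟨a, b, c⟩ := h3 h
      exact ⟨a, b, c.trans (sm_nm G 𝓑 K m w)⟩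
  · intro w hw hk h0 hx
    obtain ⟨h2, h3⟩ := h.weak w hw hk h0 hx
    refine ⟨fun h => ?_, fun h => ?_⟩
    · obtain ⟨a, b⟩ := h2 h
      exact ⟨a, b.trans (Nat.add_le_add_left (sm_nm G 𝓑 K m w) _)⟩
    · obtain ⟨a, b⟩ := h3 h
      exact ⟨a, b.trans (sm_nm G 𝓑 K m w)⟩
  · intro B hB
    exact brule_nm (h.block B hB) (fun x hx => Or.inl hx)

theorem cS_pos (g : Pf) : 1 ≤ cS g := by unfold cS; split_ifs <;> omega
theorem cS_le (g : Pf) : cS g ≤ 3 := by unfold cS; split_ifs <;> omega
theorem cT_pos (g : Pf) : 1 ≤ cT g := by unfold cT; split_ifs <;> omega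
theorem cT_le (g : Pf) : cT g ≤ 2 := by unfold cT; split_ifs <;> omega
theorem cN_le (g : Pf) : cN g ≤ 3 := by unfold cN; split_ifs <;> omega

theorem sm_insert {𝓑 : Finset (Finset V)} {B0 : Finset V} (hB0 : B0 ∉ 𝓑)
    (m : V → Finset V → ℕ) {v : V} (hv : v ∈ B0) :
    sm (insert B0 𝓑) m v = m v B0 + sm 𝓑 m v := by
  unfold sm
  rw [Finset.filter_insert, if_pos hv, Finset.sum_insert]
  simp [hB0]

theorem ty_cases (g : Pf) : ty g = 0 ∨ ty g = 1 ∨ ty g = 2 := by
  unfold ty; omega

theorem live_of {g : Pf} (hg : Adm g) (h : g 2 ≤ g 0 + 2) : L15 g := by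
  rcases hg.2 with h' | h'
  · omega
  · exact h'

theorem merge_crit {𝓑 : Finset (Finset V)} {q : Finset V → ℕ} {v : V} {g α : Pf}
    {B0 : Finset V} (hg : Adm g) (hα : Adm α) (hB0 : B0 ∉ 𝓑) (hv : v ∈ B0)
    (h : Crit (insert B0 𝓑) q v g) (hk : okK (q B0) α) : Crit 𝓑 q v (gl g α) := by
  obtain ⟨h1, h2, h3, h4, h5, h6⟩ := h
  obtain ⟨k1, k2, k3⟩ := hk
  have i0 : B0 ∈ insert B0 𝓑 := Finset.mem_insert_self _ _
  have hi : ∀ B ∈ 𝓑, B ∈ insert B0 𝓑 := fun B hB => Finset.mem_insert_of_mem hB
  have q0 := h3 B0 i0 hv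
  have q1 := h4 B0 i0 hv
  have q2 := h5 B0 i0 hv
  have hgl : ty (gl g α) = 2 ∧ gl g α 2 ≤ gl g α 0 + 2 := by
    rw [mg_K hg hα]
    refine ⟨h1, h2, k1, k3, ?_, ?_⟩
    · intro h
      by_contra hc
      have := q2 (by omega)
      omega
    · intro h
      exact q1 (by omega)
  have hm := mg_K1 hg hα hgl
  refine ⟨hgl.1, hgl.2, fun B hB => h3 B (hi B hB), ?_, ?_, ?_⟩
  · intro B hB hvB hq
    have e1 := h4 B (hi B hB) hvB hq
    have hne : B0 ≠ B := fun h => hB0 (h ▸ hB)
    have e2 := h6 B0 i0 B (hi B hB) hv hvB hne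
    have e3 : α 1 - α 0 ≤ 1 := by
      by_contra hc
      have := e2 (by omega)
      omega
    have e4 : max (g 1 - g 0) (α 1 - α 0) ≤ 1 := max_le (by omega) e3
    omega
  · intro B hB hvB hq
    have e1 := h5 B (hi B hB) hvB hq
    have hne : B ≠ B0 := fun h => hB0 (h ▸ hB)
    have e2 := h6 B (hi B hB) B0 i0 hvB hv hne hq
    have e4 : max (g 1 - g 0) (α 1 - α 0) ≤ 0 := max_le (by omega) (by omega)
    omega
  · intro B hB C hC
    exact h6 B (hi B hB) C (hi C hC)

theorem split_crit {𝓑 : Finset (Finset V)} {q q1 : Finset V → ℕ} {v : V} {g α : Pf}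
    {B0 : Finset V} (hg : Adm g) (hα : Adm α) (hB0 : B0 ∉ 𝓑)
    (h : Crit 𝓑 q1 v (gl g α)) (hq : ∀ B ∈ 𝓑, q B = q1 B) (hq0 : (q B0 : ℤ) ≤ α 1 - α 0) :
    Crit (insert B0 𝓑) q v g := by
  obtain ⟨h1, h2, h3, h4, h5, h6⟩ := h
  obtain ⟨g1, g2, k1, k2, k3, k4⟩ := (mg_K hg hα).1 ⟨h1, h2⟩
  have hm := mg_K1 hg hα ⟨h1, h2⟩
  have l1 := le_max_left (g 1 - g 0) (α 1 - α 0)
  have l2 := le_max_right (g 1 - g 0) (α 1 - α 0)
  have hmon := hα.1 (show (1 : ℕ) ≤ 2 by omega)
  refine ⟨g1, g2, ?_, ?_, ?_, ?_⟩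
  · intro B hB hv
    rcases Finset.mem_insert.1 hB with rfl | hB
    · omega
    · rw [hq B hB]; exact h3 B hB hv
  · intro B hB hv
    rcases Finset.mem_insert.1 hB with rfl | hB
    · intro h
      exact k4 (by omega)
    · rw [hq B hB]
      intro h
      have := h4 B hB hv h
      omega
  · intro B hB hv
    rcases Finset.mem_insert.1 hB with rfl | hB
    · intro h
      by_contra hc
      have := k3 (by omega)
      omega
    · rw [hq B hB]
      intro h
      have := h5 B hB hv h
      omega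
  · intro B hB C hC hv hv' hne
    rcases Finset.mem_insert.1 hB with h0 | hB1
    · rcases Finset.mem_insert.1 hC with h0' | hC1
      · exact absurd (h0.trans h0'.symm) hne
      · intro h
        rw [hq C hC1]
        rw [h0] at h
        by_contra hc
        have := h4 C hC1 hv' (by omega)
        omega
    · rcases Finset.mem_insert.1 hC with h0' | hC1
      · rw [hq B hB1]
        intro h
        have := h5 B hB1 hv h
        rw [h0']
        omega
      · rw [hq B hB1, hq C hC1]
        exact h6 B hB1 C hC1 hv hv' hne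

theorem sm_only {R : Finset V} {𝓑 : Finset (Finset V)} {B0 : Finset V} (hB : ∀ B ∈ 𝓑, B ⊆ R)
    (hB0 : B0 ∉ 𝓑) (m : V → Finset V → ℕ) {w : V} (hw : w ∈ B0) (hwR : w ∉ R) :
    sm (insert B0 𝓑) m w = m w B0 := by
  rw [sm_insert hB0 m hw]
  unfold sm
  rw [Finset.filter_eq_empty_iff.2, Finset.sum_empty, add_zero]
  intro B hB' hw'
  exact hwR (hB B hB' hw')

section side

variable {G : SimpleGraph V} {R : Finset V} {𝓑 : Finset (Finset V)} {f : V → Pf}
    {v : V} {A : Finset V}

theorem side_of_cert {K : Finset V} {m q : V → Finset V → ℕ} {kv sv : Prop}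
    (hd : ∀ a ∈ A, a ∉ R) (hn : ∀ a ∈ A, ∀ y ∈ R, G.Adj a y → y = v)
    (hB : ∀ B ∈ 𝓑, B ⊆ R) (hB0 : insert v A ∉ 𝓑)
    (h : WCert G (R ∪ A) (insert (insert v A) 𝓑) f K m q)
    (hkv : kv ↔ v ∈ K) (hsv : Sg G f K v → sv) :
    BSide G f A v kv sv (K ∩ A) (fun w => m w (insert v A)) (fun w => q w (insert v A)) := by
  have i0 : insert v A ∈ insert (insert v A) 𝓑 := Finset.mem_insert_self _ _
  have hA : ∀ w ∈ A, w ∈ insert v A := fun w hw => Finset.mem_insert_of_mem hw
  have hRA : ∀ w ∈ A, w ∈ R ∪ A := fun w hw => Finset.mem_union_right _ hw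
  have hsm : ∀ w ∈ A, sm (insert (insert v A) 𝓑) m w = m w (insert v A) := fun w hw =>
    sm_only hB hB0 m (hA w hw) (hd w hw)
  have hnk : ∀ w ∈ A, w ∉ K ∩ A → w ∉ K := fun w hw h h' => h (Finset.mem_inter.2 ⟨h', hw⟩)
  have hnb : ∀ w ∈ A, ∀ x ∈ K, G.Adj w x → x ∈ K ∩ A ∨ (kv ∧ x = v) := by
    intro w hw x hx ha
    rcases Finset.mem_union.1 (h.sub hx) with hxR | hxA
    · right
      have := hn w hw x hxR ha
      exact ⟨hkv.2 (this ▸ hx), this⟩
    · left; exact Finset.mem_inter.2 ⟨hx, hxA⟩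
  have hbn : ∀ x, (x ∈ K ∩ A ∨ (kv ∧ x = v)) → x ∈ K := by
    rintro x (hx | ⟨hk, rfl⟩)
    · exact (Finset.mem_inter.1 hx).1
    · exact hkv.1 hk
  have hKK : ∀ w ∈ insert v A, (w ∈ K ↔ w ∈ (if kv then insert v (K ∩ A) else K ∩ A)) := by
    intro w hw
    by_cases hk : kv
    · rw [if_pos hk]
      constructor
      · intro hwK
        rcases Finset.mem_insert.1 hw with rfl | hwA
        · exact Finset.mem_insert_self _ _
        · exact Finset.mem_insert_of_mem (Finset.mem_inter.2 ⟨hwK, hwA⟩)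
      · intro hwK
        rcases Finset.mem_insert.1 hwK with rfl | hwA
        · exact hkv.1 hk
        · exact (Finset.mem_inter.1 hwA).1
    · rw [if_neg hk]
      constructor
      · intro hwK
        rcases Finset.mem_insert.1 hw with rfl | hwA
        · exact absurd (hkv.2 hwK) hk
        · exact Finset.mem_inter.2 ⟨hwK, hwA⟩
      · intro hwK
        exact (Finset.mem_inter.1 hwK).1
  refine ⟨Finset.inter_subset_right, ?_, ?_, ?_, ?_, ?_, ?_⟩
  · intro x hx
    obtain ⟨hxK, hxA⟩ := Finset.mem_inter.1 hx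
    obtain ⟨h1, h2, h3, h4, h5, -⟩ := h.crit x hxK
    exact ⟨h1, h2, h3 _ i0 (hA x hxA), h4 _ i0 (hA x hxA), h5 _ i0 (hA x hxA)⟩
  · intro w hw hk h0
    obtain ⟨h1, h2, h3⟩ := h.own w (hRA w hw) (hnk w hw hk) h0
    rw [hsm w hw] at h3
    exact ⟨fun x hx => h1 x (hbn x hx), h2, h3⟩
  · rintro w hw hk h0 ⟨x, hx, hxa⟩
    obtain ⟨-, h2, h3⟩ := h.strong w (hRA w hw) (hnk w hw hk) h0 ⟨x, hbn x hx, hxa⟩
    rw [hsm w hw] at h2 h3
    exact ⟨h2, h3⟩
  · intro w hw hk h0 hx
    obtain ⟨h2, h3⟩ := h.weak w (hRA w hw) (hnk w hw hk) h0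
      (fun x hxK ha => hx x (hnb w hw x hxK ha) ha)
    rw [hsm w hw] at h2 h3
    exact ⟨h2, h3⟩
  · intro hk
    exact (h.crit v (hkv.1 hk)).2.2.1 _ i0 (Finset.mem_insert_self _ _)
  · refine brule_congr (h.block _ i0) hKK ?_ (fun _ _ => rfl) (fun _ _ => rfl)
    intro w hw hS
    unfold SB
    split_ifs with hwv hk
    · exact hsv (hwv ▸ hS)
    · rcases hS with hS | ⟨x, hx, ha⟩ | hS
      · exact Or.inl (by simpa [hk] using (hKK w hw).1 hS)
      · refine Or.inr (Or.inl ⟨x, ?_, ha⟩)
        rcases Finset.mem_insert.1 hw with rfl | hwA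
        · exact absurd rfl hwv
        rcases hnb w hwA x hx ha with hx' | ⟨-, rfl⟩
        · exact Finset.mem_insert_of_mem hx'
        · exact Finset.mem_insert_self _ _
      · exact Or.inr (Or.inr hS)
    · rcases hS with hS | ⟨x, hx, ha⟩ | hS
      · exact Or.inl (by simpa [hk] using (hKK w hw).1 hS)
      · refine Or.inr (Or.inl ⟨x, ?_, ha⟩)
        rcases Finset.mem_insert.1 hw with rfl | hwA
        · exact absurd rfl hwv
        rcases hnb w hwA x hx ha with hx' | ⟨hk', rfl⟩
        · exact hx'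
        · exact absurd hk' hk
      · exact Or.inr (Or.inr hS)

theorem key_mp {K : Finset V} {m q : V → Finset V → ℕ} {α : Pf} (hv : v ∈ R)
    (hd : ∀ a ∈ A, a ∉ R) (hn : ∀ a ∈ A, ∀ y ∈ R, G.Adj a y → y = v)
    (hE : ∀ x ∈ R, G.Adj v x → ∃ B ∈ 𝓑, v ∈ B ∧ x ∈ B)
    (hA2 : (A.filter (fun u => G.Adj v u)).card ≤ 2) (hf : ∀ w, Adm (f w)) (hα : Adm α)
    (hB : ∀ B ∈ 𝓑, B ⊆ R) (hB0 : insert v A ∉ 𝓑) (hI : Iface G f A v α)
    (h : WCert G (R ∪ A) (insert (insert v A) 𝓑) f K m q)
    (hnm : ∀ w B, w ∉ K → (∃ x ∈ K, x ∈ B ∧ G.Adj w x) → 1 ≤ m w B) :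
    VOK G 𝓑 (K ∩ R) m q v (gl (f v) α) ∧
      (v ∉ K → (∃ x ∈ K ∩ A, G.Adj v x) ∨ ty (f v) = 0 → ty (gl (f v) α) = 0) := by
  have i0 : insert v A ∈ insert (insert v A) 𝓑 := Finset.mem_insert_self _ _
  have hv0 : v ∈ insert v A := Finset.mem_insert_self _ _
  have hvRA : v ∈ R ∪ A := Finset.mem_union_left _ hv
  by_cases hvK : v ∈ K
  · -- critical
    refine ⟨⟨?_, ?_, ?_, ?_⟩, fun hk => absurd hvK hk⟩
    · intro _
      apply merge_crit (hf v) hα hB0 hv0 (h.crit v hvK)
      have hc := h.crit v hvK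
      apply (hI.iK _ (hc.2.2.1 _ i0 hv0)).1
      exact ⟨_, _, _, side_of_cert hd hn hB hB0 h (by simp [hvK]) (by simp), le_rfl⟩
    · intro hk; exact absurd (Finset.mem_inter.2 ⟨hvK, hv⟩) hk
    · intro hk; exact absurd (Finset.mem_inter.2 ⟨hvK, hv⟩) hk
    · intro hk; exact absurd (Finset.mem_inter.2 ⟨hvK, hv⟩) hk
  · have hk1 : v ∉ K ∩ R := fun h => hvK (Finset.mem_inter.1 h).1
    have hm2 : m v (insert v A) ≤ 2 := by
      refine ((h.block _ i0).bound v hv0 hvK).trans (le_trans (Finset.card_le_card ?_) hA2)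
      intro u hu
      obtain ⟨hu1, hu2, hu3⟩ := Finset.mem_filter.1 hu
      rcases Finset.mem_insert.1 hu1 with rfl | hu1
      · exact absurd hu2 (G.irrefl)
      · exact Finset.mem_filter.2 ⟨hu1, hu2⟩
    have hsm := sm_insert hB0 m hv0
    have hsplit : ∀ x ∈ K, x ∈ K ∩ R ∨ x ∈ K ∩ A := by
      intro x hx
      rcases Finset.mem_union.1 (h.sub hx) with h' | h'
      · exact Or.inl (Finset.mem_inter.2 ⟨hx, h'⟩)
      · exact Or.inr (Finset.mem_inter.2 ⟨hx, h'⟩)
    by_cases h0 : ty (f v) = 0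
    · -- own
      obtain ⟨h1, h2, h3⟩ := h.own v hvRA hvK h0
      have hS : okS (m v (insert v A)) α := by
        apply (hI.iS _ hm2).1
        exact ⟨_, _, _, side_of_cert hd hn hB hB0 h (by simp [hvK]) (by simp),
          fun x hx => h1 x (Finset.mem_inter.1 hx).1, le_rfl⟩
      have hO := (mg_O (hf v) hα (min 3 (cS (f v) + m v (insert v A))) (by omega)).2
        (Or.inl ⟨cS (f v), m v (insert v A), by omega, hm2, ⟨h0, h2, le_rfl⟩, hS⟩)
      refine ⟨⟨fun hk => absurd hk hk1, ?_, fun _ hne => absurd hO.1 hne,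
        fun _ hne => absurd hO.1 hne⟩, fun _ _ => hO.1⟩
      intro _ _
      refine ⟨fun x hx => h1 x (Finset.mem_inter.1 hx).1, hO.2.1, ?_⟩
      have := hO.2.2
      omega
    · by_cases hx : ∃ x ∈ K, G.Adj v x
      · -- strong
        obtain ⟨h1, h2, h3⟩ := h.strong v hvRA hvK h0 hx
        have ha : okS (if ty (f v) = 1 then cT (f v) else 0) (f v) := by
          rcases ty_cases (f v) with ht | ht | ht
          · exact absurd ht h0
          · rw [if_pos ht]
            have hL := live_of (hf v) (h2 ht).1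
            exact Or.inl ⟨ht, hL.no12 ht, (h2 ht).1, le_rfl⟩
          · rw [if_neg (by omega)]
            exact Or.inr ⟨ht, (h3 ht).1, (h3 ht).2.1, rfl⟩
        have hab : 3 ≤ (if ty (f v) = 1 then cT (f v) else 0) + m v (insert v A) + sm 𝓑 m v := by
          rcases ty_cases (f v) with ht | ht | ht
          · exact absurd ht h0
          · rw [if_pos ht]; have := (h2 ht).2; omega
          · rw [if_neg (by omega)]; have := (h3 ht).2.2; omega
        have ha2 : (if ty (f v) = 1 then cT (f v) else 0) ≤ 2 := by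
          split_ifs
          · exact cT_le _
          · omega
        generalize (if ty (f v) = 1 then cT (f v) else 0) = a at ha hab ha2
        by_cases hxA : ∃ x ∈ K ∩ A, G.Adj v x
        · -- critical neighbour in the new block
          have hOα : okO (m v (insert v A)) α := by
            apply (hI.iO _ hm2).1
            exact ⟨_, _, _, side_of_cert hd hn hB hB0 h (by simp [hvK]) (by simp), hxA, le_rfl⟩
          have hO := (mg_O (hf v) hα (min 3 (a + m v (insert v A))) (by omega)).2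
            (Or.inr ⟨a, m v (insert v A), by omega, ha2, ha, hOα⟩)
          refine ⟨⟨fun hk => absurd hk hk1, ?_, fun _ hne => absurd hO.1 hne,
            fun _ hne => absurd hO.1 hne⟩, fun _ _ => hO.1⟩
          intro _ _
          refine ⟨?_, hO.2.1, ?_⟩
          · intro x hx hxa
            obtain ⟨hxK, hxR⟩ := Finset.mem_inter.1 hx
            obtain ⟨B, hBB, hvB, hxB⟩ := hE x hxR hxa
            obtain ⟨y, hy, hya⟩ := hxA
            obtain ⟨hyK, hyA⟩ := Finset.mem_inter.1 hy
            have := h1 B (Finset.mem_insert_of_mem hBB) _ i0 hvB hv0 ⟨x, hxK, hxB, hxa⟩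
              ⟨y, hyK, Finset.mem_insert_of_mem hyA, hya⟩
            exact hB0 (this ▸ hBB)
          · have := hO.2.2
            omega
        · -- critical neighbour in an old block
          have hSα : okS (m v (insert v A)) α := by
            apply (hI.iS _ hm2).1
            exact ⟨_, _, _, side_of_cert hd hn hB hB0 h (by simp [hvK]) (by simp),
              fun x hx hxa => hxA ⟨x, hx, hxa⟩, le_rfl⟩
          have hS := (mg_S (hf v) hα (min 2 (a + m v (insert v A))) (by omega)).2
            ⟨a, m v (insert v A), by omega, ha2, hm2, ha, hSα⟩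
          have hsm1 : 1 ≤ sm 𝓑 m v := by
            obtain ⟨x, hx, hxa⟩ := hx
            rcases hsplit x hx with hxR | hx'
            · obtain ⟨B, hBB, hvB, hxB⟩ := hE x (Finset.mem_inter.1 hxR).2 hxa
              refine (hnm v B hvK ⟨x, hx, hxB, hxa⟩).trans ?_
              unfold sm
              exact Finset.single_le_sum (f := fun B => m v B) (fun _ _ => Nat.zero_le _)
                (Finset.mem_filter.2 ⟨hBB, hvB⟩)
            · exact absurd ⟨x, hx', hxa⟩ hxA
          have hne : ty (gl (f v) α) ≠ 0 := by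
            rcases hS with hS | hS
            · rw [hS.1]; decide
            · rw [hS.1]; decide
          refine ⟨⟨fun hk => absurd hk hk1, fun _ h => absurd h hne, ?_, ?_⟩, ?_⟩
          · intro _ _ _
            refine ⟨?_, ?_, ?_⟩
            · intro B hBB C hCC hvB hvC hb hc
              apply h1 B (Finset.mem_insert_of_mem hBB) C (Finset.mem_insert_of_mem hCC) hvB hvC
              · obtain ⟨x, hx, hxB, hxa⟩ := hb
                exact ⟨x, (Finset.mem_inter.1 hx).1, hxB, hxa⟩
              · obtain ⟨x, hx, hxB, hxa⟩ := hc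
                exact ⟨x, (Finset.mem_inter.1 hx).1, hxB, hxa⟩
            · intro ht
              rcases hS with ⟨-, -, b3, b4⟩ | ⟨b1, -⟩
              · exact ⟨b3, by omega⟩
              · omega
            · intro ht
              rcases hS with ⟨b1, -⟩ | ⟨-, b2, b3, b4⟩
              · omega
              · exact ⟨b2, b3, by omega⟩
          · intro _ _ hno
            obtain ⟨x, hx, hxa⟩ := hx
            rcases hsplit x hx with hxR | hx'
            · exact absurd hxa (hno x hxR)
            · exact absurd ⟨x, hx', hxa⟩ hxA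
          · rintro _ (hc | hc)
            · exact absurd hc hxA
            · exact absurd hc h0
      · -- weak
        have hx' : ∀ x ∈ K, ¬ G.Adj v x := fun x hxK hxa => hx ⟨x, hxK, hxa⟩
        obtain ⟨h2, h3⟩ := h.weak v hvRA hvK h0 hx'
        have ha : okN (if ty (f v) = 1 then cN (f v) else 0) (f v) := by
          rcases ty_cases (f v) with ht | ht | ht
          · exact absurd ht h0
          · rw [if_pos ht]
            exact Or.inl ⟨ht, (h2 ht).1, le_rfl⟩
          · rw [if_neg (by omega)]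
            exact Or.inr ⟨ht, (h3 ht).1, rfl⟩
        have hab : 3 ≤ (if ty (f v) = 1 then cN (f v) else 0) + m v (insert v A) + sm 𝓑 m v := by
          rcases ty_cases (f v) with ht | ht | ht
          · exact absurd ht h0
          · rw [if_pos ht]; have := (h2 ht).2; omega
          · rw [if_neg (by omega)]; have := (h3 ht).2; omega
        generalize (if ty (f v) = 1 then cN (f v) else 0) = a at ha hab
        have hNα : okN (m v (insert v A)) α := by
          apply (hI.iN _ hm2).1
          refine ⟨_, _, _, side_of_cert hd hn hB hB0 h (by simp [hvK]) ?_,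
            fun x hx hxa => hx' x (Finset.mem_inter.1 hx).1 hxa, le_rfl⟩
          rintro (hc | ⟨x, hxK, hxa⟩ | hc)
          · exact hvK hc
          · exact hx' x hxK hxa
          · exact h0 hc
        have hN := (mg_N (hf v) hα (min 3 (a + m v (insert v A))) (by omega)).2
          ⟨a, m v (insert v A), by omega, ha, hNα⟩
        have hne : ty (gl (f v) α) ≠ 0 := by
          rcases hN with hS | hS
          · rw [hS.1]; decide
          · rw [hS.1]; decide
        refine ⟨⟨fun hk => absurd hk hk1, fun _ h => absurd h hne, ?_, ?_⟩, ?_⟩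
        · rintro _ _ ⟨x, hxK, hxa⟩
          exact absurd hxa (hx' x (Finset.mem_inter.1 hxK).1)
        · intro _ _ _
          refine ⟨?_, ?_⟩
          · intro ht
            rcases hN with ⟨-, b3, b4⟩ | ⟨b1, -⟩
            · exact ⟨b3, by omega⟩
            · omega
          · intro ht
            rcases hN with ⟨b1, -⟩ | ⟨-, b3, b4⟩
            · omega
            · exact ⟨b3, by omega⟩
        · rintro _ (⟨x, hxK, hxa⟩ | hc)
          · exact absurd hxa (hx' x (Finset.mem_inter.1 hxK).1)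
          · exact absurd hc h0

theorem attach_mp {K : Finset V} {m q : V → Finset V → ℕ} {α : Pf} (hv : v ∈ R)
    (hd : ∀ a ∈ A, a ∉ R) (hn : ∀ a ∈ A, ∀ y ∈ R, G.Adj a y → y = v)
    (hE : ∀ x ∈ R, G.Adj v x → ∃ B ∈ 𝓑, v ∈ B ∧ x ∈ B)
    (hA2 : (A.filter (fun u => G.Adj v u)).card ≤ 2) (hf : ∀ w, Adm (f w)) (hα : Adm α)
    (hB : ∀ B ∈ 𝓑, B ⊆ R) (hB0 : insert v A ∉ 𝓑) (hI : Iface G f A v α)
    (h : WCert G (R ∪ A) (insert (insert v A) 𝓑) f K m q)
    (hnm : ∀ w B, w ∉ K → (∃ x ∈ K, x ∈ B ∧ G.Adj w x) → 1 ≤ m w B) :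
    WCert G R 𝓑 (Function.update f v (gl (f v) α)) (K ∩ R) m q := by
  obtain ⟨key1, key2⟩ := key_mp hv hd hn hE hA2 hf hα hB hB0 hI h hnm
  have hKR : ∀ w ∈ R, (w ∈ K ↔ w ∈ K ∩ R) := fun w hw =>
    ⟨fun h => Finset.mem_inter.2 ⟨h, hw⟩, fun h => (Finset.mem_inter.1 h).1⟩
  have hsub := h.sub
  rw [wcert_iff_vok] at h ⊢
  refine ⟨Finset.inter_subset_right, ?_, ?_⟩
  · intro w hw
    by_cases hwv : w = v
    · rw [hwv, Function.update_self]; exact key1
    · rw [Function.update_of_ne hwv]
      refine (h.2.1 w (Finset.mem_union_left _ hw)).congr ?_ (fun _ _ _ => rfl)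
        (fun _ _ _ => rfl) (hKR w hw) ?_
      · intro B hwB
        constructor
        · intro hB'
          rcases Finset.mem_insert.1 hB' with rfl | hB'
          · rcases Finset.mem_insert.1 hwB with h' | h'
            · exact absurd h' hwv
            · exact absurd hw (hd w h')
          · exact hB'
        · exact fun h => Finset.mem_insert_of_mem h
      · intro x hxa
        constructor
        · intro hx
          rcases Finset.mem_union.1 (hsub hx) with hxR | hxA
          · exact (hKR x hxR).1 hx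
          · exact absurd (hn x hxA w hw hxa.symm) hwv
        · exact fun h => (Finset.mem_inter.1 h).1
  · intro B hBB
    refine brule_congr (h.2.2 B (Finset.mem_insert_of_mem hBB))
      (fun w hw => hKR w (hB B hBB hw)) ?_ (fun _ _ => rfl) (fun _ _ => rfl)
    intro w hwB hS
    have hw : w ∈ R := hB B hBB hwB
    by_cases hwv : w = v
    · subst hwv
      by_cases hwK : w ∈ K
      · exact Or.inl ((hKR w hw).1 hwK)
      · rcases hS with hS | ⟨x, hx, hxa⟩ | hS
        · exact absurd hS hwK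
        · rcases Finset.mem_union.1 (hsub hx) with hxR | hxA
          · exact Or.inr (Or.inl ⟨x, (hKR x hxR).1 hx, hxa⟩)
          · right; right
            rw [Function.update_self]
            exact key2 hwK (Or.inl ⟨x, Finset.mem_inter.2 ⟨hx, hxA⟩, hxa⟩)
        · right; right
          rw [Function.update_self]
          exact key2 hwK (Or.inr hS)
    · rcases hS with hS | ⟨x, hx, hxa⟩ | hS
      · exact Or.inl ((hKR w hw).1 hS)
      · refine Or.inr (Or.inl ⟨x, ?_, hxa⟩)
        rcases Finset.mem_union.1 (hsub hx) with hxR | hxA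
        · exact (hKR x hxR).1 hx
        · exact absurd (hn x hxA w hw hxa.symm) hwv
      · right; right
        rw [Function.update_of_ne hwv]; exact hS

theorem okO_le {α : Pf} (hiso : 3 * (α 0 / 3) + 2 ≤ α 2) {n : ℕ} (h : okO n α) : n ≤ 2 := by
  obtain ⟨h1, h2, h3⟩ := h
  unfold ty at h1
  unfold cS at h3
  split_ifs at h3 <;> omega

theorem okN_le {α : Pf} (hiso : 3 * (α 0 / 3) + 2 ≤ α 2) {n : ℕ} (h : okN n α) : n ≤ 2 := by
  rcases h with ⟨h1, h2, h3⟩ | ⟨h1, h2, h3⟩
  · unfold ty at h1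
    unfold cN at h3
    split_ifs at h3 <;> omega
  · omega

theorem key_mpr {K1 : Finset V} {m1 q1 : V → Finset V → ℕ} {α : Pf} (hv : v ∈ R)
    (hd : ∀ a ∈ A, a ∉ R) (hf : ∀ w, Adm (f w)) (hα : Adm α)
    (hB : ∀ B ∈ 𝓑, B ⊆ R) (hB0 : insert v A ∉ 𝓑) (hI : Iface G f A v α)
    (hK1 : K1 ⊆ R) (h : VOK G 𝓑 K1 m1 q1 v (gl (f v) α)) :
    ∃ (K2 : Finset V) (m2 q2 : V → ℕ) (kv sv : Prop), BSide G f A v kv sv K2 m2 q2 ∧
      (kv ↔ v ∈ K1) ∧
      VOK G (insert (insert v A) 𝓑) (K1 ∪ K2)
        (fun w B => if B = insert v A then m2 w else m1 w B)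
        (fun w B => if B = insert v A then q2 w else q1 w B) v (f v) ∧
      (sv → Sg G f (K1 ∪ K2) v) ∧
      (ty (gl (f v) α) = 0 → Sg G f (K1 ∪ K2) v) := by
  have hv0 : v ∈ insert v A := Finset.mem_insert_self _ _
  have hne : ∀ B ∈ 𝓑, B ≠ insert v A := fun B hBB he => hB0 (he ▸ hBB)
  have hvA : v ∉ A := fun h => hd v h hv
  have hsm : ∀ m2 : V → ℕ, sm (insert (insert v A) 𝓑)
      (fun w B => if B = insert v A then m2 w else m1 w B) v = m2 v + sm 𝓑 m1 v := by
    intro m2
    rw [sm_insert hB0 _ hv0]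
    simp only [if_true]
    congr 1
    apply sm_congr (fun _ _ => Iff.rfl)
    intro B hBB _
    exact if_neg (hne B hBB)
  by_cases hvK : v ∈ K1
  · -- critical
    have hc := h.crit hvK
    obtain ⟨g1, g2, k1, k2, k3, k4⟩ := (mg_K (hf v) hα).1 ⟨hc.1, hc.2.1⟩
    have m01 := hα.1 (show (0 : ℕ) ≤ 1 by omega)
    have m12 := hα.1 (show (1 : ℕ) ≤ 2 by omega)
    obtain ⟨K2, m2, q2, hs, hq⟩ := (hI.iK (α 1 - α 0).toNat (by omega)).2
      ⟨k1, by omega, k2⟩
    have hvK' : v ∈ K1 ∪ K2 := Finset.mem_union_left _ hvK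
    refine ⟨K2, m2, q2, True, True, hs, by simp [hvK], ⟨?_, ?_, ?_, ?_⟩,
      fun _ => Or.inl hvK', fun _ => Or.inl hvK'⟩
    · intro _
      apply split_crit (hf v) hα hB0 hc
      · intro B hBB
        exact if_neg (hne B hBB)
      · rw [if_pos rfl]
        omega
    · intro hk; exact absurd hvK' hk
    · intro hk; exact absurd hvK' hk
    · intro hk; exact absurd hvK' hk
  · rcases ty_cases (gl (f v) α) with h0 | h12
    · -- own
      obtain ⟨h1, h2, h3⟩ := h.own hvK h0
      rcases (mg_O (hf v) hα (cS (gl (f v) α)) (cS_le _)).1 ⟨h0, h2, le_rfl⟩ with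
        ⟨a, b, hab, hb, ha, hbα⟩ | ⟨a, b, hab, ha2, ha, hbα⟩
      · obtain ⟨K2, m2, q2, hs, hno, hm⟩ := (hI.iS b hb).2 hbα
        have hvK' : v ∉ K1 ∪ K2 := by
          rw [Finset.mem_union]
          rintro (h | h)
          · exact hvK h
          · exact hvA (hs.sub h)
        have hno' : ∀ x ∈ K1 ∪ K2, ¬ G.Adj v x := by
          intro x hx
          rcases Finset.mem_union.1 hx with h | h
          · exact h1 x h
          · exact hno x h
        have hS : Sg G f (K1 ∪ K2) v := Or.inr (Or.inr ha.1)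
        refine ⟨K2, m2, q2, False, True, hs, by simp [hvK], ⟨fun hk => absurd hk hvK', ?_,
          fun _ hne => absurd ha.1 hne, fun _ hne => absurd ha.1 hne⟩,
          fun _ => hS, fun _ => hS⟩
        intro _ _
        refine ⟨hno', ha.2.1, ?_⟩
        rw [hsm]
        have := ha.2.2
        omega
      · obtain ⟨K2, m2, q2, hs, hex, hm⟩ := (hI.iO b (okO_le hI.iso hbα)).2 hbα
        have hvK' : v ∉ K1 ∪ K2 := by
          rw [Finset.mem_union]
          rintro (h | h)
          · exact hvK h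
          · exact hvA (hs.sub h)
        have hex' : ∃ x ∈ K1 ∪ K2, G.Adj v x := by
          obtain ⟨x, hx, hxa⟩ := hex
          exact ⟨x, Finset.mem_union_right _ hx, hxa⟩
        have hS : Sg G f (K1 ∪ K2) v := Or.inr (Or.inl hex')
        have hty : ty (f v) ≠ 0 := by
          rcases ha with ha | ha
          · rw [ha.1]; decide
          · rw [ha.1]; decide
        refine ⟨K2, m2, q2, False, True, hs, by simp [hvK], ⟨fun hk => absurd hk hvK',
          fun _ h => absurd h hty, ?_, ?_⟩, fun _ => hS, fun _ => hS⟩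
        · intro _ _ _
          refine ⟨?_, ?_, ?_⟩
          · have hold : ∀ B ∈ insert (insert v A) 𝓑,
                (∃ x ∈ K1 ∪ K2, x ∈ B ∧ G.Adj v x) → B = insert v A := by
              rintro B hBB ⟨x, hx, hxB, hxa⟩
              rcases Finset.mem_insert.1 hBB with h | hBB
              · exact h
              · exfalso
                have hxR := hB B hBB hxB
                rcases Finset.mem_union.1 hx with h | h
                · exact h1 x h hxa
                · exact hd x (hs.sub h) hxR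
            intro B hBB C hCC _ _ hb hc
            rw [hold B hBB hb, hold C hCC hc]
          · intro ht
            rw [hsm]
            rcases ha with ⟨-, b2, b3, b4⟩ | ⟨b1, -⟩
            · exact ⟨b3, by omega⟩
            · omega
          · intro ht
            rw [hsm]
            rcases ha with ⟨b1, -⟩ | ⟨-, b2, b3, b4⟩
            · omega
            · exact ⟨b2, b3, by omega⟩
        · intro _ _ hno
          obtain ⟨x, hx, hxa⟩ := hex'
          exact absurd hxa (hno x hx)
    · have hne0 : ty (gl (f v) α) ≠ 0 := by omega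
      by_cases hx : ∃ x ∈ K1, G.Adj v x
      · -- strong
        obtain ⟨h1, h2, h3⟩ := h.strong hvK hne0 hx
        have hok : okS (if ty (gl (f v) α) = 1 then cT (gl (f v) α) else 0) (gl (f v) α) := by
          rcases h12 with ht | ht
          · rw [if_pos ht]
            have hL := live_of (adm_gl (hf v) hα) (h2 ht).1
            exact Or.inl ⟨ht, hL.no12 ht, (h2 ht).1, le_rfl⟩
          · rw [if_neg (by omega)]
            exact Or.inr ⟨ht, (h3 ht).1, (h3 ht).2.1, rfl⟩
        have hc3 : 3 ≤ (if ty (gl (f v) α) = 1 then cT (gl (f v) α) else 0) + sm 𝓑 m1 v := by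
          rcases h12 with ht | ht
          · rw [if_pos ht]; exact (h2 ht).2
          · rw [if_neg (by omega)]; have := (h3 ht).2.2; omega
        have hc2 : (if ty (gl (f v) α) = 1 then cT (gl (f v) α) else 0) ≤ 2 := by
          split_ifs
          · exact cT_le _
          · omega
        generalize (if ty (gl (f v) α) = 1 then cT (gl (f v) α) else 0) = c at hok hc3 hc2
        obtain ⟨a, b, hab, ha2, hb2, ha, hbα⟩ := (mg_S (hf v) hα c hc2).1 hok
        obtain ⟨K2, m2, q2, hs, hno, hm⟩ := (hI.iS b hb2).2 hbα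
        have hvK' : v ∉ K1 ∪ K2 := by
          rw [Finset.mem_union]
          rintro (h | h)
          · exact hvK h
          · exact hvA (hs.sub h)
        have hex' : ∃ x ∈ K1 ∪ K2, G.Adj v x := by
          obtain ⟨x, hx, hxa⟩ := hx
          exact ⟨x, Finset.mem_union_left _ hx, hxa⟩
        have hS : Sg G f (K1 ∪ K2) v := Or.inr (Or.inl hex')
        have hty : ty (f v) ≠ 0 := by
          rcases ha with ha | ha
          · rw [ha.1]; decide
          · rw [ha.1]; decide
        refine ⟨K2, m2, q2, False, True, hs, by simp [hvK], ⟨fun hk => absurd hk hvK',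
          fun _ h => absurd h hty, ?_, ?_⟩, fun _ => hS, fun _ => hS⟩
        · intro _ _ _
          refine ⟨?_, ?_, ?_⟩
          · have hold : ∀ B ∈ insert (insert v A) 𝓑,
                (∃ x ∈ K1 ∪ K2, x ∈ B ∧ G.Adj v x) → B ∈ 𝓑 ∧ ∃ x ∈ K1, x ∈ B ∧ G.Adj v x := by
              rintro B hBB ⟨x, hx, hxB, hxa⟩
              have hxK1 : x ∈ K1 := by
                rcases Finset.mem_union.1 hx with h | h
                · exact h
                · exact absurd hxa (hno x h)
              rcases Finset.mem_insert.1 hBB with h | hBB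
              · exfalso
                rw [h] at hxB
                rcases Finset.mem_insert.1 hxB with h' | h'
                · rw [h'] at hxa; exact G.irrefl hxa
                · exact hd x h' (hK1 hxK1)
              · exact ⟨hBB, x, hxK1, hxB, hxa⟩
            intro B hBB C hCC hvB hvC hb hc
            obtain ⟨b1, b2⟩ := hold B hBB hb
            obtain ⟨c1, c2⟩ := hold C hCC hc
            exact h1 B b1 C c1 hvB hvC b2 c2
          · intro ht
            rw [hsm]
            rcases ha with ⟨-, b2, b3, b4⟩ | ⟨b1, -⟩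
            · exact ⟨b3, by omega⟩
            · omega
          · intro ht
            rw [hsm]
            rcases ha with ⟨b1, -⟩ | ⟨-, b2, b3, b4⟩
            · omega
            · exact ⟨b2, b3, by omega⟩
        · intro _ _ hno
          obtain ⟨x, hx, hxa⟩ := hex'
          exact absurd hxa (hno x hx)
      · -- weak
        have hx' : ∀ x ∈ K1, ¬ G.Adj v x := fun x hxK hxa => hx ⟨x, hxK, hxa⟩
        obtain ⟨h2, h3⟩ := h.weak hvK hne0 hx'
        have hok : okN (if ty (gl (f v) α) = 1 then cN (gl (f v) α) else 0) (gl (f v) α) := by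
          rcases h12 with ht | ht
          · rw [if_pos ht]
            exact Or.inl ⟨ht, (h2 ht).1, le_rfl⟩
          · rw [if_neg (by omega)]
            exact Or.inr ⟨ht, (h3 ht).1, rfl⟩
        have hc3 : 3 ≤ (if ty (gl (f v) α) = 1 then cN (gl (f v) α) else 0) + sm 𝓑 m1 v := by
          rcases h12 with ht | ht
          · rw [if_pos ht]; exact (h2 ht).2
          · rw [if_neg (by omega)]; have := (h3 ht).2; omega
        have hc2 : (if ty (gl (f v) α) = 1 then cN (gl (f v) α) else 0) ≤ 3 := by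
          split_ifs
          · exact cN_le _
          · omega
        generalize (if ty (gl (f v) α) = 1 then cN (gl (f v) α) else 0) = c at hok hc3 hc2
        obtain ⟨a, b, hab, ha, hbα⟩ := (mg_N (hf v) hα c hc2).1 hok
        obtain ⟨K2, m2, q2, hs, hno, hm⟩ := (hI.iN b (okN_le hI.iso hbα)).2 hbα
        have hvK' : v ∉ K1 ∪ K2 := by
          rw [Finset.mem_union]
          rintro (h | h)
          · exact hvK h
          · exact hvA (hs.sub h)
        have hno' : ∀ x ∈ K1 ∪ K2, ¬ G.Adj v x := by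
          intro x hx
          rcases Finset.mem_union.1 hx with h | h
          · exact hx' x h
          · exact hno x h
        have hty : ty (f v) ≠ 0 := by
          rcases ha with ha | ha
          · rw [ha.1]; decide
          · rw [ha.1]; decide
        refine ⟨K2, m2, q2, False, False, hs, by simp [hvK], ⟨fun hk => absurd hk hvK',
          fun _ h => absurd h hty, ?_, ?_⟩, fun h => absurd h id, fun h => absurd h hne0⟩
        · rintro _ _ ⟨x, hx, hxa⟩
          exact absurd hxa (hno' x hx)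
        · intro _ _ _
          refine ⟨?_, ?_⟩
          · intro ht
            rw [hsm]
            rcases ha with ⟨-, b3, b4⟩ | ⟨b1, -⟩
            · exact ⟨b3, by omega⟩
            · omega
          · intro ht
            rw [hsm]
            rcases ha with ⟨b1, -⟩ | ⟨-, b3, b4⟩
            · omega
            · exact ⟨b3, by omega⟩

theorem attach_mpr {K1 : Finset V} {m1 q1 : V → Finset V → ℕ} {α : Pf} (hv : v ∈ R)
    (hd : ∀ a ∈ A, a ∉ R) (hn : ∀ a ∈ A, ∀ y ∈ R, G.Adj a y → y = v)
    (hf : ∀ w, Adm (f w)) (hα : Adm α)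
    (hB : ∀ B ∈ 𝓑, B ⊆ R) (hB0 : insert v A ∉ 𝓑) (hI : Iface G f A v α)
    (h : WCert G R 𝓑 (Function.update f v (gl (f v) α)) K1 m1 q1) :
    HasCert G (R ∪ A) (insert (insert v A) 𝓑) f := by
  rw [wcert_iff_vok] at h
  obtain ⟨hK1, hV, hBR⟩ := h
  have hVv := hV v hv
  rw [Function.update_self] at hVv
  obtain ⟨K2, m2, q2, kv, sv, hs, hkv, hvok, hsv, hS0⟩ :=
    key_mpr hv hd hf hα hB hB0 hI hK1 hVv
  have hne : ∀ B ∈ 𝓑, B ≠ insert v A := fun B hBB he => hB0 (he ▸ hBB)
  have hKR : ∀ w ∈ R, (w ∈ K1 ↔ w ∈ K1 ∪ K2) := by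
    intro w hw
    constructor
    · exact fun h => Finset.mem_union_left _ h
    · intro h
      rcases Finset.mem_union.1 h with h | h
      · exact h
      · exact absurd hw (hd w (hs.sub h))
  have hKA : ∀ w ∈ A, (w ∈ K2 ↔ w ∈ K1 ∪ K2) := by
    intro w hw
    constructor
    · exact fun h => Finset.mem_union_right _ h
    · intro h
      rcases Finset.mem_union.1 h with h | h
      · exact absurd (hK1 h) (hd w hw)
      · exact h
  refine ⟨K1 ∪ K2, fun w B => if B = insert v A then m2 w else m1 w B,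
    fun w B => if B = insert v A then q2 w else q1 w B, ?_⟩
  rw [wcert_iff_vok]
  refine ⟨Finset.union_subset_union hK1 hs.sub, ?_, ?_⟩
  · intro w hw
    by_cases hwv : w = v
    · rw [hwv]; exact hvok
    rcases Finset.mem_union.1 hw with hwR | hwA
    · have hVw := hV w hwR
      rw [Function.update_of_ne hwv] at hVw
      refine hVw.congr ?_ ?_ ?_ (hKR w hwR) ?_
      · intro B hwB
        constructor
        · exact fun h => Finset.mem_insert_of_mem h
        · intro hB'
          rcases Finset.mem_insert.1 hB' with rfl | hB'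
          · rcases Finset.mem_insert.1 hwB with h' | h'
            · exact absurd h' hwv
            · exact absurd hwR (hd w h')
          · exact hB'
      · intro B hBB _
        exact (if_neg (hne B hBB)).symm
      · intro B hBB _
        exact (if_neg (hne B hBB)).symm
      · intro x hxa
        constructor
        · exact fun h => Finset.mem_union_left _ h
        · intro hx
          rcases Finset.mem_union.1 hx with hx | hx
          · exact hx
          · exact absurd (hn x (hs.sub hx) w hwR hxa.symm) hwv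
    · have hw0 : w ∈ insert v A := Finset.mem_insert_of_mem hwA
      have hwR := hd w hwA
      have honly : ∀ B ∈ insert (insert v A) 𝓑, w ∈ B → B = insert v A := by
        intro B hBB hwB
        rcases Finset.mem_insert.1 hBB with h | h
        · exact h
        · exact absurd (hB B h hwB) hwR
      have hsm : sm (insert (insert v A) 𝓑)
          (fun w B => if B = insert v A then m2 w else m1 w B) w = m2 w := by
        rw [sm_only hB hB0 _ hw0 hwR]
        simp only [if_true]
      have hnb : ∀ x ∈ K1 ∪ K2, G.Adj w x → (x ∈ K2 ∨ (kv ∧ x = v)) := by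
        intro x hx hxa
        rcases Finset.mem_union.1 hx with hx | hx
        · right
          have := hn w hwA x (hK1 hx) hxa
          exact ⟨hkv.2 (this ▸ hx), this⟩
        · exact Or.inl hx
      have hbn : ∀ x, (x ∈ K2 ∨ (kv ∧ x = v)) → x ∈ K1 ∪ K2 := by
        rintro x (hx | ⟨hk, rfl⟩)
        · exact Finset.mem_union_right _ hx
        · exact Finset.mem_union_left _ (hkv.1 hk)
      refine ⟨?_, ?_, ?_, ?_⟩
      · intro hk
        obtain ⟨h1, h2, h3, h4, h5⟩ := hs.crit w ((hKA w hwA).2 hk)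
        refine ⟨h1, h2, ?_, ?_, ?_, ?_⟩
        · intro B hBB hwB
          beta_reduce
          rw [if_pos (honly B hBB hwB)]; exact h3
        · intro B hBB hwB
          beta_reduce
          rw [if_pos (honly B hBB hwB)]; exact h4
        · intro B hBB hwB
          beta_reduce
          rw [if_pos (honly B hBB hwB)]; exact h5
        · intro B hBB C hCC hwB hwC hne
          exact absurd ((honly B hBB hwB).trans (honly C hCC hwC).symm) hne
      · intro hk h0
        obtain ⟨h1, h2, h3⟩ := hs.own w hwA (fun h => hk ((hKA w hwA).1 h)) h0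
        refine ⟨fun x hx hxa => h1 x (hnb x hx hxa) hxa, h2, ?_⟩
        rw [hsm]; exact h3
      · rintro hk h0 ⟨x, hx, hxa⟩
        obtain ⟨h2, h3⟩ := hs.strong w hwA (fun h => hk ((hKA w hwA).1 h)) h0
          ⟨x, hnb x hx hxa, hxa⟩
        rw [hsm]
        refine ⟨?_, h2, h3⟩
        intro B hBB C hCC hwB hwC _ _
        exact (honly B hBB hwB).trans (honly C hCC hwC).symm
      · intro hk h0 hno
        rw [hsm]
        exact hs.weak w hwA (fun h => hk ((hKA w hwA).1 h)) h0 (fun x hx => hno x (hbn x hx))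
  · intro B hBB
    rcases Finset.mem_insert.1 hBB with rfl | hBB
    · refine brule_congr hs.block ?_ ?_ (fun w _ => (if_pos rfl).symm)
        (fun w _ => (if_pos rfl).symm)
      · intro w hw
        by_cases hk : kv
        · rw [if_pos hk]
          rcases Finset.mem_insert.1 hw with rfl | hwA
          · simp [hkv.1 hk]
          · rw [← hKA w hwA, Finset.mem_insert]
            constructor
            · rintro (rfl | h)
              · exact absurd hv (hd _ hwA)
              · exact h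
            · exact fun h => Or.inr h
        · rw [if_neg hk]
          rcases Finset.mem_insert.1 hw with rfl | hwA
          · constructor
            · exact fun h => Finset.mem_union_right _ h
            · intro h
              rcases Finset.mem_union.1 h with h | h
              · exact absurd (hkv.2 h) hk
              · exact h
          · exact hKA w hwA
      · intro w hw hSB
        unfold SB at hSB
        by_cases hwv : w = v
        · rw [if_pos hwv] at hSB
          rw [hwv]; exact hsv hSB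
        · rw [if_neg hwv] at hSB
          have hmem : ∀ x, x ∈ (if kv then insert v K2 else K2) → x ∈ K1 ∪ K2 := by
            intro x hx
            by_cases hk : kv
            · rw [if_pos hk] at hx
              rcases Finset.mem_insert.1 hx with rfl | hx
              · exact Finset.mem_union_left _ (hkv.1 hk)
              · exact Finset.mem_union_right _ hx
            · rw [if_neg hk] at hx
              exact Finset.mem_union_right _ hx
          rcases hSB with h | ⟨x, hx, hxa⟩ | h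
          · exact Or.inl (hmem w h)
          · exact Or.inr (Or.inl ⟨x, hmem x hx, hxa⟩)
          · exact Or.inr (Or.inr h)
    · refine brule_congr (hBR B hBB) (fun w hw => hKR w (hB B hBB hw)) ?_
        (fun w _ => (if_neg (hne B hBB)).symm) (fun w _ => (if_neg (hne B hBB)).symm)
      intro w hwB hS
      rcases hS with h | ⟨x, hx, hxa⟩ | h
      · exact Or.inl (Finset.mem_union_left _ h)
      · exact Or.inr (Or.inl ⟨x, Finset.mem_union_left _ hx, hxa⟩)
      · by_cases hwv : w = v
        · subst hwv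
          rw [Function.update_self] at h
          exact hS0 h
        · rw [Function.update_of_ne hwv] at h
          exact Or.inr (Or.inr h)

end side

end AttachAux

open AttachAux

/-- attaching a block -/
theorem cert_attach {G : SimpleGraph V} {R : Finset V} {𝓑 : Finset (Finset V)} {f : V → Pf}
    {v : V} {A : Finset V} {α : Pf} (hv : v ∈ R) (hA : A.Nonempty) (hd : ∀ a ∈ A, a ∉ R)
    (hn : ∀ a ∈ A, ∀ y ∈ R, G.Adj a y → y = v)
    (hE : ∀ x ∈ R, G.Adj v x → ∃ B ∈ 𝓑, v ∈ B ∧ x ∈ B)
    (hA2 : (A.filter (fun u => G.Adj v u)).card ≤ 2) (hf : ∀ w, Adm (f w)) (hα : Adm α)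
    (hB : ∀ B ∈ 𝓑, B ⊆ R) (hI : Iface G f A v α) :
    HasCert G (R ∪ A) (insert (insert v A) 𝓑) f ↔
      HasCert G R 𝓑 (Function.update f v (gl (f v) α)) := by
  have hB0 : insert v A ∉ 𝓑 := by
    intro h
    obtain ⟨a, ha⟩ := hA
    exact hd a ha (hB _ h (Finset.mem_insert_of_mem ha))
  constructor
  · rintro ⟨K, m, q, h⟩
    refine ⟨K ∩ R, nm G K m, q, attach_mp hv hd hn hE hA2 hf hα hB hB0 hI (wcert_nm h) ?_⟩
    intro w B hw hx
    unfold nm
    rw [if_pos ⟨hw, hx⟩]
    exact le_max_left _ _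
  · rintro ⟨K, m, q, h⟩
    exact attach_mpr hv hd hn hf hα hB hB0 hI h

/-- every edge of the core lies in a block -/
theorem Core.edge {G : SimpleGraph V} {R : Finset V} {𝓑 : Finset (Finset V)} (h : Core G R 𝓑) :
    ∀ x ∈ R, ∀ y ∈ R, G.Adj x y → ∃ B ∈ 𝓑, x ∈ B ∧ y ∈ B := by
  induction h with
  | single r =>
    intro x hx y hy ha
    rw [Finset.mem_singleton] at hx hy
    subst hx; subst hy
    exact absurd ha (G.irrefl)
  | bridge h hv hu ha hn ih =>
    rename_i R 𝓑 v u
    intro x hx y hy hxy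
    have i0 : ({v, u} : Finset V) ∈ insert {v, u} 𝓑 := Finset.mem_insert_self _ _
    rcases Finset.mem_insert.1 hx with hx1 | hx1
    · rcases Finset.mem_insert.1 hy with hy1 | hy1
      · rw [hx1, hy1] at hxy
        exact absurd hxy (G.irrefl)
      · rw [hx1] at hxy
        rw [hx1, hn y hy1 hxy]
        exact ⟨{v, u}, i0, by simp, by simp⟩
    · rcases Finset.mem_insert.1 hy with hy1 | hy1
      · rw [hy1] at hxy
        rw [hy1, hn x hx1 hxy.symm]
        exact ⟨{v, u}, i0, by simp, by simp⟩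
      · obtain ⟨B, hB, h1, h2⟩ := ih x hx1 y hy1 hxy
        exact ⟨B, Finset.mem_insert_of_mem hB, h1, h2⟩
  | cycle h hc ih =>
    rename_i R 𝓑 n c
    have hpos : 0 < n := by have := hc.hn; omega
    have hmem : ∀ j, c j ∈ (Finset.range n).image c := by
      intro j
      rw [Finset.mem_image]
      refine ⟨j % n, Finset.mem_range.2 (Nat.mod_lt _ hpos), ?_⟩
      have hper : ∀ k i, c (i + k * n) = c i := by
        intro k
        induction k with
        | zero => intro i; simp
        | succ k ih =>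
          intro i
          rw [show i + (k + 1) * n = (i + k * n) + n by ring, hc.per, ih]
      have := hper (j / n) (j % n)
      rw [mul_comm, Nat.mod_add_div] at this
      exact this.symm
    have hcase : ∀ x ∈ R ∪ (Finset.range n).image c, x ∈ R ∨ ∃ i, 0 < i ∧ i < n ∧ x = c i := by
      intro x hx
      rcases Finset.mem_union.1 hx with hx | hx
      · exact Or.inl hx
      · obtain ⟨i, hi, rfl⟩ := Finset.mem_image.1 hx
        rcases Nat.eq_zero_or_pos i with rfl | h0
        · exact Or.inl hc.mem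
        · exact Or.inr ⟨i, h0, Finset.mem_range.1 hi, rfl⟩
    have hnew : ∀ i, 0 < i → i < n → ∀ y ∈ R ∪ (Finset.range n).image c, G.Adj (c i) y →
        y ∈ (Finset.range n).image c := by
      intro i h0 h1 y hy ha
      have hy' : y ∈ R ∨ ∃ j, y = c j := by
        rcases Finset.mem_union.1 hy with hy | hy
        · exact Or.inl hy
        · obtain ⟨j, -, rfl⟩ := Finset.mem_image.1 hy
          exact Or.inr ⟨j, rfl⟩
      rcases hc.nb i h0 h1 y hy' ha with rfl | rfl
      · exact hmem _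
      · exact hmem _
    intro x hx y hy hxy
    rcases hcase x hx with hxR | ⟨i, h0, h1, rfl⟩
    · rcases hcase y hy with hyR | ⟨i, h0, h1, rfl⟩
      · obtain ⟨B, hB, h1, h2⟩ := ih x hxR y hyR hxy
        exact ⟨B, Finset.mem_insert_of_mem hB, h1, h2⟩
      · exact ⟨_, Finset.mem_insert_self _ _, hnew i h0 h1 x hx hxy.symm, hmem i⟩
    · exact ⟨_, Finset.mem_insert_self _ _, hmem i, hnew i h0 h1 y hy hxy⟩

end Pool.Agent.H44.Cac
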