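import Pool.Agent.H44.Cac.CertDefs

namespace Pool.Agent.H44.Cac

open Classical

variable {V : Type*}

section
variable {G : SimpleGraph V} {R : Finset V} {n : ℕ} {c : ℕ → V} (h : CycAt G R n c)
include h

theorem bsq_mod (i : ℕ) : c (i % n) = c i := by
  have key : ∀ k j, c (j + k * n) = c j := by
    intro k
    induction k with
    | zero => intro j; simp
    | succ k ih =>
      intro j
      rw [show j + (k + 1) * n = (j + k * n) + n by ring, h.per, ih]
  conv_rhs => rw [← Nat.mod_add_div i n, mul_comm n]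
  rw [key]

theorem bsq_eq (i j : ℕ) : c i = c j ↔ i % n = j % n := by
  have hn := h.hn
  constructor
  · intro e
    rw [← bsq_mod h i, ← bsq_mod h j] at e
    exact h.inj _ (Nat.mod_lt _ (by omega)) _ (Nat.mod_lt _ (by omega)) e
  · intro e
    rw [← bsq_mod h i, ← bsq_mod h j, e]

theorem bsq_succ {i j : ℕ} (e : c i = c j) : c (i + 1) = c (j + 1) := by
  rw [bsq_eq h] at e ⊢
  exact Nat.ModEq.add_right 1 e

theorem bsq_ne {i a b : ℕ} (ha : a < n) (hb : b < n) (hab : a ≠ b) : c (i + a) ≠ c (i + b) := by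
  rw [Ne, bsq_eq h]
  intro e
  have e2 : a ≡ b [MOD n] := Nat.ModEq.add_left_cancel' i e
  exact hab (by rwa [Nat.ModEq, Nat.mod_eq_of_lt ha, Nat.mod_eq_of_lt hb] at e2)

theorem bsq_mem {w : V} : w ∈ (Finset.range n).image c ↔ ∃ i, w = c (i + 1) := by
  have hn := h.hn
  constructor
  · intro hw
    obtain ⟨i, hi, rfl⟩ := Finset.mem_image.mp hw
    refine ⟨i + (n - 1), ?_⟩
    rw [show i + (n - 1) + 1 = i + n by omega, h.per]
  · rintro ⟨i, rfl⟩
    rw [← bsq_mod h]
    exact Finset.mem_image_of_mem _ (Finset.mem_range.mpr (Nat.mod_lt _ (by omega)))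

theorem bsq_mem' (i : ℕ) : c i ∈ (Finset.range n).image c := by
  have hn := h.hn
  rw [← bsq_mod h]
  exact Finset.mem_image_of_mem _ (Finset.mem_range.mpr (Nat.mod_lt _ (by omega)))

theorem bsq_mem_from (i : ℕ) {w : V} : w ∈ (Finset.range n).image c ↔ ∃ a < n, w = c (i + a) := by
  have hn := h.hn
  constructor
  · intro hw
    obtain ⟨j, hj, rfl⟩ := Finset.mem_image.mp hw
    have hj' := Finset.mem_range.mp hj
    have hi : i % n < n := Nat.mod_lt _ (by omega)
    by_cases hle : i % n ≤ j
    · refine ⟨j - i % n, by omega, ?_⟩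
      rw [bsq_eq h, Nat.add_mod, ← Nat.mod_mod i n, ← Nat.add_mod, Nat.mod_mod,
        show i % n + (j - i % n) = j by omega]
    · refine ⟨j + n - i % n, by omega, ?_⟩
      rw [bsq_eq h, Nat.add_mod, ← Nat.mod_mod i n, ← Nat.add_mod, Nat.mod_mod,
        show i % n + (j + n - i % n) = j + n by omega, Nat.add_mod_right]
  · rintro ⟨a, -, rfl⟩
    exact bsq_mem' h _

theorem bsq_card : ((Finset.range n).image c).card = n := by
  rw [Finset.card_image_of_injOn]
  · simp
  · intro i hi j hj e
    exact h.inj i (by simpa using hi) j (by simpa using hj) e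

theorem bsq_card_filter (K : Finset V) :
    ((Finset.range n).image c ∩ K).card = (@Finset.filter ℕ (fun i => c i ∈ K) (fun _ => propDecidable _) (Finset.range n)).card := by
  rw [← Finset.card_image_of_injOn
    (s := @Finset.filter ℕ (fun i => c i ∈ K) (fun _ => propDecidable _) (Finset.range n)) (f := c)]
  · congr 1
    ext w
    simp only [Finset.mem_inter, Finset.mem_image, Finset.mem_filter]
    constructor
    · rintro ⟨⟨i, hi, rfl⟩, hw⟩; exact ⟨i, ⟨hi, hw⟩, rfl⟩
    · rintro ⟨i, ⟨hi, hw⟩, rfl⟩; exact ⟨⟨i, hi, rfl⟩, hw⟩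
  · intro i hi j hj e
    simp only [Finset.coe_filter, Finset.mem_range, Set.mem_setOf_eq] at hi hj
    exact h.inj i hi.1 j hj.1 e

/-- adjacency inside of the cycle -/
theorem bsq_adj (i j : ℕ) : G.Adj (c i) (c j) ↔ (c j = c (i + 1) ∨ c i = c (j + 1)) := by
  have hn := h.hn
  constructor
  · have main : ∀ i j, i % n ≠ 0 → G.Adj (c i) (c j) → (c j = c (i + 1) ∨ c i = c (j + 1)) := by
      intro i j hi ha
      have hlt : i % n < n := Nat.mod_lt _ (by omega)
      have e0 := bsq_mod h i
      rw [← e0] at ha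
      rcases h.nb (i % n) (by omega) hlt (c j) (Or.inr ⟨j, rfl⟩) ha with e | e
      · right
        have e1 := bsq_succ h e
        rw [show i % n - 1 + 1 = i % n by omega, e0] at e1
        exact e1.symm
      · left
        rw [e]
        exact bsq_succ h e0
    intro ha
    by_cases hi : i % n = 0
    · by_cases hj : j % n = 0
      · exfalso
        have e : c i = c j := by rw [bsq_eq h, hi, hj]
        rw [e] at ha
        exact G.irrefl ha
      · exact (main j i hj ha.symm).symm
    · exact main i j hi ha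
  · rintro (e | e)
    · rw [e]; exact h.adj i
    · rw [e]; exact (h.adj j).symm

theorem bsq_adj_succ (i : ℕ) {u : V} (hu : u ∈ (Finset.range n).image c) :
    G.Adj (c (i + 1)) u ↔ (u = c i ∨ u = c (i + 2)) := by
  constructor
  · intro ha
    obtain ⟨j, rfl⟩ := (bsq_mem h).mp hu
    rcases (bsq_adj h _ _).mp ha with e | e
    · right; exact e
    · left
      rw [bsq_eq h] at e ⊢
      exact (Nat.ModEq.add_right_cancel' 1 e).symm
  · rintro (rfl | rfl)
    · exact (h.adj i).symm
    · exact h.adj (i + 1)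

theorem bsq_filter (S : V → Prop) (i : ℕ) :
    (((Finset.range n).image c).filter (fun u => G.Adj (c (i + 1)) u ∧ S u)).card =
      (if S (c i) then 1 else 0) + (if S (c (i + 2)) then 1 else 0) := by
  have hn := h.hn
  have e : ((Finset.range n).image c).filter (fun u => G.Adj (c (i + 1)) u ∧ S u) =
      ({c i, c (i + 2)} : Finset V).filter S := by
    ext u
    simp only [Finset.mem_filter, Finset.mem_insert, Finset.mem_singleton]
    constructor
    · rintro ⟨hu, ha, hs⟩
      exact ⟨(bsq_adj_succ h i hu).mp ha, hs⟩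
    · rintro ⟨hu, hs⟩
      have hu' : u ∈ (Finset.range n).image c := by
        rcases hu with rfl | rfl <;> exact bsq_mem' h _
      exact ⟨hu', (bsq_adj_succ h i hu').mpr hu, hs⟩
  rw [e]
  have hne : c i ≠ c (i + 2) := bsq_ne h (i := i) (a := 0) (b := 2) (by omega) (by omega) (by omega)
  rw [Finset.filter_insert, Finset.filter_singleton]
  by_cases h1 : S (c i) <;> by_cases h2 : S (c (i + 2)) <;> simp [h1, h2, hne]

end

theorem brule_iff {G : SimpleGraph V} {R : Finset V} {n : ℕ} {c : ℕ → V} (h : CycAt G R n c)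
    (K : Finset V) (S : V → Prop) (m q : V → Finset V → ℕ) :
    BRule G K S m q ((Finset.range n).image c) ↔
      LRule n (fun i => c i ∈ K) (fun i => S (c i))
        (fun i => m (c i) ((Finset.range n).image c))
        (fun i => q (c i) ((Finset.range n).image c)) := by
  have hn := h.hn
  have hcard := bsq_card h
  have hcardK := bsq_card_filter h K
  have hmem := @bsq_mem V G R n c h
  have hmem' := bsq_mem' h
  have hadj := @bsq_adj_succ V G R n c h
  have hfil := bsq_filter h
  have hfrom := @bsq_mem_from V G R n c h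
  have heq := bsq_eq h
  generalize hB : (Finset.range n).image c = B at *
  -- the third part of the spread case
  have hspr : (∀ x, B ∩ K = {x} →
        (B.card = 3 → 1 ≤ q x B ∨ ∀ w ∈ B, w ≠ x → m w B ≤ 1) ∧
        (B.card = 4 → 2 ≤ q x B ∨ ∀ u ∈ B, u ≠ x → ¬ G.Adj x u → m u B ≤ 1) ∧
        (B.card = 5 → ∑ u ∈ B.filter (fun u => u ≠ x ∧ ¬ G.Adj x u), m u B ≤ 3)) ↔
      ((@Finset.filter ℕ (fun i => c i ∈ K) (fun _ => propDecidable _) (Finset.range n)).card = 1 → ∀ i, c i ∈ K →
        (n = 3 → 1 ≤ q (c i) B ∨ (m (c (i + 1)) B ≤ 1 ∧ m (c (i + 2)) B ≤ 1)) ∧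
        (n = 4 → 2 ≤ q (c i) B ∨ m (c (i + 2)) B ≤ 1) ∧
        (n = 5 → m (c (i + 2)) B + m (c (i + 3)) B ≤ 3)) := by
    have hone : ∀ i, (n = 3 → ((∀ w ∈ B, w ≠ c i → m w B ≤ 1) ↔
          (m (c (i + 1)) B ≤ 1 ∧ m (c (i + 2)) B ≤ 1))) ∧
        (n = 4 → ((∀ u ∈ B, u ≠ c i → ¬ G.Adj (c i) u → m u B ≤ 1) ↔ m (c (i + 2)) B ≤ 1)) ∧
        (n = 5 → ∑ u ∈ B.filter (fun u => u ≠ c i ∧ ¬ G.Adj (c i) u), m u B =
          m (c (i + 2)) B + m (c (i + 3)) B) := by
      intro i
      refine ⟨fun e => ?_, fun e => ?_, fun e => ?_⟩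
      · constructor
        · intro hw
          refine ⟨hw _ (hmem' _) ?_, hw _ (hmem' _) ?_⟩
          · rw [Ne, heq, e]; omega
          · rw [Ne, heq, e]; omega
        · rintro ⟨w1, w2⟩ w hw hne
          obtain ⟨a, ha, rfl⟩ := (hfrom i).mp hw
          have ha' : a = 0 ∨ a = 1 ∨ a = 2 := by omega
          rcases ha' with rfl | rfl | rfl
          · exact absurd rfl hne
          · exact w1
          · exact w2
      · constructor
        · intro hw
          refine hw _ (hmem' _) ?_ ?_
          · rw [Ne, heq, e]; omega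
          · rw [bsq_adj h, heq, heq, e]; omega
        · rintro w2 w hw hne hna
          obtain ⟨a, ha, rfl⟩ := (hfrom i).mp hw
          have ha' : a = 0 ∨ a = 1 ∨ a = 2 ∨ a = 3 := by omega
          rcases ha' with rfl | rfl | rfl | rfl
          · exact absurd rfl hne
          · exact absurd (h.adj i) hna
          · exact w2
          · exfalso
            apply hna
            rw [bsq_adj h, heq, heq, e]; omega
      · have e2 : B.filter (fun u => u ≠ c i ∧ ¬ G.Adj (c i) u) = {c (i + 2), c (i + 3)} := by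
          ext w
          simp only [Finset.mem_filter, Finset.mem_insert, Finset.mem_singleton]
          constructor
          · rintro ⟨hw, hne, hna⟩
            obtain ⟨a, ha, rfl⟩ := (hfrom i).mp hw
            have ha' : a = 0 ∨ a = 1 ∨ a = 2 ∨ a = 3 ∨ a = 4 := by omega
            rcases ha' with rfl | rfl | rfl | rfl | rfl
            · exact absurd rfl hne
            · exact absurd (h.adj i) hna
            · left; rfl
            · right; rfl
            · exfalso
              apply hna
              rw [bsq_adj h, heq, heq, e]; omega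
          · rintro (rfl | rfl)
            · refine ⟨hmem' _, ?_, ?_⟩
              · rw [Ne, heq, e]; omega
              · rw [bsq_adj h, heq, heq, e]; omega
            · refine ⟨hmem' _, ?_, ?_⟩
              · rw [Ne, heq, e]; omega
              · rw [bsq_adj h, heq, heq, e]; omega
        rw [e2, Finset.sum_pair]
        rw [Ne, heq, e]; omega
    constructor
    · intro hx h1 i hi
      rw [← hcardK] at h1
      obtain ⟨x, hx1⟩ := Finset.card_eq_one.mp h1
      have : c i = x := by
        have : c i ∈ B ∩ K := Finset.mem_inter.mpr ⟨hmem' i, hi⟩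
        rw [hx1] at this
        exact Finset.mem_singleton.mp this
      subst this
      obtain ⟨d3, d4, d5⟩ := hx _ hx1
      obtain ⟨f3, f4, f5⟩ := hone i
      rw [hcard] at d3 d4 d5
      refine ⟨fun e => ?_, fun e => ?_, fun e => ?_⟩
      · rw [← f3 e]; exact d3 e
      · rw [← f4 e]; exact d4 e
      · rw [← f5 e]; exact d5 e
    · intro hx x hx1
      have h1 : (B ∩ K).card = 1 := by rw [hx1]; simp
      rw [hcardK] at h1
      have hxB : x ∈ B ∩ K := by rw [hx1]; simp
      obtain ⟨hxb, hxk⟩ := Finset.mem_inter.mp hxB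
      obtain ⟨i, rfl⟩ := hmem.mp hxb
      obtain ⟨d3, d4, d5⟩ := hx h1 (i + 1) hxk
      obtain ⟨f3, f4, f5⟩ := hone (i + 1)
      rw [hcard]
      refine ⟨fun e => ?_, fun e => ?_, fun e => ?_⟩
      · rw [f3 e]; exact d3 e
      · rw [f4 e]; exact d4 e
      · rw [f5 e]; exact d5 e
  constructor
  · intro hr
    refine ⟨fun i hi => ?_, fun hall => ?_, fun hex hnex => ?_⟩
    · have := hr.bound (c (i + 1)) (hmem' _) hi
      rwa [hfil] at this
    · have hsub : B ⊆ K := by
        intro w hw
        obtain ⟨i, rfl⟩ := hmem.mp hw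
        exact hall _
      obtain ⟨e1, e2⟩ := hr.full (by omega) hsub
      exact ⟨by rwa [hcard] at e1, fun i => e2 _ (hmem' i)⟩
    · have hsub : ¬ B ⊆ K := by
        intro hs
        obtain ⟨i, hi⟩ := hnex
        exact hi (hs (hmem' i))
      have hne : (B ∩ K).Nonempty := by
        obtain ⟨i, hi⟩ := hex
        exact ⟨c i, Finset.mem_inter.mpr ⟨hmem' i, hi⟩⟩
      rcases hr.mixed (by omega) hsub hne with ⟨a1, a2, a3, a4, a5⟩ | ⟨b1, b2, b3⟩
      · left
        refine ⟨fun i => a1 _ (hmem' i) _ (hmem' (i + 1)) (h.adj i), fun i u v w => ?_, ?_,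
          fun i u v w => ?_, fun i u v => ?_⟩
        · obtain ⟨y, hy, ha, hk⟩ := a2 (c (i + 1)) (Finset.mem_inter.mpr ⟨hmem' _, v⟩)
          rcases (hadj i hy).mp ha with rfl | rfl
          · exact hk u
          · exact hk w
        · rwa [hcardK] at a3
        · refine a4 _ (Finset.mem_inter.mpr ⟨hmem' _, v⟩) fun y hy ha => ?_
          obtain ⟨hyb, hyk⟩ := Finset.mem_inter.mp hy
          rcases (hadj i hyb).mp ha with rfl | rfl
          · exact u hyk
          · exact w hyk
        · exact a5 _ (Finset.mem_inter.mpr ⟨hmem' _, u⟩) _ (Finset.mem_inter.mpr ⟨hmem' _, v⟩)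
            (h.adj i)
      · right
        have c1 : ∀ i, c i ∈ K → c (i + 1) ∉ K := fun i hi hi' =>
          b1 _ (Finset.mem_inter.mpr ⟨hmem' _, hi⟩) _ (Finset.mem_inter.mpr ⟨hmem' _, hi'⟩)
            (h.adj i)
        refine ⟨fun i hi => ⟨c1 i hi, fun hi2 => ?_⟩, hspr.mp b3⟩
        obtain ⟨y, hy, ha, hk⟩ := b2 (c (i + 1)) (hmem' _) (c1 i hi)
        rcases (hadj i hy).mp ha with rfl | rfl
        · exact hk hi
        · exact hk hi2
  · intro hr
    refine ⟨fun w hw hk => ?_, fun h2 => ?_, fun _ hsub => ?_, fun _ hsub hne => ?_⟩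
    · obtain ⟨i, rfl⟩ := hmem.mp hw
      rw [hfil]
      exact hr.bound i hk
    · rw [hcard] at h2; omega
    · obtain ⟨e1, e2⟩ := hr.full (fun i => hsub (hmem' i))
      refine ⟨by rwa [hcard], fun x hx => ?_⟩
      obtain ⟨i, rfl⟩ := hmem.mp hx
      exact e2 _
    · have hex : ∃ i, c i ∈ K := by
        obtain ⟨x, hx⟩ := hne
        obtain ⟨hxb, hxk⟩ := Finset.mem_inter.mp hx
        obtain ⟨i, rfl⟩ := hmem.mp hxb
        exact ⟨_, hxk⟩
      have hnex : ∃ i, ¬ c i ∈ K := by
        by_contra hcon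
        push Not at hcon
        apply hsub
        intro w hw
        obtain ⟨i, rfl⟩ := hmem.mp hw
        exact hcon _
      rcases hr.mixed hex hnex with ⟨a1, a2, a3, a4, a5⟩ | ⟨b1, b2⟩
      · left
        refine ⟨fun u hu w hw ha => ?_, fun x hx => ?_, ?_, fun x hx hy => ?_,
          fun x hx y hy ha => ?_⟩
        · obtain ⟨i, rfl⟩ := hmem.mp hu
          rcases (hadj i hw).mp ha with rfl | rfl
          · exact (a1 i).symm
          · exact a1 (i + 1)
        · obtain ⟨hxb, hxk⟩ := Finset.mem_inter.mp hx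
          obtain ⟨i, rfl⟩ := hmem.mp hxb
          by_cases hi : c i ∈ K
          · exact ⟨c (i + 2), hmem' _, h.adj (i + 1), a2 i hi hxk⟩
          · exact ⟨c i, hmem' _, (h.adj i).symm, hi⟩
        · rw [hcardK]; exact a3
        · obtain ⟨hxb, hxk⟩ := Finset.mem_inter.mp hx
          obtain ⟨i, rfl⟩ := hmem.mp hxb
          refine a4 i (fun hi => ?_) hxk (fun hi => ?_)
          · exact hy (c i) (Finset.mem_inter.mpr ⟨hmem' _, hi⟩) (h.adj i).symm
          · exact hy (c (i + 2)) (Finset.mem_inter.mpr ⟨hmem' _, hi⟩) (h.adj (i + 1))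
        · obtain ⟨hxb, hxk⟩ := Finset.mem_inter.mp hx
          obtain ⟨hyb, hyk⟩ := Finset.mem_inter.mp hy
          obtain ⟨i, rfl⟩ := hmem.mp hxb
          rcases (hadj i hyb).mp ha with rfl | rfl
          · have := a5 i hyk hxk
            rw [add_comm]; exact this
          · exact a5 (i + 1) hxk hyk
      · right
        refine ⟨fun x hx y hy ha => ?_, fun w hw hk => ?_, hspr.mpr b2⟩
        · obtain ⟨hxb, hxk⟩ := Finset.mem_inter.mp hx
          obtain ⟨hyb, hyk⟩ := Finset.mem_inter.mp hy
          obtain ⟨i, rfl⟩ := hmem.mp hxb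
          rcases (hadj i hyb).mp ha with rfl | rfl
          · exact (b1 i hyk).1 hxk
          · exact (b1 (i + 1) hxk).1 hyk
        · obtain ⟨i, rfl⟩ := hmem.mp hw
          by_cases hi : c i ∈ K
          · exact ⟨c (i + 2), hmem' _, h.adj (i + 1), (b1 i hi).2⟩
          · exact ⟨c i, hmem' _, (h.adj i).symm, hi⟩

end Pool.Agent.H44.Cac
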