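import Pool.Agent.H44.Cac.Defs

/-! blocks -/

namespace Pool.Agent.H44.Cac

open Classical

variable {V : Type*}

/-- `R` is nonempty and any two vertices of `R` are joined by a walk inside of `R` -/
def blkAConn (G : SimpleGraph V) (R : Finset V) : Prop :=
  R.Nonempty ∧ ∀ a ∈ R, ∀ b ∈ R, ∃ p : G.Walk a b, ∀ x ∈ p.support, x ∈ R

theorem blkA_walk {G : SimpleGraph V} {B : Finset V} {a b : ((B : Set V) : Type _)}
    (p : (G.induce (B : Set V)).Walk a b) : ∃ q : G.Walk a.1 b.1, ∀ x ∈ q.support, x ∈ B := by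
  induction p with
  | nil =>
    rename_i u
    refine ⟨SimpleGraph.Walk.nil, fun x hx => ?_⟩
    simp only [SimpleGraph.Walk.support_nil, List.mem_singleton] at hx
    rw [hx]; exact Finset.mem_coe.mp u.2
  | cons h p ih =>
    rename_i u v w
    obtain ⟨q, hq⟩ := ih
    have h' : G.Adj u.1 v.1 := by simpa using h
    refine ⟨SimpleGraph.Walk.cons h' q, fun x hx => ?_⟩
    simp only [SimpleGraph.Walk.support_cons, List.mem_cons] at hx
    rcases hx with rfl | hx
    · exact Finset.mem_coe.mp u.2
    · exact hq x hx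

theorem blkA_conn_iff {G : SimpleGraph V} {R : Finset V} :
    (G.induce (R : Set V)).Connected ↔ blkAConn G R := by
  constructor
  · intro h
    refine ⟨?_, ?_⟩
    · obtain ⟨x⟩ := h.nonempty
      exact ⟨x.1, Finset.mem_coe.mp x.2⟩
    · intro a ha b hb
      obtain ⟨p⟩ := h.preconnected ⟨a, Finset.mem_coe.mpr ha⟩ ⟨b, Finset.mem_coe.mpr hb⟩
      exact blkA_walk p
  · rintro ⟨⟨r, hr⟩, h⟩
    have hne : Nonempty ((R : Set V) : Type _) := ⟨⟨r, Finset.mem_coe.mpr hr⟩⟩
    refine ⟨?_⟩
    intro a b
    obtain ⟨p, hp⟩ := h a.1 (Finset.mem_coe.mp a.2) b.1 (Finset.mem_coe.mp b.2)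
    exact ⟨p.induce (R : Set V) (fun x hx => Finset.mem_coe.mpr (hp x hx))⟩

theorem blkA_union {G : SimpleGraph V} {R R' : Finset V} (h : blkAConn G R)
    (h' : blkAConn G R') {z : V} (hz : z ∈ R) (hz' : z ∈ R') : blkAConn G (R ∪ R') := by
  refine ⟨⟨z, Finset.mem_union_left _ hz⟩, ?_⟩
  have key : ∀ a ∈ R ∪ R', ∃ p : G.Walk a z, ∀ x ∈ p.support, x ∈ R ∪ R' := by
    intro a ha
    rcases Finset.mem_union.mp ha with ha | ha
    · obtain ⟨p, hs⟩ := h.2 a ha z hz
      exact ⟨p, fun x hx => Finset.mem_union_left _ (hs x hx)⟩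
    · obtain ⟨p, hs⟩ := h'.2 a ha z hz'
      exact ⟨p, fun x hx => Finset.mem_union_right _ (hs x hx)⟩
  intro a ha b hb
  obtain ⟨p, hp⟩ := key a ha
  obtain ⟨q, hq⟩ := key b hb
  refine ⟨p.append q.reverse, ?_⟩
  intro x hx
  rw [SimpleGraph.Walk.mem_support_append_iff] at hx
  rcases hx with hx | hx
  · exact hp x hx
  · rw [SimpleGraph.Walk.support_reverse, List.mem_reverse] at hx
    exact hq x hx

/-- a connected set stays connected if vertices reaching it are added -/
theorem blkA_extend {G : SimpleGraph V} {R C : Finset V} (h : blkAConn G R) (hRC : R ⊆ C)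
    (hC : ∀ y ∈ C, ∃ z ∈ R, ∃ p : G.Walk y z, ∀ x ∈ p.support, x ∈ C) : blkAConn G C := by
  obtain ⟨⟨r, hr⟩, h2⟩ := h
  refine ⟨⟨r, hRC hr⟩, ?_⟩
  have key : ∀ a ∈ C, ∃ p : G.Walk a r, ∀ x ∈ p.support, x ∈ C := by
    intro a ha
    obtain ⟨z, hz, p, hp⟩ := hC a ha
    obtain ⟨q, hq⟩ := h2 z hz r hr
    refine ⟨p.append q, ?_⟩
    intro x hx
    rw [SimpleGraph.Walk.mem_support_append_iff] at hx
    rcases hx with hx | hx
    · exact hp x hx
    · exact hRC (hq x hx)
  intro a ha b hb
  obtain ⟨p, hp⟩ := key a ha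
  obtain ⟨q, hq⟩ := key b hb
  refine ⟨p.append q.reverse, ?_⟩
  intro x hx
  rw [SimpleGraph.Walk.mem_support_append_iff] at hx
  rcases hx with hx | hx
  · exact hp x hx
  · rw [SimpleGraph.Walk.support_reverse, List.mem_reverse] at hx
    exact hq x hx

theorem blkA_nonsep_iff {G : SimpleGraph V} {B : Finset V} :
    Nonsep G B ↔ blkAConn G B ∧ ∀ x, (∃ y ∈ B, y ≠ x) → blkAConn G (B.erase x) := by
  unfold Nonsep
  rw [blkA_conn_iff]
  constructor
  · rintro ⟨h1, h2⟩
    refine ⟨h1, ?_⟩
    rintro x ⟨y, hy, hyx⟩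
    by_cases hx : x ∈ B
    · exact blkA_conn_iff.mp (h2 x hx ⟨y, Finset.mem_erase.mpr ⟨hyx, hy⟩⟩)
    · rw [Finset.erase_eq_of_notMem hx]; exact h1
  · rintro ⟨h1, h2⟩
    refine ⟨h1, ?_⟩
    rintro x hx ⟨y, hy⟩
    exact blkA_conn_iff.mpr (h2 x ⟨y, Finset.mem_of_mem_erase hy, Finset.ne_of_mem_erase hy⟩)

theorem blkA_single {G : SimpleGraph V} (v : V) : blkAConn G {v} := by
  refine ⟨⟨v, by simp⟩, ?_⟩
  intro a ha b hb
  rw [Finset.mem_singleton] at ha hb
  subst ha; subst hb
  exact ⟨SimpleGraph.Walk.nil, by simp⟩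

theorem nonsep_pair {G : SimpleGraph V} {u v : V} (h : G.Adj u v) : Nonsep G {u, v} := by
  rw [blkA_nonsep_iff]
  have hne : u ≠ v := h.ne
  refine ⟨?_, ?_⟩
  · refine blkA_extend (blkA_single (G := G) v) (by simp) ?_
    intro y hy
    refine ⟨v, by simp, ?_⟩
    simp only [Finset.mem_insert, Finset.mem_singleton] at hy
    rcases hy with rfl | rfl
    · exact ⟨h.toWalk, by simp⟩
    · exact ⟨SimpleGraph.Walk.nil, by simp⟩
  · rintro x ⟨y, hy, hyx⟩
    by_cases hxu : x = u
    · subst hxu
      have e : ({x, v} : Finset V).erase x = {v} := by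
        ext z
        simp only [Finset.mem_erase, Finset.mem_insert, Finset.mem_singleton]
        constructor
        · rintro ⟨h1, h2 | h2⟩
          · exact absurd h2 h1
          · exact h2
        · rintro rfl
          exact ⟨hne.symm, Or.inr rfl⟩
      rw [e]; exact blkA_single v
    · by_cases hxv : x = v
      · subst hxv
        have e : ({u, x} : Finset V).erase x = {u} := by
          ext z
          simp only [Finset.mem_erase, Finset.mem_insert, Finset.mem_singleton]
          constructor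
          · rintro ⟨h1, h2 | h2⟩
            · exact h2
            · exact absurd h2 h1
          · rintro rfl
            exact ⟨hne, Or.inl rfl⟩
        rw [e]; exact blkA_single u
      · have e : ({u, v} : Finset V).erase x = {u, v} := by
          apply Finset.erase_eq_of_notMem
          simp only [Finset.mem_insert, Finset.mem_singleton, not_or]
          exact ⟨hxu, hxv⟩
        rw [e]
        refine blkA_extend (blkA_single (G := G) v) (by simp) ?_
        intro y hy
        refine ⟨v, by simp, ?_⟩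
        simp only [Finset.mem_insert, Finset.mem_singleton] at hy
        rcases hy with rfl | rfl
        · exact ⟨h.toWalk, by simp⟩
        · exact ⟨SimpleGraph.Walk.nil, by simp⟩

theorem exists_block [Fintype V] {G : SimpleGraph V} {A : Finset V} (h : Nonsep G A) :
    ∃ B, IsBlock G B ∧ A ⊆ B := by
  obtain ⟨B, hAB, hB⟩ := Finite.exists_le_maximal (p := Nonsep G) h
  exact ⟨B, hB, hAB⟩

/-- a path between two different vertices of a block stays inside of the block -/
theorem block_path {G : SimpleGraph V} {B : Finset V} (hB : IsBlock G B) {a b : V} (ha : a ∈ B)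
    (hb : b ∈ B) (hab : a ≠ b) (p : G.Walk a b) (hp : p.IsPath) : ∀ x ∈ p.support, x ∈ B := by
  obtain ⟨h1, h2⟩ := blkA_nonsep_iff.mp hB.1
  have hN : Nonsep G (B ∪ p.support.toFinset) := by
    rw [blkA_nonsep_iff]
    refine ⟨?_, ?_⟩
    · refine blkA_extend h1 Finset.subset_union_left ?_
      intro y hy
      rcases Finset.mem_union.mp hy with hy | hy
      · exact ⟨y, hy, SimpleGraph.Walk.nil, by simp [hy]⟩
      · rw [List.mem_toFinset] at hy
        obtain ⟨q, r, -, -, hqr⟩ := hp.mem_support_iff_exists_append.mp hy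
        refine ⟨a, ha, q.reverse, ?_⟩
        intro x hx
        rw [SimpleGraph.Walk.support_reverse, List.mem_reverse] at hx
        apply Finset.mem_union_right
        rw [List.mem_toFinset, hqr, SimpleGraph.Walk.mem_support_append_iff]
        exact Or.inl hx
    · intro x _
      have hne : ∃ y ∈ B, y ≠ x := by
        by_cases hax : a = x
        · exact ⟨b, hb, fun e => hab (hax.trans e.symm)⟩
        · exact ⟨a, ha, hax⟩
      refine blkA_extend (h2 x hne) (Finset.erase_subset_erase _ Finset.subset_union_left) ?_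
      intro y hy
      obtain ⟨hyx, hy⟩ := Finset.mem_erase.mp hy
      rcases Finset.mem_union.mp hy with hy | hy
      · exact ⟨y, Finset.mem_erase.mpr ⟨hyx, hy⟩, SimpleGraph.Walk.nil, by simp [hy, hyx]⟩
      · rw [List.mem_toFinset] at hy
        obtain ⟨q, r, -, -, hqr⟩ := hp.mem_support_iff_exists_append.mp hy
        by_cases hxq : x ∈ q.support
        · have hxr : x ∉ r.support := by
            intro hxr
            have h3 : (q.append r).IsPath := hqr ▸ hp
            exact h3.ne_of_mem_support_of_append (fun e => hyx e.symm) hxq hxr rfl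
          refine ⟨b, Finset.mem_erase.mpr ⟨?_, hb⟩, r, ?_⟩
          · rintro rfl; exact hxr r.end_mem_support
          · intro z hz
            refine Finset.mem_erase.mpr ⟨?_, ?_⟩
            · rintro rfl; exact hxr hz
            · apply Finset.mem_union_right
              rw [List.mem_toFinset, hqr, SimpleGraph.Walk.mem_support_append_iff]
              exact Or.inr hz
        · refine ⟨a, Finset.mem_erase.mpr ⟨?_, ha⟩, q.reverse, ?_⟩
          · rintro rfl; exact hxq q.start_mem_support
          · intro z hz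
            rw [SimpleGraph.Walk.support_reverse, List.mem_reverse] at hz
            refine Finset.mem_erase.mpr ⟨?_, ?_⟩
            · rintro rfl; exact hxq hz
            · apply Finset.mem_union_right
              rw [List.mem_toFinset, hqr, SimpleGraph.Walk.mem_support_append_iff]
              exact Or.inl hz
  intro x hx
  have hle : B ≤ B ∪ p.support.toFinset := Finset.subset_union_left
  exact hB.2 hN hle (Finset.mem_union_right _ (List.mem_toFinset.mpr hx))

/-- two blocks sharing two vertices are equal -/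
theorem block_unique {G : SimpleGraph V} {B B' : Finset V} (hB : IsBlock G B)
    (hB' : IsBlock G B') {a b : V} (hab : a ≠ b) (ha : a ∈ B) (hb : b ∈ B) (ha' : a ∈ B')
    (hb' : b ∈ B') : B = B' := by
  obtain ⟨h1, h2⟩ := blkA_nonsep_iff.mp hB.1
  obtain ⟨h1', h2'⟩ := blkA_nonsep_iff.mp hB'.1
  have hN : Nonsep G (B ∪ B') := by
    rw [blkA_nonsep_iff]
    refine ⟨blkA_union h1 h1' ha ha', ?_⟩
    intro x _
    rw [Finset.erase_union_distrib]
    by_cases hax : a = x
    · have hbx : b ≠ x := fun e => hab (hax.trans e.symm)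
      exact blkA_union (h2 x ⟨b, hb, hbx⟩) (h2' x ⟨b, hb', hbx⟩)
        (Finset.mem_erase.mpr ⟨hbx, hb⟩) (Finset.mem_erase.mpr ⟨hbx, hb'⟩)
    · exact blkA_union (h2 x ⟨a, ha, hax⟩) (h2' x ⟨a, ha', hax⟩)
        (Finset.mem_erase.mpr ⟨hax, ha⟩) (Finset.mem_erase.mpr ⟨hax, ha'⟩)
  have e1 : B = B ∪ B' := le_antisymm Finset.subset_union_left (hB.2 hN Finset.subset_union_left)
  have e2 : B' = B ∪ B' :=
    le_antisymm Finset.subset_union_right (hB'.2 hN Finset.subset_union_right)
  exact e1.trans e2.symm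

end Pool.Agent.H44.Cac
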