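import Pool.Agent.H44.Cac.WordDefs
import Pool.Agent.H44.Cac.WDomDefs

/-!
Deletions: profiles, weighted graphs with profiles.  Definitions.
-/

namespace Pool.Agent.H44.Cac

open Classical

/-- gluing of profiles -/
def gl (f g : Pf) : Pf := fun k =>
  (Finset.range (k + 1)).sup' ⟨0, by simp⟩ (fun i => glue (f i) (g (k - i)))

/-- profile of a piece hung at a new root by an edge -/
def ex (g : Pf) : Pf := fun k =>
  match k with
  | 0 => g 0 + 1
  | k + 1 => max (g (k + 1) + 1) (E true (g k))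

/-- outcome of closing a chain of profiles after `k` deletions (the last edge included) -/
def Out (gs : List Pf) (k : ℕ) (L : ℤ) : Prop :=
  ∃ i P, Fw gs i P ∧ ((k = i ∧ L = clo P false) ∨ (k = i + 1 ∧ L = clo P true))

/-- `α` is the profile of the piece formed by a cycle with branches `gs` -/
def IsOut (gs : List Pf) (α : Pf) : Prop :=
  (∀ k L, Out gs k L → L ≤ α k) ∧ (∀ k, ∃ j ≤ k, Out gs j (α k)) ∧ Monotone α

variable {V : Type*}

/-- at most `k` deletions do not raise the weighted domination number -/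
def GoodW (G : SimpleGraph V) (R : Finset V) (f : V → Pf) (k : ℕ) : Prop :=
  ∀ n, WD G R (fun v => f v 0) n → ∀ (F : Finset (Sym2 V)) (κ : V → ℕ),
    F.card + ∑ v ∈ R, κ v ≤ k → WD (G.deleteEdges (F : Set (Sym2 V))) R (fun v => f v (κ v)) n

/-- a cycle `c 0, ..., c (n - 1)` of `G` attached to the core `R` at `c 0` -/
structure CycAt (G : SimpleGraph V) (R : Finset V) (n : ℕ) (c : ℕ → V) : Prop where
  hn : 3 ≤ n
  per : ∀ i, c (i + n) = c i
  inj : ∀ i < n, ∀ j < n, c i = c j → i = j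
  mem : c 0 ∈ R
  notMem : ∀ i, 0 < i → i < n → c i ∉ R
  adj : ∀ i, G.Adj (c i) (c (i + 1))
  nb : ∀ i, 0 < i → i < n → ∀ y, (y ∈ R ∨ ∃ j, y = c j) → G.Adj (c i) y →
    y = c (i - 1) ∨ y = c (i + 1)

end Pool.Agent.H44.Cac
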