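import Pool.Agent.H44.Cac.Defs
import Pool.Agent.H44.Cac.FailDefs

/-! enumeration of a cycle block, and of an edge block -/

namespace Pool.Agent.H44.Cac

open Classical

variable {V : Type*}

theorem blkB_adj_iff {n : ℕ} (hn : 3 ≤ n) (x y : ℕ) (hx : x % n < n) (hy : y % n < n) :
    (SimpleGraph.cycleGraph n).Adj ⟨x % n, hx⟩ ⟨y % n, hy⟩ ↔
      (x + 1) % n = y % n ∨ (y + 1) % n = x % n := by
  have key : ∀ a b : ℕ, a % n < n → b % n < n →
      ((n - b % n + a % n) % n = 1 ↔ (b + 1) % n = a % n) := by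
    intro a b ha hb
    have e : (b + 1) % n = (b % n + 1) % n := by rw [Nat.mod_add_mod]
    rw [e]
    set p := a % n
    set q := b % n
    by_cases hq : q + 1 = n
    · rw [hq, Nat.mod_self]
      by_cases hp : p < q
      · rw [Nat.mod_eq_of_lt (by omega)]; omega
      · have : p = q := by omega
        rw [show n - q + p = n by omega, Nat.mod_self]; omega
    · rw [Nat.mod_eq_of_lt (show q + 1 < n by omega)]
      by_cases hp : p < q
      · rw [Nat.mod_eq_of_lt (by omega)]; omega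
      · rw [show n - q + p = (p - q) + n by omega, Nat.add_mod_right,
          Nat.mod_eq_of_lt (by omega)]
        omega
  rw [SimpleGraph.cycleGraph_adj']
  rw [Fin.sub_def, Fin.sub_def]
  simp only
  rw [key x y hx hy, key y x hy hx]
  exact Or.comm

/-- enumeration of a cycle block starting at a given vertex -/
theorem enum_cycle {G : SimpleGraph V} {B : Finset V} {n : ℕ} (hn : 3 ≤ n)
    (h : Nonempty (G.induce (B : Set V) ≃g SimpleGraph.cycleGraph n)) {v : V} (hv : v ∈ B) :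
    ∃ c : ℕ → V, c 0 = v ∧ (∀ i, c (i + n) = c i) ∧ (∀ i < n, ∀ j < n, c i = c j → i = j) ∧
      (Finset.range n).image c = B ∧ (∀ i, G.Adj (c i) (c (i + 1))) ∧
      (∀ i, 0 < i → ∀ y ∈ B, G.Adj (c i) y → y = c (i - 1) ∨ y = c (i + 1)) := by
  obtain ⟨φ⟩ := h
  have hpos : 0 < n := by omega
  have hlt : ∀ x : ℕ, x % n < n := fun x => Nat.mod_lt _ hpos
  set k0 : ℕ := (φ ⟨v, Finset.mem_coe.mpr hv⟩).val with hk0
  have hk0n : k0 < n := (φ ⟨v, Finset.mem_coe.mpr hv⟩).isLt
  let c : ℕ → V := fun i => (φ.symm ⟨(k0 + i) % n, hlt _⟩).1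
  have hc : ∀ i, c i = (φ.symm ⟨(k0 + i) % n, hlt _⟩).1 := fun i => rfl
  have hcongr : ∀ i j, (k0 + i) % n = (k0 + j) % n → c i = c j := by
    intro i j e
    rw [hc, hc]
    congr 2
    exact Fin.ext e
  have hadj : ∀ i j, G.Adj (c i) (c j) ↔
      (k0 + i + 1) % n = (k0 + j) % n ∨ (k0 + j + 1) % n = (k0 + i) % n := by
    intro i j
    rw [← blkB_adj_iff hn (k0 + i) (k0 + j) (hlt _) (hlt _), ← φ.symm.map_adj_iff]
    rfl
  have hsurj : ∀ b ∈ B, ∃ i < n, c i = b := by
    intro b hb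
    set k : ℕ := (φ ⟨b, Finset.mem_coe.mpr hb⟩).val with hk
    have hkn : k < n := (φ ⟨b, Finset.mem_coe.mpr hb⟩).isLt
    refine ⟨(k + n - k0) % n, hlt _, ?_⟩
    have e : (k0 + (k + n - k0) % n) % n = k := by
      rw [Nat.add_mod_mod, show k0 + (k + n - k0) = k + n by omega, Nat.add_mod_right,
        Nat.mod_eq_of_lt hkn]
    rw [hc]
    have e2 : (⟨(k0 + (k + n - k0) % n) % n, hlt _⟩ : Fin n) = φ ⟨b, Finset.mem_coe.mpr hb⟩ :=
      Fin.ext e
    rw [e2, φ.symm_apply_apply]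
  refine ⟨c, ?_, ?_, ?_, ?_, ?_, ?_⟩
  · rw [hc]
    have e2 : (⟨(k0 + 0) % n, hlt _⟩ : Fin n) = φ ⟨v, Finset.mem_coe.mpr hv⟩ := by
      apply Fin.ext
      simp only [Nat.add_zero]
      rw [Nat.mod_eq_of_lt hk0n]
    rw [e2, φ.symm_apply_apply]
  · intro i
    apply hcongr
    rw [← Nat.add_assoc, Nat.add_mod_right]
  · intro i hi j hj e
    rw [hc, hc] at e
    have e2 := φ.symm.injective (Subtype.ext e)
    have e3 : (k0 + i) % n = (k0 + j) % n := congrArg Fin.val e2
    have e4 : i ≡ j [MOD n] := Nat.ModEq.add_left_cancel' k0 e3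
    have e5 : i % n = j % n := e4
    rwa [Nat.mod_eq_of_lt hi, Nat.mod_eq_of_lt hj] at e5
  · ext b
    rw [Finset.mem_image]
    constructor
    · rintro ⟨i, -, rfl⟩
      rw [hc]
      exact Finset.mem_coe.mp (φ.symm ⟨(k0 + i) % n, hlt _⟩).2
    · intro hb
      obtain ⟨i, hi, e⟩ := hsurj b hb
      exact ⟨i, Finset.mem_range.mpr hi, e⟩
  · intro i
    rw [hadj]
    exact Or.inl rfl
  · intro i hi y hy ha
    obtain ⟨j, hj, rfl⟩ := hsurj y hy
    rw [hadj] at ha
    rcases ha with ha | ha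
    · right
      exact hcongr _ _ ha.symm
    · left
      apply hcongr
      have e4 : k0 + j + 1 ≡ k0 + (i - 1) + 1 [MOD n] := by
        rw [show k0 + (i - 1) + 1 = k0 + i by omega]
        exact ha
      exact Nat.ModEq.add_right_cancel' 1 e4

theorem enum_edge {G : SimpleGraph V} {B : Finset V}
    (h : Nonempty (G.induce (B : Set V) ≃g SimpleGraph.completeGraph (Fin 2))) {v : V}
    (hv : v ∈ B) : ∃ u, u ≠ v ∧ G.Adj u v ∧ B = {v, u} := by
  obtain ⟨φ⟩ := h
  set k0 : Fin 2 := φ ⟨v, Finset.mem_coe.mpr hv⟩ with hk0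
  have hne : (1 - k0 : Fin 2) ≠ k0 := by
    generalize k0 = k
    revert k; decide
  have hv' : φ.symm k0 = ⟨v, Finset.mem_coe.mpr hv⟩ := by rw [hk0, φ.symm_apply_apply]
  have hadj : G.Adj (φ.symm (1 - k0)).1 v := by
    have h1 : (SimpleGraph.completeGraph (Fin 2)).Adj (1 - k0) k0 := hne
    rw [← φ.symm.map_adj_iff, hv'] at h1
    exact h1
  refine ⟨(φ.symm (1 - k0)).1, hadj.ne, hadj, ?_⟩
  ext b
  rw [Finset.mem_insert, Finset.mem_singleton]
  constructor
  · intro hb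
    have h2 : ∀ k l : Fin 2, l = k ∨ l = 1 - k := by decide
    rcases h2 k0 (φ ⟨b, Finset.mem_coe.mpr hb⟩) with e | e
    · left
      have := φ.injective (e.trans hk0)
      exact congrArg Subtype.val this
    · right
      rw [← e, φ.symm_apply_apply]
  · rintro (rfl | rfl)
    · exact hv
    · exact Finset.mem_coe.mp (φ.symm (1 - k0)).2

end Pool.Agent.H44.Cac
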