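import Pool.Agent.H44.Cac.FailDefs

/-!
Certificates for weighted cactus graphs: definitions.
-/

namespace Pool.Agent.H44.Cac

open Classical

/-- the fifteen live states -/
structure L15 (g : Pf) : Prop extends Live g where
  no00 : ty g = 0 → g 0 + 1 ≤ g 2
  no211 : ty g = 2 → g 1 = g 0 + 1 → g 2 = g 0 + 2

/-- admissible profiles: monotone, and dead or in one of the fifteen live states -/
def Adm (g : Pf) : Prop := Monotone g ∧ (g 0 + 3 ≤ g 2 ∨ L15 g)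

variable {V : Type*}

/-- conditions on a block `B`, `K` the critical vertices, `S` the strong vertices, `m`, `q` the
labels -/
structure BRule (G : SimpleGraph V) (K : Finset V) (S : V → Prop) (m q : V → Finset V → ℕ)
    (B : Finset V) : Prop where
  bound : ∀ w ∈ B, w ∉ K → m w B ≤ (B.filter (fun u => G.Adj w u ∧ S u)).card
  edge : B.card = 2 → ¬ B ⊆ K
  full : 3 ≤ B.card → B ⊆ K → B.card % 3 = 1 ∧ ∀ x ∈ B, 1 ≤ q x B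
  mixed : 3 ≤ B.card → ¬ B ⊆ K → (B ∩ K).Nonempty →
    ((∀ u ∈ B, ∀ w ∈ B, G.Adj u w → u ∈ K ∨ w ∈ K) ∧
      (∀ x ∈ B ∩ K, ∃ w ∈ B, G.Adj x w ∧ w ∉ K) ∧
      (B ∩ K).card % 2 = 1 ∧
      (∀ x ∈ B ∩ K, (∀ y ∈ B ∩ K, ¬ G.Adj x y) → 2 ≤ q x B) ∧
      (∀ x ∈ B ∩ K, ∀ y ∈ B ∩ K, G.Adj x y → 3 ≤ q x B + q y B)) ∨
    ((∀ x ∈ B ∩ K, ∀ y ∈ B ∩ K, ¬ G.Adj x y) ∧
      (∀ w ∈ B, w ∉ K → ∃ u ∈ B, G.Adj w u ∧ u ∉ K) ∧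
      (∀ x, B ∩ K = {x} →
        (B.card = 3 → 1 ≤ q x B ∨ ∀ w ∈ B, w ≠ x → m w B ≤ 1) ∧
        (B.card = 4 → 2 ≤ q x B ∨ ∀ u ∈ B, u ≠ x → ¬ G.Adj x u → m u B ≤ 1) ∧
        (B.card = 5 → ∑ u ∈ B.filter (fun u => u ≠ x ∧ ¬ G.Adj x u), m u B ≤ 3)))

/-- strong vertices of a weighted graph -/
def Sg (G : SimpleGraph V) (f : V → Pf) (K : Finset V) (v : V) : Prop :=
  v ∈ K ∨ (∃ x ∈ K, G.Adj v x) ∨ ty (f v) = 0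

/-- sum of the labels of `w` -/
noncomputable def sm (𝓑 : Finset (Finset V)) (m : V → Finset V → ℕ) (w : V) : ℕ :=
  ∑ B ∈ 𝓑.filter (fun B => w ∈ B), m w B

/-- certificate for a weighted graph with core `R` and blocks `𝓑` -/
structure WCert (G : SimpleGraph V) (R : Finset V) (𝓑 : Finset (Finset V)) (f : V → Pf)
    (K : Finset V) (m q : V → Finset V → ℕ) : Prop where
  sub : K ⊆ R
  crit : ∀ x ∈ K, ty (f x) = 2 ∧ f x 2 ≤ f x 0 + 2 ∧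
    (∀ B ∈ 𝓑, x ∈ B → q x B ≤ 2) ∧
    (∀ B ∈ 𝓑, x ∈ B → 1 ≤ q x B → f x 1 ≤ f x 0 + 1) ∧
    (∀ B ∈ 𝓑, x ∈ B → 2 ≤ q x B → f x 1 ≤ f x 0) ∧
    (∀ B ∈ 𝓑, ∀ B' ∈ 𝓑, x ∈ B → x ∈ B' → B ≠ B' → 2 ≤ q x B → q x B' = 0)
  own : ∀ w ∈ R, w ∉ K → ty (f w) = 0 →
    (∀ x ∈ K, ¬ G.Adj w x) ∧ f w 2 ≤ f w 0 + 2 ∧ 3 ≤ cS (f w) + sm 𝓑 m w
  strong : ∀ w ∈ R, w ∉ K → ty (f w) ≠ 0 → (∃ x ∈ K, G.Adj w x) →
    (∀ B ∈ 𝓑, ∀ B' ∈ 𝓑, w ∈ B → w ∈ B' → (∃ x ∈ K, x ∈ B ∧ G.Adj w x) →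
      (∃ x ∈ K, x ∈ B' ∧ G.Adj w x) → B = B') ∧
    (ty (f w) = 1 → f w 2 ≤ f w 0 + 2 ∧ 3 ≤ cT (f w) + sm 𝓑 m w) ∧
    (ty (f w) = 2 → f w 1 ≤ f w 0 ∧ f w 2 ≤ f w 0 + 1 ∧ 3 ≤ sm 𝓑 m w)
  weak : ∀ w ∈ R, w ∉ K → ty (f w) ≠ 0 → (∀ x ∈ K, ¬ G.Adj w x) →
    (ty (f w) = 1 → f w 2 ≤ f w 0 + 1 ∧ 3 ≤ cN (f w) + sm 𝓑 m w) ∧
    (ty (f w) = 2 → f w 2 ≤ f w 0 ∧ 3 ≤ sm 𝓑 m w)
  block : ∀ B ∈ 𝓑, BRule G K (Sg G f K) m q B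

/-- there is a certificate -/
def HasCert (G : SimpleGraph V) (R : Finset V) (𝓑 : Finset (Finset V)) (f : V → Pf) : Prop :=
  ∃ K m q, WCert G R 𝓑 f K m q

/-- graphs with distinguished core grown by adding blocks: edges and cycles -/
inductive Core (G : SimpleGraph V) : Finset V → Finset (Finset V) → Prop
  | single (r : V) : Core G {r} ∅
  | bridge {R : Finset V} {𝓑 : Finset (Finset V)} {v u : V} (h : Core G R 𝓑) (hv : v ∈ R)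
      (hu : u ∉ R) (ha : G.Adj u v) (hn : ∀ y ∈ R, G.Adj u y → y = v) :
      Core G (insert u R) (insert {v, u} 𝓑)
  | cycle {R : Finset V} {𝓑 : Finset (Finset V)} {n : ℕ} {c : ℕ → V} (h : Core G R 𝓑)
      (hc : CycAt G R n c) :
      Core G (R ∪ (Finset.range n).image c) (insert ((Finset.range n).image c) 𝓑)

/-! ### interface of a block attached at `v` -/

/-- demands at a vertex, for a piece with profile `g` -/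
def okK (q : ℕ) (g : Pf) : Prop := ty g = 2 ∧ g 1 ≤ g 0 + q ∧ g 2 ≤ g 0 + 2
def okO (n : ℕ) (g : Pf) : Prop := ty g = 0 ∧ g 2 ≤ g 0 + 2 ∧ n ≤ cS g
def okS (n : ℕ) (g : Pf) : Prop :=
  (ty g = 1 ∧ g 1 ≤ g 0 + 1 ∧ g 2 ≤ g 0 + 2 ∧ n ≤ cT g) ∨
  (ty g = 2 ∧ g 1 ≤ g 0 ∧ g 2 ≤ g 0 + 1 ∧ n = 0)
def okN (n : ℕ) (g : Pf) : Prop :=
  (ty g = 1 ∧ g 2 ≤ g 0 + 1 ∧ n ≤ cN g) ∨ (ty g = 2 ∧ g 2 ≤ g 0 ∧ n = 0)

/-- strength seen inside of the block: `kv` = `v` is critical, `sv` = `v` is strong -/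
def SB (G : SimpleGraph V) (f : V → Pf) (v : V) (sv : Prop) (K' : Finset V) (w : V) : Prop :=
  if w = v then sv else (w ∈ K' ∨ (∃ x ∈ K', G.Adj w x) ∨ ty (f w) = 0)

/-- the side of a block `insert v A` attached at `v`; `kv` = `v` is critical, `sv` = `v` is strong,
`K` = the critical vertices of `A` -/
structure BSide (G : SimpleGraph V) (f : V → Pf) (A : Finset V) (v : V) (kv sv : Prop)
    (K : Finset V) (m q : V → ℕ) : Prop where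
  sub : K ⊆ A
  crit : ∀ x ∈ K, ty (f x) = 2 ∧ f x 2 ≤ f x 0 + 2 ∧ q x ≤ 2 ∧ (1 ≤ q x → f x 1 ≤ f x 0 + 1) ∧
    (2 ≤ q x → f x 1 ≤ f x 0)
  own : ∀ w ∈ A, w ∉ K → ty (f w) = 0 →
    (∀ x, (x ∈ K ∨ (kv ∧ x = v)) → ¬ G.Adj w x) ∧ f w 2 ≤ f w 0 + 2 ∧ 3 ≤ cS (f w) + m w
  strong : ∀ w ∈ A, w ∉ K → ty (f w) ≠ 0 → (∃ x, (x ∈ K ∨ (kv ∧ x = v)) ∧ G.Adj w x) →
    (ty (f w) = 1 → f w 2 ≤ f w 0 + 2 ∧ 3 ≤ cT (f w) + m w) ∧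
    (ty (f w) = 2 → f w 1 ≤ f w 0 ∧ f w 2 ≤ f w 0 + 1 ∧ 3 ≤ m w)
  weak : ∀ w ∈ A, w ∉ K → ty (f w) ≠ 0 → (∀ x, (x ∈ K ∨ (kv ∧ x = v)) → ¬ G.Adj w x) →
    (ty (f w) = 1 → f w 2 ≤ f w 0 + 1 ∧ 3 ≤ cN (f w) + m w) ∧
    (ty (f w) = 2 → f w 2 ≤ f w 0 ∧ 3 ≤ m w)
  qv : kv → q v ≤ 2
  block : BRule G (if kv then insert v K else K)
    (SB G f v sv (if kv then insert v K else K)) (fun w _ => m w) (fun w _ => q w) (insert v A)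

/-- the profile `α` describes the block `insert v A` attached at `v` -/
structure Iface (G : SimpleGraph V) (f : V → Pf) (A : Finset V) (v : V) (α : Pf) : Prop where
  iK : ∀ q0 ≤ 2, (∃ K m q, BSide G f A v True True K m q ∧ q v ≤ q0) ↔ okK q0 α
  iO : ∀ n ≤ 2, (∃ K m q, BSide G f A v False True K m q ∧ (∃ x ∈ K, G.Adj v x) ∧ n ≤ m v) ↔
    okO n α
  iS : ∀ n ≤ 2, (∃ K m q, BSide G f A v False True K m q ∧ (∀ x ∈ K, ¬ G.Adj v x) ∧ n ≤ m v) ↔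
    okS n α
  iN : ∀ n ≤ 2, (∃ K m q, BSide G f A v False False K m q ∧ (∀ x ∈ K, ¬ G.Adj v x) ∧ n ≤ m v) ↔
    okN n α
  iso : 3 * (α 0 / 3) + 2 ≤ α 2

/-! ### labels along a cyclic sequence -/

/-- the block rule for the sequences `k` (critical), `s` (strong), `mm`, `qq` (labels) of period
`n` -/
structure LRule (n : ℕ) (k s : ℕ → Prop) (mm qq : ℕ → ℕ) : Prop where
  bound : ∀ i, ¬ k (i + 1) → mm (i + 1) ≤ (if s i then 1 else 0) + (if s (i + 2) then 1 else 0)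
  full : (∀ i, k i) → n % 3 = 1 ∧ ∀ i, 1 ≤ qq i
  mixed : (∃ i, k i) → (∃ i, ¬ k i) →
    ((∀ i, k i ∨ k (i + 1)) ∧ (∀ i, k i → k (i + 1) → ¬ k (i + 2)) ∧
      ((Finset.range n).filter k).card % 2 = 1 ∧
      (∀ i, ¬ k i → k (i + 1) → ¬ k (i + 2) → 2 ≤ qq (i + 1)) ∧
      (∀ i, k i → k (i + 1) → 3 ≤ qq i + qq (i + 1))) ∨
    ((∀ i, k i → ¬ k (i + 1) ∧ ¬ k (i + 2)) ∧
      (((Finset.range n).filter k).card = 1 → ∀ i, k i →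
        (n = 3 → 1 ≤ qq i ∨ (mm (i + 1) ≤ 1 ∧ mm (i + 2) ≤ 1)) ∧
        (n = 4 → 2 ≤ qq i ∨ mm (i + 2) ≤ 1) ∧
        (n = 5 → mm (i + 2) + mm (i + 3) ≤ 3)))

/-- vertex conditions for a sequence of profiles `p` of period `n`, every vertex in one block -/
structure VC (p : ℕ → Pf) (k s : ℕ → Prop) (mm qq : ℕ → ℕ) : Prop where
  crit : ∀ i, k i → ty (p i) = 2 ∧ p i 2 ≤ p i 0 + 2 ∧ s i ∧ qq i ≤ 2 ∧
    (1 ≤ qq i → p i 1 ≤ p i 0 + 1) ∧ (2 ≤ qq i → p i 1 ≤ p i 0)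
  own : ∀ i, ¬ k (i + 1) → ty (p (i + 1)) = 0 → ¬ k i ∧ ¬ k (i + 2) ∧ s (i + 1) ∧
    p (i + 1) 2 ≤ p (i + 1) 0 + 2 ∧ 3 ≤ cS (p (i + 1)) + mm (i + 1)
  strong : ∀ i, ¬ k (i + 1) → ty (p (i + 1)) ≠ 0 → (k i ∨ k (i + 2)) → s (i + 1) ∧
    (ty (p (i + 1)) = 1 → p (i + 1) 2 ≤ p (i + 1) 0 + 2 ∧ 3 ≤ cT (p (i + 1)) + mm (i + 1)) ∧
    (ty (p (i + 1)) = 2 → 3 ≤ mm (i + 1))
  weak : ∀ i, ¬ k (i + 1) → ty (p (i + 1)) ≠ 0 → ¬ k i → ¬ k (i + 2) → ¬ s (i + 1) ∧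
    (ty (p (i + 1)) = 1 → p (i + 1) 2 ≤ p (i + 1) 0 + 1 ∧ 3 ≤ cN (p (i + 1)) + mm (i + 1)) ∧
    (ty (p (i + 1)) = 2 → 3 ≤ mm (i + 1))

/-- test profiles -/
def tst (t a b : ℤ) : Pf := fun k => if k = 0 then t else if k = 1 then t + a else t + b

end Pool.Agent.H44.Cac
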