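import Pool.Agent.H44.Cac.BlkA
import Pool.Agent.H44.Cac.BlkB
import Pool.Agent.H44.Cac.CertDefs

/-! cactus graphs are grown by adding blocks -/

namespace Pool.Agent.H44.Cac

open Classical

variable {V : Type*}

/-- any two vertices of `R` are joined by a path inside of `R` -/
def blkCConn (G : SimpleGraph V) (R : Finset V) : Prop :=
  ∀ a ∈ R, ∀ b ∈ R, ∃ p : G.Walk a b, p.IsPath ∧ ∀ x ∈ p.support, x ∈ R

theorem blkC_conn_of_walk {G : SimpleGraph V} {R : Finset V} {a b : V} (p : G.Walk a b)
    (hp : ∀ x ∈ p.support, x ∈ R) : ∃ q : G.Walk a b, q.IsPath ∧ ∀ x ∈ q.support, x ∈ R :=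
  ⟨p.bypass, p.bypass_isPath, fun x hx => hp x (p.support_bypass_subset_support hx)⟩

theorem blkC_walk_of_induce {G : SimpleGraph V} {B : Finset V} {a b : ((B : Set V) : Type _)}
    (p : (G.induce (B : Set V)).Walk a b) : ∃ q : G.Walk a.1 b.1, ∀ x ∈ q.support, x ∈ B := by
  induction p with
  | nil =>
    rename_i u
    refine ⟨SimpleGraph.Walk.nil, fun x hx => ?_⟩
    simp only [SimpleGraph.Walk.support_nil, List.mem_singleton] at hx
    rw [hx]; exact Finset.mem_coe.mp u.2
  | cons h p ih =>
    rename_i u v w
    obtain ⟨q, hq⟩ := ih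
    have h' : G.Adj u.1 v.1 := by simpa using h
    refine ⟨SimpleGraph.Walk.cons h' q, fun x hx => ?_⟩
    simp only [SimpleGraph.Walk.support_cons, List.mem_cons] at hx
    rcases hx with rfl | hx
    · exact Finset.mem_coe.mp u.2
    · exact hq x hx

theorem blkC_conn_of_induce {G : SimpleGraph V} {B : Finset V}
    (h : (G.induce (B : Set V)).Connected) : blkCConn G B := by
  intro a ha b hb
  obtain ⟨p⟩ := h.preconnected ⟨a, Finset.mem_coe.mpr ha⟩ ⟨b, Finset.mem_coe.mpr hb⟩
  obtain ⟨q, hq⟩ := blkC_walk_of_induce p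
  exact blkC_conn_of_walk q hq

/-- the invariant of the construction -/
structure blkCInv [Fintype V] (G : SimpleGraph V) (R : Finset V) (𝓑 : Finset (Finset V)) :
    Prop where
  core : Core G R 𝓑
  conn : blkCConn G R
  isb : ∀ B ∈ 𝓑, IsBlock G B
  sub : ∀ B ∈ 𝓑, B ⊆ R
  one : ∀ B, IsBlock G B → B ∉ 𝓑 → ∀ a ∈ B, ∀ b ∈ B, a ∈ R → b ∈ R → a = b

/-- an edge from a connected part `R` back into a block that meets `R` in `v` -/
theorem blkC_back [Fintype V] {G : SimpleGraph V} {R : Finset V} {B : Finset V}
    (hR : blkCConn G R) (hB : IsBlock G B) {v x y : V} (hv : v ∈ R) (hvB : v ∈ B) (hx : x ∈ B)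
    (hxR : x ∉ R) (hy : y ∈ R) (ha : G.Adj x y) : y ∈ B := by
  obtain ⟨p, hp, hs⟩ := hR v hv y hy
  have hq : (p.concat ha.symm).IsPath := by
    rw [SimpleGraph.Walk.concat_isPath_iff]
    exact ⟨hp, fun h => hxR (hs x h)⟩
  have hvx : v ≠ x := by rintro rfl; exact hxR hv
  refine block_path hB hvB hx hvx _ hq y ?_
  rw [SimpleGraph.Walk.support_concat]
  simp

/-- adding a block keeps the invariant, apart from `Core` -/
theorem blkC_step [Fintype V] {G : SimpleGraph V} {R : Finset V} {𝓑 : Finset (Finset V)}
    (h : blkCInv G R 𝓑) {B : Finset V} (hB : IsBlock G B) {v : V} (hv : v ∈ R) (hvB : v ∈ B)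
    (hBn : B ∉ 𝓑) (hcore : Core G (R ∪ B) (insert B 𝓑)) : blkCInv G (R ∪ B) (insert B 𝓑) := by
  have hBc : blkCConn G B := blkC_conn_of_induce hB.1.1
  have hmeet : ∀ x ∈ B, x ∈ R → x = v := fun x hx hxR => h.one B hB hBn x hx v hvB hxR hv
  refine ⟨hcore, ?_, ?_, ?_, ?_⟩
  · have key : ∀ a ∈ R ∪ B, ∃ p : G.Walk a v, ∀ x ∈ p.support, x ∈ R ∪ B := by
      intro a ha
      rcases Finset.mem_union.mp ha with ha | ha
      · obtain ⟨p, -, hs⟩ := h.conn a ha v hv
        exact ⟨p, fun x hx => Finset.mem_union_left _ (hs x hx)⟩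
      · obtain ⟨p, -, hs⟩ := hBc a ha v hvB
        exact ⟨p, fun x hx => Finset.mem_union_right _ (hs x hx)⟩
    intro a ha b hb
    obtain ⟨p, hp⟩ := key a ha
    obtain ⟨q, hq⟩ := key b hb
    refine blkC_conn_of_walk (p.append q.reverse) ?_
    intro x hx
    rw [SimpleGraph.Walk.mem_support_append_iff] at hx
    rcases hx with hx | hx
    · exact hp x hx
    · rw [SimpleGraph.Walk.support_reverse, List.mem_reverse] at hx
      exact hq x hx
  · intro B' hB'
    rcases Finset.mem_insert.mp hB' with rfl | hB'
    · exact hB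
    · exact h.isb B' hB'
  · intro B' hB'
    rcases Finset.mem_insert.mp hB' with rfl | hB'
    · exact Finset.subset_union_right
    · exact (h.sub B' hB').trans Finset.subset_union_left
  · intro B' hB' hn
    have hne : B ≠ B' := by rintro rfl; exact hn (Finset.mem_insert_self _ _)
    have hn' : B' ∉ 𝓑 := fun hm => hn (Finset.mem_insert_of_mem hm)
    have mixed : ∀ a ∈ B', ∀ b ∈ B', a ∈ R → b ∈ B → a = b := by
      intro a ha b hb haR hbB
      by_contra hab
      by_cases haB : a ∈ B
      · exact hne (block_unique hB hB' hab haB hbB ha hb)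
      by_cases hbR : b ∈ R
      · exact hab (h.one B' hB' hn' a ha b hb haR hbR)
      obtain ⟨p, hp, hps⟩ := h.conn a haR v hv
      obtain ⟨q, hq, hqs⟩ := hBc v hvB b hbB
      have hvb : v ≠ b := by rintro rfl; exact hbR hv
      have hpq : (p.append q).IsPath := by
        rw [SimpleGraph.Walk.isPath_def, SimpleGraph.Walk.support_append, List.nodup_append]
        have hq' := hq.support_nodup
        rw [← SimpleGraph.Walk.cons_tail_support, List.nodup_cons] at hq'
        refine ⟨hp.support_nodup, hq'.2, ?_⟩
        intro x hx y hy hxy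
        subst hxy
        have hxB : x ∈ B := hqs x (List.mem_of_mem_tail hy)
        have hxv : x = v := hmeet x hxB (hps x hx)
        subst hxv
        exact hq'.1 hy
      have hvB' : v ∈ B' := by
        refine block_path hB' ha hb hab _ hpq v ?_
        rw [SimpleGraph.Walk.mem_support_append_iff]
        exact Or.inl p.end_mem_support
      exact hne (block_unique hB hB' hvb hvB hbB hvB' hb)
    intro a ha b hb haR hbR
    rcases Finset.mem_union.mp haR with haR | haR <;> rcases Finset.mem_union.mp hbR with hbR | hbR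
    · exact h.one B' hB' hn' a ha b hb haR hbR
    · exact mixed a ha b hb haR hbR
    · exact (mixed b hb a ha hbR haR).symm
    · by_contra hab
      exact hne (block_unique hB hB' hab haR hbR ha hb)

theorem blkC_grow [Fintype V] {G : SimpleGraph V} (hG : IsCactus G) (n : ℕ) :
    ∀ (R : Finset V) (𝓑 : Finset (Finset V)), blkCInv G R 𝓑 → R.Nonempty →
      (Finset.univ \ R).card = n → ∃ 𝓑', blkCInv G Finset.univ 𝓑' := by
  induction n using Nat.strong_induction_on with
  | _ n ih =>
    intro R 𝓑 h hne hcard
    by_cases hR : R = Finset.univ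
    · subst hR; exact ⟨𝓑, h⟩
    obtain ⟨r, hr⟩ := hne
    obtain ⟨z, hz⟩ : ∃ z, z ∉ R := by
      by_contra hcon
      push Not at hcon
      exact hR (Finset.eq_univ_iff_forall.mpr hcon)
    obtain ⟨p⟩ := hG.1.preconnected r z
    obtain ⟨d, -, hd1, hd2⟩ := p.exists_boundary_dart (R : Set V) (by simpa using hr)
      (by simpa using hz)
    obtain ⟨⟨v, u⟩, huv⟩ := d
    have hv : v ∈ R := by simpa using hd1
    have hu : u ∉ R := by simpa using hd2
    have huv' : G.Adj v u := huv
    obtain ⟨B, hB, hsub⟩ := exists_block (nonsep_pair huv')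
    have hvB : v ∈ B := hsub (by simp)
    have huB : u ∈ B := hsub (by simp)
    have hBn : B ∉ 𝓑 := fun hm => hu (h.sub B hm huB)
    have hmeet : ∀ x ∈ B, x ∈ R → x = v := fun x hx hxR => h.one B hB hBn x hx v hvB hxR hv
    have hback : ∀ x ∈ B, x ∉ R → ∀ y ∈ R, G.Adj x y → y = v := by
      intro x hx hxR y hy ha
      exact hmeet y (blkC_back h.conn hB hv hvB hx hxR hy ha) hy
    have hcore : Core G (R ∪ B) (insert B 𝓑) := by
      rcases hG.2 B hB with hK | ⟨m, hm, hC⟩
      · obtain ⟨u', hu', -, hBe⟩ := enum_edge hK hvB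
        have hue : u' = u := by
          rw [hBe] at huB
          simp only [Finset.mem_insert, Finset.mem_singleton] at huB
          rcases huB with rfl | rfl
          · exact absurd hv hu
          · rfl
        subst hue
        have e1 : R ∪ B = insert u' R := by
          rw [hBe]
          ext x
          simp only [Finset.mem_union, Finset.mem_insert, Finset.mem_singleton]
          constructor
          · rintro (hx | rfl | rfl)
            · exact Or.inr hx
            · exact Or.inr hv
            · exact Or.inl rfl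
          · rintro (rfl | hx)
            · exact Or.inr (Or.inr rfl)
            · exact Or.inl hx
        rw [e1, hBe]
        exact Core.bridge h.core hv hu huv'.symm (fun y hy ha => hback u' huB hu y hy ha)
      · obtain ⟨c, hc0, hper, hinj, himg, hadj, hnb⟩ := enum_cycle hm hC hvB
        have hcB : ∀ i < m, c i ∈ B := by
          intro i hi
          rw [← himg]
          exact Finset.mem_image.mpr ⟨i, Finset.mem_range.mpr hi, rfl⟩
        have hcB' : ∀ j, c j ∈ B := by
          intro j
          induction j using Nat.strong_induction_on with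
          | _ j ihj =>
            by_cases hj : j < m
            · exact hcB j hj
            · have h2 := ihj (j - m) (by omega)
              have h3 := hper (j - m)
              rw [show j - m + m = j by omega] at h3
              rw [h3]; exact h2
        have hcR : ∀ i, 0 < i → i < m → c i ∉ R := by
          intro i hi0 hi hiR
          have h2 := hmeet (c i) (hcB i hi) hiR
          rw [← hc0] at h2
          have := hinj i hi 0 (by omega) h2
          omega
        have hcyc : CycAt G R m c := by
          refine ⟨hm, hper, hinj, by rw [hc0]; exact hv, hcR, hadj, ?_⟩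
          intro i hi0 hi y hy ha
          refine hnb i hi0 y ?_ ha
          rcases hy with hy | ⟨j, rfl⟩
          · rw [hback (c i) (hcB i hi) (hcR i hi0 hi) y hy ha]
            exact hvB
          · exact hcB' j
        have := Core.cycle h.core hcyc
        rw [himg] at this
        exact this
    have hInv := blkC_step h hB hv hvB hBn hcore
    refine ih (Finset.univ \ (R ∪ B)).card ?_ (R ∪ B) (insert B 𝓑) hInv
      ⟨v, Finset.mem_union_left _ hv⟩ rfl
    rw [← hcard]
    apply Finset.card_lt_card
    rw [Finset.ssubset_iff_of_subset]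
    · exact ⟨u, by simp [hu], by simp [huB]⟩
    · intro x hx
      simp only [Finset.mem_sdiff, Finset.mem_univ, true_and, Finset.mem_union, not_or] at hx ⊢
      exact hx.1

theorem core_of_cactus [Fintype V] {G : SimpleGraph V} (hG : IsCactus G) (hV : Nontrivial V) :
    Core G Finset.univ (blocks G) := by
  obtain ⟨r⟩ := hG.1.nonempty
  have h0 : blkCInv G {r} ∅ := by
    refine ⟨Core.single r, ?_, by simp, by simp, ?_⟩
    · intro a ha b hb
      rw [Finset.mem_singleton] at ha hb
      subst ha; subst hb
      exact ⟨SimpleGraph.Walk.nil, SimpleGraph.Walk.IsPath.nil, by simp⟩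
    · intro B _ _ a _ b _ ha hb
      rw [Finset.mem_singleton] at ha hb
      rw [ha, hb]
  obtain ⟨𝓑, h⟩ := blkC_grow hG _ {r} ∅ h0 ⟨r, by simp⟩ rfl
  have e : 𝓑 = blocks G := by
    ext B
    simp only [blocks, Finset.mem_filter, Finset.mem_univ, true_and]
    refine ⟨h.isb B, ?_⟩
    intro hB
    by_contra hn
    have hone := h.one B hB hn
    obtain ⟨x, hx⟩ : B.Nonempty := by
      obtain ⟨x⟩ := hB.1.1.nonempty
      exact ⟨x.1, Finset.mem_coe.mp x.2⟩
    obtain ⟨y, hxy⟩ := hG.1.preconnected.exists_adj_of_nontrivial x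
    have hBx : ∀ b ∈ B, b = x := fun b hb => hone b hb x hx (Finset.mem_univ _) (Finset.mem_univ _)
    have hle : B ≤ {x, y} := by
      intro b hb
      rw [hBx b hb]
      simp
    have h2 : ({x, y} : Finset V) ≤ B := hB.2 (nonsep_pair hxy) hle
    have hy : y ∈ B := h2 (by simp)
    exact hxy.ne (hBx y hy).symm
  rw [← e]
  exact h.core

end Pool.Agent.H44.Cac
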