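import Pool.Agent.H44.Cac.WDomDefs

namespace Pool.Agent.H44.Cac

open Classical

variable {V : Type*}

namespace WDAux

theorem cost_mono {b b' : ℤ} (h : b' ≤ b) (s d : Prop) : cost b' s d ≤ cost b s d := by
  unfold cost; split_ifs <;> omega

theorem cost_anti (b : ℤ) (s : Prop) {d d' : Prop} (h : d → d') : cost b s d' ≤ cost b s d := by
  unfold cost; split_ifs with h1 h2 h3 h3 <;> first | omega | exact absurd (h h3) h2

theorem cost_raise (b : ℤ) (s d : Prop) : cost (b + 3) s d = cost b s d + 1 := by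
  unfold cost; split_ifs <;> omega

theorem cost_true (b : ℤ) {s : Prop} (hs : s) (d : Prop) : cost b s d = (b + 2) / 3 := by
  unfold cost; rw [if_pos hs]

theorem cost_z (b : ℤ) {s d : Prop} (hs : ¬ s) (hd : d) : cost b s d = b / 3 := by
  unfold cost; rw [if_neg hs, if_pos hd]

theorem cost_y (b : ℤ) {s d : Prop} (hs : ¬ s) (hd : ¬ d) : cost b s d = (b + 1) / 3 := by
  unfold cost; rw [if_neg hs, if_neg hd]

theorem E_x (adj : Prop) (c : ℤ) :
    (E (decide ¬ adj) c + 2) / 3 - 1 = if adj then c / 3 else (c + 1) / 3 := by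
  by_cases h : adj <;> simp [E, h] <;> omega

theorem E_y (adj : Prop) (c : ℤ) :
    (E (decide ¬ adj) c + 1) / 3 = if adj then (c + 2) / 3 else (c + 1) / 3 + 1 := by
  by_cases h : adj <;> simp [E, h] <;> omega

theorem E_z (adj : Prop) (c : ℤ) : (E (decide ¬ adj) c) / 3 = (c + 1) / 3 := by
  by_cases h : adj <;> simp [E, h] <;> omega

theorem leaf_le (a c : ℤ) (adj s d su : Prop) :
    cost (glue a (E (decide ¬ adj) c)) s d
      ≤ cost a s (d ∨ (su ∧ adj)) + cost c su (s ∧ adj) := by
  have hx := glue_x a (E (decide ¬ adj) c)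
  have hy := glue_y a (E (decide ¬ adj) c)
  have hz := glue_z a (E (decide ¬ adj) c)
  have ex := E_x adj c
  have ey := E_y adj c
  have ez := E_z adj c
  generalize E (decide ¬ adj) c = e at *
  by_cases hs : s
  · rw [cost_true _ hs, cost_true _ hs, hx]
    by_cases ha : adj
    · rw [if_pos ha] at ex
      unfold cost
      split_ifs <;> omega
    · rw [if_neg ha] at ex
      have : ¬ (s ∧ adj) := fun h => ha h.2
      unfold cost
      rw [if_neg this]
      split_ifs <;> omega
  · have h0 : ¬ (s ∧ adj) := fun h => hs h.1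
    by_cases hd : d
    · rw [cost_z _ hs hd, cost_z _ hs (Or.inl hd), hz]
      unfold cost
      rw [if_neg h0]
      split_ifs <;> omega
    · rw [cost_y _ hs hd, hy]
      by_cases hsu : su
      · rw [cost_true c hsu]
        by_cases ha : adj
        · rw [if_pos ha] at ey
          rw [cost_z _ hs (Or.inr ⟨hsu, ha⟩)]
          omega
        · have h1 : ¬ (d ∨ (su ∧ adj)) := by tauto
          rw [cost_y _ hs h1]
          omega
      · have h1 : ¬ (d ∨ (su ∧ adj)) := by tauto
        rw [cost_y _ hs h1, cost_y c hsu h0]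
        omega

/-- the best choice at the leaf -/
theorem leaf_ge (a c : ℤ) (adj s d : Prop) :
    (∃ su : Prop, cost a s (d ∨ (su ∧ adj)) + cost c su (s ∧ adj)
      ≤ cost (glue a (E (decide ¬ adj) c)) s d) ∨
    (¬ s ∧ (a + 2) / 3 + cost c False adj ≤ cost (glue a (E (decide ¬ adj) c)) s d) := by
  have hx := glue_x a (E (decide ¬ adj) c)
  have hy := glue_y a (E (decide ¬ adj) c)
  have hz := glue_z a (E (decide ¬ adj) c)
  have ex := E_x adj c
  have ey := E_y adj c
  have ez := E_z adj c
  have hcost : cost c False adj = if adj then c / 3 else (c + 1) / 3 := by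
    unfold cost; simp
  generalize E (decide ¬ adj) c = e at *
  by_cases hs : s
  · left
    refine ⟨False, ?_⟩
    have : cost c False (s ∧ adj) = cost c False adj := by
      unfold cost; simp [hs]
    rw [cost_true _ hs, cost_true _ hs, hx, this, hcost]
    omega
  · have h0 : ¬ (s ∧ adj) := fun h => hs h.1
    by_cases hd : d
    · rw [cost_z _ hs hd, hz]
      rcases le_total ((a + 2) / 3 + (e + 2) / 3 - 1) (a / 3 + e / 3) with h | h
      · right
        refine ⟨hs, ?_⟩
        rw [min_eq_left h, hcost]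
        omega
      · left
        refine ⟨False, ?_⟩
        rw [min_eq_right h, cost_z _ hs (Or.inl hd), cost_y _ (by simp) h0]
        omega
    · rw [cost_y _ hs hd, hy]
      rcases le_total ((a + 2) / 3 + (e + 2) / 3 - 1)
        (min ((a + 1) / 3 + e / 3) (a / 3 + (e + 1) / 3)) with h | h
      · right
        refine ⟨hs, ?_⟩
        rw [min_eq_left h, hcost]
        omega
      · left
        rw [min_eq_right h]
        rcases le_total ((a + 1) / 3 + e / 3) (a / 3 + (e + 1) / 3) with h' | h'
        · refine ⟨False, ?_⟩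
          rw [min_eq_left h', cost_y _ hs (by simp [hd]), cost_y _ (by simp) h0]
          omega
        · rw [min_eq_right h']
          by_cases ha : adj
          · refine ⟨True, ?_⟩
            rw [if_pos ha] at ey
            rw [cost_z _ hs (Or.inr ⟨trivial, ha⟩), cost_true _ trivial]
            omega
          · refine ⟨False, ?_⟩
            rw [if_neg ha] at ey
            rw [cost_y _ hs (by simp [hd]), cost_y _ (by simp) h0]
            omega

theorem wc_update {H : SimpleGraph V} {R T : Finset V} {b : V → ℤ} {v : V} (hv : v ∈ R) (c : ℤ) :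
    wc H R (Function.update b v c) T =
      ∑ y ∈ R.erase v, cost (b y) (y ∈ T) (∃ w ∈ T, H.Adj w y) +
        cost c (v ∈ T) (∃ w ∈ T, H.Adj w v) := by
  unfold wc
  rw [← Finset.sum_erase_add R _ hv, Function.update_self]
  congr 1
  apply Finset.sum_congr rfl
  intro y hy
  rw [Function.update_of_ne (Finset.ne_of_mem_erase hy)]

theorem wc_split {H : SimpleGraph V} {R T : Finset V} {b : V → ℤ} {v : V} (hv : v ∈ R) :
    wc H R b T =
      ∑ y ∈ R.erase v, cost (b y) (y ∈ T) (∃ w ∈ T, H.Adj w y) +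
        cost (b v) (v ∈ T) (∃ w ∈ T, H.Adj w v) := by
  have := wc_update (H := H) (T := T) (b := b) hv (b v)
  rwa [Function.update_eq_self] at this

theorem wc_leaf {H : SimpleGraph V} {R T : Finset V} {b : V → ℤ} {u v : V} (hv : v ∈ R)
    (hu : u ∉ R) (hn : ∀ y ∈ R, H.Adj u y → y = v) (hT : T ⊆ R) (su : Prop) :
    wc H (insert u R) b (if su then insert u T else T) =
      ∑ y ∈ R.erase v, cost (b y) (y ∈ T) (∃ w ∈ T, H.Adj w y) +
        (cost (b v) (v ∈ T) ((∃ w ∈ T, H.Adj w v) ∨ (su ∧ H.Adj u v)) +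
          cost (b u) su (v ∈ T ∧ H.Adj u v)) := by
  have huT : u ∉ T := fun h => hu (hT h)
  have hmem : ∀ y, y ∈ (if su then insert u T else T) ↔ (su ∧ y = u) ∨ y ∈ T := by
    intro y
    split_ifs with h <;> simp [h]
  have hex : ∀ y, (∃ w ∈ (if su then insert u T else T), H.Adj w y) ↔
      ((∃ w ∈ T, H.Adj w y) ∨ (su ∧ H.Adj u y)) := by
    intro y
    constructor
    · rintro ⟨w, hw, hwy⟩
      rcases (hmem w).1 hw with ⟨h1, rfl⟩ | h1
      · exact Or.inr ⟨h1, hwy⟩
      · exact Or.inl ⟨w, h1, hwy⟩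
    · rintro (⟨w, hw, hwy⟩ | ⟨h1, h2⟩)
      · exact ⟨w, (hmem w).2 (Or.inr hw), hwy⟩
      · exact ⟨u, (hmem u).2 (Or.inl ⟨h1, rfl⟩), h2⟩
  unfold wc
  rw [Finset.sum_insert hu, ← Finset.sum_erase_add R _ hv]
  have e1 : cost (b u) (u ∈ (if su then insert u T else T))
      (∃ w ∈ (if su then insert u T else T), H.Adj w u) = cost (b u) su (v ∈ T ∧ H.Adj u v) := by
    congr 1
    · rw [hmem]; simp [huT]
    · rw [hex]
      apply propext
      constructor
      · rintro (⟨w, hw, hwu⟩ | ⟨_, h⟩)
        · have := hn w (hT hw) hwu.symm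
          subst this
          exact ⟨hw, hwu.symm⟩
        · exact absurd h (H.loopless.irrefl u)
      · rintro ⟨h1, h2⟩
        exact Or.inl ⟨v, h1, h2.symm⟩
  have e2 : cost (b v) (v ∈ (if su then insert u T else T))
      (∃ w ∈ (if su then insert u T else T), H.Adj w v) =
      cost (b v) (v ∈ T) ((∃ w ∈ T, H.Adj w v) ∨ (su ∧ H.Adj u v)) := by
    have hvu : v ≠ u := fun h => hu (h ▸ hv)
    congr 1
    · rw [hmem]; simp [hvu]
    · rw [hex]
  rw [e1, e2]
  have e3 : ∑ x ∈ R.erase v, cost (b x) (x ∈ (if su then insert u T else T))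
      (∃ w ∈ (if su then insert u T else T), H.Adj w x) =
      ∑ y ∈ R.erase v, cost (b y) (y ∈ T) (∃ w ∈ T, H.Adj w y) := by
    apply Finset.sum_congr rfl
    intro y hy
    have hyR := Finset.mem_of_mem_erase hy
    have hyv := Finset.ne_of_mem_erase hy
    have hyu : y ≠ u := fun h => hu (h ▸ hyR)
    have hay : ¬ H.Adj u y := fun h => hyv (hn y hyR h)
    congr 1
    · rw [hmem]; simp [hyu]
    · rw [hex]; simp [hay]
  rw [e3]
  ring

/-- enlarging the set at one vertex -/
theorem rest_mono {H H' : SimpleGraph V} (hH : H' ≤ H) {R T : Finset V} {b : V → ℤ} {v : V} :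
    ∑ y ∈ R.erase v, cost (b y) (y ∈ insert v T) (∃ w ∈ insert v T, H.Adj w y) ≤
      ∑ y ∈ R.erase v, cost (b y) (y ∈ T) (∃ w ∈ T, H'.Adj w y) := by
  apply Finset.sum_le_sum
  intro y hy
  have hyv := Finset.ne_of_mem_erase hy
  have : (y ∈ insert v T) = (y ∈ T) := by simp [hyv]
  rw [this]
  apply cost_anti
  rintro ⟨w, hw, hwy⟩
  exact ⟨w, Finset.mem_insert_of_mem hw, hH hwy⟩

end WDAux

open WDAux

theorem WD_congr {H H' : SimpleGraph V} {R : Finset V} {b b' : V → ℤ} {n : ℤ}
    (hH : ∀ u ∈ R, ∀ v ∈ R, (H.Adj u v ↔ H'.Adj u v)) (hb : ∀ v ∈ R, b v = b' v) :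
    WD H R b n ↔ WD H' R b' n := by
  unfold WD
  apply exists_congr
  intro S
  apply and_congr_right
  intro hS
  have : wc H R b S = wc H' R b' S := by
    unfold wc
    apply Finset.sum_congr rfl
    intro v hv
    rw [hb v hv]
    congr 1
    apply propext
    constructor
    · rintro ⟨u, hu, h⟩
      exact ⟨u, hu, (hH u (hS hu) v hv).1 h⟩
    · rintro ⟨u, hu, h⟩
      exact ⟨u, hu, (hH u (hS hu) v hv).2 h⟩
  rw [this]

theorem WD_mono {H : SimpleGraph V} {R : Finset V} {b b' : V → ℤ} {n : ℤ}
    (hb : ∀ v ∈ R, b' v ≤ b v) (h : WD H R b n) : WD H R b' n := by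
  obtain ⟨S, hS, h⟩ := h
  exact ⟨S, hS, le_trans (Finset.sum_le_sum fun v hv => cost_mono (hb v hv) _ _) h⟩

theorem WD_mono_n {H : SimpleGraph V} {R : Finset V} {b : V → ℤ} {n m : ℤ} (hnm : n ≤ m)
    (h : WD H R b n) : WD H R b m := by
  obtain ⟨S, hS, h⟩ := h
  exact ⟨S, hS, h.trans hnm⟩

theorem WD_exists (H : SimpleGraph V) (R : Finset V) (b : V → ℤ) : ∃ n, WD H R b n :=
  ⟨_, ∅, Finset.empty_subset _, le_rfl⟩

/-- lower bound -/
theorem WD_bdd (H : SimpleGraph V) (R : Finset V) (b : V → ℤ) : ∃ m, ∀ n, WD H R b n → m ≤ n := by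
  refine ⟨∑ v ∈ R, b v / 3, ?_⟩
  rintro n ⟨S, -, h⟩
  refine le_trans (Finset.sum_le_sum fun v _ => ?_) h
  unfold cost
  split_ifs <;> omega

theorem WD_single {H : SimpleGraph V} {v : V} {b : V → ℤ} {n : ℤ} :
    WD H {v} b n ↔ (b v + 1) / 3 ≤ n := by
  constructor
  · rintro ⟨S, hS, h⟩
    unfold wc at h
    rw [Finset.sum_singleton] at h
    refine le_trans ?_ h
    by_cases hv : v ∈ S
    · rw [cost_true _ hv]; omega
    · rw [cost_y _ hv]
      rintro ⟨u, hu, -⟩
      have := Finset.mem_singleton.1 (hS hu)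
      exact hv (this ▸ hu)
  · intro h
    refine ⟨∅, Finset.empty_subset _, ?_⟩
    unfold wc
    rw [Finset.sum_singleton, cost_y _ (by simp) (by simp)]
    exact h

/-- raising a level by 3 costs 1 -/
theorem WD_raise {H : SimpleGraph V} {R : Finset V} {b : V → ℤ} {n : ℤ} {v : V} (hv : v ∈ R)
    (h : WD H R (Function.update b v (b v + 3)) n) : WD H R b (n - 1) := by
  obtain ⟨S, hS, h⟩ := h
  refine ⟨S, hS, ?_⟩
  rw [wc_update hv, cost_raise] at h
  rw [wc_split hv]
  omega

/-- absorption of a leaf `u` hanging at `v` (the edge may be missing) -/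
theorem WD_leaf {H : SimpleGraph V} {R : Finset V} {b : V → ℤ} {n : ℤ} {u v : V} (hv : v ∈ R)
    (hu : u ∉ R) (hn : ∀ y ∈ R, H.Adj u y → y = v) :
    WD H (insert u R) b n ↔
      WD H R (Function.update b v (glue (b v) (E (decide ¬ H.Adj u v) (b u)))) n := by
  constructor
  · rintro ⟨S, hS, h⟩
    have hT : S.erase u ⊆ R := by
      intro y hy
      exact (Finset.mem_insert.1 (hS (Finset.mem_of_mem_erase hy))).resolve_left
        (Finset.ne_of_mem_erase hy)
    have key := wc_leaf (b := b) hv hu hn hT (u ∈ S)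
    have hST : (@ite _ (u ∈ S) (Classical.propDecidable _) (insert u (S.erase u)) (S.erase u))
        = S := by
      split_ifs with hh
      · rw [Finset.insert_erase hh]
      · rw [Finset.erase_eq_of_notMem hh]
    rw [hST] at key
    refine ⟨S.erase u, hT, ?_⟩
    rw [key] at h
    rw [wc_update hv]
    have := leaf_le (b v) (b u) (H.Adj u v) (v ∈ S.erase u) (∃ w ∈ S.erase u, H.Adj w v) (u ∈ S)
    linarith
  · rintro ⟨T, hT, h⟩
    rw [wc_update hv] at h
    rcases leaf_ge (b v) (b u) (H.Adj u v) (v ∈ T) (∃ w ∈ T, H.Adj w v) with ⟨su, hsu⟩ | ⟨hvT, hh⟩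
    · refine ⟨if su then insert u T else T, ?_, ?_⟩
      · split_ifs
        · exact Finset.insert_subset_insert _ hT
        · exact hT.trans (Finset.subset_insert _ _)
      · rw [wc_leaf hv hu hn hT su]
        linarith
    · have hT' : insert v T ⊆ R := Finset.insert_subset hv hT
      refine ⟨insert v T, hT'.trans (Finset.subset_insert _ _), ?_⟩
      have key := wc_leaf (b := b) hv hu hn hT' False
      rw [if_neg (by simp)] at key
      rw [key]
      have h1 := rest_mono (le_refl H) (R := R) (T := T) (b := b) (v := v)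
      have h2 : cost (b v) (v ∈ insert v T) ((∃ w ∈ insert v T, H.Adj w v) ∨ (False ∧ H.Adj u v))
          = (b v + 2) / 3 := cost_true _ (Finset.mem_insert_self v T) _
      have h3 : cost (b u) False (v ∈ insert v T ∧ H.Adj u v) = cost (b u) False (H.Adj u v) := by
        congr 1
        simp
      rw [h2, h3]
      linarith

namespace WDAux

theorem glue3_x (a : ℤ) : (glue a 3 + 2) / 3 = (a + 2) / 3 := by
  rw [glue_x]; omega
theorem glue3_y (a : ℤ) : (glue a 3 + 1) / 3 = (a + 2) / 3 := by
  rw [glue_y]; omega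
theorem glue3_z (a : ℤ) : (glue a 3) / 3 = (a + 2) / 3 := by
  rw [glue_z]; omega
theorem glue1_x (a : ℤ) : (glue a 1 + 2) / 3 = (a + 2) / 3 := by
  rw [glue_x]; omega
theorem glue1_y (a : ℤ) : (glue a 1 + 1) / 3 = a / 3 := by
  rw [glue_y]; omega
theorem glue1_z (a : ℤ) : (glue a 1) / 3 = a / 3 := by
  rw [glue_z]; omega

theorem cost3 (a : ℤ) (s d : Prop) : cost (glue a 3) s d = (a + 2) / 3 := by
  unfold cost
  split_ifs
  · exact glue3_x a
  · exact glue3_z a
  · exact glue3_y a

theorem cost1 (a : ℤ) (s d : Prop) : cost (glue a 1) s d = if s then (a + 2) / 3 else a / 3 := by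
  unfold cost
  split_ifs
  · exact glue1_x a
  · exact glue1_z a
  · exact glue1_y a

theorem split2 {R : Finset V} {p q : V} (hp : p ∈ R) (hq : q ∈ R) (hpq : p ≠ q) (f : V → ℤ) :
    ∑ y ∈ R, f y = ∑ y ∈ (R.erase p).erase q, f y + f p + f q := by
  have hq' : q ∈ R.erase p := Finset.mem_erase.2 ⟨hpq.symm, hq⟩
  rw [← Finset.sum_erase_add R _ hp, ← Finset.sum_erase_add (R.erase p) _ hq']
  ring

/-- one half of the elimination of an edge, `p` in the set and `q` not -/
theorem edge_fwd {H : SimpleGraph V} {R S : Finset V} {b : V → ℤ} {p q : V} (hp : p ∈ R)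
    (hq : q ∈ R) (hpq : H.Adj p q) (hpS : p ∈ S) (hqS : q ∉ S) :
    wc (H.deleteEdges {s(p, q)}) R
      (Function.update (Function.update b p (glue (b p) 3)) q (glue (b q) 1)) S = wc H R b S := by
  have hne : p ≠ q := hpq.ne
  unfold wc
  rw [split2 hp hq hne, split2 hp hq hne]
  have e1 : ∑ y ∈ (R.erase p).erase q,
      cost (Function.update (Function.update b p (glue (b p) 3)) q (glue (b q) 1) y) (y ∈ S)
        (∃ u ∈ S, (H.deleteEdges {s(p, q)}).Adj u y) =
      ∑ y ∈ (R.erase p).erase q, cost (b y) (y ∈ S) (∃ u ∈ S, H.Adj u y) := by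
    apply Finset.sum_congr rfl
    intro y hy
    have hyq := Finset.ne_of_mem_erase hy
    have hyp := Finset.ne_of_mem_erase (Finset.mem_of_mem_erase hy)
    rw [Function.update_of_ne hyq, Function.update_of_ne hyp]
    congr 1
    apply propext
    apply exists_congr
    intro u
    apply and_congr_right
    intro _
    rw [SimpleGraph.deleteEdges_adj]
    constructor
    · exact fun h => h.1
    · intro h
      refine ⟨h, ?_⟩
      simp only [Set.mem_singleton_iff, Sym2.eq_iff]
      tauto
  rw [e1, Function.update_self, Function.update_of_ne hne, Function.update_self, cost3, cost1,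
    if_neg hqS, cost_true (b p) hpS, cost_z (b q) hqS ⟨p, hpS, hpq⟩]

theorem edge_bwd {H : SimpleGraph V} {R : Finset V} {b : V → ℤ} {n : ℤ} {p q : V} (hp : p ∈ R)
    (hq : q ∈ R) (hpq : H.Adj p q)
    (h : WD (H.deleteEdges {s(p, q)}) R
        (Function.update (Function.update b p (glue (b p) 3)) q (glue (b q) 1)) n) :
    WD H R b n := by
  obtain ⟨S, hS, h⟩ := h
  have hne : p ≠ q := hpq.ne
  refine ⟨insert p S, Finset.insert_subset hp hS, le_trans ?_ h⟩
  unfold wc
  rw [split2 hp hq hne, split2 hp hq hne]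
  rw [Function.update_self, Function.update_of_ne hne, Function.update_self, cost3]
  have h1 : cost (b p) (p ∈ insert p S) (∃ u ∈ insert p S, H.Adj u p) = (b p + 2) / 3 :=
    cost_true _ (Finset.mem_insert_self _ _) _
  have h2 : cost (b q) (q ∈ insert p S) (∃ u ∈ insert p S, H.Adj u q) =
      cost (glue (b q) 1) (q ∈ S) (∃ u ∈ S, (H.deleteEdges {s(p, q)}).Adj u q) := by
    rw [cost1]
    by_cases hqS : q ∈ S
    · rw [if_pos hqS, cost_true _ (Finset.mem_insert_of_mem hqS)]
    · rw [if_neg hqS, cost_z _ (by simp [hqS, hne.symm]) ⟨p, Finset.mem_insert_self _ _, hpq⟩]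
  rw [h1, h2]
  have h3 : ∑ y ∈ (R.erase p).erase q, cost (b y) (y ∈ insert p S) (∃ u ∈ insert p S, H.Adj u y) ≤
      ∑ y ∈ (R.erase p).erase q,
      cost (Function.update (Function.update b p (glue (b p) 3)) q (glue (b q) 1) y) (y ∈ S)
        (∃ u ∈ S, (H.deleteEdges {s(p, q)}).Adj u y) := by
    apply Finset.sum_le_sum
    intro y hy
    have hyq := Finset.ne_of_mem_erase hy
    have hyp := Finset.ne_of_mem_erase (Finset.mem_of_mem_erase hy)
    rw [Function.update_of_ne hyq, Function.update_of_ne hyp]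
    have : (y ∈ insert p S) = (y ∈ S) := by simp [hyp]
    rw [this]
    apply cost_anti
    rintro ⟨w, hw, hwy⟩
    exact ⟨w, Finset.mem_insert_of_mem hw, SimpleGraph.deleteEdges_le _ hwy⟩
  linarith

end WDAux

/-- elimination of an edge -/
theorem WD_edge {H : SimpleGraph V} {R : Finset V} {b : V → ℤ} {n : ℤ} {p q : V} (hp : p ∈ R)
    (hq : q ∈ R) (hpq : H.Adj p q) :
    WD H R b n ↔
      WD (H.deleteEdges {s(p, q)}) R b n ∨
      WD (H.deleteEdges {s(p, q)}) R
        (Function.update (Function.update b p (glue (b p) 3)) q (glue (b q) 1)) n ∨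
      WD (H.deleteEdges {s(p, q)}) R
        (Function.update (Function.update b p (glue (b p) 1)) q (glue (b q) 3)) n := by
  have hne : p ≠ q := hpq.ne
  have hcomm : Function.update (Function.update b p (glue (b p) 1)) q (glue (b q) 3) =
      Function.update (Function.update b q (glue (b q) 3)) p (glue (b p) 1) :=
    Function.update_comm hne _ _ _
  have hsymm : (s(p, q) : Sym2 V) = s(q, p) := Sym2.eq_swap
  constructor
  · rintro ⟨S, hS, h⟩
    by_cases hpS : p ∈ S <;> by_cases hqS : q ∈ S
    · left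
      refine ⟨S, hS, le_of_eq_of_le ?_ h⟩
      unfold wc
      apply Finset.sum_congr rfl
      intro y _
      by_cases hyS : y ∈ S
      · rw [cost_true _ hyS, cost_true _ hyS]
      · have hyp : y ≠ p := fun h => hyS (h ▸ hpS)
        have hyq : y ≠ q := fun h => hyS (h ▸ hqS)
        congr 1
        apply propext
        apply exists_congr
        intro u
        apply and_congr_right
        intro _
        rw [SimpleGraph.deleteEdges_adj]
        constructor
        · exact fun h => h.1
        · intro h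
          refine ⟨h, ?_⟩
          simp only [Set.mem_singleton_iff, Sym2.eq_iff]
          tauto
    · right; left
      exact ⟨S, hS, le_of_eq_of_le (WDAux.edge_fwd hp hq hpq hpS hqS) h⟩
    · right; right
      refine ⟨S, hS, le_of_eq_of_le ?_ h⟩
      rw [hcomm, hsymm]
      exact WDAux.edge_fwd hq hp hpq.symm hqS hpS
    · left
      refine ⟨S, hS, le_of_eq_of_le ?_ h⟩
      unfold wc
      apply Finset.sum_congr rfl
      intro y _
      congr 1
      apply propext
      apply exists_congr
      intro u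
      apply and_congr_right
      intro huS
      have hup : u ≠ p := fun h => hpS (h ▸ huS)
      have huq : u ≠ q := fun h => hqS (h ▸ huS)
      rw [SimpleGraph.deleteEdges_adj]
      constructor
      · exact fun h => h.1
      · intro h
        refine ⟨h, ?_⟩
        simp only [Set.mem_singleton_iff, Sym2.eq_iff]
        tauto
  · rintro (⟨S, hS, h⟩ | h | h)
    · refine ⟨S, hS, le_trans ?_ h⟩
      apply Finset.sum_le_sum
      intro y _
      apply cost_anti
      rintro ⟨w, hw, hwy⟩
      exact ⟨w, hw, SimpleGraph.deleteEdges_le _ hwy⟩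
    · exact WDAux.edge_bwd hp hq hpq h
    · rw [hcomm, hsymm] at h
      exact WDAux.edge_bwd hq hp hpq.symm h

end Pool.Agent.H44.Cac
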