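import Pool.Agent.H44.Cac.Defs
import Pool.Agent.H44.Cac.CertDefs
import Pool.Agent.H44.Cac.WD

/-! translation to domination number and bondage number -/

namespace Pool.Agent.H44.Cac

open Classical

variable {V : Type*}

theorem bond_wc [Fintype V] (H : SimpleGraph V) (S : Finset V) :
    wc H Finset.univ (fun _ => 2) S =
      ((Finset.univ.filter (fun v => v ∈ S ∨ ¬ ∃ u ∈ S, H.Adj u v)).card : ℤ) := by
  unfold wc
  rw [Finset.card_filter, Nat.cast_sum]
  refine Finset.sum_congr rfl fun v _ => ?_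
  unfold cost
  by_cases h1 : v ∈ S
  · simp [h1]
  · by_cases h2 : ∃ u ∈ S, H.Adj u v
    · rw [if_neg h1, if_pos h2, if_neg (fun hc => hc.elim h1 (fun hc' => hc' h2))]; rfl
    · rw [if_neg h1, if_neg h2, if_pos (Or.inr h2)]; rfl

theorem bond_dom_univ [Fintype V] (H : SimpleGraph V) : Dominates H Finset.univ :=
  fun v => Or.inl (Finset.mem_univ v)

theorem bond_domNum_le [Fintype V] {H : SimpleGraph V} {S : Finset V} (h : Dominates H S) :
    domNum H ≤ S.card := Nat.sInf_le ⟨S, h, rfl⟩

theorem bond_domNum_attained [Fintype V] (H : SimpleGraph V) :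
    ∃ S : Finset V, Dominates H S ∧ S.card = domNum H :=
  Nat.sInf_mem (s := {k | ∃ S : Finset V, Dominates H S ∧ S.card = k})
    ⟨_, Finset.univ, bond_dom_univ H, rfl⟩

theorem bond_WD [Fintype V] (H : SimpleGraph V) (n : ℤ) :
    WD H Finset.univ (fun _ => 2) n ↔ (domNum H : ℤ) ≤ n := by
  constructor
  · rintro ⟨S, -, hS⟩
    rw [bond_wc] at hS
    refine le_trans ?_ hS
    have : Dominates H (Finset.univ.filter (fun v => v ∈ S ∨ ¬ ∃ u ∈ S, H.Adj u v)) := by
      intro v
      by_cases h1 : v ∈ S ∨ ¬ ∃ u ∈ S, H.Adj u v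
      · exact Or.inl (by simpa using h1)
      · push Not at h1
        obtain ⟨u, hu, ha⟩ := h1.2
        exact Or.inr ⟨u, by simp [hu], ha.symm⟩
    exact_mod_cast bond_domNum_le this
  · intro h
    obtain ⟨S, hS, hc⟩ := bond_domNum_attained H
    refine ⟨S, Finset.subset_univ _, ?_⟩
    rw [bond_wc]
    refine le_trans ?_ h
    rw [← hc]
    norm_cast
    apply Finset.card_le_card
    intro v hv
    simp only [Finset.mem_filter, Finset.mem_univ, true_and] at hv
    rcases hv with hv | hv
    · exact hv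
    · rcases hS v with h' | ⟨u, hu, ha⟩
      · exact h'
      · exact absurd ⟨u, hu, ha.symm⟩ hv

theorem WD_iff_domNum [Fintype V] (H : SimpleGraph V) (n : ℕ) :
    WD H Finset.univ (fun _ => 2) (n : ℤ) ↔ domNum H ≤ n := by
  rw [bond_WD]; norm_cast

theorem bond_goodW [Fintype V] (G : SimpleGraph V) (k : ℕ) :
    GoodW G Finset.univ (fun _ _ => 2) k ↔ ∀ F : Finset (Sym2 V),
      (F : Set (Sym2 V)) ⊆ G.edgeSet → F.card ≤ k →
        domNum (G.deleteEdges (F : Set (Sym2 V))) ≤ domNum G := by
  constructor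
  · intro h F _ hF
    have := h (domNum G) ((bond_WD G _).mpr le_rfl) F (fun _ => 0) (by simpa using hF)
    rw [bond_WD] at this
    exact_mod_cast this
  · intro h n hn F κ hF
    have hn' := (bond_WD G n).mp hn
    refine (bond_WD _ n).mpr (le_trans ?_ hn')
    have e : G.deleteEdges (F : Set (Sym2 V)) =
        G.deleteEdges ((F.filter (fun e => e ∈ G.edgeSet) : Finset (Sym2 V)) : Set (Sym2 V)) := by
      ext a b
      simp only [SimpleGraph.deleteEdges_adj, Finset.coe_filter, Set.mem_ofPred_eq,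
        Finset.mem_coe, SimpleGraph.mem_edgeSet]
      tauto
    rw [e]
    have h1 : (F.filter (fun e => e ∈ G.edgeSet)).card ≤ k :=
      (Finset.card_filter_le _ _).trans (by omega)
    have h2 : ((F.filter (fun e => e ∈ G.edgeSet) : Finset (Sym2 V)) : Set (Sym2 V)) ⊆
        G.edgeSet := by
      intro e he
      simp only [Finset.coe_filter, Set.mem_ofPred_eq] at he
      exact he.2
    exact_mod_cast h _ h2 h1

theorem bondage_eq_three [Fintype V] (G : SimpleGraph V) :
    (bondage G = 3) ↔
      (GoodW G Finset.univ (fun _ _ => 2) 2 ∧ ¬ GoodW G Finset.univ (fun _ _ => 2) 3) := by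
  rw [bond_goodW, bond_goodW]
  unfold bondage
  set A := {k | ∃ F : Finset (Sym2 V), (F : Set (Sym2 V)) ⊆ G.edgeSet ∧ F.card = k ∧
    domNum G < domNum (G.deleteEdges (F : Set (Sym2 V)))} with hA
  constructor
  · intro h
    have hne : A.Nonempty := by
      by_contra hne
      rw [Set.not_nonempty_iff_eq_empty] at hne
      rw [hne] at h
      simp at h
    have h3 : 3 ∈ A := by rw [← h]; exact Nat.sInf_mem hne
    refine ⟨fun F hF hc => ?_, fun hcon => ?_⟩
    · by_contra hlt
      push Not at hlt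
      have : sInf A ≤ F.card := Nat.sInf_le ⟨F, hF, rfl, hlt⟩
      omega
    · obtain ⟨F, hF, hc, hlt⟩ := h3
      have := hcon F hF (by omega)
      omega
  · rintro ⟨h2, h3⟩
    push Not at h3
    obtain ⟨F, hF, hc, hlt⟩ := h3
    have hF3 : F.card = 3 := by
      by_contra hne
      have := h2 F hF (by omega)
      omega
    have hmem : 3 ∈ A := ⟨F, hF, hF3, hlt⟩
    apply le_antisymm (Nat.sInf_le hmem)
    by_contra hcon
    push Not at hcon
    obtain ⟨F', hF', hc', hlt'⟩ := Nat.sInf_mem (⟨3, hmem⟩ : A.Nonempty)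
    have := h2 F' hF' (by omega)
    omega

theorem bond_Sg (G : SimpleGraph V) (K : Finset V) (v : V) :
    Sg G (fun _ _ => 2) K v ↔ InN G K v := by
  unfold Sg InN ty
  norm_num

theorem wcert_iff [Fintype V] (G : SimpleGraph V) (K : Finset V) (m q : V → Finset V → ℕ) :
    WCert G Finset.univ (blocks G) (fun _ _ => 2) K m q ↔ Certificate G K m q := by
  have hty : ty (fun _ => 2) = 2 := rfl
  constructor
  · intro h
    refine ⟨?_, ?_, ?_, ?_, ?_, ?_, ?_⟩
    · intro w hw
      by_cases hx : ∃ x ∈ K, G.Adj w x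
      · exact ((h.strong w (Finset.mem_univ _) hw (by rw [hty]; norm_num) hx).2.2 hty).2.2
      · push Not at hx
        exact ((h.weak w (Finset.mem_univ _) hw (by rw [hty]; norm_num) hx).2 hty).2
    · intro w hw B hB B' hB' hwB hwB' h1 h2
      obtain ⟨x, hx, hxB, ha⟩ := h1
      exact (h.strong w (Finset.mem_univ _) hw (by rw [hty]; norm_num) ⟨x, hx, ha⟩).1 B hB B' hB'
        hwB hwB' ⟨x, hx, hxB, ha⟩ h2
    · intro x hx B hB hxB
      obtain ⟨-, -, c1, -, -, c2⟩ := h.crit x hx
      exact ⟨c1 B hB hxB, fun hq B' hB' hxB' hne => c2 B hB B' hB' hxB hxB' (Ne.symm hne) hq.ge⟩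
    · intro B hB w hw hwK
      have := (h.block B hB).bound w hw hwK
      simpa only [bond_Sg] using this
    · exact fun B hB => (h.block B hB).edge
    · exact fun B hB => (h.block B hB).full
    · intro B hB h3 hn hne
      exact (h.block B hB).mixed h3 hn hne
  · intro h
    refine ⟨Finset.subset_univ _, ?_, ?_, ?_, ?_, ?_⟩
    · intro x hx
      refine ⟨hty, by norm_num, fun B hB hxB => (h.charge x hx B hB hxB).1, fun _ _ _ _ => by
        norm_num, fun _ _ _ _ => le_rfl, ?_⟩
      intro B hB B' hB' hxB hxB' hne hq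
      have := h.charge x hx B hB hxB
      exact this.2 (le_antisymm this.1 hq) B' hB' hxB' (Ne.symm hne)
    · intro w _ _ h0
      rw [hty] at h0
      norm_num at h0
    · intro w _ hw _ hx
      refine ⟨fun B hB B' hB' hwB hwB' h1 h2 => h.oneBlock w hw B hB B' hB' hwB hwB' h1 h2,
        fun h1 => ?_, fun _ => ⟨le_rfl, by norm_num, h.count w hw⟩⟩
      rw [hty] at h1
      norm_num at h1
    · intro w _ hw _ hx
      refine ⟨fun h1 => ?_, fun _ => ⟨le_rfl, h.count w hw⟩⟩
      rw [hty] at h1
      norm_num at h1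
    · intro B hB
      refine ⟨?_, h.edge B hB, h.full B hB, fun h3 hn hne => h.mixed B hB h3 hn hne⟩
      intro w hw hwK
      have := h.bound B hB w hw hwK
      simpa only [bond_Sg] using this

end Pool.Agent.H44.Cac
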