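import Pool.Agent.H44.Cac.WD

namespace Pool.Agent.H44.Cac

open Classical

variable {V : Type*}

namespace WDCycAux

theorem headD_mem {R : Finset V} {v : V} (hv : v ∈ R) (l : List V) :
    l.headD v ∈ R ∪ l.toFinset := by
  cases l with
  | nil => simpa using hv
  | cons c l => simp

theorem run_add (xs : List (Bool × ℤ)) (l k : ℤ) : run xs (l + 3 * k) = run xs l + 3 * k := by
  induction xs generalizing l with
  | nil => rfl
  | cons x xs ih =>
    simp only [run]
    rw [E_add, glue_add, ih]

theorem pr_eq (H : SimpleGraph V) (b : V → ℤ) (v c : V) (l : List V) (x : ℤ) :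
    pr H b v (E (decide ¬ H.Adj c (l.headD v)) x) l =
      E (decide ¬ H.Adj (l.getLastD c) v) (run (chn H b c l) x) := by
  induction l generalizing c x with
  | nil => rfl
  | cons d l ih =>
    have h1 : (d :: l).getLastD c = l.getLastD d := by
      cases l with
      | nil => rfl
      | cons e l => rfl
    rw [h1]
    simp only [pr, List.headD_cons, chn, run]
    rw [ih, glue_comm (b d)]
    have hd : ∀ (i1 i2 : Decidable (¬ H.Adj c d)) (i3 i4 : Decidable (¬ H.Adj (l.getLastD d) v)),
        E (@decide _ i3) (run (chn H b d l) (glue (E (@decide _ i1) x) (b d))) =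
          E (@decide _ i4) (run (chn H b d l) (glue (E (@decide _ i2) x) (b d))) := by
      intro i1 i2 i3 i4
      rw [Subsingleton.elim i1 i2, Subsingleton.elim i3 i4]
    exact hd _ _ _ _

theorem pr_cons_eq (H : SimpleGraph V) (b : V → ℤ) (v c : V) (l : List V) (a : ℤ) (e : Bool)
    (he : e = true ↔ ¬ H.Adj (l.getLastD c) v) :
    pr H b v a (c :: l) = E e (run (chn H b c l) (glue (b c) a)) := by
  have h := pr_eq H b v c l (glue (b c) a)
  have h1 : pr H b v a (c :: l) =
      E (decide ¬ H.Adj (l.getLastD c) v) (run (chn H b c l) (glue (b c) a)) := by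
    rw [← h]
    simp only [pr]
  rw [h1]
  congr 1
  rw [Bool.eq_iff_iff, he, decide_eq_true_iff]

theorem pathL_mono {H H' : SimpleGraph V} (hH : H' ≤ H) {R : Finset V} {v : V} {l : List V}
    (h : PathL H R v l) : PathL H' R v l := by
  induction l with
  | nil => trivial
  | cons c l ih => exact ⟨h.1, h.2.1, fun y hy hcy => h.2.2.1 y hy (hH hcy), ih h.2.2.2⟩

theorem pathL_notMem {H : SimpleGraph V} {R : Finset V} {v : V} {l : List V}
    (h : PathL H R v l) : ∀ x ∈ l, x ∉ R := by
  induction l with
  | nil => simp
  | cons c l ih =>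
    intro x hx
    rcases List.mem_cons.1 hx with rfl | hx
    · exact h.1
    · exact ih h.2.2.2 x hx

/-- the chain does not see changes elsewhere -/
theorem chn_congr {H H' : SimpleGraph V} {b b' : V → ℤ} {c : V} {l : List V}
    (hb : ∀ x ∈ l, b x = b' x) (hH : ∀ x, x = c ∨ x ∈ l → ∀ y ∈ l, (H.Adj x y ↔ H'.Adj x y)) :
    chn H b c l = chn H' b' c l := by
  induction l generalizing c with
  | nil => rfl
  | cons d l ih =>
    simp only [chn]
    rw [ih (fun x hx => hb x (List.mem_cons_of_mem _ hx))
      (fun x hx y hy => hH x (Or.inr (by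
        rcases hx with rfl | hx
        · exact List.mem_cons_self
        · exact List.mem_cons_of_mem _ hx)) y (List.mem_cons_of_mem _ hy)),
      hb d List.mem_cons_self]
    have := hH c (Or.inl rfl) d List.mem_cons_self
    simp only [this]

theorem glue3_ge (x : ℤ) : x ≤ glue 3 x := by
  obtain ⟨q, hq⟩ := split3 x
  have e : (3 : ℤ) = 3 * 1 := by norm_num
  rcases hq with rfl | rfl | rfl
  · have := glue00 1 q; rw [← e] at this; omega
  · have := glue01 1 q; rw [← e] at this; omega
  · have := glue02 1 q; rw [← e] at this; omega

theorem glue1_ge (x : ℤ) : x ≤ glue 1 (x + 3) := by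
  have e : glue 1 (x + 3) = glue 1 x + 3 := by
    rw [glue_comm, show x + 3 = x + 3 * 1 by ring, glue_add, glue_comm]; ring
  rw [e]
  obtain ⟨q, hq⟩ := split3 x
  rcases hq with rfl | rfl | rfl
  · have := glue10 0 q; simp only [mul_zero, zero_add] at this; omega
  · have := glue11 0 q; simp only [mul_zero, zero_add] at this; omega
  · have := glue12 0 q; simp only [mul_zero, zero_add] at this; omega

end WDCycAux

open WDCycAux

theorem WD_path {H : SimpleGraph V} {R : Finset V} {n : ℤ} {v : V} (hv : v ∈ R) (l : List V)
    (hl : PathL H R v l) (b : V → ℤ) (a : ℤ) :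
    WD H (R ∪ l.toFinset) (Function.update b (l.headD v) (glue (b (l.headD v)) a)) n ↔
      WD H R (Function.update b v (glue (b v) (pr H b v a l))) n := by
  induction l generalizing a with
  | nil => simp [pr]
  | cons c l ih =>
    obtain ⟨hcR, hcl, hcn, hl'⟩ := hl
    have hc' : c ∉ R ∪ l.toFinset := by simp [hcR, hcl]
    have hv' : l.headD v ∈ R ∪ l.toFinset := headD_mem hv l
    have hne : l.headD v ≠ c := fun h => hc' (h ▸ hv')
    have e1 : R ∪ (c :: l).toFinset = insert c (R ∪ l.toFinset) := by
      rw [List.toFinset_cons, Finset.union_insert]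
    have hn : ∀ y ∈ R ∪ l.toFinset, H.Adj c y → y = l.headD v := by
      intro y hy
      apply hcn
      simpa using hy
    rw [List.headD_cons, e1, WD_leaf hv' hc' hn, Function.update_self, Function.update_of_ne hne]
    have ihh := ih hl' (E (decide ¬ H.Adj c (l.headD v)) (glue (b c) a))
    simp only [pr]
    rw [← ihh]
    apply WD_congr
    · intros; rfl
    · intro x hx
      have hxc : x ≠ c := fun h => hc' (h ▸ hx)
      by_cases hxv : x = l.headD v
      · rw [hxv, Function.update_self, Function.update_self]
      · rw [Function.update_of_ne hxv, Function.update_of_ne hxv, Function.update_of_ne hxc]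

/-- absorption of a cycle through `v` whose other vertices are `l` (edges may be missing) -/
theorem WD_cycle {H : SimpleGraph V} {R : Finset V} {n : ℤ} {v c : V} {l : List V} (hv : v ∈ R)
    (hl : l ≠ []) (hc : c ∉ R) (hcl : c ∉ l)
    (hcn : ∀ y, y ∈ R ∨ y ∈ l → H.Adj c y → y = v ∨ y = l.headD v) (hp : PathL H R v l)
    (b : V → ℤ) :
    WD H (R ∪ (c :: l).toFinset) b n ↔
      WD H R (Function.update b v (glue (b v)
        (clo (run (chn H b v (c :: l))) (decide ¬ H.Adj ((c :: l).getLastD v) v)))) n := by
  have hcv : c ≠ v := fun h => hc (h ▸ hv)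
  have hvl : v ∉ l := fun h => pathL_notMem hp v h hv
  have hlast : (c :: l).getLastD v = l.getLastD c := by
    cases l with
    | nil => rfl
    | cons e l => rfl
  have hlastmem : l.getLastD c ∈ l := by
    cases l with
    | nil => exact absurd rfl hl
    | cons e l =>
      rw [List.getLastD_cons]
      cases l with
      | nil => simp
      | cons f l =>
        rw [List.getLastD_eq_getLast?]
        have := List.getLast_mem (l := f :: l) (by simp)
        rw [List.getLast?_eq_some_getLast (by simp : f :: l ≠ [])]
        exact List.mem_cons_of_mem _ this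
  rw [hlast]
  generalize he : (decide ¬ H.Adj (l.getLastD c) v) = e
  have he' : e = true ↔ ¬ H.Adj (l.getLastD c) v := by
    rw [← he, decide_eq_true_iff]
  by_cases hvc : H.Adj v c
  · -- the edge is present
    set H' := H.deleteEdges {s(v, c)} with hH'
    have hle : H' ≤ H := SimpleGraph.deleteEdges_le _
    have hadj : ∀ x y, ¬ (x = v ∧ y = c) → ¬ (x = c ∧ y = v) → (H'.Adj x y ↔ H.Adj x y) := by
      intro x y h1 h2
      rw [hH', SimpleGraph.deleteEdges_adj]
      constructor
      · exact fun h => h.1
      · intro h
        refine ⟨h, ?_⟩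
        simp only [Set.mem_singleton_iff, Sym2.eq_iff]
        tauto
    have hcv' : ¬ H'.Adj c v := by
      rw [hH', SimpleGraph.deleteEdges_adj]
      rintro ⟨-, h⟩
      exact h (by simp [Sym2.eq_swap])
    have hpath : PathL H' R v (c :: l) := by
      refine ⟨hc, hcl, ?_, pathL_mono hle hp⟩
      intro y hy hcy
      rcases hcn y hy (hle hcy) with rfl | h
      · exact absurd hcy hcv'
      · exact h
    have hmemv : v ∈ R ∪ (c :: l).toFinset := Finset.mem_union_left _ hv
    have hmemc : c ∈ R ∪ (c :: l).toFinset := by simp
    -- the levels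
    have hpr : ∀ (b' : V → ℤ) (a : ℤ), (∀ x, x ≠ v → b' x = b x) →
        pr H' b' v a (c :: l) = E e (run (chn H b c l) (glue (b c) a)) := by
      intro b' a hb'
      have h2 : chn H' b' c l = chn H b c l := by
        apply chn_congr
        · intro x hx
          exact hb' x (fun h => hvl (h ▸ hx))
        · intro x hx y hy
          apply hadj
          · rintro ⟨h3, h4⟩
            exact hcl (h4 ▸ hy)
          · rintro ⟨h3, h4⟩
            exact hvl (h4 ▸ hy)
      have h3 : H'.Adj (l.getLastD c) v ↔ H.Adj (l.getLastD c) v := by
        apply hadj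
        · rintro ⟨h3, h4⟩
          exact hcv h4.symm
        · rintro ⟨h3, h4⟩
          exact hcl (h3 ▸ hlastmem)
      rw [pr_cons_eq H' b' v c l a e (by rw [h3]; exact he'), h2, hb' c hcv]
    set P := run (chn H b c l) with hP
    have hrun : ∀ x : ℤ, run (chn H b v (c :: l)) x = P (glue (b c) (x + 1)) := by
      intro x
      simp only [chn, run]
      rw [glue_comm, ← hP]
      simp [E, hvc]
    -- the three alternatives
    have alt : ∀ (b' : V → ℤ) (a : ℤ), (∀ x, x ≠ v → b' x = b x) →
        (WD H' (R ∪ (c :: l).toFinset) (Function.update b' c (glue (b c) a)) n ↔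
          WD H' R (Function.update b v (glue (b' v) (E e (P (glue (b c) a))))) n) := by
      intro b' a hb'
      have h1 := WD_path (n := n) hv (c :: l) hpath b' a
      rw [List.headD_cons, hb' c hcv, hpr b' a hb'] at h1
      rw [h1]
      apply WD_congr
      · intros; rfl
      · intro x _
        by_cases hx : x = v
        · subst hx; rw [Function.update_self, Function.update_self]
        · rw [Function.update_of_ne hx, Function.update_of_ne hx, hb' x hx]
    have a1 := alt b 2 (fun _ _ => rfl)
    have a2 := alt (Function.update b v (glue (b v) 3)) 1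
      (fun x hx => Function.update_of_ne hx _ _)
    have a3 := alt (Function.update b v (glue (b v) 1)) 3
      (fun x hx => Function.update_of_ne hx _ _)
    rw [glue_comm (b c) 2, glue_two, Function.update_eq_self] at a1
    rw [Function.update_self] at a2 a3
    rw [WD_edge hmemv hmemc hvc, ← hH', a1, a2, a3]
    have hcong : ∀ X : ℤ, WD H R (Function.update b v X) n ↔
        WD H' R (Function.update b v X) n := by
      intro X
      apply WD_congr
      · intro x hx y hy
        rw [hadj]
        · rintro ⟨h3, h4⟩
          exact hc (h4 ▸ hy)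
        · rintro ⟨h3, h4⟩
          exact hc (h3 ▸ hx)
      · intros; rfl
    rw [hcong]
    have hmono : ∀ X Y : ℤ, X ≤ Y → WD H' R (Function.update b v (glue (b v) Y)) n →
        WD H' R (Function.update b v (glue (b v) X)) n := by
      intro X Y hXY h
      refine WD_mono ?_ h
      intro x _
      by_cases hx : x = v
      · subst hx; rw [Function.update_self, Function.update_self]
        exact glue_mono le_rfl hXY
      · rw [Function.update_of_ne hx, Function.update_of_ne hx]
    have hclo : clo (run (chn H b v (c :: l))) e = min (E e (P (b c)))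
        (min (glue 3 (E e (P (glue (b c) 1)))) (glue 1 (E e (P (glue (b c) 3))))) := by
      unfold clo
      rw [hrun, hrun, hrun]
      norm_num
      rw [glue_comm (b c) 2, glue_two]
    rw [hclo, glue_assoc, glue_assoc]
    constructor
    · rintro (h | h | h)
      · exact hmono _ _ (min_le_left _ _) h
      · exact hmono _ _ ((min_le_right _ _).trans (min_le_left _ _)) h
      · exact hmono _ _ ((min_le_right _ _).trans (min_le_right _ _)) h
    · intro h
      rcases min_choice (E e (P (b c)))
        (min (glue 3 (E e (P (glue (b c) 1)))) (glue 1 (E e (P (glue (b c) 3))))) with h1 | h1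
      · rw [h1] at h; exact Or.inl h
      · rw [h1] at h
        rcases min_choice (glue 3 (E e (P (glue (b c) 1)))) (glue 1 (E e (P (glue (b c) 3))))
          with h2 | h2
        · rw [h2] at h; exact Or.inr (Or.inl h)
        · rw [h2] at h; exact Or.inr (Or.inr h)
  · -- the edge is missing
    have hpath : PathL H R v (c :: l) := by
      refine ⟨hc, hcl, ?_, hp⟩
      intro y hy hcy
      rcases hcn y hy hcy with rfl | h
      · exact absurd hcy.symm hvc
      · exact h
    have h1 := WD_path (n := n) hv (c :: l) hpath b 2
    rw [List.headD_cons, glue_comm (b c) 2, glue_two, Function.update_eq_self] at h1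
    rw [h1, pr_cons_eq H b v c l 2 e he', glue_comm (b c) 2, glue_two]
    set P := run (chn H b c l) with hP
    have hrun : ∀ x : ℤ, run (chn H b v (c :: l)) x = P (glue (b c) (E true x)) := by
      intro x
      simp only [chn, run]
      rw [glue_comm, ← hP]
      simp [hvc]
    have e0 : E true 0 = 2 := by simp [E]
    have e1 : E true 1 = 2 := by simp [E]
    have e2 : E true 2 = 2 + 3 * 1 := by simp [E]
    have hb2 : glue (b c) 2 = b c := by rw [glue_comm, glue_two]
    have hb5 : glue (b c) (2 + 3 * 1) = b c + 3 * 1 := by
      rw [glue_comm, glue_add, glue_two]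
    have hclo : clo (run (chn H b v (c :: l))) e = E e (P (b c)) := by
      unfold clo
      rw [hrun, hrun, hrun, e0, e1, e2, hb2, hb5, hP, run_add, E_add]
      apply le_antisymm (min_le_left _ _)
      refine le_min le_rfl (le_min (glue3_ge _) ?_)
      have := glue1_ge (E e (run (chn H b c l) (b c)))
      simpa using this
    rw [hclo]

end Pool.Agent.H44.Cac
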