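import Pool.Agent.H44.Cac.FailB
import Pool.Agent.H44.Cac.WDCyc
import Pool.Agent.H44.Cac.Words

namespace Pool.Agent.H44.Cac

open Classical

variable {V : Type*}

/-- run of a chain along indices: vertices `a + 1, ..., a + m`, edges `a, ..., a + m - 1` -/
def failcRun (d : ℕ → Bool) (x : ℕ → ℤ) : ℕ → ℕ → ℤ → ℤ
  | _, 0 => id
  | a, m + 1 => fun l => failcRun d x (a + 1) m (glue (E (d a) l) (x (a + 1)))

/-- number of deletions -/
def failcCost (d : ℕ → Bool) (κ : ℕ → ℕ) : ℕ → ℕ → ℕ
  | _, 0 => 0
  | a, m + 1 => (κ (a + 1) + (if d a then 1 else 0)) + failcCost d κ (a + 1) m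

/-- vertices `c a, ..., c (a + m - 1)` -/
def failcL (c : ℕ → V) : ℕ → ℕ → List V
  | _, 0 => []
  | a, m + 1 => c a :: failcL c (a + 1) m

theorem failcRun_congr {d d' : ℕ → Bool} {x x' : ℕ → ℤ} (m : ℕ) : ∀ a,
    (∀ j, a ≤ j → j < a + m → d j = d' j) → (∀ j, a < j → j ≤ a + m → x j = x' j) →
    failcRun d x a m = failcRun d' x' a m := by
  induction m with
  | zero => intro a _ _; rfl
  | succ m ih =>
    intro a hd hx
    have := ih (a + 1) (fun j hj hj' => hd j (by omega) (by omega))
      (fun j hj hj' => hx j (by omega) (by omega))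
    simp only [failcRun]
    rw [this, hd a le_rfl (by omega), hx (a + 1) (by omega) (by omega)]

theorem failcCost_congr {d d' : ℕ → Bool} {κ κ' : ℕ → ℕ} (m : ℕ) : ∀ a,
    (∀ j, a ≤ j → j < a + m → d j = d' j) → (∀ j, a < j → j ≤ a + m → κ j = κ' j) →
    failcCost d κ a m = failcCost d' κ' a m := by
  induction m with
  | zero => intro a _ _; rfl
  | succ m ih =>
    intro a hd hx
    have := ih (a + 1) (fun j hj hj' => hd j (by omega) (by omega))
      (fun j hj hj' => hx j (by omega) (by omega))
    simp only [failcCost]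
    rw [this, hd a le_rfl (by omega), hx (a + 1) (by omega) (by omega)]

theorem failc_fw (d : ℕ → Bool) (κ : ℕ → ℕ) (g : ℕ → Pf) (m : ℕ) : ∀ a,
    Fw (win g (a + 1) m) (failcCost d κ a m) (failcRun d (fun j => g j (κ j)) a m) := by
  induction m with
  | zero => intro a; exact Fw.nil
  | succ m ih =>
    intro a
    rw [win_succ]
    simp only [failcRun, failcCost]
    refine Fw.cons (P := fun l => glue (E (d a) l) (g (a + 1) (κ (a + 1)))) ?_ (ih (a + 1))
    cases h : d a with
    | false => simpa using Fop.keep (g := g (a + 1)) (κ (a + 1))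
    | true => simpa using Fop.cut (g := g (a + 1)) (κ (a + 1))

theorem failc_of_fw (g : ℕ → Pf) (m : ℕ) : ∀ (a i : ℕ) (P : ℤ → ℤ),
    Fw (win g (a + 1) m) i P → ∃ (d : ℕ → Bool) (κ : ℕ → ℕ),
      i = failcCost d κ a m ∧ P = failcRun d (fun j => g j (κ j)) a m := by
  induction m with
  | zero =>
    intro a i P h
    rw [win_zero] at h
    cases h
    exact ⟨fun _ => false, fun _ => 0, rfl, rfl⟩
  | succ m ih =>
    intro a i P h
    rw [win_succ] at h
    cases h with
    | @cons _ _ i1 j1 P1 Q1 h1 h2 =>
      obtain ⟨d, κ, hj, hQ⟩ := ih (a + 1) j1 Q1 h2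
      have key : ∀ (b : Bool) (i0 : ℕ),
          failcCost d κ (a + 1) m = failcCost (Function.update d a b)
            (Function.update κ (a + 1) i0) (a + 1) m ∧
          failcRun d (fun j => g j (κ j)) (a + 1) m = failcRun (Function.update d a b)
            (fun j => g j (Function.update κ (a + 1) i0 j)) (a + 1) m := by
        intro b i0
        refine ⟨failcCost_congr m (a + 1) ?_ ?_, failcRun_congr m (a + 1) ?_ ?_⟩
        · intro j hj' _; rw [Function.update_of_ne (by omega)]
        · intro j hj' _; rw [Function.update_of_ne (by omega)]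
        · intro j hj' _; rw [Function.update_of_ne (by omega)]
        · intro j hj' _; rw [Function.update_of_ne (by omega)]
      cases h1 with
      | keep i0 =>
        refine ⟨Function.update d a false, Function.update κ (a + 1) i1, ?_, ?_⟩
        · simp only [failcCost]
          rw [hj, (key false i1).1]
          simp
        · simp only [failcRun]
          rw [hQ, (key false i1).2]
          simp
      | cut i0 =>
        refine ⟨Function.update d a true, Function.update κ (a + 1) i0, ?_, ?_⟩
        · simp only [failcCost]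
          rw [hj, (key true i0).1]
          simp
        · simp only [failcRun]
          rw [hQ, (key true i0).2]
          simp

theorem failcCost_eq (d : ℕ → Bool) (κ : ℕ → ℕ) (m : ℕ) : ∀ a,
    failcCost d κ a m = ∑ j ∈ Finset.Ico (a + 1) (a + 1 + m), κ j +
      ((Finset.Ico a (a + m)).filter (fun j => d j = true)).card := by
  induction m with
  | zero => intro a; simp [failcCost]
  | succ m ih =>
    intro a
    simp only [failcCost]
    rw [ih (a + 1)]
    have e1 : ∑ j ∈ Finset.Ico (a + 1) (a + 1 + (m + 1)), κ j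
        = κ (a + 1) + ∑ j ∈ Finset.Ico (a + 1 + 1) (a + 1 + 1 + m), κ j := by
      rw [Finset.sum_eq_sum_Ico_succ_bot (by omega)]
      rw [show a + 1 + (m + 1) = a + 1 + 1 + m by omega]
    have e2 : ((Finset.Ico a (a + (m + 1))).filter (fun j => d j = true)).card
        = (if d a then 1 else 0) + ((Finset.Ico (a + 1) (a + 1 + m)).filter
          (fun j => d j = true)).card := by
      rw [Finset.card_filter, Finset.card_filter, Finset.sum_eq_sum_Ico_succ_bot (by omega),
        show a + (m + 1) = a + 1 + m by omega]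
    rw [e1, e2]; ring

theorem mem_failcL {c : ℕ → V} {w : V} (m : ℕ) : ∀ a,
    w ∈ failcL c a m ↔ ∃ j, a ≤ j ∧ j < a + m ∧ w = c j := by
  induction m with
  | zero => intro a; simp [failcL]; intro j h1 h2; omega
  | succ m ih =>
    intro a
    simp only [failcL, List.mem_cons, ih (a + 1)]
    constructor
    · rintro (rfl | ⟨j, h1, h2, rfl⟩)
      · exact ⟨a, le_rfl, by omega, rfl⟩
      · exact ⟨j, by omega, by omega, rfl⟩
    · rintro ⟨j, h1, h2, rfl⟩
      by_cases h : j = a
      · left; rw [h]
      · right; exact ⟨j, by omega, by omega, rfl⟩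

theorem failcL_headD (c : ℕ → V) (a m : ℕ) (v : V) (hv : m = 0 → v = c a) :
    (failcL c a m).headD v = c a := by
  cases m with
  | zero => simpa [failcL] using hv rfl
  | succ m => simp [failcL]

theorem failcL_getLastD (c : ℕ → V) (m : ℕ) : ∀ (a : ℕ) (v : V),
    (failcL c a (m + 1)).getLastD v = c (a + m) := by
  induction m with
  | zero => intro a v; simp [failcL]
  | succ m ih =>
    intro a v
    rw [failcL, List.getLastD_cons, ih (a + 1) (c a)]
    congr 1; omega

theorem failc_chn (H : SimpleGraph V) (b : V → ℤ) (c : ℕ → V) (m : ℕ) : ∀ a,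
    run (chn H b (c a) (failcL c (a + 1) m)) =
      failcRun (fun j => decide ¬ H.Adj (c j) (c (j + 1))) (fun j => b (c j)) a m := by
  induction m with
  | zero => intro a; funext l; simp [failcL, chn, run, failcRun]
  | succ m ih =>
    intro a
    funext l
    simp only [failcL, chn, run, failcRun]
    rw [ih (a + 1)]

section cyc
variable {G H : SimpleGraph V} {R : Finset V} {n : ℕ} {c : ℕ → V}

theorem failc_c_n (h : CycAt G R n c) : c n = c 0 := by
  have := h.per 0
  rwa [Nat.zero_add] at this

theorem failc_path (h : CycAt G R n c) (hH : H ≤ G) (m : ℕ) : ∀ a, 2 ≤ a → a + m = n →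
    PathL H R (c 0) (failcL c a m) := by
  induction m with
  | zero => intro a _ _; simp [failcL, PathL]
  | succ m ih =>
    intro a ha han
    simp only [failcL, PathL]
    refine ⟨h.notMem a (by omega) (by omega), ?_, ?_, ih (a + 1) (by omega) (by omega)⟩
    · intro hm
      obtain ⟨j, h1, h2, h3⟩ := (mem_failcL m (a + 1)).mp hm
      have := h.inj a (by omega) j (by omega) h3
      omega
    · intro y hy hadj
      rw [failcL_headD c (a + 1) m (c 0) (by
        intro hm; rw [show a + 1 = n by omega, failc_c_n h])]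
      have hy' : y ∈ R ∨ ∃ j, y = c j := by
        rcases hy with hy | hy
        · exact Or.inl hy
        · obtain ⟨j, _, _, h3⟩ := (mem_failcL m (a + 1)).mp hy
          exact Or.inr ⟨j, h3⟩
      rcases h.nb a (by omega) (by omega) y hy' (hH hadj) with e | e
      · exfalso
        rcases hy with hy | hy
        · exact h.notMem (a - 1) (by omega) (by omega) (e ▸ hy)
        · obtain ⟨j, h1, h2, h3⟩ := (mem_failcL m (a + 1)).mp hy
          have := h.inj (a - 1) (by omega) j (by omega) (e.symm.trans h3)
          omega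
      · exact e

theorem failc_toFinset (h : CycAt G R n c) :
    R ∪ (c 1 :: failcL c 2 (n - 2)).toFinset = R ∪ (Finset.range n).image c := by
  have hn := h.hn
  ext w
  simp only [Finset.mem_union, List.mem_toFinset, List.mem_cons, mem_failcL, Finset.mem_image,
    Finset.mem_range]
  constructor
  · rintro (hw | rfl | ⟨j, h1, h2, rfl⟩)
    · exact Or.inl hw
    · exact Or.inr ⟨1, by omega, rfl⟩
    · exact Or.inr ⟨j, by omega, rfl⟩
  · rintro (hw | ⟨j, h1, rfl⟩)
    · exact Or.inl hw
    · rcases Nat.lt_or_ge j 2 with h2 | h2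
      · interval_cases j
        · exact Or.inl h.mem
        · exact Or.inr (Or.inl rfl)
      · exact Or.inr (Or.inr ⟨j, h2, by omega, rfl⟩)

/-- absorption of the cycle, in terms of indices -/
theorem failc_WD (h : CycAt G R n c) (hH : H ≤ G) (b : V → ℤ) (N : ℤ) :
    WD H (R ∪ (Finset.range n).image c) b N ↔
      WD H R (Function.update b (c 0) (glue (b (c 0))
        (clo (failcRun (fun j => decide ¬ H.Adj (c j) (c (j + 1))) (fun j => b (c j)) 0 (n - 1))
          (decide ¬ H.Adj (c (n - 1)) (c n))))) N := by
  have hn := h.hn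
  have e1 : c 1 :: failcL c 2 (n - 2) = failcL c 1 (n - 1) := by
    rw [show n - 1 = (n - 2) + 1 by omega]; rfl
  rw [← failc_toFinset h, WD_cycle (v := c 0) h.mem (l := failcL c 2 (n - 2)) ?_ ?_ ?_ ?_ ?_ b]
  · rw [e1, failc_chn H b c (n - 1) 0, failc_c_n h]
    have : (failcL c 1 (n - 1)).getLastD (c 0) = c (n - 1) := by
      rw [show n - 1 = (n - 2) + 1 by omega, failcL_getLastD]
      congr 1; omega
    rw [this]
  · intro he
    have : (failcL c 2 (n - 2)) = c 2 :: failcL c 3 (n - 3) := by
      rw [show n - 2 = (n - 3) + 1 by omega]; rfl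
    rw [this] at he
    cases he
  · exact h.notMem 1 (by omega) (by omega)
  · intro hm
    obtain ⟨j, h1, h2, h3⟩ := (mem_failcL (n - 2) 2).mp hm
    have := h.inj 1 (by omega) j (by omega) h3
    omega
  · intro y hy hadj
    rw [failcL_headD c 2 (n - 2) (c 0) (by intro hm; omega)]
    have hy' : y ∈ R ∨ ∃ j, y = c j := by
      rcases hy with hy | hy
      · exact Or.inl hy
      · obtain ⟨j, _, _, h3⟩ := (mem_failcL (n - 2) 2).mp hy
        exact Or.inr ⟨j, h3⟩
    exact h.nb 1 (by omega) (by omega) y hy' (hH hadj)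
  · exact failc_path h hH (n - 2) 2 le_rfl (by omega)

/-- absorption of the cycle, in terms of indices, with named missing edges -/
theorem failc_WD' (h : CycAt G R n c) (hH : H ≤ G) (b : V → ℤ) (N : ℤ) (d : ℕ → Bool)
    (hd : ∀ j < n, (H.Adj (c j) (c (j + 1)) ↔ d j = false)) :
    WD H (R ∪ (Finset.range n).image c) b N ↔
      WD H R (Function.update b (c 0) (glue (b (c 0))
        (clo (failcRun d (fun j => b (c j)) 0 (n - 1)) (d (n - 1))))) N := by
  have hn := h.hn
  rw [failc_WD h hH]
  have e1 : ∀ j < n, (decide ¬ H.Adj (c j) (c (j + 1))) = d j := by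
    intro j hj
    have := hd j hj
    cases hdj : d j with
    | false => rw [hdj] at this; exact decide_eq_false (by simpa using this)
    | true => rw [hdj] at this; exact decide_eq_true (by simpa using this)
  have e2 := e1 (n - 1) (by omega)
  rw [show n - 1 + 1 = n by omega] at e2
  rw [e2, failcRun_congr (d' := d) (x' := fun j => b (c j)) (n - 1) 0 (fun j _ hj => e1 j (by omega))
    (fun j _ _ => rfl)]

theorem failc_edge_inj (h : CycAt G R n c) {i j : ℕ} (hi : i < n) (hj : j < n)
    (he : s(c i, c (i + 1)) = s(c j, c (j + 1))) : i = j := by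
  have hn := h.hn
  rcases Sym2.eq_iff.mp he with ⟨h1, _⟩ | ⟨h1, h2⟩
  · exact h.inj i hi j hj h1
  · exfalso
    have key : ∀ a b, a < n → b < n → c a = c (b + 1) → a = b + 1 ∨ (a = 0 ∧ b + 1 = n) := by
      intro a b ha hb hab
      rcases Nat.lt_or_ge (b + 1) n with hb' | hb'
      · exact Or.inl (h.inj a ha (b + 1) hb' hab)
      · have e : b + 1 = n := by omega
        rw [e, failc_c_n h] at hab
        exact Or.inr ⟨h.inj a ha 0 (by omega) hab, e⟩
    have k1 := key i j hi hj h1
    have k2 := key j i hj hi h2.symm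
    omega

theorem failc_edge_out (h : CycAt G R n c) {i : ℕ} (hi : i < n) : ¬ (c i ∈ R ∧ c (i + 1) ∈ R) := by
  have hn := h.hn
  rintro ⟨h1, h2⟩
  rcases Nat.eq_zero_or_pos i with rfl | hp
  · exact h.notMem 1 (by omega) (by omega) h2
  · exact h.notMem i hp hi h1

theorem failc_sum (h : CycAt G R n c) (κ : V → ℕ) :
    ∑ w ∈ R ∪ (Finset.range n).image c, κ w = ∑ w ∈ R, κ w + ∑ j ∈ Finset.Ico 1 n, κ (c j) := by
  have hn := h.hn
  have e : R ∪ (Finset.range n).image c = R ∪ (Finset.Ico 1 n).image c := by
    ext w
    simp only [Finset.mem_union, Finset.mem_image, Finset.mem_range, Finset.mem_Ico]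
    constructor
    · rintro (hw | ⟨j, hj, rfl⟩)
      · exact Or.inl hw
      · rcases Nat.eq_zero_or_pos j with rfl | hp
        · exact Or.inl h.mem
        · exact Or.inr ⟨j, ⟨hp, hj⟩, rfl⟩
    · rintro (hw | ⟨j, hj, rfl⟩)
      · exact Or.inl hw
      · exact Or.inr ⟨j, hj.2, rfl⟩
  rw [e, Finset.sum_union, Finset.sum_image]
  · intro i hi j hj hij
    rw [Finset.coe_Ico, Set.mem_Ico] at hi hj
    exact h.inj i hi.2 j hj.2 hij
  · rw [Finset.disjoint_left]
    intro w hw hw'
    obtain ⟨j, hj, rfl⟩ := Finset.mem_image.mp hw'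
    rw [Finset.mem_Ico] at hj
    exact h.notMem j (by omega) hj.2 hw

end cyc

theorem failc_alpha_zero {gs : List Pf} {α : Pf} (hα : IsOut gs α) :
    clo (base gs) false = α 0 := by
  obtain ⟨j, hj, i, P, hP, hh⟩ := hα.2.1 0
  have hj0 : j = 0 := by omega
  subst hj0
  rcases hh with ⟨h1, h2⟩ | ⟨h1, _⟩
  · subst h1
    rw [h2, fw_zero hP]
  · omega

theorem goodW_cycle {G : SimpleGraph V} {R : Finset V} {f : V → Pf} {n : ℕ} {c : ℕ → V}
    (h : CycAt G R n c) (hf : ∀ w, Monotone (f w)) {α : Pf}
    (hα : IsOut (win (fun i => f (c i)) 1 (n - 1)) α) (k : ℕ) :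
    GoodW G (R ∪ (Finset.range n).image c) f k ↔
      GoodW G R (Function.update f (c 0) (gl (f (c 0)) α)) k := by
  have hn := h.hn
  set gs := win (fun i => f (c i)) 1 (n - 1) with hgs
  -- the undeleted graph
  have h0 : ∀ N, WD G (R ∪ (Finset.range n).image c) (fun v => f v 0) N ↔
      WD G R (fun v => (Function.update f (c 0) (gl (f (c 0)) α)) v 0) N := by
    intro N
    rw [failc_WD h le_rfl]
    have e1 : clo (failcRun (fun j => decide ¬ G.Adj (c j) (c (j + 1)))
        (fun j => f (c j) 0) 0 (n - 1)) (decide ¬ G.Adj (c (n - 1)) (c n)) = α 0 := by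
      have hd : (decide ¬ G.Adj (c (n - 1)) (c n)) = false := by
        have := h.adj (n - 1)
        rw [show n - 1 + 1 = n by omega] at this
        simp [this]
      rw [hd, ← failc_alpha_zero hα]
      congr 1
      have hfw := failc_fw (fun j => decide ¬ G.Adj (c j) (c (j + 1))) (fun _ => 0)
        (fun i => f (c i)) (n - 1) 0
      have hc0 : failcCost (fun j => decide ¬ G.Adj (c j) (c (j + 1))) (fun _ => 0) 0 (n - 1)
          = 0 := by
        rw [failcCost_eq]
        simp [h.adj]
      rw [hc0] at hfw
      exact fw_zero hfw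
    rw [e1]
    apply WD_congr (fun u _ v _ => Iff.rfl)
    intro v hv
    by_cases hv0 : v = c 0
    · subst hv0
      rw [Function.update_self, Function.update_self, gl_zero]
    · rw [Function.update_of_ne hv0, Function.update_of_ne hv0]
  -- number of deleted edges of the cycle
  have hcard : ∀ (d : ℕ → Bool), ((Finset.range n).filter (fun j => d j = true)).card =
      ((Finset.Ico 0 (0 + (n - 1))).filter (fun j => d j = true)).card +
        (if d (n - 1) then 1 else 0) := by
    intro d
    rw [Finset.card_filter, Finset.card_filter, Nat.zero_add, ← Finset.range_eq_Ico]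
    conv_lhs => rw [show n = (n - 1) + 1 by omega]
    rw [Finset.sum_range_succ]
  have hIco : Finset.Ico (0 + 1) (0 + 1 + (n - 1)) = Finset.Ico 1 n := by
    rw [show 0 + 1 + (n - 1) = n by omega]
  have hn1 : n - 1 + 1 = n := by omega
  constructor
  · -- forward
    intro hG N hN F κ hk
    obtain ⟨i, j, hij, hgl⟩ := gl_attained (f (c 0)) α (κ (c 0))
    obtain ⟨j', hj', i', P, hP, hout⟩ := hα.2.1 j
    obtain ⟨d, κs, hi', hPd⟩ := failc_of_fw (fun i => f (c i)) (n - 1) 0 i' P hP
    obtain ⟨e, he1, he2⟩ : ∃ e : Bool, j' = i' + (if e then 1 else 0) ∧ α j = clo P e := by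
      rcases hout with ⟨h1, h2⟩ | ⟨h1, h2⟩
      · exact ⟨false, by simpa using h1, h2⟩
      · exact ⟨true, by simpa using h1, h2⟩
    set d' : ℕ → Bool := Function.update d (n - 1) e with hd'
    have hd'n : d' (n - 1) = e := Function.update_self _ _ _
    have hd'j : ∀ j, j < n - 1 → d' j = d j := fun j hj =>
      Function.update_of_ne (by omega) _ _
    obtain ⟨κ', hκc, hκ0, hκR⟩ : ∃ κ' : V → ℕ, (∀ j, 0 < j → j < n → κ' (c j) = κs j) ∧
        κ' (c 0) = i ∧ ∀ w ∈ R, w ≠ c 0 → κ' w = κ w := by
      refine ⟨fun w => if hw : ∃ j, 0 < j ∧ j < n ∧ w = c j then κs hw.choose else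
        if w = c 0 then i else κ w, ?_, ?_, ?_⟩
      · intro j h1 h2
        have hw : ∃ j', 0 < j' ∧ j' < n ∧ c j = c j' := ⟨j, h1, h2, rfl⟩
        simp only [dif_pos hw]
        have := hw.choose_spec
        rw [← h.inj j h2 _ this.2.1 this.2.2]
      · have hw : ¬ ∃ j', 0 < j' ∧ j' < n ∧ c 0 = c j' := by
          rintro ⟨j', h1, h2, h3⟩
          have := h.inj 0 (by omega) j' h2 h3
          omega
        simp only [dif_neg hw, if_true]
      · intro w hw hw0
        have hw' : ¬ ∃ j', 0 < j' ∧ j' < n ∧ w = c j' := by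
          rintro ⟨j', h1, h2, rfl⟩
          exact h.notMem j' h1 h2 hw
        simp only [dif_neg hw', if_neg hw0]
    set F' : Finset (Sym2 V) := (F.filter (fun e => ∀ x ∈ e, x ∈ R)) ∪
      (((Finset.range n).filter (fun j => d' j = true)).image (fun j => s(c j, c (j + 1))))
      with hF'
    have hFc : ∀ j, j < n → ((G.deleteEdges (F' : Set (Sym2 V))).Adj (c j) (c (j + 1)) ↔
        d' j = false) := by
      intro j hj
      rw [SimpleGraph.deleteEdges_adj, Finset.mem_coe, hF', Finset.mem_union, Finset.mem_filter,
        Finset.mem_image]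
      constructor
      · rintro ⟨_, h2⟩
        by_contra hc
        apply h2
        refine Or.inr ⟨j, ?_, rfl⟩
        rw [Finset.mem_filter, Finset.mem_range]
        exact ⟨hj, by simpa using hc⟩
      · intro h1
        refine ⟨h.adj j, ?_⟩
        rintro (⟨_, h2⟩ | ⟨a, ha, h2⟩)
        · exact failc_edge_out h hj ⟨h2 _ (Sym2.mem_mk_left _ _), h2 _ (Sym2.mem_mk_right _ _)⟩
        · rw [Finset.mem_filter, Finset.mem_range] at ha
          have := failc_edge_inj h ha.1 hj h2
          subst this
          rw [h1] at ha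
          exact absurd ha.2 (by simp)
    have hFR : ∀ u ∈ R, ∀ v ∈ R, ((G.deleteEdges (F' : Set (Sym2 V))).Adj u v ↔
        (G.deleteEdges (F : Set (Sym2 V))).Adj u v) := by
      intro u hu v hv
      rw [SimpleGraph.deleteEdges_adj, SimpleGraph.deleteEdges_adj, Finset.mem_coe,
        Finset.mem_coe, hF', Finset.mem_union, Finset.mem_filter, Finset.mem_image]
      refine and_congr_right (fun _ => not_congr ?_)
      constructor
      · rintro (⟨h1, _⟩ | ⟨a, ha, h2⟩)
        · exact h1
        · exfalso
          rw [Finset.mem_filter, Finset.mem_range] at ha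
          apply failc_edge_out h ha.1
          have m1 : c a ∈ s(u, v) := by rw [← h2]; exact Sym2.mem_mk_left _ _
          have m2 : c (a + 1) ∈ s(u, v) := by rw [← h2]; exact Sym2.mem_mk_right _ _
          constructor
          · rcases Sym2.mem_iff.mp m1 with h3 | h3 <;> rw [h3] <;> assumption
          · rcases Sym2.mem_iff.mp m2 with h3 | h3 <;> rw [h3] <;> assumption
      · intro h1
        refine Or.inl ⟨h1, ?_⟩
        intro x hx
        rcases Sym2.mem_iff.mp hx with h3 | h3 <;> rw [h3] <;> assumption
    have hcost : F'.card + ∑ w ∈ R ∪ (Finset.range n).image c, κ' w ≤ k := by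
      have c1 : F'.card ≤ F.card + ((Finset.range n).filter (fun j => d' j = true)).card := by
        rw [hF']
        refine (Finset.card_union_le _ _).trans ?_
        exact Nat.add_le_add (Finset.card_filter_le _ _) Finset.card_image_le
      have c2 := hcard d'
      rw [hd'n] at c2
      have c3 : ((Finset.Ico 0 (0 + (n - 1))).filter (fun j => d' j = true)).card =
          ((Finset.Ico 0 (0 + (n - 1))).filter (fun j => d j = true)).card := by
        congr 1
        apply Finset.filter_congr
        intro x hx
        rw [Finset.mem_Ico] at hx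
        rw [hd'j x (by omega)]
      have c4 := failcCost_eq d κs (n - 1) 0
      rw [hIco] at c4
      have c5 := failc_sum h κ'
      have c6 : ∑ j ∈ Finset.Ico 1 n, κ' (c j) = ∑ j ∈ Finset.Ico 1 n, κs j := by
        apply Finset.sum_congr rfl
        intro x hx
        rw [Finset.mem_Ico] at hx
        exact hκc x (by omega) hx.2
      have c7 : ∑ w ∈ R, κ' w = ∑ w ∈ R.erase (c 0), κ w + i := by
        rw [← Finset.sum_erase_add R κ' h.mem, hκ0]
        congr 1
        apply Finset.sum_congr rfl
        intro x hx
        exact hκR x (Finset.mem_of_mem_erase hx) (Finset.ne_of_mem_erase hx)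
      have c8 : ∑ w ∈ R, κ w = ∑ w ∈ R.erase (c 0), κ w + κ (c 0) :=
        (Finset.sum_erase_add R κ h.mem).symm
      omega
    have hfin := hG N ((h0 N).mpr hN) F' κ' hcost
    rw [failc_WD' h (SimpleGraph.deleteEdges_le _) _ _ d' hFc, WD_congr hFR (fun v _ => rfl)]
      at hfin
    have r1 : failcRun d' (fun j => f (c j) (κ' (c j))) 0 (n - 1) = P := by
      rw [hPd]
      apply failcRun_congr
      · intro j _ hj
        exact hd'j j (by omega)
      · intro j h1 h2
        rw [hκc j h1 (by omega)]
    rw [r1, hd'n, hκ0, ← he2, ← hgl] at hfin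
    refine (WD_congr (fun _ _ _ _ => Iff.rfl) ?_).mpr hfin
    intro v hv
    by_cases hv0 : v = c 0
    · subst hv0
      rw [Function.update_self, Function.update_self]
    · rw [Function.update_of_ne hv0, Function.update_of_ne hv0, hκR v hv hv0]
  · -- backward
    intro hG N hN F κ hk
    set H : SimpleGraph V := G.deleteEdges (F : Set (Sym2 V)) with hH
    have hHG : H ≤ G := SimpleGraph.deleteEdges_le _
    set d : ℕ → Bool := fun j => decide ¬ H.Adj (c j) (c (j + 1)) with hd
    rw [failc_WD' h hHG _ _ d (fun j _ => by simp [hd])]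
    set P := failcRun d (fun j => f (c j) (κ (c j))) 0 (n - 1) with hP
    have hfw : Fw gs (failcCost d (fun j => κ (c j)) 0 (n - 1)) P :=
      failc_fw d (fun j => κ (c j)) (fun i => f (c i)) (n - 1) 0
    set k' := failcCost d (fun j => κ (c j)) 0 (n - 1) + (if d (n - 1) then 1 else 0) with hk'
    have hOut : Out gs k' (clo P (d (n - 1))) := by
      refine ⟨_, P, hfw, ?_⟩
      cases hdn : d (n - 1) with
      | false => left; refine ⟨?_, rfl⟩; rw [hk', hdn]; simp
      | true => right; refine ⟨?_, rfl⟩; rw [hk', hdn]; simp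
    have hle : clo P (d (n - 1)) ≤ α k' := hα.1 _ _ hOut
    set F' : Finset (Sym2 V) := F.filter (fun e => ∀ x ∈ e, x ∈ R) with hF'
    have hFR : ∀ u ∈ R, ∀ v ∈ R, (H.Adj u v ↔ (G.deleteEdges (F' : Set (Sym2 V))).Adj u v) := by
      intro u hu v hv
      rw [hH, SimpleGraph.deleteEdges_adj, SimpleGraph.deleteEdges_adj, Finset.mem_coe,
        Finset.mem_coe, hF', Finset.mem_filter]
      refine and_congr_right (fun _ => not_congr ?_)
      constructor
      · intro h1
        refine ⟨h1, ?_⟩
        intro x hx
        rcases Sym2.mem_iff.mp hx with h3 | h3 <;> rw [h3] <;> assumption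
      · exact fun h1 => h1.1
    have hcost : F'.card + ∑ w ∈ R, Function.update κ (c 0) (κ (c 0) + k') w ≤ k := by
      have c1 : F'.card + ((Finset.range n).filter (fun j => d j = true)).card ≤ F.card := by
        have himg : ((Finset.range n).filter (fun j => d j = true)).card =
            (((Finset.range n).filter (fun j => d j = true)).image
              (fun j => s(c j, c (j + 1)))).card := by
          rw [Finset.card_image_of_injOn]
          intro a ha b hb hab
          rw [Finset.mem_coe, Finset.mem_filter, Finset.mem_range] at ha hb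
          exact failc_edge_inj h ha.1 hb.1 hab
        rw [himg, ← Finset.card_union_of_disjoint]
        · apply Finset.card_le_card
          intro x hx
          rcases Finset.mem_union.mp hx with hx | hx
          · rw [hF'] at hx; exact (Finset.mem_filter.mp hx).1
          · obtain ⟨a, ha, rfl⟩ := Finset.mem_image.mp hx
            rw [Finset.mem_filter, Finset.mem_range] at ha
            have h1 := ha.2
            simp only [hd, decide_eq_true_eq] at h1
            rw [hH, SimpleGraph.deleteEdges_adj] at h1
            by_contra h2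
            exact h1 ⟨h.adj a, by simpa using h2⟩
        · rw [Finset.disjoint_left]
          intro x hx hx'
          rw [hF'] at hx
          obtain ⟨a, ha, rfl⟩ := Finset.mem_image.mp hx'
          rw [Finset.mem_filter, Finset.mem_range] at ha
          have h2 := (Finset.mem_filter.mp hx).2
          exact failc_edge_out h ha.1 ⟨h2 _ (Sym2.mem_mk_left _ _), h2 _ (Sym2.mem_mk_right _ _)⟩
      have c2 := hcard d
      have c4 := failcCost_eq d (fun j => κ (c j)) (n - 1) 0
      rw [hIco] at c4
      have c5 := failc_sum h κ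
      have c7 : ∑ w ∈ R, Function.update κ (c 0) (κ (c 0) + k') w
          = ∑ w ∈ R.erase (c 0), κ w + (κ (c 0) + k') := by
        rw [← Finset.sum_erase_add R _ h.mem, Function.update_self]
        congr 1
        apply Finset.sum_congr rfl
        intro x hx
        rw [Function.update_of_ne (Finset.ne_of_mem_erase hx)]
      have c8 : ∑ w ∈ R, κ w = ∑ w ∈ R.erase (c 0), κ w + κ (c 0) :=
        (Finset.sum_erase_add R κ h.mem).symm
      omega
    have hfin := hG N ((h0 N).mp hN) F' (Function.update κ (c 0) (κ (c 0) + k')) hcost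
    rw [← WD_congr (H := H) (H' := G.deleteEdges (F' : Set (Sym2 V))) hFR (fun v _ => rfl)] at hfin
    refine WD_mono ?_ hfin
    intro v hv
    by_cases hv0 : v = c 0
    · subst hv0
      rw [Function.update_self, Function.update_self, Function.update_self]
      refine le_trans ?_ (le_gl (f (c 0)) α (i := κ (c 0)) (j := k') rfl)
      rw [glue_comm _ (clo P _), glue_comm _ (α k')]
      exact glue_mono_left hle _
    · rw [Function.update_of_ne hv0, Function.update_of_ne hv0, Function.update_of_ne hv0]

end Pool.Agent.H44.Cac
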