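import Pool.Agent.H44.Cac.CertDefs

namespace Pool.Agent.H44.Cac

open Classical

variable {V : Type*}

section aux

variable {G : SimpleGraph V} {f : V → Pf} {u v : V}

theorem ifb_fu (ha : G.Adj u v) (S : V → Prop) :
    ((insert v ({u} : Finset V)).filter (fun x => G.Adj u x ∧ S x)).card =
      if S v then 1 else 0 := by
  rw [Finset.filter_insert, Finset.filter_singleton]
  have h : ¬ (G.Adj u u ∧ S u) := fun h => G.loopless.irrefl u h.1
  rw [if_neg h]
  by_cases hs : S v
  · rw [if_pos ⟨ha, hs⟩, if_pos hs]; rfl
  · rw [if_neg (fun h => hs h.2), if_neg hs]; rfl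

theorem ifb_fv (ha : G.Adj u v) (S : V → Prop) :
    ((insert v ({u} : Finset V)).filter (fun x => G.Adj v x ∧ S x)).card =
      if S u then 1 else 0 := by
  rw [Finset.filter_insert, Finset.filter_singleton]
  have h : ¬ (G.Adj v v ∧ S v) := fun h => G.loopless.irrefl v h.1
  rw [if_neg h]
  by_cases hs : S u
  · rw [if_pos ⟨ha.symm, hs⟩, if_pos hs]; rfl
  · rw [if_neg (fun h => hs h.2), if_neg hs]; rfl

theorem ifb_card (ha : G.Adj u v) : (insert v ({u} : Finset V)).card = 2 := by
  rw [Finset.card_insert_of_notMem (by simpa using ha.ne'), Finset.card_singleton]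

theorem ifb_sub {kv sv : Prop} {K : Finset V} {m q : V → ℕ} (h : BSide G f {u} v kv sv K m q) :
    K = ∅ ∨ K = {u} := by
  have := h.sub
  rwa [Finset.subset_singleton_iff] at this

/-- the block rule for an edge -/
theorem ifb_brule (ha : G.Adj u v) (K : Finset V) (S : V → Prop) (m q : V → ℕ) :
    BRule G K S (fun w _ => m w) (fun w _ => q w) (insert v {u}) ↔
      (v ∉ K → m v ≤ if S u then 1 else 0) ∧ (u ∉ K → m u ≤ if S v then 1 else 0) ∧
      ¬ (v ∈ K ∧ u ∈ K) := by
  constructor
  · intro h
    refine ⟨fun hv => ?_, fun hu => ?_, fun hh => ?_⟩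
    · have := h.bound v (Finset.mem_insert_self _ _) hv
      rwa [ifb_fv ha] at this
    · have := h.bound u (by simp) hu
      rwa [ifb_fu ha] at this
    · apply h.edge (ifb_card ha)
      intro x hx
      rw [Finset.mem_insert, Finset.mem_singleton] at hx
      rcases hx with rfl | rfl
      · exact hh.1
      · exact hh.2
  · rintro ⟨h1, h2, h3⟩
    refine ⟨?_, ?_, ?_, ?_⟩
    · intro w hw hk
      rw [Finset.mem_insert, Finset.mem_singleton] at hw
      rcases hw with rfl | rfl
      · rw [ifb_fv ha]; exact h1 hk
      · rw [ifb_fu ha]; exact h2 hk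
    · intro _ hs
      exact h3 ⟨hs (Finset.mem_insert_self _ _), hs (by simp)⟩
    · intro h; rw [ifb_card ha] at h; omega
    · intro h; rw [ifb_card ha] at h; omega

theorem ifb_empty {kv sv : Prop} {m q : V → ℕ} (ha : G.Adj u v) :
    BSide G f {u} v kv sv ∅ m q ↔
      (ty (f u) = 0 → ¬ kv ∧ f u 2 ≤ f u 0 + 2 ∧ 3 ≤ cS (f u) + m u) ∧
      (ty (f u) = 1 → kv → f u 2 ≤ f u 0 + 2 ∧ 3 ≤ cT (f u) + m u) ∧
      (ty (f u) = 2 → kv → f u 1 ≤ f u 0 ∧ f u 2 ≤ f u 0 + 1 ∧ 3 ≤ m u) ∧
      (ty (f u) = 1 → ¬ kv → f u 2 ≤ f u 0 + 1 ∧ 3 ≤ cN (f u) + m u) ∧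
      (ty (f u) = 2 → ¬ kv → f u 2 ≤ f u 0 ∧ 3 ≤ m u) ∧
      (kv → q v ≤ 2) ∧ (¬ kv → m v ≤ if ty (f u) = 0 then 1 else 0) ∧
      (m u ≤ if sv then 1 else 0) := by
  have hne : u ≠ v := ha.ne
  have hK : ∀ w : V, w ∈ (if kv then insert v (∅ : Finset V) else ∅) ↔ (kv ∧ w = v) := by
    intro w
    by_cases hk : kv <;> simp [hk]
  constructor
  · intro h
    have hb := (ifb_brule ha _ _ _ _).1 h.block
    rw [hK, hK] at hb
    obtain ⟨hb1, hb2, -⟩ := hb
    refine ⟨?_, ?_, ?_, ?_, ?_, h.qv, ?_, ?_⟩
    · intro h0
      obtain ⟨a, b⟩ := h.own u (by simp) (by simp) h0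
      exact ⟨fun hk => a v (Or.inr ⟨hk, rfl⟩) ha, b⟩
    · intro h1 hk
      exact (h.strong u (by simp) (by simp) (by omega) ⟨v, Or.inr ⟨hk, rfl⟩, ha⟩).1 h1
    · intro h1 hk
      exact (h.strong u (by simp) (by simp) (by omega) ⟨v, Or.inr ⟨hk, rfl⟩, ha⟩).2 h1
    · intro h1 hk
      refine (h.weak u (by simp) (by simp) (by omega) ?_).1 h1
      rintro x (hx | hx)
      · simp at hx
      · exact absurd hx.1 hk
    · intro h1 hk
      refine (h.weak u (by simp) (by simp) (by omega) ?_).2 h1
      rintro x (hx | hx)
      · simp at hx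
      · exact absurd hx.1 hk
    · intro hk
      refine (hb1 fun hh => hk hh.1).trans ?_
      have : SB G f v sv (if kv then insert v (∅ : Finset V) else ∅) u ↔ ty (f u) = 0 := by
        unfold SB
        rw [if_neg hne, hK]
        simp only [hK]
        constructor
        · rintro (hh | ⟨x, hh, _⟩ | hh)
          · exact absurd hh.1 hk
          · exact absurd hh.1 hk
          · exact hh
        · exact fun hh => Or.inr (Or.inr hh)
      rw [if_congr this rfl rfl]
    · refine (hb2 fun hh => hne hh.2).trans ?_
      have : SB G f v sv (if kv then insert v (∅ : Finset V) else ∅) v ↔ sv := by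
        unfold SB
        rw [if_pos rfl]
      rw [if_congr this rfl rfl]
  · rintro ⟨h0, h1, h2, h3, h4, h5, h6, h7⟩
    refine ⟨by simp, by simp, ?_, ?_, ?_, h5, ?_⟩
    · intro w hw _ ht
      rw [Finset.mem_singleton] at hw
      subst hw
      obtain ⟨a, b⟩ := h0 ht
      refine ⟨?_, b⟩
      rintro x (hx | hx)
      · simp at hx
      · exact absurd hx.1 a
    · intro w hw _ ht hx
      rw [Finset.mem_singleton] at hw
      subst hw
      obtain ⟨x, hx1 | hx1, hx2⟩ := hx
      · simp at hx1
      · exact ⟨fun h => h1 h hx1.1, fun h => h2 h hx1.1⟩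
    · intro w hw _ ht hx
      rw [Finset.mem_singleton] at hw
      subst hw
      have hk : ¬ kv := fun hk => hx v (Or.inr ⟨hk, rfl⟩) ha
      exact ⟨fun h => h3 h hk, fun h => h4 h hk⟩
    · rw [ifb_brule ha, hK, hK]
      refine ⟨?_, ?_, ?_⟩
      · intro hh
        have hk : ¬ kv := fun hk => hh ⟨hk, rfl⟩
        refine (h6 hk).trans ?_
        by_cases ht : ty (f u) = 0
        · rw [if_pos ht, if_pos]
          unfold SB
          rw [if_neg hne]
          exact Or.inr (Or.inr ht)
        · rw [if_neg ht]
          exact Nat.zero_le _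
      · intro _
        have : SB G f v sv (if kv then insert v (∅ : Finset V) else ∅) v ↔ sv := by
          unfold SB
          rw [if_pos rfl]
        rw [if_congr this rfl rfl]
        exact h7
      · rintro ⟨_, hh⟩
        exact hne hh.2

theorem ifb_single {sv : Prop} {m q : V → ℕ} (ha : G.Adj u v) :
    BSide G f {u} v False sv {u} m q ↔
      (ty (f u) = 2 ∧ f u 2 ≤ f u 0 + 2 ∧ q u ≤ 2 ∧ (1 ≤ q u → f u 1 ≤ f u 0 + 1) ∧
        (2 ≤ q u → f u 1 ≤ f u 0)) ∧ m v ≤ 1 := by
  have hne : u ≠ v := ha.ne
  constructor
  · intro h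
    have hb := (ifb_brule ha _ _ _ _).1 h.block
    rw [if_neg not_false] at hb
    refine ⟨h.crit u (by simp), ?_⟩
    refine (hb.1 (by simpa using hne.symm)).trans ?_
    split_ifs <;> simp
  · rintro ⟨h1, h2⟩
    refine ⟨by simp, ?_, ?_, ?_, ?_, fun h => h.elim, ?_⟩
    · intro x hx
      rw [Finset.mem_singleton] at hx
      subst hx
      exact h1
    · intro w hw hw'; exact absurd hw hw'
    · intro w hw hw'; exact absurd hw hw'
    · intro w hw hw'; exact absurd hw hw'
    · rw [ifb_brule ha, if_neg not_false]
      refine ⟨?_, ?_, ?_⟩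
      · intro _
        rw [if_pos]
        · exact h2
        · unfold SB
          rw [if_neg hne]
          exact Or.inl (by simp)
      · intro hh
        exact absurd (Finset.mem_singleton_self u) hh
      · rintro ⟨hh, _⟩
        rw [Finset.mem_singleton] at hh
        exact hne hh.symm

theorem ifb_single_true {sv : Prop} {m q : V → ℕ} (ha : G.Adj u v)
    (h : BSide G f {u} v True sv {u} m q) : False := by
  have hb := (ifb_brule ha _ _ _ _).1 h.block
  rw [if_pos trivial] at hb
  exact hb.2.2 ⟨by simp, by simp⟩

end aux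

theorem ifb_ex (g : Pf) : ex g 0 = g 0 + 1 ∧ ex g 1 = max (g 1 + 1) (3 * ((g 0 + 1) / 3) + 2) ∧
    ex g 2 = max (g 2 + 1) (3 * ((g 1 + 1) / 3) + 2) := ⟨rfl, rfl, rfl⟩

theorem iface_bridge {G : SimpleGraph V} {f : V → Pf} {u v : V} (ha : G.Adj u v)
    (hf : ∀ w, Adm (f w)) : Iface G f {u} v (ex (f u)) := by
  have hne : u ≠ v := ha.ne
  have hm := (hf u).1
  have hm1 : f u 0 ≤ f u 1 := hm (by norm_num)
  have hm2 : f u 1 ≤ f u 2 := hm (by norm_num)
  obtain ⟨e0, e1, e2⟩ := ifb_ex (f u)
  have hty : ty (f u) = 0 ∨ ty (f u) = 1 ∨ ty (f u) = 2 := by unfold ty; omega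
  refine ⟨?_, ?_, ?_, ?_, ?_⟩
  · intro q0 hq0
    constructor
    · rintro ⟨K, m, q, hB, hq⟩
      rcases ifb_sub hB with rfl | rfl
      · rw [ifb_empty ha] at hB
        obtain ⟨h0, h1, h2, -, -, -, -, h7⟩ := hB
        rw [if_pos trivial] at h7
        rcases hty with ht | ht | ht
        · exact absurd trivial (h0 ht).1
        · obtain ⟨a, b⟩ := h1 ht trivial
          unfold cT at b
          unfold ty at ht
          unfold okK ty
          rw [e0, e1, e2]
          split_ifs at b
          · omega
          · omega
        · have := (h2 ht trivial).2.2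
          omega
      · exact (ifb_single_true ha hB).elim
    · rintro ⟨h1, h2, h3⟩
      unfold ty at h1
      rw [e0] at h1 h2 h3
      rw [e1] at h2
      rw [e2] at h3
      have ht : ty (f u) = 1 := by unfold ty; omega
      have h4 : f u 1 ≤ f u 0 := by unfold ty at ht; omega
      refine ⟨∅, fun _ => 1, fun _ => 0, ?_, Nat.zero_le _⟩
      rw [ifb_empty ha]
      refine ⟨fun h => by omega, fun _ _ => ⟨by omega, ?_⟩, fun h => by omega,
        fun _ h => absurd trivial h, fun h => by omega, fun _ => by omega,
        fun h => absurd trivial h, by rw [if_pos trivial]⟩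
      unfold cT
      rw [if_pos h4]
  · intro n hn
    constructor
    · rintro ⟨K, m, q, hB, ⟨x, hx, -⟩, hnm⟩
      rcases ifb_sub hB with rfl | rfl
      · simp at hx
      · rw [ifb_single ha] at hB
        obtain ⟨⟨h1, h2, -⟩, h3⟩ := hB
        unfold ty at h1
        unfold okO ty cS
        rw [e0, e1, e2]
        refine ⟨by omega, by omega, ?_⟩
        split_ifs <;> omega
    · rintro ⟨h1, h2, h3⟩
      unfold ty at h1
      unfold cS at h3
      rw [e0] at h1 h2 h3
      rw [e2] at h2 h3
      rw [e1] at h3
      refine ⟨{u}, fun _ => n, fun _ => 0, ?_, ⟨u, by simp, ha.symm⟩, le_refl _⟩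
      rw [ifb_single ha]
      refine ⟨⟨by unfold ty; omega, by omega, by omega, by simp, by simp⟩, ?_⟩
      split_ifs at h3 <;> omega
  · intro n hn
    constructor
    · rintro ⟨K, m, q, hB, hx, hnm⟩
      rcases ifb_sub hB with rfl | rfl
      · rw [ifb_empty ha] at hB
        obtain ⟨h0, -, -, h3, h4, -, h6, h7⟩ := hB
        rw [if_pos trivial] at h7
        have h6' := h6 not_false
        rcases hty with ht | ht | ht
        · obtain ⟨-, a, b⟩ := h0 ht
          rw [if_pos ht] at h6'
          unfold cS at b
          unfold ty at ht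
          left
          unfold ty cT
          rw [e0, e1, e2]
          split_ifs at b
          all_goals
            refine ⟨by omega, by omega, by omega, ?_⟩
            split_ifs <;> omega
        · obtain ⟨a, b⟩ := h3 ht not_false
          rw [if_neg (by omega)] at h6'
          unfold cN at b
          unfold ty at ht
          right
          unfold ty
          rw [e0, e1, e2]
          split_ifs at b
          all_goals
            refine ⟨by omega, by omega, by omega, by omega⟩
        · have := (h4 ht not_false).2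
          omega
      · exact absurd ha.symm (hx u (by simp))
    · rintro (⟨h1, h2, h3, h4⟩ | ⟨h1, h2, h3, h4⟩)
      · unfold ty at h1
        unfold cT at h4
        rw [e0] at h1 h2 h3 h4
        rw [e1] at h2 h4
        rw [e2] at h3
        have ht : ty (f u) = 0 := by unfold ty; omega
        refine ⟨∅, fun w => if w = u then 1 else n, fun _ => 0, ?_, by simp, ?_⟩
        · rw [ifb_empty ha]
          refine ⟨fun _ => ⟨not_false, by omega, ?_⟩, fun h => by omega, fun h => by omega,
            fun h => by omega, fun h => by omega, fun h => h.elim, fun _ => ?_, ?_⟩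
          · rw [if_pos rfl]
            unfold cS
            split_ifs <;> omega
          · rw [if_neg hne.symm, if_pos ht]
            split_ifs at h4 <;> omega
          · rw [if_pos rfl, if_pos trivial]
        · simp [hne.symm]
      · unfold ty at h1
        rw [e0] at h1 h2 h3
        rw [e1] at h2
        rw [e2] at h3
        have ht : ty (f u) = 1 := by unfold ty; omega
        refine ⟨∅, fun w => if w = u then 1 else n, fun _ => 0, ?_, by simp, ?_⟩
        · rw [ifb_empty ha]
          refine ⟨fun h => by omega, fun _ h => h.elim, fun h => by omega,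
            fun _ _ => ⟨by omega, ?_⟩, fun h => by omega, fun h => h.elim, fun _ => ?_, ?_⟩
          · rw [if_pos rfl]
            unfold cN
            split_ifs <;> omega
          · rw [if_neg hne.symm, if_neg (by omega)]
            omega
          · rw [if_pos rfl, if_pos trivial]
        · simp [hne.symm]
  · intro n hn
    constructor
    · rintro ⟨K, m, q, hB, hx, hnm⟩
      rcases ifb_sub hB with rfl | rfl
      · rw [ifb_empty ha] at hB
        obtain ⟨h0, -, -, h3, h4, -, h6, h7⟩ := hB
        rw [if_neg not_false] at h7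
        have h6' := h6 not_false
        rcases hty with ht | ht | ht
        · obtain ⟨-, a, b⟩ := h0 ht
          rw [if_pos ht] at h6'
          unfold cS at b
          unfold ty at ht
          left
          unfold ty cN
          rw [e0, e1, e2]
          split_ifs at b
          all_goals
            refine ⟨by omega, by omega, ?_⟩
            split_ifs <;> omega
        · obtain ⟨a, b⟩ := h3 ht not_false
          rw [if_neg (by omega)] at h6'
          unfold cN at b
          unfold ty at ht
          right
          unfold ty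
          rw [e0, e2]
          split_ifs at b
          all_goals
            refine ⟨by omega, by omega, by omega⟩
        · have := (h4 ht not_false).2
          omega
      · exact absurd ha.symm (hx u (by simp))
    · rintro (⟨h1, h2, h3⟩ | ⟨h1, h2, h3⟩)
      · unfold ty at h1
        unfold cN at h3
        rw [e0] at h1 h2 h3
        rw [e1] at h3
        rw [e2] at h2 h3
        have ht : ty (f u) = 0 := by unfold ty; omega
        refine ⟨∅, fun w => if w = u then 0 else n, fun _ => 0, ?_, by simp, ?_⟩
        · rw [ifb_empty ha]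
          refine ⟨fun _ => ⟨not_false, by omega, ?_⟩, fun h => by omega, fun h => by omega,
            fun h => by omega, fun h => by omega, fun h => h.elim, fun _ => ?_, ?_⟩
          · rw [if_pos rfl]
            unfold cS
            split_ifs <;> omega
          · rw [if_neg hne.symm, if_pos ht]
            split_ifs at h3 <;> omega
          · rw [if_pos rfl]
            exact Nat.zero_le _
        · simp [hne.symm]
      · unfold ty at h1
        rw [e0] at h1 h2
        rw [e2] at h2
        have ht : ty (f u) = 1 := by unfold ty; omega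
        refine ⟨∅, fun w => if w = u then 0 else n, fun _ => 0, ?_, by simp, ?_⟩
        · rw [ifb_empty ha]
          refine ⟨fun h => by omega, fun _ h => h.elim, fun h => by omega,
            fun _ _ => ⟨by omega, ?_⟩, fun h => by omega, fun h => h.elim, fun _ => ?_, ?_⟩
          · rw [if_pos rfl]
            unfold cN
            split_ifs <;> omega
          · rw [if_neg hne.symm, if_neg (by omega)]
            omega
          · rw [if_pos rfl]
            exact Nat.zero_le _
        · simp [hne.symm]
  · rw [e0, e2]
    omega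

end Pool.Agent.H44.Cac
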