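import Pool.Agent.H44.Cac.CertDefs

namespace Pool.Agent.H44.Cac

open Classical

theorem lab_ty (g : Pf) : ty g = 0 ∨ ty g = 1 ∨ ty g = 2 := by unfold ty; omega

theorem lab_str_le (a' a : Pf) : str a' a ≤ 1 := by unfold str; split_ifs <;> omega

theorem lab_cT_le (g : Pf) : cT g ≤ 2 := by unfold cT; split_ifs <;> omega

/-- labels give the rule -/
theorem rule_of_lab {p : ℕ → Pf} {n : ℕ} (hn : 3 ≤ n) (hp : ∀ i, p (i + n) = p i)
    (hl : ∀ i, Live (p i)) {k s : ℕ → Prop} {mm qq : ℕ → ℕ} (hk : ∀ i, k (i + n) ↔ k i)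
    (hs : ∀ i, s (i + n) ↔ s i) (hm : ∀ i, mm (i + n) = mm i) (hq : ∀ i, qq (i + n) = qq i)
    (h1 : VC p k s mm qq) (h2 : LRule n k s mm qq) : Rule p n := by
  have hkt : ∀ i, k i ↔ ty (p i) = 2 := by
    intro i
    have key : ∀ i, ty (p (i + 1)) = 2 → k (i + 1) := by
      intro i ht
      by_contra hk'
      have hb := h2.bound i hk'
      have h3 : 3 ≤ mm (i + 1) := by
        by_cases hc : k i ∨ k (i + 2)
        · exact (h1.strong i hk' (by omega) hc).2.2 ht
        · push Not at hc
          exact (h1.weak i hk' (by omega) hc.1 hc.2).2.2 ht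
      split_ifs at hb <;> omega
    constructor
    · exact fun h => (h1.crit i h).1
    · intro ht
      have := key (i + (n - 1)) (by rw [show i + (n - 1) + 1 = i + n by omega, hp]; exact ht)
      rwa [show i + (n - 1) + 1 = i + n by omega, hk] at this
  obtain rfl : k = fun i => ty (p i) = 2 := funext fun i => propext (hkt i)
  clear hkt hk
  have hst : ∀ i, s (i + 1) ↔ (ty (p (i + 1)) ≠ 1 ∨ ty (p i) = 2 ∨ ty (p (i + 2)) = 2) := by
    intro i
    by_cases hk1 : ty (p (i + 1)) = 2
    · have := (h1.crit (i + 1) hk1).2.2.1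
      simp [this, hk1]
    by_cases h0 : ty (p (i + 1)) = 0
    · have := (h1.own i hk1 h0).2.2.1
      simp [this, h0]
    by_cases hc : ty (p i) = 2 ∨ ty (p (i + 2)) = 2
    · have := (h1.strong i hk1 h0 hc).1
      tauto
    · push Not at hc
      have h4 := (h1.weak i hk1 h0 hc.1 hc.2).1
      have := lab_ty (p (i + 1))
      tauto
  have hcx : ∀ i, ty (p (i + 1)) ≠ 2 → 3 ≤ cX (p i) (p (i + 1)) (p (i + 2)) + mm (i + 1) := by
    intro i hx
    unfold cX
    split_ifs with u v
    · exact (h1.own i hx u).2.2.2.2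
    · exact ((h1.strong i hx u v).2.1 (by have := lab_ty (p (i + 1)); tauto)).2
    · push Not at v
      exact ((h1.weak i hx u v.1 v.2).2.1 (by have := lab_ty (p (i + 1)); tauto)).2
  refine ⟨fun i => ⟨fun hx => ⟨fun ha => ?_, fun hc => ?_⟩, fun hx => ?_⟩, ?_⟩
  · exact (h1.own i (show ¬ ty (p (i + 1)) = 2 by rw [ha]; norm_num) ha).2.1 hx
  · exact (h1.own (i + 2) (show ¬ ty (p (i + 3)) = 2 by rw [hc]; norm_num) hc).1 hx
  · have hb : mm (i + 2) ≤ (if s (i + 1) then 1 else 0) + (if s (i + 3) then 1 else 0) :=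
      h2.bound (i + 1) hx
    have e1 : (if s (i + 1) then 1 else 0) ≤ str (p i) (p (i + 1)) := by
      have := hst i
      unfold str
      split_ifs with u v <;> first | omega | (exfalso; tauto)
    have e2 : (if s (i + 3) then 1 else 0) ≤ str (p (i + 4)) (p (i + 3)) := by
      have : s (i + 3) ↔ (ty (p (i + 3)) ≠ 1 ∨ ty (p (i + 2)) = 2 ∨ ty (p (i + 4)) = 2) :=
        hst (i + 2)
      unfold str
      split_ifs with u v <;> first | omega | (exfalso; tauto)
    have h3 : 3 ≤ cX (p (i + 1)) (p (i + 2)) (p (i + 3)) + mm (i + 2) := hcx (i + 1) hx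
    omega
  · by_cases hall : ∀ i, ty (p i) = 2
    · left
      obtain ⟨e1, e2⟩ := h2.full hall
      exact ⟨hall, e1, fun i => (h1.crit i (hall i)).2.2.2.2.1 (e2 i)⟩
    by_cases hnone : ∀ i, ty (p i) ≠ 2
    · right; left; exact hnone
    push Not at hall hnone
    right; right
    rcases h2.mixed hnone hall with ⟨a1, a2, a3, a4, a5⟩ | ⟨b1, b2⟩
    · left
      refine ⟨hall, a1, a2, ?_, ?_, ?_⟩
      · unfold nK; convert a3
      · intro i u v w
        exact (h1.crit (i + 1) v).2.2.2.2.2 (a4 i u v w)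
      · intro i u v
        have h3 := a5 i u v
        have c1 := (h1.crit i u).2.2.2
        have c2 := (h1.crit (i + 1) v).2.2.2
        have h4 : (1 ≤ qq i ∧ 2 ≤ qq (i + 1)) ∨ (2 ≤ qq i ∧ 1 ≤ qq (i + 1)) := by omega
        rcases h4 with ⟨h4, h5⟩ | ⟨h4, h5⟩
        · have := c1.2.1 h4
          have := c2.2.2 h5
          omega
        · have := c1.2.2 h4
          have := c2.2.1 h5
          omega
    · right
      refine ⟨hnone, b1, fun h1' i hi => ?_⟩
      obtain ⟨d3, d4, d5⟩ := b2 (by unfold nK at h1'; convert h1') i hi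
      refine ⟨fun hn3 => ?_, fun hn4 => ?_, fun hn5 => ?_⟩
      · rcases d3 hn3 with d | ⟨da, db⟩
        · left; exact (h1.crit i hi).2.2.2.2.1 d
        · right
          have x1 : ty (p (i + 1)) ≠ 2 := (b1 i hi).1
          have x2 : ty (p (i + 2)) ≠ 2 := (b1 i hi).2
          have e3 : p (i + 3) = p i := by rw [← hn3]; exact hp i
          have y1 : ty (p (i + 1)) ≠ 0 := fun h => (h1.own i x1 h).1 hi
          have y2 : ty (p (i + 2)) ≠ 0 := fun h => (h1.own (i + 1) x2 h).2.1
            (show ty (p (i + 3)) = 2 by rw [e3]; exact hi)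
          have z1 := hcx i x1
          have z2 : 3 ≤ cX (p (i + 1)) (p (i + 2)) (p (i + 3)) + mm (i + 2) := hcx (i + 1) x2
          rw [e3] at z2
          unfold cX at z1 z2
          rw [if_neg y1, if_pos (Or.inl hi)] at z1
          rw [if_neg y2, if_pos (Or.inr hi)] at z2
          have := lab_cT_le (p (i + 1))
          have := lab_cT_le (p (i + 2))
          omega
      · rcases d4 hn4 with d | d
        · left; exact (h1.crit i hi).2.2.2.2.2 d
        · right
          have x2 : ty (p (i + 2)) ≠ 2 := (b1 i hi).2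
          have z2 : 3 ≤ cX (p (i + 1)) (p (i + 2)) (p (i + 3)) + mm (i + 2) := hcx (i + 1) x2
          omega
      · rintro ⟨t2, t3, s2, s3⟩
        have d := d5 hn5
        have z2 : 3 ≤ cX (p (i + 1)) (p (i + 2)) (p (i + 3)) + mm (i + 2) :=
          hcx (i + 1) (show ¬ ty (p (i + 2)) = 2 by rw [t2]; norm_num)
        have z3 : 3 ≤ cX (p (i + 2)) (p (i + 3)) (p (i + 4)) + mm (i + 3) :=
          hcx (i + 2) (show ¬ ty (p (i + 3)) = 2 by rw [t3]; norm_num)
        unfold cX at z2 z3
        rw [if_pos t2] at z2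
        rw [if_pos t3] at z3
        omega

/-- the strong vertices of a cyclic sequence of profiles -/
def sT (p : ℕ → Pf) (n : ℕ) (i : ℕ) : Prop :=
  ty (p i) ≠ 1 ∨ ty (p (i + 1)) = 2 ∨ ty (p (i + (n - 1))) = 2

/-- the label of a vertex, as required by its profile -/
noncomputable def mT (p : ℕ → Pf) (n : ℕ) (i : ℕ) : ℕ :=
  3 - cX (p (i + (n - 1))) (p i) (p (i + 1))

/-- the charge of a vertex, as allowed by its profile -/
noncomputable def qT (p : ℕ → Pf) (i : ℕ) : ℕ :=
  if p i 1 ≤ p i 0 then 2 else if p i 1 ≤ p i 0 + 1 then 1 else 0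

theorem lab_qT1 {p : ℕ → Pf} {i : ℕ} : 1 ≤ qT p i ↔ p i 1 ≤ p i 0 + 1 := by
  unfold qT; split_ifs <;> omega

theorem lab_qT2 {p : ℕ → Pf} {i : ℕ} : 2 ≤ qT p i ↔ p i 1 ≤ p i 0 := by
  unfold qT; split_ifs <;> omega

/-- the rule gives labels -/
theorem lab_of_rule {p : ℕ → Pf} {n : ℕ} (hn : 3 ≤ n) (hp : ∀ i, p (i + n) = p i)
    (hl : ∀ i, Live (p i)) (h : Rule p n) :
    VC p (fun i => ty (p i) = 2) (sT p n) (mT p n) (qT p) ∧
    LRule n (fun i => ty (p i) = 2) (sT p n) (mT p n) (qT p) := by
  obtain ⟨hloc, hr⟩ := h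
  have hprev : ∀ i, p (i + 1 + (n - 1)) = p i := by
    intro i
    rw [show i + 1 + (n - 1) = i + n by omega, hp]
  -- the local rule at `i + 1`
  have hloc1 : ∀ i, Loc (p (i + (n - 1))) (p i) (p (i + 1)) (p (i + 2)) (p (i + 3)) := by
    intro i
    have := hloc (i + (n - 1))
    rw [show i + (n - 1) + 1 = i + n by omega, show i + (n - 1) + 2 = i + 1 + n by omega,
      show i + (n - 1) + 3 = i + 2 + n by omega, show i + (n - 1) + 4 = i + 3 + n by omega,
      hp, hp, hp, hp] at this
    exact this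
  have hcrit : ∀ i, ty (p (i + 1)) = 2 → ty (p i) ≠ 0 ∧ ty (p (i + 2)) ≠ 0 :=
    fun i hi => (hloc1 i).1 hi
  have hcrit' : ∀ i, ty (p i) = 2 → ty (p (i + 1)) ≠ 0 := by
    intro i hi
    have h1 := (hcrit (i + (n - 1)) (by rw [show i + (n - 1) + 1 = i + n by omega, hp]; exact hi)).2
    rwa [show i + (n - 1) + 2 = i + 1 + n by omega, hp] at h1
  have hmT : ∀ i, mT p n (i + 1) = 3 - cX (p i) (p (i + 1)) (p (i + 2)) := by
    intro i
    unfold mT
    rw [hprev]
  have hsT1 : ∀ i, sT p n (i + 1) ↔
      (ty (p (i + 1)) ≠ 1 ∨ ty (p (i + 2)) = 2 ∨ ty (p i) = 2) := by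
    intro i
    unfold sT
    rw [hprev]
  have hcx : ∀ i, ty (p (i + 1)) ≠ 2 → 1 ≤ cX (p i) (p (i + 1)) (p (i + 2)) := by
    intro i hi
    have h1 := (hloc1 i).2 hi
    have := lab_str_le (p (i + (n - 1))) (p i)
    have := lab_str_le (p (i + 3)) (p (i + 2))
    omega
  have hbound : ∀ i, ¬ ty (p (i + 1)) = 2 → mT p n (i + 1) ≤
      (if sT p n i then 1 else 0) + (if sT p n (i + 2) then 1 else 0) := by
    intro i hi
    have h1 := (hloc1 i).2 hi
    rw [hmT]
    have e1 : str (p (i + (n - 1))) (p i) ≤ (if sT p n i then 1 else 0) := by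
      unfold str sT
      split_ifs with u v <;> first | omega | (exfalso; tauto)
    have e2 : str (p (i + 3)) (p (i + 2)) ≤ (if sT p n (i + 2) then 1 else 0) := by
      have : sT p n (i + 2) ↔ (ty (p (i + 2)) ≠ 1 ∨ ty (p (i + 3)) = 2 ∨ ty (p (i + 1)) = 2) :=
        hsT1 (i + 1)
      unfold str
      split_ifs with u v <;> first | omega | (exfalso; tauto)
    omega
  constructor
  · refine ⟨fun i hi => ?_, fun i hk h0 => ?_, fun i hk h0 hc => ?_, fun i hk h0 ha hc => ?_⟩
    · refine ⟨hi, (hl i).le3, Or.inl (by rw [hi]; norm_num), ?_, lab_qT1.mp, lab_qT2.mp⟩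
      unfold qT; split_ifs <;> omega
    · refine ⟨fun h => hcrit' i h h0, fun h => (hcrit (i + 1) h).1 h0, ?_, (hl _).le3, ?_⟩
      · rw [hsT1]; left; rw [h0]; norm_num
      · rw [hmT]; unfold cX; rw [if_pos h0]; omega
    · refine ⟨?_, fun h1 => ⟨(hl _).le3, ?_⟩, fun h2 => absurd h2 hk⟩
      · rw [hsT1]
        tauto
      · rw [hmT]; unfold cX; rw [if_neg h0, if_pos hc]; omega
    · skip
      have t1 : ty (p (i + 1)) = 1 := by have := lab_ty (p (i + 1)); tauto
      have hnc : ¬ (ty (p i) = 2 ∨ ty (p (i + 2)) = 2) := by tauto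
      refine ⟨?_, fun _ => ⟨?_, ?_⟩, fun h2 => absurd h2 hk⟩
      · rw [hsT1]; tauto
      · have := hcx i hk
        unfold cX at this
        rw [if_neg h0, if_neg hnc] at this
        unfold cN at this
        split_ifs at this <;> omega
      · rw [hmT]; unfold cX; rw [if_neg h0, if_neg hnc]; omega
  · refine ⟨hbound, fun hall => ?_, fun hex hnex => ?_⟩
    · skip
      rcases hr with hr | hr | hr | hr
      · exact ⟨hr.2.1, fun i => lab_qT1.mpr (hr.2.2 i)⟩
      · exact absurd (hall 0) (hr 0)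
      · obtain ⟨⟨i, hi⟩, -⟩ := hr
        exact absurd (hall i) hi
      · exact absurd (hall 1) (hr.2.1 0 (hall 0)).1
    · obtain ⟨i0, hi0⟩ := hex
      obtain ⟨j0, hj0⟩ := hnex
      rcases hr with hr | hr | hr | hr
      · exact absurd (hr.1 j0) hj0
      · exact absurd hi0 (hr i0)
      · left
        obtain ⟨-, a1, a2, a3, a4, a5⟩ := hr
        refine ⟨a1, a2, ?_, fun i u v w => lab_qT2.mpr (a4 i u v w), fun i u v => ?_⟩
        · unfold nK at a3; convert a3
        · have h1 := a5 i u v
          have l1 := (hl i).le1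
          have l2 := (hl (i + 1)).le1
          unfold qT
          split_ifs <;> omega
      · right
        obtain ⟨-, b1, b2⟩ := hr
        refine ⟨b1, fun h1 i hi => ?_⟩
        obtain ⟨d3, d4, d5⟩ := b2 (by unfold nK; convert h1) i hi
        have x1 : ty (p (i + 1)) ≠ 2 := (b1 i hi).1
        have x2 : ty (p (i + 2)) ≠ 2 := (b1 i hi).2
        have m2 : mT p n (i + 2) = 3 - cX (p (i + 1)) (p (i + 2)) (p (i + 3)) := hmT (i + 1)
        refine ⟨fun hn3 => ?_, fun hn4 => ?_, fun hn5 => ?_⟩
        · rcases d3 hn3 with d | ⟨da, db⟩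
          · left; exact lab_qT1.mpr d
          · right
            have e3 : p (i + 3) = p i := by rw [← hn3]; exact hp i
            have y1 : ty (p (i + 1)) ≠ 0 := hcrit' i hi
            have y2 : ty (p (i + 2)) ≠ 0 :=
              (hcrit (i + 2) (show ty (p (i + 3)) = 2 by rw [e3]; exact hi)).1
            rw [hmT, m2, e3]
            unfold cX
            rw [if_neg y1, if_pos (Or.inl hi), if_neg y2, if_pos (Or.inr hi)]
            omega
        · rcases d4 hn4 with d | d
          · left; exact lab_qT2.mpr d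
          · right
            have : 1 ≤ cX (p (i + 1)) (p (i + 2)) (p (i + 3)) := hcx (i + 1) x2
            rw [m2]
            omega
        · have m3 : mT p n (i + 3) = 3 - cX (p (i + 2)) (p (i + 3)) (p (i + 4)) := hmT (i + 2)
          have e5 : p (i + 5) = p i := by rw [← hn5]; exact hp i
          have e6 : p (i + 6) = p (i + 1) := by
            rw [show i + 6 = i + 1 + n by omega]; exact hp _
          have x4 : ty (p (i + 4)) ≠ 2 := by
            intro h4
            exact (b1 (i + 4) h4).1 (show ty (p (i + 5)) = 2 by rw [e5]; exact hi)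
          have x3 : ty (p (i + 3)) ≠ 2 := by
            intro h3
            exact (b1 (i + 3) h3).2 (show ty (p (i + 5)) = 2 by rw [e5]; exact hi)
          have l2 := (hloc (i)).2 x2
          have l3 : 3 ≤ cX (p (i + 2)) (p (i + 3)) (p (i + 4)) + str (p (i + 1)) (p (i + 2)) +
              str (p (i + 5)) (p (i + 4)) := (hloc (i + 1)).2 x3
          have s1 := lab_str_le (p i) (p (i + 1))
          have s2 := lab_str_le (p (i + 5)) (p (i + 4))
          by_contra hcon
          push Not at hcon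
          rw [m2, m3] at hcon
          have g2 : str (p (i + 4)) (p (i + 3)) = 1 := by
            have := lab_str_le (p (i + 4)) (p (i + 3))
            have := lab_str_le (p (i + 1)) (p (i + 2))
            omega
          have g3 : str (p (i + 1)) (p (i + 2)) = 1 := by
            have := lab_str_le (p (i + 4)) (p (i + 3))
            have := lab_str_le (p (i + 1)) (p (i + 2))
            omega
          have t3 : ty (p (i + 3)) = 0 := by
            unfold str at g2
            have := lab_ty (p (i + 3))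
            by_contra hne
            rw [if_pos ⟨by tauto, x4⟩] at g2
            omega
          have t2 : ty (p (i + 2)) = 0 := by
            unfold str at g3
            have := lab_ty (p (i + 2))
            by_contra hne
            rw [if_pos ⟨by tauto, x1⟩] at g3
            omega
          apply d5 hn5
          unfold cX at hcon l2 l3
          rw [if_pos t2, if_pos t3] at hcon
          rw [if_pos t2] at l2
          rw [if_pos t3] at l3
          refine ⟨t2, t3, ?_, ?_⟩ <;> omega

end Pool.Agent.H44.Cac
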