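import Pool.Agent.H44.Cac.BSeq
import Pool.Agent.H44.Cac.Lab
import Pool.Agent.H44.Cac.AdmO

namespace Pool.Agent.H44.Cac

open Classical

variable {V : Type*}

/-! ### the cyclic sequence of vertices -/

section cyc

variable {G : SimpleGraph V} {R : Finset V} {n : ℕ} {c : ℕ → V}

theorem ifC_mod (h : CycAt G R n c) (i : ℕ) : c (i % n) = c i :=
  (show Function.Periodic c n from h.per).map_mod_nat i

theorem ifC_congr (h : CycAt G R n c) {i j : ℕ} (e : i % n = j % n) : c i = c j := by
  rw [← ifC_mod h i, ← ifC_mod h j, e]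

theorem ifC_inj (h : CycAt G R n c) {i j : ℕ} (e : c i = c j) : i % n = j % n := by
  have hn := h.hn
  rw [← ifC_mod h i, ← ifC_mod h j] at e
  exact h.inj _ (Nat.mod_lt _ (by omega)) _ (Nat.mod_lt _ (by omega)) e

theorem ifC_zero (h : CycAt G R n c) {i : ℕ} (e : i % n = 0) : c i = c 0 := by
  rw [← ifC_mod h i, e]

/-- the neighbours on the cycle -/
theorem ifC_nb (h : CycAt G R n c) (i : ℕ) {y : V} (hy : ∃ j, y = c j)
    (ha : G.Adj (c (i + 1)) y) : y = c i ∨ y = c (i + 2) := by
  have hn := h.hn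
  by_cases hr : (i + 1) % n = 0
  · have hv : c (i + 1) = c 0 := ifC_zero h hr
    obtain ⟨j, rfl⟩ := hy
    have hl : j % n < n := Nat.mod_lt _ (by omega)
    have hl0 : 0 < j % n := by
      rcases Nat.eq_zero_or_pos (j % n) with h0 | h0
      · exfalso
        rw [hv, ifC_zero h h0] at ha
        exact G.loopless.irrefl _ ha
      · exact h0
    have ha' : G.Adj (c (j % n)) (c 0) := by rw [ifC_mod h j, ← hv]; exact ha.symm
    rcases h.nb (j % n) hl0 hl (c 0) (Or.inl h.mem) ha' with e | e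
    · right
      have e1 := ifC_inj h e
      rw [Nat.zero_mod, Nat.mod_eq_of_lt (by omega)] at e1
      apply ifC_congr h
      have e2 : (i + 2) % n = 1 := by
        rw [show i + 2 = (i + 1) + 1 by ring, Nat.add_mod, hr, Nat.zero_add, Nat.mod_mod,
          Nat.mod_eq_of_lt (by omega)]
      omega
    · left
      have e1 := ifC_inj h e
      apply ifC_congr h
      rw [Nat.zero_mod] at e1
      have e3 : j % n + 1 = n := by
        by_contra hne
        rw [Nat.mod_eq_of_lt (by omega)] at e1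
        omega
      have e4 : i % n + 1 = n := by
        by_contra hne
        have hi : i % n < n := Nat.mod_lt _ (by omega)
        rw [Nat.add_mod, Nat.mod_eq_of_lt (show 1 < n by omega),
          Nat.mod_eq_of_lt (show i % n + 1 < n by omega)] at hr
        omega
      omega
  · have hr' : 0 < (i + 1) % n := Nat.pos_of_ne_zero hr
    have hlt : (i + 1) % n < n := Nat.mod_lt _ (by omega)
    have ha' : G.Adj (c ((i + 1) % n)) y := by rw [ifC_mod h]; exact ha
    have e0 : i % n + 1 = (i + 1) % n := by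
      have hi : i % n < n := Nat.mod_lt _ (by omega)
      rw [Nat.add_mod, Nat.mod_eq_of_lt (show 1 < n by omega)]
      rw [Nat.add_mod, Nat.mod_eq_of_lt (show 1 < n by omega)] at hr
      have : i % n + 1 < n := by
        by_contra hne
        rw [show i % n + 1 = n by omega, Nat.mod_self] at hr
        exact hr rfl
      rw [Nat.mod_eq_of_lt this]
    rcases h.nb _ hr' hlt y (Or.inr hy) ha' with e | e
    · left
      rw [e]
      apply ifC_congr h
      rw [← e0, Nat.add_sub_cancel, Nat.mod_mod]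
    · right
      rw [e]
      apply ifC_congr h
      rw [show i + 2 = (i + 1) + 1 by ring, Nat.mod_add_mod]

theorem ifC_memB (h : CycAt G R n c) {x : V} :
    x ∈ (Finset.range n).image c ↔ ∃ j, x = c j := by
  have hn := h.hn
  rw [Finset.mem_image]
  constructor
  · rintro ⟨j, -, e⟩; exact ⟨j, e.symm⟩
  · rintro ⟨j, rfl⟩
    exact ⟨j % n, Finset.mem_range.mpr (Nat.mod_lt _ (by omega)), ifC_mod h j⟩

theorem ifC_memA (h : CycAt G R n c) {j : ℕ} :
    c j ∈ (Finset.range n).image c \ {c 0} ↔ j % n ≠ 0 := by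
  rw [Finset.mem_sdiff, Finset.mem_singleton, ifC_memB h]
  constructor
  · rintro ⟨-, h2⟩ e
    exact h2 (ifC_zero h e)
  · intro h2
    refine ⟨⟨j, rfl⟩, fun e => h2 ?_⟩
    have := ifC_inj h e
    rwa [Nat.zero_mod] at this

theorem ifC_exA (h : CycAt G R n c) {x : V} (hx : x ∈ (Finset.range n).image c \ {c 0}) :
    ∃ i, x = c (i + 1) ∧ (i + 1) % n ≠ 0 := by
  have hx' := hx
  rw [Finset.mem_sdiff, ifC_memB h] at hx'
  obtain ⟨⟨j, rfl⟩, -⟩ := hx'
  have h2 := (ifC_memA h).mp hx
  obtain ⟨i, rfl⟩ : ∃ i, j = i + 1 := by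
    rcases Nat.eq_zero_or_pos j with rfl | hj
    · exact absurd (Nat.zero_mod n) h2
    · exact ⟨j - 1, by omega⟩
  exact ⟨i, rfl, h2⟩

theorem ifC_insert (h : CycAt G R n c) :
    insert (c 0) ((Finset.range n).image c \ {c 0}) = (Finset.range n).image c := by
  ext x
  simp only [Finset.mem_insert, Finset.mem_sdiff, Finset.mem_singleton]
  constructor
  · rintro (rfl | hx)
    · exact (ifC_memB h).mpr ⟨0, rfl⟩
    · exact hx.1
  · intro hx
    by_cases e : x = c 0
    · exact Or.inl e
    · exact Or.inr ⟨hx, e⟩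

/-- neighbours in a set of vertices of the cycle -/
theorem ifC_nbk (h : CycAt G R n c) {K : Finset V} (hK : ∀ x ∈ K, ∃ j, x = c j) (i : ℕ) :
    (∃ x ∈ K, G.Adj (c (i + 1)) x) ↔ (c i ∈ K ∨ c (i + 2) ∈ K) := by
  constructor
  · rintro ⟨x, hx, ha⟩
    rcases ifC_nb h i (hK x hx) ha with rfl | rfl
    · exact Or.inl hx
    · exact Or.inr hx
  · rintro (hx | hx)
    · exact ⟨_, hx, (h.adj i).symm⟩
    · exact ⟨_, hx, h.adj (i + 1)⟩

end cyc

/-! ### the test sequence -/

/-- the sequence of profiles along the cycle, with the test letter `T` at the root -/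
noncomputable def ifCp (f : V → Pf) (n : ℕ) (c : ℕ → V) (T : Pf) : ℕ → Pf :=
  fun i => if i % n = 0 then T else f (c i)

section test

variable {G : SimpleGraph V} {R : Finset V} {f : V → Pf} {n : ℕ} {c : ℕ → V}

theorem ifCp_zero {T : Pf} {i : ℕ} (h : i % n = 0) : ifCp f n c T i = T := if_pos h
theorem ifCp_pos {T : Pf} {i : ℕ} (h : i % n ≠ 0) : ifCp f n c T i = f (c i) := if_neg h

theorem ifCp_per (h : CycAt G R n c) (T : Pf) (i : ℕ) :
    ifCp f n c T (i + n) = ifCp f n c T i := by
  unfold ifCp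
  rw [Nat.add_mod_right, h.per]

theorem ifCp_win (h : CycAt G R n c) (T : Pf) :
    win (ifCp f n c T) 0 n = T :: win (fun i => f (c i)) 1 (n - 1) := by
  have hn := h.hn
  obtain ⟨k, rfl⟩ : ∃ k, n = k + 1 := ⟨n - 1, by omega⟩
  rw [win_succ, Nat.add_sub_cancel, Nat.zero_add, ifCp_zero (Nat.zero_mod _)]
  congr 1
  unfold win
  apply List.map_congr_left
  intro j hj
  have hj' := List.mem_range.mp hj
  apply ifCp_pos
  rw [Nat.mod_eq_of_lt (by omega)]
  omega

end test

/-- a dead letter gives a dead profile -/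
theorem ifC_dead {gs : List Pf} {g : Pf} (hg : g ∈ gs) (hd : g 0 + 3 ≤ g 2) {α : Pf}
    (hα : IsOut gs α) : α 0 + 3 ≤ α 2 := by
  obtain ⟨xs, ys, rfl⟩ := List.append_of_mem hg
  obtain ⟨j, hj, i, P, hP, hc⟩ := hα.2.1 0
  have hj0 : j = 0 := by omega
  subst hj0
  have h0 : α 0 = clo (base (xs ++ g :: ys)) false := by
    rcases hc with ⟨hi, e⟩ | ⟨hi, e⟩
    · subst hi
      rw [fw_zero hP] at e
      exact e
    · omega
  let Q : ℤ → ℤ := fun l => base ys (glue (E false (base xs l)) (g 2))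
  have hQ : Fw (xs ++ g :: ys) 2 Q := by
    refine fw_append.mpr ⟨0, 2, base xs, fun l => base ys (glue (E false l) (g 2)), by omega,
      Fw.base xs, ?_, rfl⟩
    exact Fw.cons (i := 2) (j := 0) (Fop.keep 2) (Fw.base ys)
  have h2 : clo Q false ≤ α 2 := hα.1 2 _ ⟨2, Q, hQ, Or.inl ⟨rfl, rfl⟩⟩
  have hle : ∀ l, base (xs ++ g :: ys) l + 3 ≤ Q l := by
    intro l
    rw [base_append]
    have h3 : glue (E false (base xs l)) (g 0) + 3 ≤ glue (E false (base xs l)) (g 2) := by
      rw [glue_comm _ (g 0), glue_comm _ (g 2)]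
      have := glue_add (g 0) (E false (base xs l)) 1
      have h4 := glue_mono_left hd (E false (base xs l))
      rw [show g 0 + 3 = g 0 + 3 * 1 by ring, this] at h4
      linarith
    have h5 := (mp_base ys).mono h3
    rw [(mp_base ys).per] at h5
    exact h5
  have hclo : clo (base (xs ++ g :: ys)) false + 3 ≤ clo Q false := by
    have e1 : ∀ a b : ℤ, a + 3 ≤ b → E false a + 3 ≤ E false b := by
      intro a b hab
      have := E_mono false hab
      have h6 := E_add false a 1
      rw [show a + 3 * 1 = a + 3 by ring] at h6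
      linarith
    have e2 : ∀ k a b : ℤ, a + 3 ≤ b → glue k a + 3 ≤ glue k b := by
      intro k a b hab
      rw [glue_comm k a, glue_comm k b]
      have := glue_mono_left hab k
      have h6 := glue_add a k 1
      rw [show a + 3 * 1 = a + 3 by ring] at h6
      linarith
    unfold clo
    have a1 := e1 _ _ (hle 1)
    have a2 := e2 3 _ _ (e1 _ _ (hle 0))
    have a3 := e2 1 _ _ (e1 _ _ (hle 2))
    omega
  omega

/-! ### conditions at the root -/

/-- the vertex conditions at the root, for the test letter `T` -/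
structure ifCV (T : Pf) (kv sv nb : Prop) (mv qv : ℕ) : Prop where
  crit : kv → ty T = 2 ∧ T 2 ≤ T 0 + 2 ∧ sv ∧ qv ≤ 2 ∧ (1 ≤ qv → T 1 ≤ T 0 + 1) ∧
    (2 ≤ qv → T 1 ≤ T 0)
  own : ¬ kv → ty T = 0 → ¬ nb ∧ sv ∧ T 2 ≤ T 0 + 2 ∧ 3 ≤ cS T + mv
  strong : ¬ kv → ty T ≠ 0 → nb → sv ∧ (ty T = 1 → T 2 ≤ T 0 + 2 ∧ 3 ≤ cT T + mv) ∧
    (ty T = 2 → 3 ≤ mv)
  weak : ¬ kv → ty T ≠ 0 → ¬ nb → ¬ sv ∧ (ty T = 1 → T 2 ≤ T 0 + 1 ∧ 3 ≤ cN T + mv) ∧
    (ty T = 2 → 3 ≤ mv)

section sides

variable {G : SimpleGraph V} {R : Finset V} {f : V → Pf} {n : ℕ} {c : ℕ → V}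

theorem ifC_memK {K : Finset V} {kv : Prop} {v x : V} :
    x ∈ (if kv then insert v K else K) ↔ (x ∈ K ∨ (kv ∧ x = v)) := by
  by_cases hk : kv
  · rw [if_pos hk, Finset.mem_insert]
    tauto
  · rw [if_neg hk]
    tauto

theorem ifC_live (h : CycAt G R n c) (hf : ∀ w, Adm (f w)) {T : Pf} (hT : Live T)
    (hd : ∀ w ∈ (Finset.range n).image c \ {c 0}, f w 2 ≤ f w 0 + 2) (i : ℕ) :
    Live (ifCp f n c T i) := by
  by_cases hi : i % n = 0
  · rw [ifCp_zero hi]; exact hT
  · rw [ifCp_pos hi]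
    rcases (hf (c i)).2 with h1 | h1
    · have := hd (c i) ((ifC_memA h).mpr hi)
      omega
    · exact h1.toLive

/-- all the letters of the side of a block are not dead -/
theorem ifC_side_le {A : Finset V} {v : V} {kv sv : Prop} {K : Finset V} {m q : V → ℕ}
    (hS : BSide G f A v kv sv K m q) : ∀ w ∈ A, f w 2 ≤ f w 0 + 2 := by
  intro w hw
  by_cases hK : w ∈ K
  · exact (hS.crit w hK).2.1
  · have ht : ty (f w) = 0 ∨ ty (f w) = 1 ∨ ty (f w) = 2 := by unfold ty; omega
    by_cases h0 : ty (f w) = 0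
    · exact (hS.own w hw hK h0).2.1
    · by_cases hx : ∃ x, (x ∈ K ∨ (kv ∧ x = v)) ∧ G.Adj w x
      · obtain ⟨h1, h2⟩ := hS.strong w hw hK h0 hx
        rcases ht with ht | ht | ht
        · exact absurd ht h0
        · exact (h1 ht).1
        · have := (h2 ht).2.1; omega
      · have hx' : ∀ x, (x ∈ K ∨ (kv ∧ x = v)) → ¬ G.Adj w x := fun x h1 h2 => hx ⟨x, h1, h2⟩
        obtain ⟨h1, h2⟩ := hS.weak w hw hK h0 hx'
        rcases ht with ht | ht | ht
        · exact absurd ht h0
        · have := (h1 ht).1; omega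
        · have := (h2 ht).1; omega

/-- from the side of a block to the rule -/
theorem ifC_from (h : CycAt G R n c) (hf : ∀ w, Adm (f w)) {T : Pf} (hT : Live T)
    {kv sv : Prop} {K : Finset V} {m q : V → ℕ}
    (hS : BSide G f ((Finset.range n).image c \ {c 0}) (c 0) kv sv K m q)
    (hV : ifCV T kv sv (∃ x ∈ K, G.Adj (c 0) x) (m (c 0)) (q (c 0))) :
    Rule (ifCp f n c T) n := by
  have hn := h.hn
  have hvK : c 0 ∉ K := by
    intro hv
    have := (ifC_memA h).mp (hS.sub hv)
    exact this (Nat.zero_mod n)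
  have hK' : ∀ x ∈ (if kv then insert (c 0) K else K), ∃ j, x = c j := by
    intro x hx
    rcases ifC_memK.mp hx with hx | ⟨-, rfl⟩
    · exact (ifC_memB h).mp (Finset.mem_sdiff.mp (hS.sub hx)).1
    · exact ⟨0, rfl⟩
  have hblock := hS.block
  rw [ifC_insert h] at hblock
  have hL := (brule_iff h _ _ _ _).mp hblock
  refine rule_of_lab hn (ifCp_per h T) (ifC_live h hf hT (ifC_side_le hS)) ?_ ?_ ?_ ?_ ?_ hL
  · intro i; simp only [h.per]
  · intro i; simp only [h.per]
  · intro i; simp only [h.per]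
  · intro i; simp only [h.per]
  have hnbk := ifC_nbk h hK'
  have hroot : ∀ i, (i + 1) % n = 0 → ¬ kv →
      ((∃ x ∈ K, G.Adj (c 0) x) ↔ (c i ∈ (if kv then insert (c 0) K else K) ∨
        c (i + 2) ∈ (if kv then insert (c 0) K else K))) := by
    intro i hi hk
    rw [← hnbk i, ifC_zero h hi, if_neg hk]
  have hvK' : c 0 ∈ (if kv then insert (c 0) K else K) ↔ kv := by
    rw [ifC_memK]
    constructor
    · rintro (hx | hx)
      · exact absurd hx hvK
      · exact hx.1
    · intro hk; exact Or.inr ⟨hk, rfl⟩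
  have hcne : ∀ i, i % n ≠ 0 → c i ≠ c 0 := by
    intro i hi e
    have := ifC_inj h e
    rw [Nat.zero_mod] at this
    exact hi this
  have hcK : ∀ i, i % n ≠ 0 → (c i ∈ (if kv then insert (c 0) K else K) ↔ c i ∈ K) := by
    intro i hi
    rw [ifC_memK]
    constructor
    · rintro (hx | hx)
      · exact hx
      · exact absurd hx.2 (hcne i hi)
    · exact Or.inl
  have hS0 : ∀ i, i % n = 0 → (SB G f (c 0) sv (if kv then insert (c 0) K else K) (c i) ↔ sv) := by
    intro i hi
    rw [ifC_zero h hi]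
    unfold SB
    rw [if_pos rfl]
  have hS1 : ∀ i, i % n ≠ 0 → (SB G f (c 0) sv (if kv then insert (c 0) K else K) (c i) ↔
      (c i ∈ (if kv then insert (c 0) K else K) ∨
        (∃ x ∈ (if kv then insert (c 0) K else K), G.Adj (c i) x) ∨ ty (f (c i)) = 0)) := by
    intro i hi
    unfold SB
    rw [if_neg (hcne i hi)]
  constructor
  · intro i hk
    by_cases hi : i % n = 0
    · have hk' : kv := by
        have := hk
        simp only [ifC_zero h hi] at this
        exact hvK'.mp this
      have h1 := hV.crit hk'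
      rw [ifCp_zero hi]
      simp only [ifC_zero h hi]
      refine ⟨h1.1, h1.2.1, ?_, h1.2.2.2⟩
      unfold SB
      rw [if_pos rfl]
      exact h1.2.2.1
    · have hk' : c i ∈ K := (hcK i hi).mp hk
      have h1 := hS.crit _ hk'
      rw [ifCp_pos hi]
      exact ⟨h1.1, h1.2.1, (hS1 i hi).mpr (Or.inl hk), h1.2.2.1, h1.2.2.2.1, h1.2.2.2.2⟩
  · intro i hk ht
    by_cases hi : (i + 1) % n = 0
    · rw [ifCp_zero hi] at ht ⊢
      have hkv : ¬ kv := fun hkv => hk (by
        simp only [ifC_zero h hi]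
        exact hvK'.mpr hkv)
      obtain ⟨h1, h2, h3, h4⟩ := hV.own hkv ht
      rw [hroot i hi hkv, not_or] at h1
      refine ⟨h1.1, h1.2, (hS0 _ hi).mpr h2, h3, ?_⟩
      simp only [ifC_zero h hi]
      exact h4
    · rw [ifCp_pos hi] at ht ⊢
      have hw : c (i + 1) ∉ K := fun hw => hk ((hcK _ hi).mpr hw)
      obtain ⟨h1, h2, h3⟩ := hS.own _ ((ifC_memA h).mpr hi) hw ht
      have h4 : ¬ ∃ x ∈ (if kv then insert (c 0) K else K), G.Adj (c (i + 1)) x := by
        rintro ⟨x, hx, ha⟩
        exact h1 x (ifC_memK.mp hx) ha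
      rw [hnbk i, not_or] at h4
      exact ⟨h4.1, h4.2, (hS1 _ hi).mpr (Or.inr (Or.inr ht)), h2, h3⟩
  · intro i hk ht hx
    by_cases hi : (i + 1) % n = 0
    · rw [ifCp_zero hi] at ht ⊢
      have hkv : ¬ kv := fun hkv => hk (by
        simp only [ifC_zero h hi]
        exact hvK'.mpr hkv)
      have hnb := (hroot i hi hkv).mpr hx
      obtain ⟨h1, h2, h3⟩ := hV.strong hkv ht hnb
      refine ⟨(hS0 _ hi).mpr h1, ?_, ?_⟩
      · simp only [ifC_zero h hi]; exact h2
      · simp only [ifC_zero h hi]; exact h3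
    · rw [ifCp_pos hi] at ht ⊢
      have hw : c (i + 1) ∉ K := fun hw => hk ((hcK _ hi).mpr hw)
      have hx' := (hnbk i).mpr hx
      obtain ⟨x, hxK, ha⟩ := hx'
      obtain ⟨h1, h2⟩ := hS.strong _ ((ifC_memA h).mpr hi) hw ht ⟨x, ifC_memK.mp hxK, ha⟩
      exact ⟨(hS1 _ hi).mpr (Or.inr (Or.inl ⟨x, hxK, ha⟩)), h1, fun h3 => (h2 h3).2.2⟩
  · intro i hk ht hx1 hx2
    by_cases hi : (i + 1) % n = 0
    · rw [ifCp_zero hi] at ht ⊢
      have hkv : ¬ kv := fun hkv => hk (by
        simp only [ifC_zero h hi]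
        exact hvK'.mpr hkv)
      have hnb : ¬ ∃ x ∈ K, G.Adj (c 0) x := by
        rw [hroot i hi hkv]
        exact not_or.mpr ⟨hx1, hx2⟩
      obtain ⟨h1, h2, h3⟩ := hV.weak hkv ht hnb
      refine ⟨fun h4 => h1 ((hS0 _ hi).mp h4), ?_, ?_⟩
      · simp only [ifC_zero h hi]; exact h2
      · simp only [ifC_zero h hi]; exact h3
    · rw [ifCp_pos hi] at ht ⊢
      have hw : c (i + 1) ∉ K := fun hw => hk ((hcK _ hi).mpr hw)
      have hx' : ¬ ∃ x ∈ (if kv then insert (c 0) K else K), G.Adj (c (i + 1)) x := by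
        rw [hnbk i]
        exact not_or.mpr ⟨hx1, hx2⟩
      obtain ⟨h1, h2⟩ := hS.weak _ ((ifC_memA h).mpr hi) hw ht
        (fun x hx ha => hx' ⟨x, ifC_memK.mpr hx, ha⟩)
      refine ⟨?_, h1, fun h3 => (h2 h3).2⟩
      rw [hS1 _ hi]
      rintro (h3 | h3 | h3)
      · exact hk h3
      · exact hx' h3
      · exact ht h3

/-- from the rule to the side of a block -/
theorem ifC_to (h : CycAt G R n c) {T : Pf} {kv : Prop} (hkv : kv ↔ ty T = 2)
    (hl : ∀ i, Live (ifCp f n c T i)) (hR : Rule (ifCp f n c T) n) :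
    ∃ (sv : Prop) (K : Finset V) (m q : V → ℕ),
      BSide G f ((Finset.range n).image c \ {c 0}) (c 0) kv sv K m q ∧
      ifCV T kv sv (∃ x ∈ K, G.Adj (c 0) x) (m (c 0)) (q (c 0)) := by
  have hn := h.hn
  set p : ℕ → Pf := ifCp f n c T with hp
  have hper : ∀ i, p (i + n) = p i := ifCp_per h T
  have hpm : ∀ i j, i % n = j % n → p i = p j := by
    intro i j e
    have e1 := (show Function.Periodic p n from hper).map_mod_nat i
    have e2 := (show Function.Periodic p n from hper).map_mod_nat j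
    rw [← e1, ← e2, e]
  obtain ⟨hVC, hLR⟩ := lab_of_rule hn hper hl hR
  set A : Finset V := (Finset.range n).image c \ {c 0} with hA
  set K : Finset V := A.filter (fun x => ty (f x) = 2) with hK
  have hmper : ∀ i j, i % n = j % n → mT p n i = mT p n j := by
    intro i j e
    unfold mT
    rw [hpm i j e, hpm (i + 1) (j + 1) (by rw [Nat.add_mod, e, ← Nat.add_mod]),
      hpm (i + (n - 1)) (j + (n - 1)) (by rw [Nat.add_mod, e, ← Nat.add_mod])]
  have hsper : ∀ i j, i % n = j % n → (sT p n i ↔ sT p n j) := by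
    intro i j e
    unfold sT
    rw [hpm i j e, hpm (i + 1) (j + 1) (by rw [Nat.add_mod, e, ← Nat.add_mod]),
      hpm (i + (n - 1)) (j + (n - 1)) (by rw [Nat.add_mod, e, ← Nat.add_mod])]
  have hqper : ∀ i j, i % n = j % n → qT p i = qT p j := by
    intro i j e
    unfold qT
    rw [hpm i j e]
  let m : V → ℕ := fun x => if hx : ∃ j, x = c j then mT p n (Classical.choose hx) else 0
  let q : V → ℕ := fun x => if hx : ∃ j, x = c j then qT p (Classical.choose hx) else 0
  have hm : ∀ j, m (c j) = mT p n j := by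
    intro j
    have hx : ∃ j', c j = c j' := ⟨j, rfl⟩
    have e : m (c j) = mT p n (Classical.choose hx) := dif_pos hx
    rw [e]
    exact (hmper _ _ (ifC_inj h (Classical.choose_spec hx))).symm
  have hq : ∀ j, q (c j) = qT p j := by
    intro j
    have hx : ∃ j', c j = c j' := ⟨j, rfl⟩
    have e : q (c j) = qT p (Classical.choose hx) := dif_pos hx
    rw [e]
    exact (hqper _ _ (ifC_inj h (Classical.choose_spec hx))).symm
  have hv0 : c 0 ∉ A := fun hv => (ifC_memA h).mp hv (Nat.zero_mod n)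
  have hvK : c 0 ∉ K := fun hv => hv0 (Finset.mem_filter.mp hv).1
  have hcne : ∀ i, i % n ≠ 0 → c i ≠ c 0 := by
    intro i hi e
    have := ifC_inj h e
    rw [Nat.zero_mod] at this
    exact hi this
  set K' : Finset V := (if kv then insert (c 0) K else K) with hK'
  have hmemK' : ∀ x, x ∈ K' ↔ (x ∈ K ∨ (kv ∧ x = c 0)) := fun x => ifC_memK
  have hKon : ∀ x ∈ K', ∃ j, x = c j := by
    intro x hx
    rcases (hmemK' x).mp hx with hx | ⟨-, rfl⟩
    · exact (ifC_memB h).mp (Finset.mem_sdiff.mp (Finset.mem_filter.mp hx).1).1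
    · exact ⟨0, rfl⟩
  have hkk : ∀ i, c i ∈ K' ↔ ty (p i) = 2 := by
    intro i
    rw [hmemK']
    by_cases hi : i % n = 0
    · rw [ifC_zero h hi, hp, ifCp_zero hi, ← hkv]
      constructor
      · rintro (hx | hx)
        · exact absurd hx hvK
        · exact hx.1
      · intro hx; exact Or.inr ⟨hx, rfl⟩
    · rw [hp, ifCp_pos hi]
      constructor
      · rintro (hx | hx)
        · exact (Finset.mem_filter.mp hx).2
        · exact absurd hx.2 (hcne i hi)
      · intro hx
        exact Or.inl (Finset.mem_filter.mpr ⟨(ifC_memA h).mpr hi, hx⟩)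
  have hnbk := ifC_nbk h hKon
  have hpre : ∀ i, p (i + 1 + (n - 1)) = p i := by
    intro i
    rw [show i + 1 + (n - 1) = i + n by omega, hper]
  have hss : ∀ i, SB G f (c 0) (sT p n 0) K' (c i) ↔ sT p n i := by
    intro i
    by_cases hi : i % n = 0
    · rw [ifC_zero h hi]
      unfold SB
      rw [if_pos rfl]
      exact hsper 0 i (by rw [Nat.zero_mod, hi])
    · obtain ⟨j, rfl⟩ : ∃ j, i = j + 1 := by
        rcases Nat.eq_zero_or_pos i with rfl | hj
        · exact absurd (Nat.zero_mod n) hi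
        · exact ⟨i - 1, by omega⟩
      unfold SB
      rw [if_neg (hcne _ hi), hnbk j, hkk, hkk, hkk]
      unfold sT
      rw [hpre j]
      have ht : ty (p (j + 1)) = 0 ∨ ty (p (j + 1)) = 1 ∨ ty (p (j + 1)) = 2 := by
        unfold ty; omega
      have e : f (c (j + 1)) = p (j + 1) := by rw [hp, ifCp_pos hi]
      rw [e]
      constructor
      · rintro (h1 | (h1 | h1) | h1)
        · left; omega
        · exact Or.inr (Or.inr h1)
        · exact Or.inr (Or.inl h1)
        · left; omega
      · rintro (h1 | h1 | h1)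
        · rcases ht with ht | ht | ht
          · exact Or.inr (Or.inr ht)
          · exact absurd ht h1
          · exact Or.inl ht
        · exact Or.inr (Or.inl (Or.inr h1))
        · exact Or.inr (Or.inl (Or.inl h1))
  have hpf : ∀ i, i % n ≠ 0 → p i = f (c i) := fun i hi => by rw [hp, ifCp_pos hi]
  have hnotK : ∀ i, i % n ≠ 0 → c i ∉ K → ¬ ty (p i) = 2 := by
    intro i hi hx ht
    exact hx (Finset.mem_filter.mpr ⟨(ifC_memA h).mpr hi, by rw [← hpf i hi]; exact ht⟩)
  refine ⟨sT p n 0, K, m, q, ⟨?_, ?_, ?_, ?_, ?_, ?_, ?_⟩, ?_⟩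
  · exact Finset.filter_subset _ _
  · intro x hx
    obtain ⟨i, rfl, hi⟩ := ifC_exA h (Finset.mem_filter.mp hx).1
    have h1 := hVC.crit (i + 1) (by rw [hpf _ hi]; exact (Finset.mem_filter.mp hx).2)
    rw [hpf _ hi] at h1
    rw [hq]
    exact ⟨h1.1, h1.2.1, h1.2.2.2.1, h1.2.2.2.2.1, h1.2.2.2.2.2⟩
  · intro x hx hxK ht
    obtain ⟨i, rfl, hi⟩ := ifC_exA h hx
    have h1 := hVC.own i (hnotK _ hi hxK) (by rw [hpf _ hi]; exact ht)
    rw [hpf _ hi] at h1
    obtain ⟨h2, h3, -, h4, h5⟩ := h1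
    refine ⟨?_, h4, by rw [hm]; exact h5⟩
    intro y hy ha
    have h6 := (hnbk i).mp ⟨y, (hmemK' y).mpr hy, ha⟩
    rw [hkk, hkk] at h6
    rcases h6 with h6 | h6
    · exact h2 h6
    · exact h3 h6
  · intro x hx hxK ht hy
    obtain ⟨i, rfl, hi⟩ := ifC_exA h hx
    obtain ⟨y, hy, ha⟩ := hy
    have h6 := (hnbk i).mp ⟨y, (hmemK' y).mpr hy, ha⟩
    rw [hkk, hkk] at h6
    have h1 := hVC.strong i (hnotK _ hi hxK) (by rw [hpf _ hi]; exact ht) h6
    rw [hpf _ hi] at h1
    rw [hm]
    refine ⟨h1.2.1, fun h2 => ?_⟩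
    exact absurd h2 (by have := hnotK _ hi hxK; rwa [hpf _ hi] at this)
  · intro x hx hxK ht hy
    obtain ⟨i, rfl, hi⟩ := ifC_exA h hx
    have h6 : ¬ (c i ∈ K' ∨ c (i + 2) ∈ K') := by
      rw [← hnbk i]
      rintro ⟨y, hyK, ha⟩
      exact hy y ((hmemK' y).mp hyK) ha
    rw [hkk, hkk, not_or] at h6
    have h1 := hVC.weak i (hnotK _ hi hxK) (by rw [hpf _ hi]; exact ht) h6.1 h6.2
    rw [hpf _ hi] at h1
    rw [hm]
    refine ⟨h1.2.1, fun h2 => ?_⟩
    exact absurd h2 (by have := hnotK _ hi hxK; rwa [hpf _ hi] at this)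
  · intro hk
    have e : p 0 = T := by rw [hp, ifCp_zero (Nat.zero_mod n)]
    have h1 := hVC.crit 0 (by rw [e]; exact hkv.mp hk)
    rw [hq]
    exact h1.2.2.2.1
  · rw [hA, ifC_insert h]
    rw [brule_iff h]
    have e1 : (fun i => c i ∈ K') = (fun i => ty (p i) = 2) := by
      funext i; exact propext (hkk i)
    have e2 : (fun i => SB G f (c 0) (sT p n 0) K' (c i)) = sT p n := by
      funext i; exact propext (hss i)
    have e3 : (fun i => m (c i)) = mT p n := funext hm
    have e4 : (fun i => q (c i)) = qT p := funext hq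
    have hgoal : LRule n (fun i => c i ∈ K') (fun i => SB G f (c 0) (sT p n 0) K' (c i))
        (fun i => m (c i)) (fun i => q (c i)) := by
      rw [e1, e2, e3, e4]
      exact hLR
    exact hgoal
  · have hn1 : (n - 1 + 1) % n = 0 := by rw [show n - 1 + 1 = n by omega, Nat.mod_self]
    have hpT : p (n - 1 + 1) = T := by rw [hp, ifCp_zero hn1]
    have hmm : mT p n (n - 1 + 1) = m (c 0) := by
      rw [hm]; exact hmper _ _ (by rw [hn1, Nat.zero_mod])
    have hs' : sT p n (n - 1 + 1) ↔ sT p n 0 := hsper _ _ (by rw [hn1, Nat.zero_mod])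
    have hnbr : ¬ kv → ((∃ x ∈ K, G.Adj (c 0) x) ↔
        (ty (p (n - 1)) = 2 ∨ ty (p (n - 1 + 2)) = 2)) := by
      intro hk
      have h7 := hnbk (n - 1)
      rw [hkk, hkk, ifC_zero h hn1, hK', if_neg hk] at h7
      exact h7
    constructor
    · intro hk
      have e : p 0 = T := by rw [hp, ifCp_zero (Nat.zero_mod n)]
      have h1 := hVC.crit 0 (by rw [e]; exact hkv.mp hk)
      rw [e] at h1
      rw [hq]
      exact ⟨h1.1, h1.2.1, h1.2.2.1, h1.2.2.2.1, h1.2.2.2.2⟩
    · intro hk ht
      have h1 := hVC.own (n - 1) (by rw [hpT, ← hkv]; exact hk) (by rw [hpT]; exact ht)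
      rw [hpT, hmm, hs'] at h1
      rw [hnbr hk, not_or]
      exact ⟨⟨h1.1, h1.2.1⟩, h1.2.2.1, h1.2.2.2.1, h1.2.2.2.2⟩
    · intro hk ht hnb
      have h1 := hVC.strong (n - 1) (by rw [hpT, ← hkv]; exact hk) (by rw [hpT]; exact ht)
        ((hnbr hk).mp hnb)
      rw [hpT, hmm, hs'] at h1
      exact h1
    · intro hk ht hnb
      rw [hnbr hk, not_or] at hnb
      have h1 := hVC.weak (n - 1) (by rw [hpT, ← hkv]; exact hk) (by rw [hpT]; exact ht) hnb.1 hnb.2
      rw [hpT, hmm, hs'] at h1
      exact h1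

end sides

/-! ### the test letters -/

theorem ifC_tst_mono {t a b : ℤ} (h0 : 0 ≤ a) (h1 : a ≤ b) : Monotone (tst t a b) := by
  apply monotone_nat_of_le_succ
  intro k
  rcases k with _ | _ | k
  · simp [tst]; exact h0
  · simp [tst]; exact h1
  · simp [tst]

theorem ifC_tst_live {t a b : ℤ} (h0 : 0 ≤ a) (h1 : a ≤ b) (h2 : b ≤ 2)
    (h3 : t % 3 = 1 → a ≤ 1) : Live (tst t a b) := by
  constructor
  · simp [tst]; exact h0
  · simp [tst]; exact h1
  · simp [tst]; exact h2
  · intro h; simp [tst, ty] at h ⊢; exact h3 h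

section final

variable {G : SimpleGraph V} {R : Finset V} {f : V → Pf} {n : ℕ} {c : ℕ → V}

theorem ifC_gg (h : CycAt G R n c) (hf : ∀ w, Adm (f w)) {α : Pf}
    (hα : IsOut (win (fun i => f (c i)) 1 (n - 1)) α) {t a b : ℤ} (h0 : 0 ≤ a) (h1 : a ≤ b)
    (h2 : b ≤ 2) (h3 : t % 3 = 1 → a ≤ 1)
    (hd : ∀ w ∈ (Finset.range n).image c \ {c 0}, f w 2 ≤ f w 0 + 2) :
    Rule (ifCp f n c (tst t a b)) n ↔ gg t a b α := by
  have hn := h.hn
  have hlive := ifC_live h hf (ifC_tst_live h0 h1 h2 h3) hd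
  rw [← good_rule hn (ifCp_per h _) hlive, ifCp_win h]
  unfold gg
  refine good_iff_gl _ _ ?_ hα
  intro g hg
  rcases List.mem_cons.mp hg with rfl | hg
  · exact ifC_tst_mono h0 h1
  · obtain ⟨j, -, rfl⟩ := mem_win.mp hg
    exact (hf _).1

theorem ifC_alive {α : Pf}
    (hα : IsOut (win (fun i => f (c i)) 1 (n - 1)) α) (hα2 : α 2 ≤ α 0 + 2) :
    ∀ w ∈ (Finset.range n).image c \ {c 0}, f w 2 ≤ f w 0 + 2 := by
  intro w hw
  obtain ⟨⟨j, hj, rfl⟩, hne⟩ : (∃ j, j < n ∧ c j = w) ∧ w ≠ c 0 := by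
    simp only [Finset.mem_sdiff, Finset.mem_image, Finset.mem_range, Finset.mem_singleton] at hw
    exact hw
  by_contra hcon
  have hj0 : 0 < j := by
    rcases Nat.eq_zero_or_pos j with rfl | h1
    · exact absurd rfl hne
    · exact h1
  have hdead : f (c j) 0 + 3 ≤ f (c j) 2 := by omega
  have := ifC_dead (gs := win (fun i => f (c i)) 1 (n - 1)) (g := f (c j))
    (mem_win.mpr ⟨j - 1, by omega, by rw [show 1 + (j - 1) = j by omega]⟩) hdead hα
  omega

/-- strength of the root relaxes the side -/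
theorem ifC_relax {A : Finset V} {v : V} {K : Finset V} {m q : V → ℕ}
    (hS : BSide G f A v False False K m q) : BSide G f A v False True K m q := by
  obtain ⟨h1, h2, h3, h4, h5, h6, h7⟩ := hS
  refine ⟨h1, h2, h3, h4, h5, h6, ?_⟩
  obtain ⟨b1, b2, b3, b4⟩ := h7
  refine ⟨?_, b2, b3, b4⟩
  intro w hw hwK
  refine (b1 w hw hwK).trans (Finset.card_le_card ?_)
  intro u hu
  rw [Finset.mem_filter] at hu ⊢
  refine ⟨hu.1, hu.2.1, ?_⟩
  have := hu.2.2
  unfold SB at this ⊢
  by_cases e : u = v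
  · rw [if_pos e]; trivial
  · rw [if_neg e] at this ⊢; exact this

/-- raising a label zero at a root with a critical neighbour -/
theorem ifC_raise {A : Finset V} {v : V} (hvA : v ∉ A) {K : Finset V} {m q : V → ℕ}
    (hS : BSide G f A v False True K m q) (hnb : ∃ x ∈ K, G.Adj v x) :
    ∃ m' : V → ℕ, BSide G f A v False True K m' q ∧ 1 ≤ m' v := by
  by_cases hm : 1 ≤ m v
  · exact ⟨m, hS, hm⟩
  refine ⟨Function.update m v 1, ?_, by rw [Function.update_self]⟩
  have hne : ∀ w ∈ A, Function.update m v 1 w = m w := by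
    intro w hw
    exact Function.update_of_ne (by rintro rfl; exact hvA hw) _ _
  obtain ⟨h1, h2, h3, h4, h5, h6, h7⟩ := hS
  refine ⟨h1, h2, ?_, ?_, ?_, h6, ?_⟩
  · intro w hw; rw [hne w hw]; exact h3 w hw
  · intro w hw; rw [hne w hw]; exact h4 w hw
  · intro w hw; rw [hne w hw]; exact h5 w hw
  obtain ⟨b1, b2, b3, b4⟩ := h7
  rw [if_neg not_false] at b1 b2 b3 b4 ⊢
  obtain ⟨x, hxK, hvx⟩ := hnb
  have hle : ∀ w k, m w ≤ k → 1 ≤ k → Function.update m v 1 w ≤ k := by
    intro w k h8 h9
    by_cases e : w = v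
    · subst e; rw [Function.update_self]; exact h9
    · rw [Function.update_of_ne e]; exact h8
  refine ⟨?_, b2, b3, ?_⟩
  · intro w hw hwK
    by_cases e : w = v
    · subst e
      show Function.update m w 1 w ≤ _
      rw [Function.update_self]
      apply Finset.card_pos.mpr
      refine ⟨x, Finset.mem_filter.mpr ⟨Finset.mem_insert_of_mem (h1 hxK), hvx, ?_⟩⟩
      unfold SB
      rw [if_neg (by rintro rfl; exact hvA (h1 hxK))]
      exact Or.inl hxK
    · show Function.update m v 1 w ≤ _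
      rw [Function.update_of_ne e]
      exact b1 w hw hwK
  · intro hc1 hc2 hc3
    rcases b4 hc1 hc2 hc3 with b5 | b5
    · exact Or.inl b5
    · right
      refine ⟨b5.1, b5.2.1, ?_⟩
      intro y hy
      obtain ⟨b6, b7, b8⟩ := b5.2.2 y hy
      refine ⟨?_, ?_, ?_⟩
      · intro hc
        rcases b6 hc with b9 | b9
        · exact Or.inl b9
        · exact Or.inr fun w hw hwy => hle w 1 (b9 w hw hwy) le_rfl
      · intro hc
        rcases b7 hc with b9 | b9
        · exact Or.inl b9
        · exact Or.inr fun w hw hwy ha => hle w 1 (b9 w hw hwy ha) le_rfl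
      · intro hc
        refine le_trans (le_of_eq ?_) (b8 hc)
        apply Finset.sum_congr rfl
        intro u hu
        show Function.update m v 1 u = m u
        apply Function.update_of_ne
        rintro rfl
        have hxy : x = y := by
          have : x ∈ insert u A ∩ K :=
            Finset.mem_inter.mpr ⟨Finset.mem_insert_of_mem (h1 hxK), hxK⟩
          rw [hy] at this
          exact Finset.mem_singleton.mp this
        subst hxy
        exact (Finset.mem_filter.mp hu).2.2 hvx.symm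

end final

theorem iface_cycle {G : SimpleGraph V} {R : Finset V} {f : V → Pf} {n : ℕ} {c : ℕ → V}
    (h : CycAt G R n c) (hf : ∀ w, Adm (f w)) {α : Pf}
    (hα : IsOut (win (fun i => f (c i)) 1 (n - 1)) α) :
    Iface G f ((Finset.range n).image c \ {c 0}) (c 0) α := by
  have hmono : Monotone α := hα.2.2
  have hvA : c 0 ∉ (Finset.range n).image c \ {c 0} :=
    fun hv => (ifC_memA h).mp hv (Nat.zero_mod n)
  have fwd : ∀ (t a b : ℤ), 0 ≤ a → a ≤ b → b ≤ 2 → (t % 3 = 1 → a ≤ 1) →
      ∀ (kv sv : Prop) (K : Finset V) (m q : V → ℕ),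
      BSide G f ((Finset.range n).image c \ {c 0}) (c 0) kv sv K m q →
      ifCV (tst t a b) kv sv (∃ x ∈ K, G.Adj (c 0) x) (m (c 0)) (q (c 0)) → gg t a b α := by
    intro t a b h0 h1 h2 h3 kv sv K m q hS hV
    have hd := ifC_side_le hS
    exact (ifC_gg h hf hα h0 h1 h2 h3 hd).mp (ifC_from h hf (ifC_tst_live h0 h1 h2 h3) hS hV)
  have bwd : ∀ (t a b : ℤ), 0 ≤ a → a ≤ b → b ≤ 2 → (t % 3 = 1 → a ≤ 1) → ∀ (kv : Prop),
      (kv ↔ t % 3 = 2) → α 2 ≤ α 0 + 2 → gg t a b α →
      ∃ (sv : Prop) (K : Finset V) (m q : V → ℕ),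
        BSide G f ((Finset.range n).image c \ {c 0}) (c 0) kv sv K m q ∧
        ifCV (tst t a b) kv sv (∃ x ∈ K, G.Adj (c 0) x) (m (c 0)) (q (c 0)) := by
    intro t a b h0 h1 h2 h3 kv hkv hα2 hg
    have hd := ifC_alive hα hα2
    refine ifC_to h ?_ (ifC_live h hf (ifC_tst_live h0 h1 h2 h3) hd)
      ((ifC_gg h hf hα h0 h1 h2 h3 hd).mpr hg)
    rw [hkv]
    simp [ty, tst]
  -- critical root
  have hK : ∀ q0 ≤ 2, (∃ K m q, BSide G f ((Finset.range n).image c \ {c 0}) (c 0) True True K m q ∧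
      q (c 0) ≤ q0) ↔ gg 2 (2 - (q0 : ℤ)) 2 α ∧ α 2 ≤ α 0 + 2 := by
    intro q0 hq0
    constructor
    · rintro ⟨K, m, q, hS, hq⟩
      have hg := fwd 2 (2 - (q0 : ℤ)) 2 (by omega) (by omega) (by omega) (by norm_num) True True K
        m q hS ⟨?_, fun hk => absurd trivial hk, fun hk => absurd trivial hk,
          fun hk => absurd trivial hk⟩
      · refine ⟨hg, ?_⟩
        interval_cases q0
        · exact ((if_K0 hmono).mp (by simpa using hg)).2.2
        · exact ((if_K1 hmono).mp (by simpa using hg)).2.2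
        · exact ((if_K2 hmono).mp (by simpa using hg)).2.2
      · intro _
        refine ⟨by simp [ty, tst], by simp [tst], trivial, hS.qv trivial, ?_, ?_⟩
        · intro h1; simp only [tst]; simp; omega
        · intro h1; simp only [tst]; simp; omega
    · rintro ⟨hg, hα2⟩
      obtain ⟨sv, K, m, q, hS, hV⟩ := bwd 2 (2 - (q0 : ℤ)) 2 (by omega) (by omega) (by omega)
        (by norm_num) True (by norm_num) hα2 hg
      obtain ⟨-, -, hsv, h1, h2, h3⟩ := hV.crit trivial
      have esv : sv = True := eq_true hsv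
      subst esv
      refine ⟨K, m, q, hS, ?_⟩
      simp only [tst] at h2 h3
      simp at h2 h3
      by_contra hcon
      rcases Nat.lt_or_ge (q (c 0)) 2 with h4 | h4
      · have := h2 (by omega); omega
      · have := h3 h4; omega
  -- critical neighbour of the root
  have hO : ∀ k ≤ 2, (∃ K m q, BSide G f ((Finset.range n).image c \ {c 0}) (c 0) False True K m q ∧
      (∃ x ∈ K, G.Adj (c 0) x) ∧ k ≤ m (c 0)) ↔ okO k α := by
    intro k hk
    by_cases hk1 : k ≤ 1
    · constructor
      · rintro ⟨K, m, q, hS, hnb, -⟩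
        obtain ⟨m', hS', hm'⟩ := ifC_raise hvA hS hnb
        have hg := fwd 1 0 2 (by omega) (by omega) (by omega) (by norm_num) False True K m' q hS'
          ⟨fun hh => hh.elim, ?_, ?_, fun _ _ hh => absurd hnb hh⟩
        · obtain ⟨h1, h2⟩ := (if_O1 hmono).mp hg
          refine ⟨h1, h2, hk1.trans ?_⟩
          unfold cS; split_ifs <;> omega
        · intro _ ht; simp [ty, tst] at ht
        · intro _ _ _
          refine ⟨trivial, ?_, ?_⟩
          · intro _
            refine ⟨by simp [tst], ?_⟩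
            have e : cT (tst 1 0 2) = 2 := by simp [cT, tst]
            omega
          · intro ht; simp [ty, tst] at ht
      · rintro ⟨h1, h2, h3⟩
        obtain ⟨sv, K, m, q, hS, hV⟩ := bwd 1 0 2 (by omega) (by omega) (by omega) (by norm_num)
          False (by norm_num) h2 ((if_O1 hmono).mpr ⟨h1, h2⟩)
        have ht : ty (tst 1 0 2) = 1 := by simp [ty, tst]
        by_cases hnb : ∃ x ∈ K, G.Adj (c 0) x
        · obtain ⟨hsv, h4, -⟩ := hV.strong not_false (by rw [ht]; norm_num) hnb
          have esv : sv = True := eq_true hsv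
          subst esv
          refine ⟨K, m, q, hS, hnb, ?_⟩
          have e : cT (tst 1 0 2) = 2 := by simp [cT, tst]
          have := (h4 ht).2
          omega
        · obtain ⟨-, h4, -⟩ := hV.weak not_false (by rw [ht]; norm_num) hnb
          have := (h4 ht).1
          simp [tst] at this
    · have hk2 : k = 2 := by omega
      subst hk2
      constructor
      · rintro ⟨K, m, q, hS, hnb, hm⟩
        have hg := fwd 1 1 2 (by omega) (by omega) (by omega) (by norm_num) False True K m q hS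
          ⟨fun hh => hh.elim, ?_, ?_, fun _ _ hh => absurd hnb hh⟩
        · obtain ⟨h1, h2, h3⟩ := (if_O2 hmono).mp hg
          refine ⟨h1, h3, ?_⟩
          unfold cS; split_ifs <;> omega
        · intro _ ht; simp [ty, tst] at ht
        · intro _ _ _
          refine ⟨trivial, ?_, ?_⟩
          · intro _
            refine ⟨by simp [tst], ?_⟩
            have e : cT (tst 1 1 2) = 1 := by simp [cT, tst]
            omega
          · intro ht; simp [ty, tst] at ht
      · rintro ⟨h1, h2, h3⟩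
        have h5 : α 1 ≤ α 0 + 1 := by
          have h6 : α 1 ≤ α 2 := hmono (by norm_num)
          by_contra hcon
          unfold cS at h3
          rw [if_neg (by omega), if_neg hcon] at h3
          omega
        obtain ⟨sv, K, m, q, hS, hV⟩ := bwd 1 1 2 (by omega) (by omega) (by omega) (by norm_num)
          False (by norm_num) h2 ((if_O2 hmono).mpr ⟨h1, h5, h2⟩)
        have ht : ty (tst 1 1 2) = 1 := by simp [ty, tst]
        by_cases hnb : ∃ x ∈ K, G.Adj (c 0) x
        · obtain ⟨hsv, h4, -⟩ := hV.strong not_false (by rw [ht]; norm_num) hnb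
          have esv : sv = True := eq_true hsv
          subst esv
          refine ⟨K, m, q, hS, hnb, ?_⟩
          have e : cT (tst 1 1 2) = 1 := by simp [cT, tst]
          have := (h4 ht).2
          omega
        · obtain ⟨-, h4, -⟩ := hV.weak not_false (by rw [ht]; norm_num) hnb
          have := (h4 ht).1
          simp [tst] at this
  -- strong root without critical neighbour
  have hSg : ∀ k ≤ 2, ∀ a b : ℤ, 0 ≤ a → a ≤ b → b ≤ 2 → cS (tst 0 a b) + k = 3 →
      ((∃ K m q, BSide G f ((Finset.range n).image c \ {c 0}) (c 0) False True K m q ∧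
      (∀ x ∈ K, ¬ G.Adj (c 0) x) ∧ k ≤ m (c 0)) ↔ gg 0 a b α ∧ α 2 ≤ α 0 + 2) := by
    intro k hk a b h0 h1 h2 hc
    have ht : ty (tst 0 a b) = 0 := by simp [ty, tst]
    constructor
    · rintro ⟨K, m, q, hS, hnb, hm⟩
      have hg := fwd 0 a b h0 h1 h2 (by norm_num) False True K m q hS
        ⟨fun hh => hh.elim, ?_, fun _ hh => absurd ht hh, fun _ hh => absurd ht hh⟩
      · refine ⟨hg, ?_⟩
        by_contra hcon
        have hdead : α 0 + 3 ≤ α 2 := by omega
        unfold gg at hg
        rw [gl_two, gl_zero] at hg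
        have e : (tst 0 a b) 0 = 0 := by simp [tst]
        rw [e] at hg
        have h5 : glue 0 (α 0) + 3 ≤ glue 0 (α 2) := by
          rw [glue_comm 0 (α 0), glue_comm 0 (α 2)]
          have := glue_mono_left hdead 0
          have h6 := glue_add (α 0) 0 1
          rw [show α 0 + 3 * 1 = α 0 + 3 by ring] at h6
          linarith
        have h7 := le_max_left (glue 0 (α 2)) (max (glue (tst 0 a b 1) (α 1))
          (glue (tst 0 a b 2) (α 0)))
        omega
      · intro _ _
        refine ⟨?_, trivial, by simp [tst]; exact h2, by omega⟩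
        rintro ⟨x, hx, ha⟩
        exact hnb x hx ha
    · rintro ⟨hg, hα2⟩
      obtain ⟨sv, K, m, q, hS, hV⟩ := bwd 0 a b h0 h1 h2 (by norm_num)
        False (by norm_num) hα2 hg
      obtain ⟨h3, h4, h5, h6⟩ := hV.own not_false ht
      have esv : sv = True := eq_true h4
      subst esv
      exact ⟨K, m, q, hS, fun x hx ha => h3 ⟨x, hx, ha⟩, by omega⟩
  have hS2 : ∀ k ≤ 2, (∃ K m q, BSide G f ((Finset.range n).image c \ {c 0}) (c 0) False True K m q ∧
      (∀ x ∈ K, ¬ G.Adj (c 0) x) ∧ k ≤ m (c 0)) ↔ okS k α := by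
    intro k hk
    have hok : ∀ k, okS k α → α 2 ≤ α 0 + 2 := by
      intro k hh
      rcases hh with hh | hh
      · exact hh.2.2.1
      · have := hh.2.2.1; omega
    have key : ∀ a b : ℤ, 0 ≤ a → a ≤ b → b ≤ 2 → cS (tst 0 a b) + k = 3 →
        (gg 0 a b α ↔ okS k α) → ((∃ K m q, BSide G f ((Finset.range n).image c \ {c 0}) (c 0)
        False True K m q ∧ (∀ x ∈ K, ¬ G.Adj (c 0) x) ∧ k ≤ m (c 0)) ↔ okS k α) := by
      intro a b h0 h1 h2 hc hi
      rw [hSg k hk a b h0 h1 h2 hc, hi]
      exact ⟨fun hh => hh.1, fun hh => ⟨hh, hok k hh⟩⟩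
    interval_cases k
    · exact key 1 1 (by omega) (by omega) (by omega) (by simp [cS, tst]) (if_S0 hmono)
    · exact key 1 2 (by omega) (by omega) (by omega) (by simp [cS, tst]) (if_S1 hmono)
    · exact key 2 2 (by omega) (by omega) (by omega) (by simp [cS, tst]) (if_S2 hmono)
  -- weak root
  have hN : ∀ k ≤ 2, (∃ K m q, BSide G f ((Finset.range n).image c \ {c 0}) (c 0) False False K m q ∧
      (∀ x ∈ K, ¬ G.Adj (c 0) x) ∧ k ≤ m (c 0)) ↔ okN k α := by
    intro k hk
    have key : ∀ a b : ℤ, 0 ≤ a → a ≤ b → b ≤ 1 → cN (tst 1 a b) + k = 3 →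
        (gg 1 a b α → ty α = 0 ∨ okN k α) → (okN k α → gg 1 a b α) →
        ((∃ K m q, BSide G f ((Finset.range n).image c \ {c 0}) (c 0)
        False False K m q ∧ (∀ x ∈ K, ¬ G.Adj (c 0) x) ∧ k ≤ m (c 0)) ↔ okN k α) := by
      intro a b h0 h1 h2 hc hi1 hi2
      have ht : ty (tst 1 a b) = 1 := by simp [ty, tst]
      constructor
      · rintro ⟨K, m, q, hS, hnb, hm⟩
        have hnb' : ¬ ∃ x ∈ K, G.Adj (c 0) x := by
          rintro ⟨x, hx, ha⟩
          exact hnb x hx ha
        have hg := fwd 1 a b h0 h1 (by omega) (by omega) False False K m q hS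
          ⟨fun hh => hh.elim, fun _ hh => by rw [ht] at hh; norm_num at hh,
            fun _ _ hh => absurd hh hnb', ?_⟩
        · rcases hi1 hg with h3 | h3
          · exfalso
            have h4 := (hS2 0 (by norm_num)).mp ⟨K, m, q, ifC_relax hS, hnb, by omega⟩
            rcases h4 with h4 | h4
            · have := h4.1; omega
            · have := h4.1; omega
          · exact h3
        · intro _ _ _
          refine ⟨not_false, ?_, ?_⟩
          · intro _
            refine ⟨by simp [tst]; omega, by omega⟩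
          · intro hh; rw [ht] at hh; norm_num at hh
      · intro hok
        have hα2 : α 2 ≤ α 0 + 2 := by
          rcases hok with hh | hh
          · have := hh.2.1; omega
          · have := hh.2.1; omega
        have hty : ty α ≠ 0 := by
          rcases hok with hh | hh
          · rw [hh.1]; norm_num
          · rw [hh.1]; norm_num
        obtain ⟨sv, K, m, q, hS, hV⟩ := bwd 1 a b h0 h1 (by omega) (by omega)
          False (by norm_num) hα2 (hi2 hok)
        by_cases hnb : ∃ x ∈ K, G.Adj (c 0) x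
        · exfalso
          obtain ⟨hsv, -, -⟩ := hV.strong not_false (by rw [ht]; norm_num) hnb
          have esv : sv = True := eq_true hsv
          subst esv
          exact hty ((hO 0 (by norm_num)).mp ⟨K, m, q, hS, hnb, by omega⟩).1
        · obtain ⟨hsv, h4, -⟩ := hV.weak not_false (by rw [ht]; norm_num) hnb
          have esv : sv = False := eq_false hsv
          subst esv
          have h5 := (h4 ht).2
          exact ⟨K, m, q, hS, fun x hx ha => hnb ⟨x, hx, ha⟩, by omega⟩
    interval_cases k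
    · refine key 0 0 (by omega) (by omega) (by omega) (by simp [cN, tst]) ?_ ?_
      · intro hg
        rcases (if_N0 hmono).mp hg with hh | hh
        · exact Or.inl hh.1
        · exact Or.inr hh
      · intro hok; exact (if_N0 hmono).mpr (Or.inr hok)
    · refine key 0 1 (by omega) (by omega) (by omega) (by simp [cN, tst]) ?_ ?_
      · intro hg
        rcases (if_N1 hmono).mp hg with hh | hh
        · exact Or.inl hh.1
        · exact Or.inr hh
      · intro hok; exact (if_N1 hmono).mpr (Or.inr hok)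
    · refine key 1 1 (by omega) (by omega) (by omega) (by simp [cN, tst]) ?_ ?_
      · intro hg
        rcases (if_N2 hmono).mp hg with hh | hh
        · exact Or.inl hh.1
        · exact Or.inr hh
      · intro hok; exact (if_N2 hmono).mpr (Or.inr hok)
  refine ⟨?_, hO, hS2, hN, ?_⟩
  · intro q0 hq0
    rw [hK q0 hq0]
    interval_cases q0
    · have := if_K0 hmono
      constructor
      · rintro ⟨hg, -⟩; exact this.mp (by simpa using hg)
      · intro hok; exact ⟨by simpa using this.mpr hok, hok.2.2⟩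
    · have := if_K1 hmono
      constructor
      · rintro ⟨hg, -⟩; exact this.mp (by simpa using hg)
      · intro hok; exact ⟨by simpa using this.mpr hok, hok.2.2⟩
    · have := if_K2 hmono
      constructor
      · rintro ⟨hg, -⟩; exact this.mp (by simpa using hg)
      · intro hok; exact ⟨by simpa using this.mpr hok, hok.2.2⟩
  · refine isOut_iso ?_ hα
    intro g hg
    obtain ⟨j, -, rfl⟩ := mem_win.mp hg
    exact (hf _).1

end Pool.Agent.H44.Cac
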