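import Pool.Agent.H44.Cac.Attach
import Pool.Agent.H44.Cac.IfB
import Pool.Agent.H44.Cac.IfC
import Pool.Agent.H44.Cac.FailC

namespace Pool.Agent.H44.Cac

open Classical

variable {V : Type*}

theorem cert_bridge {G : SimpleGraph V} {R : Finset V} {𝓑 : Finset (Finset V)} {f : V → Pf}
    {u v : V} (hv : v ∈ R) (hu : u ∉ R) (ha : G.Adj u v) (hn : ∀ y ∈ R, G.Adj u y → y = v)
    (hE : ∀ x ∈ R, ∀ y ∈ R, G.Adj x y → ∃ B ∈ 𝓑, x ∈ B ∧ y ∈ B)
    (hf : ∀ w, Adm (f w)) (hB : ∀ B ∈ 𝓑, B ⊆ R) :
    HasCert G (insert u R) (insert {v, u} 𝓑) f ↔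
      HasCert G R 𝓑 (Function.update f v (gl (f v) (ex (f u)))) := by
  have h := cert_attach (G := G) (R := R) (𝓑 := 𝓑) (f := f) (v := v) (A := {u})
    (α := ex (f u)) hv ⟨u, by simp⟩ (by simpa using hu) (by simpa using hn) (hE v hv)
    ((Finset.card_filter_le _ _).trans (by simp)) hf (adm_ex (hf u)) hB (iface_bridge ha hf)
  have e : R ∪ {u} = insert u R := by ext x; simp [or_comm]
  rw [e] at h
  exact h

theorem cert_cycle {G : SimpleGraph V} {R : Finset V} {𝓑 : Finset (Finset V)} {f : V → Pf}
    {n : ℕ} {c : ℕ → V} (h : CycAt G R n c)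
    (hE : ∀ x ∈ R, ∀ y ∈ R, G.Adj x y → ∃ B ∈ 𝓑, x ∈ B ∧ y ∈ B)
    (hf : ∀ w, Adm (f w)) (hB : ∀ B ∈ 𝓑, B ⊆ R)
    {α : Pf} (hα : IsOut (win (fun i => f (c i)) 1 (n - 1)) α) :
    HasCert G (R ∪ (Finset.range n).image c) (insert ((Finset.range n).image c) 𝓑) f ↔
      HasCert G R 𝓑 (Function.update f (c 0) (gl (f (c 0)) α)) := by
  have hn := h.hn
  have hmod : ∀ j, ∃ i < n, c j = c i := by
    intro j
    induction j using Nat.strong_induction_on with
    | _ j ih =>
      by_cases hj : j < n
      · exact ⟨j, hj, rfl⟩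
      · obtain ⟨i, hi, e⟩ := ih (j - n) (by omega)
        refine ⟨i, hi, ?_⟩
        rw [← e, ← h.per (j - n)]
        congr 1; omega
  have hA : ∀ a ∈ (Finset.range n).image c \ {c 0}, ∃ i, 0 < i ∧ i < n ∧ a = c i := by
    intro a ha
    simp only [Finset.mem_sdiff, Finset.mem_image, Finset.mem_range, Finset.mem_singleton] at ha
    obtain ⟨⟨i, hi, rfl⟩, hne⟩ := ha
    refine ⟨i, ?_, hi, rfl⟩
    rcases Nat.eq_zero_or_pos i with rfl | hpos
    · exact absurd rfl hne
    · exact hpos
  have h1 := cert_attach (G := G) (R := R) (𝓑 := 𝓑) (f := f) (v := c 0)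
    (A := (Finset.range n).image c \ {c 0}) (α := α) h.mem
    ⟨c 1, by
      simp only [Finset.mem_sdiff, Finset.mem_image, Finset.mem_range, Finset.mem_singleton]
      refine ⟨⟨1, by omega, rfl⟩, fun e => ?_⟩
      have := h.inj 1 (by omega) 0 (by omega) e
      omega⟩
    (by
      intro a ha
      obtain ⟨i, hi0, hi, rfl⟩ := hA a ha
      exact h.notMem i hi0 hi)
    (by
      intro a ha y hy hadj
      obtain ⟨i, hi0, hi, rfl⟩ := hA a ha
      rcases h.nb i hi0 hi y (Or.inl hy) hadj with e | e
      · rcases Nat.eq_zero_or_pos (i - 1) with h0 | h0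
        · rw [e, h0]
        · exact absurd (e ▸ hy) (h.notMem (i - 1) h0 (by omega))
      · by_cases h0 : i + 1 < n
        · exact absurd (e ▸ hy) (h.notMem (i + 1) (by omega) h0)
        · have : i + 1 = 0 + n := by omega
          rw [e, this, h.per])
    (hE _ h.mem)
    (by
      have hsub : ((Finset.range n).image c \ {c 0}).filter (fun u => G.Adj (c 0) u) ⊆
          {c 1, c (n - 1)} := by
        intro a ha
        obtain ⟨ha1, ha2⟩ := Finset.mem_filter.1 ha
        obtain ⟨i, hi0, hi, rfl⟩ := hA a ha1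
        rcases h.nb i hi0 hi (c 0) (Or.inr ⟨0, rfl⟩) ha2.symm with e | e
        · have := h.inj 0 (by omega) (i - 1) (by omega) e
          have hi1 : i = 1 := by omega
          rw [hi1]; simp
        · by_cases h1 : i + 1 < n
          · have := h.inj 0 (by omega) (i + 1) h1 e
            omega
          · have hi1 : i = n - 1 := by omega
            rw [hi1]; simp
      exact (Finset.card_le_card hsub).trans Finset.card_le_two)
    hf (adm_out hn (fun i => by rw [h.per]) (fun i => hf (c i)) hα) hB (iface_cycle h hf hα)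
  have e1 : R ∪ ((Finset.range n).image c \ {c 0}) = R ∪ (Finset.range n).image c := by
    ext x
    simp only [Finset.mem_union, Finset.mem_sdiff, Finset.mem_singleton]
    constructor
    · rintro (hx | hx)
      · exact Or.inl hx
      · exact Or.inr hx.1
    · rintro (hx | hx)
      · exact Or.inl hx
      · by_cases hx0 : x = c 0
        · exact Or.inl (hx0 ▸ h.mem)
        · exact Or.inr ⟨hx, hx0⟩
  have e2 : insert (c 0) ((Finset.range n).image c \ {c 0}) = (Finset.range n).image c := by
    ext x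
    simp only [Finset.mem_insert, Finset.mem_sdiff, Finset.mem_singleton]
    constructor
    · rintro (hx | hx)
      · rw [hx]; exact Finset.mem_image.mpr ⟨0, by simp; omega, rfl⟩
      · exact hx.1
    · intro hx
      by_cases hx0 : x = c 0
      · exact Or.inl hx0
      · exact Or.inr ⟨hx, hx0⟩
  rw [e1, e2] at h1
  exact h1

theorem core_main {G : SimpleGraph V} {R : Finset V} {𝓑 : Finset (Finset V)}
    (h : Core G R 𝓑) : ∀ f : V → Pf, (∀ w, Adm (f w)) → (GoodW G R f 2 ↔ HasCert G R 𝓑 f) := by
  induction h with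
  | single r =>
    intro f hf
    rw [cert_single hf, goodW_single (fun w => (hf w).1)]
  | bridge h hv hu ha hn ih =>
    intro f hf
    rw [cert_bridge hv hu ha hn h.edge hf h.sub, goodW_bridge hv hu ha hn (fun w => (hf w).1)]
    apply ih
    intro w
    rename_i R 𝓑 v u
    by_cases hw : w = v
    · subst hw; simp only [Function.update_self]; exact adm_gl (hf _) (adm_ex (hf _))
    · simp only [Function.update_of_ne hw]; exact hf w
  | cycle h hc ih =>
    intro f hf
    rename_i R 𝓑 n c
    obtain ⟨α, hα⟩ := exists_isOut (win (fun i => f (c i)) 1 (n - 1)) (by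
      intro g hg
      simp only [win, List.mem_map] at hg
      obtain ⟨j, -, rfl⟩ := hg
      exact (hf _).1)
    rw [cert_cycle hc h.edge hf h.sub hα, goodW_cycle hc (fun w => (hf w).1) hα]
    apply ih
    intro w
    by_cases hw : w = c 0
    · subst hw; simp only [Function.update_self]
      exact adm_gl (hf _) (adm_out hc.hn (fun i => by rw [hc.per]) (fun i => hf (c i)) hα)
    · simp only [Function.update_of_ne hw]; exact hf w

end Pool.Agent.H44.Cac
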