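import Pool.Agent.H44.Cac.CertDefs

namespace Pool.Agent.H44.Cac

open Classical

variable {V : Type*}

theorem certE_ty (g : Pf) : ty g = 0 ∨ ty g = 1 ∨ ty g = 2 := by
  unfold ty; omega

theorem cert_single {G : SimpleGraph V} {v : V} {f : V → Pf} (hf : ∀ w, Adm (f w)) :
    HasCert G {v} ∅ f ↔ (f v 2 + 1) / 3 ≤ (f v 0 + 1) / 3 := by
  have hsm : ∀ (m : V → Finset V → ℕ) (w : V), sm ∅ m w = 0 := by
    intro m w; simp [sm]
  constructor
  · rintro ⟨K, m, q, h⟩
    by_cases hv : v ∈ K
    · have h1 := h.crit v hv
      have h2 := h1.1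
      have h3 := h1.2.1
      unfold ty at h2
      omega
    · have hK : ∀ x ∈ K, ¬ G.Adj v x := by
        intro x hx
        have := Finset.mem_singleton.1 (h.sub hx)
        exact absurd (this ▸ hx) hv
      rcases certE_ty (f v) with h0 | h0 | h0
      · have h1 := (h.own v (Finset.mem_singleton_self v) hv h0).2.2
        rw [hsm] at h1
        unfold cS at h1
        unfold ty at h0
        split_ifs at h1 <;> omega
      · have h1 := ((h.weak v (Finset.mem_singleton_self v) hv (by omega) hK).1 h0).2
        rw [hsm] at h1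
        unfold cN at h1
        unfold ty at h0
        split_ifs at h1 <;> omega
      · have h1 := ((h.weak v (Finset.mem_singleton_self v) hv (by omega) hK).2 h0).2
        rw [hsm] at h1
        omega
  · intro h
    rcases certE_ty (f v) with h0 | h0 | h0
    · have h2 : f v 2 ≤ f v 0 + 1 := by unfold ty at h0; omega
      refine ⟨∅, fun _ _ => 0, fun _ _ => 0, ?_⟩
      refine ⟨by simp, by simp, ?_, ?_, ?_, by simp⟩
      · intro w hw _ _
        rw [Finset.mem_singleton.1 hw]
        refine ⟨by simp, by omega, ?_⟩
        rw [hsm, cS, if_pos h2]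
      · intro w hw _ h3
        rw [Finset.mem_singleton.1 hw] at h3
        exact absurd h0 h3
      · intro w hw _ h3
        rw [Finset.mem_singleton.1 hw] at h3
        exact absurd h0 h3
    · have h2 : f v 2 ≤ f v 0 := by unfold ty at h0; omega
      refine ⟨∅, fun _ _ => 0, fun _ _ => 0, ?_⟩
      refine ⟨by simp, by simp, ?_, ?_, ?_, by simp⟩
      · intro w hw _ h3
        rw [Finset.mem_singleton.1 hw] at h3
        omega
      · intro w hw _ _ h3
        obtain ⟨x, hx, -⟩ := h3
        exact absurd hx (Finset.notMem_empty x)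
      · intro w hw _ _ _
        rw [Finset.mem_singleton.1 hw]
        refine ⟨fun _ => ⟨by omega, ?_⟩, fun h3 => by omega⟩
        rw [hsm, cN, if_pos h2]
    · have h2 : f v 2 ≤ f v 0 + 2 := by unfold ty at h0; omega
      refine ⟨{v}, fun _ _ => 0, fun _ _ => 0, ?_⟩
      refine ⟨by simp, ?_, ?_, ?_, ?_, by simp⟩
      · intro x hx
        rw [Finset.mem_singleton.1 hx]
        exact ⟨h0, h2, by simp, by simp, by simp, by simp⟩
      · intro w hw hw'
        exact absurd hw hw'
      · intro w hw hw'
        exact absurd hw hw'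
      · intro w hw hw'
        exact absurd hw hw'

theorem cert_dead {G : SimpleGraph V} {R : Finset V} {𝓑 : Finset (Finset V)} {f : V → Pf}
    {v : V} (hv : v ∈ R) (hd : f v 0 + 3 ≤ f v 2) : ¬ HasCert G R 𝓑 f := by
  rintro ⟨K, m, q, h⟩
  by_cases hK : v ∈ K
  · have := (h.crit v hK).2.1
    omega
  · rcases certE_ty (f v) with h0 | h0 | h0
    · have := (h.own v hv hK h0).2.1
      omega
    · by_cases hs : ∃ x ∈ K, G.Adj v x
      · have := ((h.strong v hv hK (by omega) hs).2.1 h0).1
        omega
      · push Not at hs
        have := ((h.weak v hv hK (by omega) hs).1 h0).1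
        omega
    · by_cases hs : ∃ x ∈ K, G.Adj v x
      · have := ((h.strong v hv hK (by omega) hs).2.2 h0).2.1
        omega
      · push Not at hs
        have := ((h.weak v hv hK (by omega) hs).2 h0).1
        omega

theorem Core.sub {G : SimpleGraph V} {R : Finset V} {𝓑 : Finset (Finset V)} (h : Core G R 𝓑) :
    ∀ B ∈ 𝓑, B ⊆ R := by
  induction h with
  | single r => intro B hB; exact absurd hB (Finset.notMem_empty B)
  | @bridge R 𝓑 v u h hv hu ha hn ih =>
    intro B hB
    rcases Finset.mem_insert.1 hB with rfl | hB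
    · intro x hx
      rcases Finset.mem_insert.1 hx with rfl | hx
      · exact Finset.mem_insert_of_mem hv
      · rw [Finset.mem_singleton.1 hx]
        exact Finset.mem_insert_self _ _
    · exact (ih B hB).trans (Finset.subset_insert _ _)
  | @cycle R 𝓑 n c h hc ih =>
    intro B hB
    rcases Finset.mem_insert.1 hB with rfl | hB
    · exact Finset.subset_union_right
    · exact (ih B hB).trans Finset.subset_union_left

end Pool.Agent.H44.Cac
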