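import Mathlib

/-!
# Cactus graphs, domination number, bondage number

Definitions used in the statement of the characterisation of the cactus graphs with bondage
number three.
-/

namespace Pool.Agent.H44.Cac

open Classical

variable {V : Type*}

/-- `S` is a dominating set of `G`. -/
def Dominates (G : SimpleGraph V) (S : Finset V) : Prop :=
  ∀ v, v ∈ S ∨ ∃ u ∈ S, G.Adj v u

/-- The domination number of `G`: the least size of a dominating set. -/
noncomputable def domNum (G : SimpleGraph V) : ℕ :=
  sInf {k | ∃ S : Finset V, Dominates G S ∧ S.card = k}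

/-- The bondage number of `G`: the least size of a set of edges of `G` whose deletion raises the
domination number. -/
noncomputable def bondage (G : SimpleGraph V) : ℕ :=
  sInf {k | ∃ F : Finset (Sym2 V), (F : Set (Sym2 V)) ⊆ G.edgeSet ∧ F.card = k ∧
    domNum G < domNum (G.deleteEdges (F : Set (Sym2 V)))}

/-- `B` induces a connected subgraph without a cut vertex of its own. -/
def Nonsep (G : SimpleGraph V) (B : Finset V) : Prop :=
  (G.induce (B : Set V)).Connected ∧
    ∀ x ∈ B, (B.erase x).Nonempty → (G.induce ((B.erase x : Finset V) : Set V)).Connected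

/-- `B` is (the vertex set of) a block of `G`: a maximal set inducing a connected subgraph without
a cut vertex of its own. -/
def IsBlock (G : SimpleGraph V) (B : Finset V) : Prop := Maximal (Nonsep G) B

/-- A cactus graph: connected, every block is a single edge or a cycle. -/
def IsCactus (G : SimpleGraph V) : Prop :=
  G.Connected ∧ ∀ B : Finset V, IsBlock G B →
    Nonempty (G.induce (B : Set V) ≃g SimpleGraph.completeGraph (Fin 2)) ∨
    ∃ n, 3 ≤ n ∧ Nonempty (G.induce (B : Set V) ≃g SimpleGraph.cycleGraph n)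

/-- the blocks of `G` -/
noncomputable def blocks [Fintype V] (G : SimpleGraph V) : Finset (Finset V) :=
  Finset.univ.filter (IsBlock G)

/-- `v` lies in `K` or has a neighbour in `K`. -/
def InN (G : SimpleGraph V) (K : Finset V) (v : V) : Prop := v ∈ K ∨ ∃ x ∈ K, G.Adj v x

/-- Alternating block: no two adjacent vertices outside `K`, every vertex of `K` has a neighbour
in the block outside `K`, the number of vertices of `K` is odd; the charge is at least 2 at a
vertex of `K` without neighbours in `K` on the block and the charges of two adjacent vertices of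
`K` sum up to at least 3. -/
def Alternating (G : SimpleGraph V) (K : Finset V) (q : V → Finset V → ℕ) (B : Finset V) : Prop :=
  (∀ u ∈ B, ∀ w ∈ B, G.Adj u w → u ∈ K ∨ w ∈ K) ∧
  (∀ x ∈ B ∩ K, ∃ w ∈ B, G.Adj x w ∧ w ∉ K) ∧
  (B ∩ K).card % 2 = 1 ∧
  (∀ x ∈ B ∩ K, (∀ y ∈ B ∩ K, ¬ G.Adj x y) → 2 ≤ q x B) ∧
  (∀ x ∈ B ∩ K, ∀ y ∈ B ∩ K, G.Adj x y → 3 ≤ q x B + q y B)

/-- Spread block: the vertices of `K` are pairwise non-adjacent on the block, every other vertex of
the block has a neighbour in the block outside `K`, and three small cases are restricted. -/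
def Spread (G : SimpleGraph V) (K : Finset V) (m q : V → Finset V → ℕ) (B : Finset V) : Prop :=
  (∀ x ∈ B ∩ K, ∀ y ∈ B ∩ K, ¬ G.Adj x y) ∧
  (∀ w ∈ B, w ∉ K → ∃ u ∈ B, G.Adj w u ∧ u ∉ K) ∧
  (∀ x, B ∩ K = {x} →
    (B.card = 3 → 1 ≤ q x B ∨ ∀ w ∈ B, w ≠ x → m w B ≤ 1) ∧
    (B.card = 4 → 2 ≤ q x B ∨ ∀ u ∈ B, u ≠ x → ¬ G.Adj x u → m u B ≤ 1) ∧
    (B.card = 5 → ∑ u ∈ B.filter (fun u => u ≠ x ∧ ¬ G.Adj x u), m u B ≤ 3))

/-- The certificate: a set `K` of vertices, a label `m w B` for every vertex `w` outside `K` and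
every block `B` containing it, and a charge `q x B` for every vertex `x` of `K` and every block
containing it. -/
structure Certificate [Fintype V] (G : SimpleGraph V) (K : Finset V) (m q : V → Finset V → ℕ) :
    Prop where
  /-- the labels at a vertex outside `K` sum up to at least three -/
  count : ∀ w, w ∉ K → 3 ≤ ∑ B ∈ (blocks G).filter (fun B => w ∈ B), m w B
  /-- the neighbours in `K` of a vertex outside `K` lie in one block with it -/
  oneBlock : ∀ w, w ∉ K → ∀ B ∈ blocks G, ∀ B' ∈ blocks G, w ∈ B → w ∈ B' →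
    (∃ x ∈ K, x ∈ B ∧ G.Adj w x) → (∃ x ∈ K, x ∈ B' ∧ G.Adj w x) → B = B'
  /-- charges are at most two, and a vertex of `K` with a charge two has no other charge -/
  charge : ∀ x ∈ K, ∀ B ∈ blocks G, x ∈ B → q x B ≤ 2 ∧
    (q x B = 2 → ∀ B' ∈ blocks G, x ∈ B' → B' ≠ B → q x B' = 0)
  /-- a label is at most the number of neighbours in the block that lie in `N[K]` -/
  bound : ∀ B ∈ blocks G, ∀ w ∈ B, w ∉ K →
    m w B ≤ (B.filter (fun u => G.Adj w u ∧ InN G K u)).card
  /-- no bridge joins two vertices of `K` -/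
  edge : ∀ B ∈ blocks G, B.card = 2 → ¬ B ⊆ K
  /-- cycles inside of `K` -/
  full : ∀ B ∈ blocks G, 3 ≤ B.card → B ⊆ K → B.card % 3 = 1 ∧ ∀ x ∈ B, 1 ≤ q x B
  /-- cycles meeting `K` and its complement -/
  mixed : ∀ B ∈ blocks G, 3 ≤ B.card → ¬ B ⊆ K → (B ∩ K).Nonempty →
    Alternating G K q B ∨ Spread G K m q B

end Pool.Agent.H44.Cac
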