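import Pool.Agent.H44.Cac.Gl
import Pool.Agent.H44.Cac.WD

namespace Pool.Agent.H44.Cac

open Classical

variable {V : Type*}

theorem gl_mono {f g : Pf} (hf : Monotone f) (hg : Monotone g) : Monotone (gl f g) := by
  intro k k' hk
  obtain ⟨i, j, hij, e⟩ := gl_attained f g k
  rw [e]
  exact (glue_mono le_rfl (hg (show j ≤ j + (k' - k) by omega))).trans
    (le_gl f g (by omega))

theorem ex_mono {g : Pf} (hg : Monotone g) : Monotone (ex g) := by
  apply monotone_nat_of_le_succ
  intro n
  cases n with
  | zero =>
    have h := hg (show 0 ≤ 1 by omega)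
    apply le_max_of_le_left
    change g 0 + 1 ≤ g 1 + 1
    omega
  | succ n =>
    apply max_le_max
    · have h := hg (show n + 1 ≤ n + 1 + 1 by omega)
      omega
    · exact E_mono true (hg (by omega))

theorem failB_kappa_le {R : Finset V} {κ : V → ℕ} {m k : ℕ} (h : m + ∑ v ∈ R, κ v ≤ k) {v : V}
    (hv : v ∈ R) : κ v ≤ k := by
  have := Finset.single_le_sum (f := κ) (fun _ _ => Nat.zero_le _) hv
  omega

theorem goodW_congr {G : SimpleGraph V} {R : Finset V} {f f' : V → Pf} {k : ℕ}
    (h : ∀ v ∈ R, ∀ i ≤ k, f v i = f' v i) : GoodW G R f k ↔ GoodW G R f' k := by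
  have key : ∀ {f f' : V → Pf}, (∀ v ∈ R, ∀ i ≤ k, f v i = f' v i) → GoodW G R f k →
      GoodW G R f' k := by
    intro f f' h hg n hn F κ hF
    have h1 : WD G R (fun v => f v 0) n :=
      (WD_congr (fun _ _ _ _ => Iff.rfl) fun v hv => (h v hv 0 (Nat.zero_le _)).symm).1 hn
    exact (WD_congr (fun _ _ _ _ => Iff.rfl)
      fun v hv => h v hv (κ v) (failB_kappa_le hF hv)).1 (hg n h1 F κ hF)
  exact ⟨key h, key fun v hv i hi => (h v hv i hi).symm⟩

theorem goodW_single {G : SimpleGraph V} {v : V} {f : V → Pf} (hf : ∀ w, Monotone (f w))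
    (k : ℕ) : GoodW G {v} f k ↔ (f v k + 1) / 3 ≤ (f v 0 + 1) / 3 := by
  constructor
  · intro h
    have h1 := h ((f v 0 + 1) / 3) (WD_single.2 le_rfl) ∅ (fun _ => k) (by simp)
    exact (WD_single (b := fun v => f v k)).1 h1
  · intro h n hn F κ hF
    rw [WD_single] at hn ⊢
    have h1 : f v (κ v) ≤ f v k :=
      hf v (failB_kappa_le hF (Finset.mem_singleton_self v))
    have h2 : (f v (κ v) + 1) / 3 ≤ (f v k + 1) / 3 := by omega
    exact h2.trans (h.trans hn)

/-- a dead profile destroys everything -/
theorem goodW_dead {G : SimpleGraph V} {R : Finset V} {f : V → Pf} {v : V} {k : ℕ} (hv : v ∈ R)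
    (hd : f v 0 + 3 ≤ f v k) : ¬ GoodW G R f k := by
  intro hg
  obtain ⟨m, hm⟩ := WD_bdd G R (fun v => f v 0)
  obtain ⟨n0, hn0⟩ := WD_exists G R (fun v => f v 0)
  obtain ⟨n, hn, hmin⟩ := Int.exists_least_of_bdd (P := fun n => WD G R (fun v => f v 0) n)
    ⟨m, hm⟩ ⟨n0, hn0⟩
  have h1 := hg n hn ∅ (fun w => if w = v then k else 0) (by
    rw [Finset.sum_ite_eq' R v (fun _ => k), if_pos hv]
    simp)
  have h2 : WD (G.deleteEdges ((∅ : Finset (Sym2 V)) : Set (Sym2 V))) R
      (Function.update (fun w => f w 0) v ((fun w => f w 0) v + 3)) n := by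
    apply WD_mono _ h1
    intro w _
    by_cases hw : w = v
    · subst hw
      simp only [Function.update_self, if_true]
      exact hd
    · simp [hw]
  have h3 := WD_raise hv h2
  have h4 : WD G R (fun w => f w 0) (n - 1) :=
    (WD_congr (fun a _ b _ => by simp) fun _ _ => rfl).1 h3
  have := hmin _ h4
  omega

theorem failB_leaf {H : SimpleGraph V} {R : Finset V} {b : V → ℤ} {n : ℤ} {u v : V} (hv : v ∈ R)
    (hu : u ∉ R) (hn : ∀ y ∈ R, H.Adj u y → y = v) (c : Bool) (hc : c = true ↔ ¬ H.Adj u v) :
    WD H (insert u R) b n ↔ WD H R (Function.update b v (glue (b v) (E c (b u)))) n := by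
  have h : (decide ¬ H.Adj u v) = c := by
    cases c
    · exact decide_eq_false fun h => by simpa using hc.2 h
    · exact decide_eq_true (hc.1 rfl)
  rw [WD_leaf hv hu hn, h]

theorem goodW_bridge {G : SimpleGraph V} {R : Finset V} {f : V → Pf} {u v : V} (hv : v ∈ R)
    (hu : u ∉ R) (ha : G.Adj u v) (hn : ∀ y ∈ R, G.Adj u y → y = v)
    (hf : ∀ w, Monotone (f w)) (k : ℕ) :
    GoodW G (insert u R) f k ↔ GoodW G R (Function.update f v (gl (f v) (ex (f u)))) k := by
  have huv : u ≠ v := fun h => hu (h ▸ hv)
  -- the undeleted graph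
  have hbase : ∀ n, WD G (insert u R) (fun w => f w 0) n ↔
      WD G R (fun w => (Function.update f v (gl (f v) (ex (f u)))) w 0) n := by
    intro n
    rw [failB_leaf (b := fun w => f w 0) hv hu hn false (by simp [ha])]
    apply WD_congr (fun _ _ _ _ => Iff.rfl)
    intro w _
    by_cases hw : w = v
    · subst hw
      rw [Function.update_self, Function.update_self, gl_zero]
      rfl
    · rw [Function.update_of_ne hw, Function.update_of_ne hw]
  -- adjacency inside `R` does not see the edge `uv`
  have hadj : ∀ F F' : Finset (Sym2 V), (∀ e, e ≠ s(u, v) → (e ∈ F ↔ e ∈ F')) →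
      ∀ a ∈ R, ∀ b ∈ R, ((G.deleteEdges (F : Set (Sym2 V))).Adj a b ↔
        (G.deleteEdges (F' : Set (Sym2 V))).Adj a b) := by
    intro F F' hF a ha' b hb'
    have hne : s(a, b) ≠ s(u, v) := by
      intro h
      have : u ∈ s(a, b) := by rw [h]; exact Sym2.mem_mk_left u v
      rcases Sym2.mem_iff.1 this with h | h
      · exact hu (h ▸ ha')
      · exact hu (h ▸ hb')
    rw [SimpleGraph.deleteEdges_adj, SimpleGraph.deleteEdges_adj, Finset.mem_coe, Finset.mem_coe,
      hF _ hne]
  have hnF : ∀ F : Finset (Sym2 V), ∀ y ∈ R, (G.deleteEdges (F : Set (Sym2 V))).Adj u y →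
      y = v := by
    intro F y hy h
    exact hn y hy (SimpleGraph.deleteEdges_adj.1 h).1
  constructor
  · intro hg n hn' F κ hF
    have h0 := (hbase n).2 hn'
    obtain ⟨i, m, him, e⟩ := gl_attained (f v) (ex (f u)) (κ v)
    obtain ⟨cut, m', hm', e'⟩ : ∃ (cut : Bool) (m' : ℕ), m' + (if cut then 1 else 0) = m ∧
        ex (f u) m = E cut (f u m') := by
      cases m with
      | zero => exact ⟨false, 0, rfl, rfl⟩
      | succ m =>
        rcases le_total (f u (m + 1) + 1) (E true (f u m)) with h | h
        · exact ⟨true, m, rfl, max_eq_right h⟩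
        · exact ⟨false, m + 1, rfl, (max_eq_left h).trans rfl⟩
    let F' : Finset (Sym2 V) := if cut then insert s(u, v) F else F.erase s(u, v)
    let κ' : V → ℕ := Function.update (Function.update κ v i) u m'
    have hF'mem : ∀ e, e ≠ s(u, v) → (e ∈ F' ↔ e ∈ F) := by
      intro e he
      cases cut
      · simp [F', he]
      · simp [F', he]
    have hF'uv : s(u, v) ∈ F' ↔ cut = true := by
      cases cut
      · simp [F']
      · simp [F']
    have hF'card : F'.card ≤ F.card + (if cut then 1 else 0) := by
      cases cut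
      · exact (Finset.card_le_card (Finset.erase_subset _ _)).trans (by simp)
      · exact (Finset.card_insert_le _ _).trans (by simp)
    have hsum : ∑ w ∈ insert u R, κ' w + κ v = m' + i + ∑ w ∈ R, κ w := by
      rw [Finset.sum_insert hu]
      have h1 : κ' u = m' := Function.update_self _ _ _
      have h2 : ∑ w ∈ R, κ' w = ∑ w ∈ R, Function.update κ v i w := by
        apply Finset.sum_congr rfl
        intro w hw
        exact Function.update_of_ne (fun h : w = u => hu (h ▸ hw)) _ _
      rw [h1, h2, Finset.sum_update_of_mem hv, ← Finset.add_sum_erase R κ hv,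
        Finset.sdiff_singleton_eq_erase]
      ring
    have h1 := hg n h0 F' κ' (by omega)
    rw [failB_leaf (b := fun w => f w (κ' w)) hv hu (hnF F') cut (by
      rw [SimpleGraph.deleteEdges_adj, Finset.mem_coe, hF'uv]
      cases cut <;> simp [ha])] at h1
    refine (WD_congr (hadj F' F fun e he => hF'mem e he) ?_).1 h1
    intro w hw
    by_cases hwv : w = v
    · subst hwv
      rw [Function.update_self, Function.update_self, e, e']
      have k1 : κ' w = i := by
        simp only [κ']
        rw [Function.update_of_ne (Ne.symm huv), Function.update_self]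
      have k2 : κ' u = m' := Function.update_self _ _ _
      rw [k1, k2]
    · have k1 : κ' w = κ w := by
        simp only [κ']
        rw [Function.update_of_ne (fun h : w = u => hu (h ▸ hw)), Function.update_of_ne hwv]
      rw [Function.update_of_ne hwv, Function.update_of_ne hwv, k1]
  · intro hg n hn' F κ hF
    have h0 := (hbase n).1 hn'
    let ε : ℕ := if s(u, v) ∈ F then 1 else 0
    let κ' : V → ℕ := Function.update κ v (κ v + κ u + ε)
    have hcard : (F.erase s(u, v)).card + ε = F.card := by
      by_cases h : s(u, v) ∈ F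
      · simp only [ε, if_pos h]
        exact Finset.card_erase_add_one h
      · simp only [ε, if_neg h]
        rw [Finset.erase_eq_of_notMem h]
        rfl
    have hsum : ∑ w ∈ R, κ' w = ∑ w ∈ insert u R, κ w + ε := by
      rw [Finset.sum_insert hu]
      simp only [κ']
      rw [Finset.sum_update_of_mem hv, ← Finset.add_sum_erase R κ hv,
        Finset.sdiff_singleton_eq_erase]
      ring
    have h1 := hg n h0 (F.erase s(u, v)) κ' (by omega)
    let cut : Bool := decide (s(u, v) ∈ F)
    rw [failB_leaf (b := fun w => f w (κ w)) hv hu (hnF F) cut (by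
      simp [cut, SimpleGraph.deleteEdges_adj, ha])]
    have h2 := (WD_congr (b := fun w => Function.update f v (gl (f v) (ex (f u))) w (κ' w))
      (b' := fun w => Function.update f v (gl (f v) (ex (f u))) w (κ' w))
      (hadj (F.erase s(u, v)) F fun e he => by simp [he]) fun _ _ => rfl).1 h1
    apply WD_mono _ h2
    intro w hw
    by_cases hwv : w = v
    · subst hwv
      rw [Function.update_self, Function.update_self]
      have k1 : κ' w = κ w + κ u + ε := Function.update_self _ _ _
      rw [k1]
      have k2 : E cut (f u (κ u)) ≤ ex (f u) (κ u + ε) := by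
        by_cases h : s(u, w) ∈ F
        · have e1 : cut = true := decide_eq_true h
          simp only [e1, ε, if_pos h]
          exact le_max_right _ _
        · have e1 : cut = false := decide_eq_false h
          simp only [e1, ε, if_neg h]
          cases hκ : κ u with
          | zero => exact le_rfl
          | succ m => exact le_max_left _ _
      exact (glue_mono le_rfl k2).trans (le_gl _ _ (add_assoc _ _ _).symm)
    · have k1 : κ' w = κ w := Function.update_of_ne hwv _ _
      rw [Function.update_of_ne hwv, Function.update_of_ne hwv, k1]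

end Pool.Agent.H44.Cac
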