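import Pool.Agent.H44.Cac.FailDefs

/-! gluing of profiles: small arguments -/

namespace Pool.Agent.H44.Cac

theorem gl_zero (f g : Pf) : gl f g 0 = glue (f 0) (g 0) := by
  simp [gl]

theorem gl_one (f g : Pf) : gl f g 1 = max (glue (f 0) (g 1)) (glue (f 1) (g 0)) := by
  apply le_antisymm
  · unfold gl
    apply Finset.sup'_le
    intro i hi
    have : i = 0 ∨ i = 1 := by have := Finset.mem_range.mp hi; omega
    rcases this with rfl | rfl
    · exact le_max_left _ _
    · exact le_max_right _ _
  · unfold gl
    apply max_le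
    · exact Finset.le_sup' (fun i => glue (f i) (g (1 - i))) (b := 0) (by simp)
    · exact Finset.le_sup' (fun i => glue (f i) (g (1 - i))) (b := 1) (by simp)

theorem gl_two (f g : Pf) :
    gl f g 2 = max (glue (f 0) (g 2)) (max (glue (f 1) (g 1)) (glue (f 2) (g 0))) := by
  apply le_antisymm
  · unfold gl
    apply Finset.sup'_le
    intro i hi
    have : i = 0 ∨ i = 1 ∨ i = 2 := by have := Finset.mem_range.mp hi; omega
    rcases this with rfl | rfl | rfl
    · exact le_max_left _ _
    · exact (le_max_left _ _).trans (le_max_right _ _)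
    · exact (le_max_right _ _).trans (le_max_right _ _)
  · unfold gl
    apply max_le
    · exact Finset.le_sup' (fun i => glue (f i) (g (2 - i))) (b := 0) (by simp)
    · apply max_le
      · exact Finset.le_sup' (fun i => glue (f i) (g (2 - i))) (b := 1) (by simp)
      · exact Finset.le_sup' (fun i => glue (f i) (g (2 - i))) (b := 2) (by simp)

theorem le_gl (f g : Pf) {i j k : ℕ} (h : i + j = k) : glue (f i) (g j) ≤ gl f g k := by
  unfold gl
  have := Finset.le_sup' (s := Finset.range (k + 1)) (fun i => glue (f i) (g (k - i)))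
    (b := i) (by simp; omega)
  rwa [show k - i = j by omega] at this

theorem gl_attained (f g : Pf) (k : ℕ) : ∃ i j, i + j = k ∧ gl f g k = glue (f i) (g j) := by
  obtain ⟨i, hi, e⟩ := Finset.exists_mem_eq_sup' (s := Finset.range (k + 1)) ⟨0, by simp⟩
    (fun i => glue (f i) (g (k - i)))
  have := Finset.mem_range.mp hi
  exact ⟨i, k - i, by omega, e⟩

theorem gl_comm (f g : Pf) (k : ℕ) : gl f g k = gl g f k := by
  apply le_antisymm
  · obtain ⟨i, j, h, e⟩ := gl_attained f g k
    rw [e, glue_comm]; exact le_gl g f (by omega)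
  · obtain ⟨i, j, h, e⟩ := gl_attained g f k
    rw [e, glue_comm]; exact le_gl f g (by omega)

end Pool.Agent.H44.Cac
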