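import Pool.Agent.H44.Cac.CertDefs
import Pool.Agent.H44.Cac.Gl

/-! finite facts about profiles -/

namespace Pool.Agent.H44.Cac


theorem fin1_glue0 (x : ℤ) : glue 0 x = 3 * ((x + 2) / 3) - 3 := by
  unfold glue tab; split_ifs <;> omega
theorem fin1_glue1 (x : ℤ) : glue 1 x = x - (x % 3) / 2 := by
  unfold glue tab; split_ifs <;> omega
theorem fin1_glue3 (x : ℤ) : glue 3 x = 3 * ((x + 2) / 3) := by
  unfold glue tab; split_ifs <;> omega
theorem fin1_glue4 (x : ℤ) : glue 4 x = x - (x % 3) / 2 + 3 := by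
  unfold glue tab; split_ifs <;> omega

theorem fin1_gl_mono {f g : Pf} (hf : Monotone f) (hg : Monotone g) : Monotone (gl f g) := by
  intro i j hij
  obtain ⟨a, b, hab, e⟩ := gl_attained f g i
  rw [e]
  exact (glue_mono le_rfl (hg (show b ≤ b + (j - i) by omega))).trans
    (le_gl f g (show a + (b + (j - i)) = j by omega))

/-- the fifteen live states as triples -/
def fin1L : List (ℤ × ℤ × ℤ) :=
  [(0, 0, 1), (0, 0, 2), (0, 1, 1), (0, 1, 2), (0, 2, 2), (1, 0, 0), (1, 0, 1), (1, 0, 2),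
    (1, 1, 1), (1, 1, 2), (2, 0, 0), (2, 0, 1), (2, 0, 2), (2, 1, 2), (2, 2, 2)]

theorem fin1_mem {g : Pf} (h : L15 g) : ∃ p : ℤ, ∃ x ∈ fin1L,
    g 0 = x.1 + 3 * p ∧ g 1 = x.1 + x.2.1 + 3 * p ∧ g 2 = x.1 + x.2.2 + 3 * p := by
  obtain ⟨⟨h1, h2, h3, h4⟩, h5, h6⟩ := h
  obtain ⟨p, hp⟩ := split3 (g 0)
  simp only [ty] at h4 h5 h6
  have ha : g 1 = g 0 ∨ g 1 = g 0 + 1 ∨ g 1 = g 0 + 2 := by omega
  have hb : g 2 = g 0 ∨ g 2 = g 0 + 1 ∨ g 2 = g 0 + 2 := by omega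
  refine ⟨p, ?_⟩
  rcases hp with hp | hp | hp <;> rcases ha with ha | ha | ha <;> rcases hb with hb | hb | hb
  · omega
  · exact ⟨(0, 0, 1), by decide, by simp; omega, by simp; omega, by simp; omega⟩
  · exact ⟨(0, 0, 2), by decide, by simp; omega, by simp; omega, by simp; omega⟩
  · omega
  · exact ⟨(0, 1, 1), by decide, by simp; omega, by simp; omega, by simp; omega⟩
  · exact ⟨(0, 1, 2), by decide, by simp; omega, by simp; omega, by simp; omega⟩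
  · omega
  · omega
  · exact ⟨(0, 2, 2), by decide, by simp; omega, by simp; omega, by simp; omega⟩
  · exact ⟨(1, 0, 0), by decide, by simp; omega, by simp; omega, by simp; omega⟩
  · exact ⟨(1, 0, 1), by decide, by simp; omega, by simp; omega, by simp; omega⟩
  · exact ⟨(1, 0, 2), by decide, by simp; omega, by simp; omega, by simp; omega⟩
  · omega
  · exact ⟨(1, 1, 1), by decide, by simp; omega, by simp; omega, by simp; omega⟩
  · exact ⟨(1, 1, 2), by decide, by simp; omega, by simp; omega, by simp; omega⟩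
  · omega
  · omega
  · omega
  · exact ⟨(2, 0, 0), by decide, by simp; omega, by simp; omega, by simp; omega⟩
  · exact ⟨(2, 0, 1), by decide, by simp; omega, by simp; omega, by simp; omega⟩
  · exact ⟨(2, 0, 2), by decide, by simp; omega, by simp; omega, by simp; omega⟩
  · omega
  · omega
  · exact ⟨(2, 1, 2), by decide, by simp; omega, by simp; omega, by simp; omega⟩
  · omega
  · omega
  · exact ⟨(2, 2, 2), by decide, by simp; omega, by simp; omega, by simp; omega⟩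

def fin1d0 (x y : ℤ × ℤ × ℤ) : ℤ := glue x.1 y.1
def fin1d1 (x y : ℤ × ℤ × ℤ) : ℤ := max (glue x.1 (y.1 + y.2.1)) (glue (x.1 + x.2.1) y.1)
def fin1d2 (x y : ℤ × ℤ × ℤ) : ℤ := max (glue x.1 (y.1 + y.2.2))
  (max (glue (x.1 + x.2.1) (y.1 + y.2.1)) (glue (x.1 + x.2.2) y.1))

theorem fin1_glue_add (a b p q : ℤ) : glue (a + 3 * p) (b + 3 * q) = glue a b + 3 * (p + q) := by
  rw [glue_add, glue_comm a, glue_add, glue_comm b]; ring

theorem fin1_gl {f g : Pf} {p q : ℤ} {x y : ℤ × ℤ × ℤ}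
    (f0 : f 0 = x.1 + 3 * p) (f1 : f 1 = x.1 + x.2.1 + 3 * p) (f2 : f 2 = x.1 + x.2.2 + 3 * p)
    (g0 : g 0 = y.1 + 3 * q) (g1 : g 1 = y.1 + y.2.1 + 3 * q) (g2 : g 2 = y.1 + y.2.2 + 3 * q) :
    gl f g 0 = fin1d0 x y + 3 * (p + q) ∧ gl f g 1 = fin1d1 x y + 3 * (p + q) ∧
      gl f g 2 = fin1d2 x y + 3 * (p + q) := by
  refine ⟨?_, ?_, ?_⟩
  · rw [gl_zero, f0, g0, fin1_glue_add]; rfl
  · rw [gl_one, f0, g0, f1, g1, fin1_glue_add, fin1_glue_add, fin1d1, max_add_add_right]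
  · rw [gl_two, f0, g0, f1, g1, f2, g2, fin1_glue_add, fin1_glue_add, fin1_glue_add, fin1d2,
      max_add_add_right, max_add_add_right]

theorem fin1_dead {f g : Pf} (hf : f 0 + 3 ≤ f 2) : gl f g 0 + 3 ≤ gl f g 2 := by
  have h1 := le_gl f g (show 2 + 0 = 2 by rfl)
  have h2 := glue_mono hf (le_refl (g 0))
  have h3 := glue_add (f 0) (g 0) 1
  rw [gl_zero]
  norm_num at h3
  omega

theorem fin1_adm_aux : ∀ x ∈ fin1L, ∀ y ∈ fin1L, fin1d0 x y + 3 ≤ fin1d2 x y ∨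
    (fin1d0 x y ≤ fin1d1 x y ∧ fin1d1 x y ≤ fin1d2 x y ∧ fin1d2 x y ≤ fin1d0 x y + 2 ∧
      (fin1d0 x y % 3 = 1 → fin1d1 x y ≤ fin1d0 x y + 1) ∧
      (fin1d0 x y % 3 = 0 → fin1d0 x y + 1 ≤ fin1d2 x y) ∧
      (fin1d0 x y % 3 = 2 → fin1d1 x y = fin1d0 x y + 1 → fin1d2 x y = fin1d0 x y + 2)) := by
  decide

theorem adm_gl {f g : Pf} (hf : Adm f) (hg : Adm g) : Adm (gl f g) := by
  refine ⟨fin1_gl_mono hf.1 hg.1, ?_⟩
  rcases hf.2 with h | h
  · exact Or.inl (fin1_dead h)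
  rcases hg.2 with h' | h'
  · left
    rw [gl_comm f g, gl_comm f g]
    exact fin1_dead h'
  obtain ⟨p, x, hx, f0, f1, f2⟩ := fin1_mem h
  obtain ⟨q, y, hy, g0, g1, g2⟩ := fin1_mem h'
  obtain ⟨e0, e1, e2⟩ := fin1_gl f0 f1 f2 g0 g1 g2
  rcases fin1_adm_aux x hx y hy with h | ⟨a1, a2, a3, a4, a5, a6⟩
  · left; omega
  · right
    refine ⟨⟨?_, ?_, ?_, ?_⟩, ?_, ?_⟩ <;> simp only [ty, e0, e1, e2] <;> omega

theorem adm_ex {g : Pf} (hg : Adm g) : Adm (ex g) := by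
  have h1 := hg.1 (show 0 ≤ 1 by norm_num)
  have h2 := hg.1 (show 1 ≤ 2 by norm_num)
  refine ⟨monotone_nat_of_le_succ ?_, ?_⟩
  · intro k
    cases k with
    | zero =>
      show g 0 + 1 ≤ max (g 1 + 1) (E true (g 0))
      exact le_max_of_le_left (by omega)
    | succ k =>
      simp only [ex]
      exact max_le_max (by have := hg.1 (show k + 1 ≤ k + 1 + 1 by omega); omega)
        (E_mono _ (hg.1 (by omega)))
  · by_cases hd : ex g 0 + 3 ≤ ex g 2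
    · exact Or.inl hd
    right
    simp only [ex, E] at hd
    norm_num at hd
    rcases hg.2 with h | ⟨⟨a1, a2, a3, a4⟩, a5, a6⟩
    · omega
    · simp only [ty] at a4 a5 a6
      refine ⟨⟨?_, ?_, ?_, ?_⟩, ?_, ?_⟩ <;> simp only [ty, ex, E] <;> norm_num <;> omega

/-- `gl (tst ..) α` does not raise the value -/
def gg (t a b : ℤ) (α : Pf) : Prop := (gl (tst t a b) α 2 + 1) / 3 ≤ (gl (tst t a b) α 0 + 1) / 3

section
variable {α : Pf} (h : Monotone α)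
include h

theorem if_K0 : gg 2 2 2 α ↔ okK 0 α := by
  have h1 := h (show 0 ≤ 1 by norm_num)
  have h2 := h (show 1 ≤ 2 by norm_num)
  simp only [gg, gl_two, gl_zero, tst, okK, okS, okN, cS, cT, cN, ty]
  norm_num
  simp only [fin1_glue0, fin1_glue1, fin1_glue3, fin1_glue4, glue_two]
  (try split_ifs) <;> omega
theorem if_K1 : gg 2 1 2 α ↔ okK 1 α := by
  have h1 := h (show 0 ≤ 1 by norm_num)
  have h2 := h (show 1 ≤ 2 by norm_num)
  simp only [gg, gl_two, gl_zero, tst, okK, okS, okN, cS, cT, cN, ty]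
  norm_num
  simp only [fin1_glue0, fin1_glue1, fin1_glue3, fin1_glue4, glue_two]
  (try split_ifs) <;> omega
theorem if_K2 : gg 2 0 2 α ↔ okK 2 α := by
  have h1 := h (show 0 ≤ 1 by norm_num)
  have h2 := h (show 1 ≤ 2 by norm_num)
  simp only [gg, gl_two, gl_zero, tst, okK, okS, okN, cS, cT, cN, ty]
  norm_num
  simp only [fin1_glue0, fin1_glue1, fin1_glue3, fin1_glue4, glue_two]
  (try split_ifs) <;> omega
theorem if_O1 : gg 1 0 2 α ↔ ty α = 0 ∧ α 2 ≤ α 0 + 2 := by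
  have h1 := h (show 0 ≤ 1 by norm_num)
  have h2 := h (show 1 ≤ 2 by norm_num)
  simp only [gg, gl_two, gl_zero, tst, okK, okS, okN, cS, cT, cN, ty]
  norm_num
  simp only [fin1_glue0, fin1_glue1, fin1_glue3, fin1_glue4, glue_two]
  (try split_ifs) <;> omega
theorem if_O2 : gg 1 1 2 α ↔ ty α = 0 ∧ α 1 ≤ α 0 + 1 ∧ α 2 ≤ α 0 + 2 := by
  have h1 := h (show 0 ≤ 1 by norm_num)
  have h2 := h (show 1 ≤ 2 by norm_num)
  simp only [gg, gl_two, gl_zero, tst, okK, okS, okN, cS, cT, cN, ty]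
  norm_num
  simp only [fin1_glue0, fin1_glue1, fin1_glue3, fin1_glue4, glue_two]
  (try split_ifs) <;> omega
theorem if_S0 : gg 0 1 1 α ↔ okS 0 α := by
  have h1 := h (show 0 ≤ 1 by norm_num)
  have h2 := h (show 1 ≤ 2 by norm_num)
  simp only [gg, gl_two, gl_zero, tst, okK, okS, okN, cS, cT, cN, ty]
  norm_num
  simp only [fin1_glue0, fin1_glue1, fin1_glue3, fin1_glue4, glue_two]
  (try split_ifs) <;> omega
theorem if_S1 : gg 0 1 2 α ↔ okS 1 α := by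
  have h1 := h (show 0 ≤ 1 by norm_num)
  have h2 := h (show 1 ≤ 2 by norm_num)
  simp only [gg, gl_two, gl_zero, tst, okK, okS, okN, cS, cT, cN, ty]
  norm_num
  simp only [fin1_glue0, fin1_glue1, fin1_glue3, fin1_glue4, glue_two]
  (try split_ifs) <;> omega
theorem if_S2 : gg 0 2 2 α ↔ okS 2 α := by
  have h1 := h (show 0 ≤ 1 by norm_num)
  have h2 := h (show 1 ≤ 2 by norm_num)
  simp only [gg, gl_two, gl_zero, tst, okK, okS, okN, cS, cT, cN, ty]
  norm_num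
  simp only [fin1_glue0, fin1_glue1, fin1_glue3, fin1_glue4, glue_two]
  (try split_ifs) <;> omega
theorem if_S0' : gg 0 0 1 α ↔ (ty α = 1 ∧ α 2 ≤ α 0 + 2) ∨
    (ty α = 2 ∧ α 1 ≤ α 0 + 1 ∧ α 2 ≤ α 0 + 1) := by
  have h1 := h (show 0 ≤ 1 by norm_num)
  have h2 := h (show 1 ≤ 2 by norm_num)
  simp only [gg, gl_two, gl_zero, tst, okK, okS, okN, cS, cT, cN, ty]
  norm_num
  simp only [fin1_glue0, fin1_glue1, fin1_glue3, fin1_glue4, glue_two]
  (try split_ifs) <;> omega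
theorem if_00 : gg 0 0 0 α ↔ (ty α = 0 ∧ α 2 ≤ α 0) ∨ (ty α = 1 ∧ α 2 ≤ α 0 + 2) ∨
    (ty α = 2 ∧ α 2 ≤ α 0 + 1) := by
  have h1 := h (show 0 ≤ 1 by norm_num)
  have h2 := h (show 1 ≤ 2 by norm_num)
  simp only [gg, gl_two, gl_zero, tst, okK, okS, okN, cS, cT, cN, ty]
  norm_num
  simp only [fin1_glue0, fin1_glue1, fin1_glue3, fin1_glue4, glue_two]
  (try split_ifs) <;> omega
theorem if_N0 : gg 1 0 0 α ↔ (ty α = 0 ∧ α 2 ≤ α 0 + 2) ∨ okN 0 α := by
  have h1 := h (show 0 ≤ 1 by norm_num)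
  have h2 := h (show 1 ≤ 2 by norm_num)
  simp only [gg, gl_two, gl_zero, tst, okK, okS, okN, cS, cT, cN, ty]
  norm_num
  simp only [fin1_glue0, fin1_glue1, fin1_glue3, fin1_glue4, glue_two]
  (try split_ifs) <;> omega
theorem if_N1 : gg 1 0 1 α ↔ (ty α = 0 ∧ α 2 ≤ α 0 + 2) ∨ okN 1 α := by
  have h1 := h (show 0 ≤ 1 by norm_num)
  have h2 := h (show 1 ≤ 2 by norm_num)
  simp only [gg, gl_two, gl_zero, tst, okK, okS, okN, cS, cT, cN, ty]
  norm_num
  simp only [fin1_glue0, fin1_glue1, fin1_glue3, fin1_glue4, glue_two]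
  (try split_ifs) <;> omega
theorem if_N2 : gg 1 1 1 α ↔ (ty α = 0 ∧ α 1 ≤ α 0 + 1 ∧ α 2 ≤ α 0 + 2) ∨ okN 2 α := by
  have h1 := h (show 0 ≤ 1 by norm_num)
  have h2 := h (show 1 ≤ 2 by norm_num)
  simp only [gg, gl_two, gl_zero, tst, okK, okS, okN, cS, cT, cN, ty]
  norm_num
  simp only [fin1_glue0, fin1_glue1, fin1_glue3, fin1_glue4, glue_two]
  (try split_ifs) <;> omega

end

end Pool.Agent.H44.Cac
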