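import Pool.Agent.H44.Cac.Words

/-! a good word satisfies the local rule -/

namespace Pool.Agent.H44.Cac

namespace GoodLocAux

theorem E_false (l : ℤ) : E false l = l + 1 := by simp [E]

theorem E_true (l : ℤ) : E true l = 3 * ((l + 1) / 3) + 2 := by simp [E]

theorem glue_neutral (a z : ℤ) : glue a (3 * z + 2) = a + 3 * z := by
  obtain ⟨p, rfl | rfl | rfl⟩ := split3 a
  · rw [glue02]; ring
  · rw [glue12]; ring
  · rw [glue22]; ring

theorem glue_ge {a b z : ℤ} (h : 3 * z + 2 ≤ b) : a + 3 * z ≤ glue a b := by
  rw [← glue_neutral]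
  exact glue_mono le_rfl h

theorem glue_zero_mod (a b : ℤ) (h : b % 3 = 0) : glue a b % 3 = 0 := by
  obtain ⟨p, rfl | rfl | rfl⟩ := split3 a <;> obtain ⟨q, rfl | rfl | rfl⟩ := split3 b <;>
    first
    | omega
    | (simp only [glue00, glue10, glue20]; omega)

theorem glue_one_mod (a b : ℤ) (h : b % 3 ≠ 2) : glue a b % 3 ≠ 2 := by
  obtain ⟨p, rfl | rfl | rfl⟩ := split3 a <;> obtain ⟨q, rfl | rfl | rfl⟩ := split3 b <;>
    first
    | omega
    | (simp only [glue00, glue10, glue20, glue01, glue11, glue21]; omega)

theorem glue_one_mod' (a b : ℤ) (h : b % 3 = 1) (ha : a % 3 ≠ 0) : glue a b % 3 = 1 := by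
  obtain ⟨p, rfl | rfl | rfl⟩ := split3 a <;> obtain ⟨q, rfl | rfl | rfl⟩ := split3 b <;>
    first
    | omega
    | (simp only [glue11, glue21]; omega)

/-- `a` weak: the level after `a` is 1 modulo 3 -/
theorem F1 {ys : List Pf} {a' a : Pf} (ha : ty a = 1) (ha' : ty a' ≠ 2) (l : ℤ) :
    base (ys ++ [a', a]) l % 3 = 1 := by
  rw [base_append]
  simp only [base, E_false]
  apply glue_one_mod' _ _ ha
  have := glue_one_mod (base ys l + 1) (a' 0) ha'
  omega

/-- `a` not critical -/
theorem F1' {ys : List Pf} {a' a : Pf} (ha : ty a ≠ 2) (l : ℤ) :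
    base (ys ++ [a', a]) l % 3 ≠ 2 := by
  rw [base_append]
  simp only [base]
  exact glue_one_mod _ _ ha

/-- `c` weak -/
theorem F2 {zs : List Pf} {c c' : Pf} (hc : ty c = 1) (hc' : ty c' ≠ 2) :
    base (c :: c' :: zs) 0 = base (c :: c' :: zs) 1 ∧
      base (c :: c' :: zs) 2 = base (c :: c' :: zs) 1 + 3 := by
  have hc2 : c 0 % 3 = 1 := hc
  have hc3 : c' 0 % 3 ≠ 2 := hc'
  obtain ⟨w, hw⟩ : ∃ w, c 0 = 3 * w + 1 := ⟨c 0 / 3, by omega⟩
  have s0 : glue (E false 0) (c 0) = 3 * w + 1 := by
    rw [hw, E_false, show (0 : ℤ) + 1 = 3 * 0 + 1 by norm_num, glue11, zero_add]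
  have s1 : glue (E false 1) (c 0) = 3 * w + 1 := by
    rw [hw, E_false, show (1 : ℤ) + 1 = 3 * 0 + 2 by norm_num, glue21, zero_add]
  have s2 : glue (E false 2) (c 0) = 3 * (1 + w) := by
    rw [hw, E_false, show (2 : ℤ) + 1 = 3 * 1 by norm_num, glue01]
  have e2 : glue (E false (3 * (1 + w))) (c' 0) = glue (E false (3 * w + 1)) (c' 0) + 3 := by
    rw [E_false, E_false, show 3 * w + 1 + 1 = 3 * w + 2 by ring]
    obtain ⟨w', hw' | hw' | hw'⟩ := split3 (c' 0)
    · rw [hw', glue10, glue20]; ring
    · rw [hw', glue11, glue21]; ring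
    · omega
  simp only [base]
  rw [s0, s1, s2]
  refine ⟨rfl, ?_⟩
  rw [e2]
  exact (mp_base zs).per _

/-- `c` not critical -/
theorem F2' {zs : List Pf} {c : Pf} (hc : ty c ≠ 2) :
    base (c :: zs) 0 = base (c :: zs) 1 := by
  have hc2 : c 0 % 3 ≠ 2 := hc
  simp only [base]
  congr 1
  rw [E_false, E_false, show (0 : ℤ) + 1 = 3 * 0 + 1 by norm_num,
    show (1 : ℤ) + 1 = 3 * 0 + 2 by norm_num]
  obtain ⟨w, hw | hw | hw⟩ := split3 (c 0)
  · rw [hw, glue10, glue20]
  · rw [hw, glue11, glue21]
  · omega

/-- cutting the edge before `c` -/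
theorem F3 (c : Pf) (zs : List Pf) :
    base zs (glue (E true 0) (c 0)) = base (c :: zs) 1 ∧
    base zs (glue (E true 1) (c 0)) = base (c :: zs) 1 ∧
    base zs (glue (E true 2) (c 0)) = base (c :: zs) 1 + 3 := by
  have e0 : E true 0 = 2 := by rw [E_true]; norm_num
  have e1 : E true 1 = 2 := by rw [E_true]; norm_num
  have e2 : E true 2 = 2 + 3 * 1 := by rw [E_true]; norm_num
  have e3 : E false 1 = 2 := by rw [E_false]; norm_num
  refine ⟨?_, ?_, ?_⟩
  · rw [e0]; simp only [base]; rw [e3]
  · rw [e1]; simp only [base]; rw [e3]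
  · rw [e2, glue_add, (mp_base zs).add]
    simp only [base]
    rw [e3]
    ring

/-- lower bounds on the residues refute `Tr` -/
theorem not_tr {P : ℤ → ℤ} (hP : Mp P) {c : ℤ} (h0 : 3 * c < P 0) (h1 : 1 + 3 * c < P 1)
    (h2 : 2 + 3 * c < P 2) : ¬ Tr P c := by
  rintro ⟨l, hl⟩
  obtain ⟨p, rfl | rfl | rfl⟩ := split3 l
  · have := hP.add 0 p
    rw [zero_add] at this
    omega
  · have := hP.add 1 p
    rw [add_comm] at this
    omega
  · have := hP.add 2 p
    rw [add_comm] at this
    omega

end GoodLocAux

open GoodLocAux in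
theorem good_loc {p : ℕ → Pf} {n : ℕ} (hn : 3 ≤ n) (hp : ∀ i, p (i + n) = p i)
    (hl : ∀ i, Live (p i)) (h : Good (win p 0 n)) (i : ℕ) :
    Loc (p i) (p (i + 1)) (p (i + 2)) (p (i + 3)) (p (i + 4)) := by
  obtain ⟨m, rfl⟩ : ∃ m, n = m + 3 := ⟨n - 3, by omega⟩
  have hG2 : Good (win p (i + 2) (m + 3)) := (good_win hp 0 (i + 2)).1 h
  have hG1 : Good (win p (i + 1) (m + 3)) := (good_win hp 0 (i + 1)).1 h
  have hLx := hl (i + 2)
  set a' := p i with ha'
  set a := p (i + 1) with ha
  set x := p (i + 2) with hx
  set c := p (i + 3) with hc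
  set c' := p (i + 4) with hc'
  set zs := win p (i + 5) m with hzs
  set ys := win p (i + 3) m with hys
  -- the word starting at x
  have hw1 : win p (i + 2) (m + 3) = x :: c :: c' :: zs := by
    rw [win_succ, win_succ, win_succ]
  have hw2 : c :: c' :: zs = ys ++ [a', a] := by
    have e1 : win p (i + 3) (m + 2) = c :: c' :: zs := by
      rw [win_succ, win_succ]
    have e2 : win p (i + 3) (m + 2) = ys ++ [a', a] := by
      rw [win_add, win_succ, win_succ, win_zero]
      rw [show i + 3 + m = i + (m + 3) by ring, show i + (m + 3) + 1 = i + 1 + (m + 3) by ring,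
        hp, hp]
    rw [← e1, e2]
  have hw3 : win p (i + 1) (m + 3) = [a, x, c] ++ win p (i + 4) m := by
    rw [win_succ, win_succ, win_succ]
    rfl
  rw [hw1] at hG2
  rw [hw3] at hG1
  obtain ⟨z, hz⟩ : ∃ z, z = x 0 / 3 := ⟨_, rfl⟩
  constructor
  · intro hx2
    have hx2' : x 0 % 3 = 2 := hx2
    have hxz : x 0 = 3 * z + 2 := by omega
    constructor
    · -- `a` of type 0
      intro ha0
      have ha0' : a 0 % 3 = 0 := ha0
      refine not_good_of_raise (xs := [a, x, c]) (ys := win p (i + 4) m) (k := 0 + (1 + (1 + 0)))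
        (by norm_num)
        (Fw.cons (Fop.keep 0) (Fw.cons (Fop.cut 0) (Fw.cons (Fop.cut 0) Fw.nil))) ?_ hG1
      have hmp : Mp (fun l => id (glue (E true (glue (E true (glue (E false l) (a 0))) (x 0)))
          (c 0))) :=
        (mp_id.comp (((mp_glue (c 0)).comp (mp_E true)))).comp
          (((mp_glue (x 0)).comp (mp_E true)).comp ((mp_glue (a 0)).comp (mp_E false)))
      have hu : a 0 = 3 * (a 0 / 3) := by omega
      have key : ∀ l, base [a, x, c] l + 3 ≤
          glue (E true (glue (E true (glue (E false l) (a 0))) (x 0))) (c 0) := by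
        intro l
        have hg : glue (E false l) (a 0) % 3 = 0 := glue_zero_mod _ _ ha0'
        simp only [base]
        set L := glue (E false l) (a 0) with hL
        have e1 : glue (E false L) (x 0) = L + 1 + 3 * z := by
          rw [hxz, glue_neutral, E_false]
        have e2 : glue (E true L) (x 0) = L + 2 + 3 * z := by
          rw [hxz, glue_neutral, E_true]
          omega
        rw [e1, e2]
        have e3 : E true (L + 2 + 3 * z) = E false (L + 1 + 3 * z) + 3 * 1 := by
          rw [E_true, E_false]
          omega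
        rw [e3, glue_add]
        omega
      exact key
    · -- `c` of type 0
      intro hc0
      have hc0' : c 0 % 3 = 0 := hc0
      refine not_good_of_raise (xs := [x, c]) (ys := c' :: zs) (k := 1 + (1 + 0))
        (by norm_num) (Fw.cons (Fop.cut 0) (Fw.cons (Fop.cut 0) Fw.nil)) ?_ hG2
      have key : ∀ l, base [x, c] l + 3 ≤
          glue (E true (glue (E true l) (x 0))) (c 0) := by
        intro l
        simp only [base]
        have e1 : glue (E false l) (x 0) = l + 1 + 3 * z := by
          rw [hxz, glue_neutral, E_false]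
        have e2 : glue (E true l) (x 0) = 3 * ((l + 1) / 3) + 2 + 3 * z := by
          rw [hxz, glue_neutral, E_true]
        rw [e1, e2, E_true, E_false]
        obtain ⟨w, hw⟩ : ∃ w, c 0 = 3 * w := ⟨c 0 / 3, by omega⟩
        rw [hw]
        obtain ⟨q, rfl | rfl | rfl⟩ := split3 l
        · rw [show 3 * ((3 * ((3 * q + 1) / 3) + 2 + 3 * z + 1) / 3) + 2 = 3 * (q + z + 1) + 2 by
            omega, show 3 * q + 1 + 3 * z + 1 = 3 * (q + z) + 2 by ring, glue20, glue20]
          omega
        · rw [show 3 * ((3 * ((3 * q + 1 + 1) / 3) + 2 + 3 * z + 1) / 3) + 2 =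
            3 * (q + z + 1) + 2 by
            omega, show 3 * q + 1 + 1 + 3 * z + 1 = 3 * (q + z + 1) by ring, glue20, glue00]
          omega
        · rw [show 3 * ((3 * ((3 * q + 2 + 1) / 3) + 2 + 3 * z + 1) / 3) + 2 =
            3 * (q + z + 2) + 2 by
            omega, show 3 * q + 2 + 1 + 3 * z + 1 = 3 * (q + z + 1) + 1 by ring, glue20, glue10]
          omega
      exact key
  · intro hx2
    have hx2' : x 0 % 3 ≠ 2 := hx2
    by_contra hcon
    push Not at hcon
    -- the action of the rest
    set A := base (c :: c' :: zs) with hA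
    have hAmp : Mp A := mp_base _
    have hbase : ∀ l, base (x :: c :: c' :: zs) l = A (glue (E false l) (x 0)) := fun l => rfl
    have hA3 : A 3 = A 0 + 3 := by
      have := hAmp.per 0
      simpa using this
    have hA5 : A 5 = A 2 + 3 := by
      have := hAmp.per 2
      simpa using this
    have hA01 : A 0 ≤ A 1 := hAmp.mono (by norm_num)
    -- base at `1`
    have hb1 : A (glue (E false 1) (x 0)) ≤ 3 * z + A 1 := by
      rw [E_false]
      rcases (by omega : x 0 = 3 * z ∨ x 0 = 3 * z + 1) with e | e
      · rw [e, show (1 : ℤ) + 1 = 3 * 0 + 2 by norm_num, glue20]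
        have := hAmp.add 0 z
        rw [zero_add] at this
        rw [zero_add, this]
        omega
      · rw [e, show (1 : ℤ) + 1 = 3 * 0 + 2 by norm_num, glue21]
        have := hAmp.add 1 z
        rw [show 3 * (0 + z) + 1 = 1 + 3 * z by ring, this]
        omega
    -- strong and weak
    have hweak : ∀ u v : Pf, str u v = 0 → ty v = 1 ∧ ty u ≠ 2 := by
      intro u v huv
      unfold str at huv
      split_ifs at huv with h1
      exact h1
    have hstr : ∀ u v : Pf, str u v = 0 ∨ str u v = 1 := by
      intro u v
      unfold str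
      split_ifs
      · exact Or.inl rfl
      · exact Or.inr rfl
    by_cases hW4 : cX a x c = 0
    · -- W4
      have h1 : ty x ≠ 0 ∧ ty a ≠ 2 ∧ ty c ≠ 2 ∧ x 0 + 1 < x 2 := by
        unfold cX at hW4
        split_ifs at hW4 with e1 e2
        · unfold cS at hW4
          split_ifs at hW4
        · unfold cT at hW4
          split_ifs at hW4
        · push Not at e2
          unfold cN at hW4
          split_ifs at hW4 with e3 e4 e5
          exact ⟨e1, e2.1, e2.2, not_le.1 e5⟩
      obtain ⟨ex0, ea, ec, ex⟩ := h1
      have ex0' : x 0 % 3 ≠ 0 := ex0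
      have exz : x 0 = 3 * z + 1 := by omega
      have hA0 : A 0 = A 1 := F2' ec
      have hmod : A 1 % 3 ≠ 2 := by
        rw [hA, hw2]
        exact F1' ea 1
      have hTr : Tr (base (x :: c :: c' :: zs)) (z + A 1 / 3) := by
        refine ⟨1, ?_⟩
        rw [hbase]
        omega
      have hF : Fw (x :: c :: c' :: zs) (2 + 0) (fun l => A (glue (E false l) (x 2))) :=
        Fw.cons (Fop.keep 2) (Fw.base _)
      have hT := hG2 _ hTr _ (by norm_num) _ hF
      have hx3 : 3 * (z + 1) ≤ x 2 := by omega
      have hlow : ∀ l, A (glue l (3 * (z + 1))) ≤ A (glue l (x 2)) := fun l =>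
        hAmp.mono (glue_mono le_rfl hx3)
      have hval : A (3 * (z + 1)) = 3 * z + 3 + A 0 := by
        have := hAmp.add 0 (z + 1)
        rw [zero_add] at this
        rw [this]
        ring
      refine not_tr hF.mp ?_ ?_ ?_ hT
      · refine lt_of_lt_of_le ?_ (hlow _)
        rw [E_false, show (0 : ℤ) + 1 = 3 * 0 + 1 by norm_num, glue10, zero_add, hval]
        omega
      · refine lt_of_lt_of_le ?_ (hlow _)
        rw [E_false, show (1 : ℤ) + 1 = 3 * 0 + 2 by norm_num, glue20, zero_add, hval]
        omega
      · refine lt_of_lt_of_le ?_ (hlow _)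
        rw [E_false, show (2 : ℤ) + 1 = 3 * 1 by norm_num, glue00,
          show 3 * (1 + (z + 1) - 1) = 3 * (z + 1) by ring, hval]
        omega
    · -- the failed branch of `x` is neutral
      have hcX : 1 ≤ cX a x c := Nat.one_le_iff_ne_zero.2 hW4
      have hfail : cX a x c ≤ 2 → (str a' a = 0 ∧ str c' c = 0 ∨ cX a x c = 1) →
          3 * z + 2 ≤ x (cX a x c) := by
        intro hle hor
        have hl1 := hLx.le1
        have hl2 := hLx.le2
        unfold cX at hle hor ⊢
        split_ifs at hle hor ⊢ with e1 e2
        · have e1' : x 0 % 3 = 0 := e1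
          unfold cS at hle ⊢
          split_ifs at hle ⊢ with e3 e4
          · omega
          · omega
          · omega
        · have e1' : x 0 % 3 ≠ 0 := e1
          unfold cT at hle hor ⊢
          split_ifs at hle hor ⊢ with e3
          · exfalso
            rcases hor with hor | hor
            · rcases e2 with e2 | e2
              · have := (hweak _ _ hor.1).1
                rw [this] at e2
                norm_num at e2
              · have := (hweak _ _ hor.2).1
                rw [this] at e2
                norm_num at e2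
            · omega
          · omega
        · have e1' : x 0 % 3 ≠ 0 := e1
          have hne : cX a x c = cN x := by
            unfold cX
            rw [if_neg e1, if_neg e2]
          unfold cN at hle ⊢
          split_ifs at hle ⊢ with e3 e4 e5
          · omega
          · omega
          · omega
          · exfalso
            apply hW4
            rw [hne]
            unfold cN
            rw [if_neg e3, if_neg e4, if_neg e5]
      rcases hstr a' a with h1 | h1 <;> rcases hstr c' c with h2 | h2
      · -- W3
        have hx' := hfail (by omega) (Or.inl ⟨h1, h2⟩)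
        obtain ⟨wa, wa'⟩ := hweak _ _ h1
        obtain ⟨wc, wc'⟩ := hweak _ _ h2
        obtain ⟨f1, f2⟩ := F2 (zs := zs) wc wc'
        have f1' : A 0 = A 1 := f1
        have f2' : A 2 = A 1 + 3 := f2
        have hmod : A 1 % 3 = 1 := by
          rw [hA, hw2]
          exact F1 wa wa' 1
        have hTr : Tr (base (x :: c :: c' :: zs)) (z + A 1 / 3) := by
          refine ⟨1, ?_⟩
          rw [hbase]
          omega
        have hF : Fw (x :: c :: c' :: zs) (cX a x c + 0)
            (fun l => A (glue (E false l) (x (cX a x c)))) :=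
          Fw.cons (Fop.keep _) (Fw.base _)
        have hT := hG2 _ hTr _ (by omega) _ hF
        have hlow : ∀ l, A (l + 1) + 3 * z ≤ A (glue (E false l) (x (cX a x c))) := by
          intro l
          rw [← hAmp.add, E_false]
          exact hAmp.mono (glue_ge hx')
        have l0 := hlow 0
        have l1 := hlow 1
        have l2 := hlow 2
        norm_num at l0 l1 l2
        refine not_tr hF.mp ?_ ?_ ?_ hT
        · show 3 * (z + A 1 / 3) < A (glue (E false 0) (x (cX a x c)))
          omega
        · show 1 + 3 * (z + A 1 / 3) < A (glue (E false 1) (x (cX a x c)))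
          omega
        · show 2 + 3 * (z + A 1 / 3) < A (glue (E false 2) (x (cX a x c)))
          omega
      · -- W2
        have hX1 : cX a x c = 1 := by omega
        have hx' := hfail (by omega) (Or.inr hX1)
        rw [hX1] at hx'
        obtain ⟨wa, wa'⟩ := hweak _ _ h1
        have hmod : A 1 % 3 = 1 := by
          rw [hA, hw2]
          exact F1 wa wa' 1
        obtain ⟨g0, g1, g2⟩ := F3 c (c' :: zs)
        have hTr : Tr (base (x :: c :: c' :: zs)) (z + A 1 / 3) := by
          refine ⟨1, ?_⟩
          rw [hbase]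
          omega
        set A' : ℤ → ℤ := fun l => base (c' :: zs) (glue (E true l) (c 0)) with hA'
        have hA'mp : Mp A' := (mp_base _).comp ((mp_glue (c 0)).comp (mp_E true))
        have hF : Fw (x :: c :: c' :: zs) (1 + (1 + 0))
            (fun l => A' (glue (E false l) (x 1))) :=
          Fw.cons (Fop.keep 1) (Fw.cons (Fop.cut 0) (Fw.base _))
        have hT := hG2 _ hTr _ (by norm_num) _ hF
        have hlow : ∀ l, A' (l + 1) + 3 * z ≤ A' (glue (E false l) (x 1)) := by
          intro l
          rw [← hA'mp.add, E_false]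
          exact hA'mp.mono (glue_ge hx')
        have l0 := hlow 0
        have l1 := hlow 1
        have l2 := hlow 2
        norm_num at l0 l1 l2
        have k0 : A' 0 = A 1 := g0
        have k1 : A' 1 = A 1 := g1
        have k2 : A' 2 = A 1 + 3 := g2
        have k3 : A' 3 = A' 0 + 3 := by
          have := hA'mp.per 0
          simpa using this
        refine not_tr hF.mp ?_ ?_ ?_ hT
        · show 3 * (z + A 1 / 3) < A' (glue (E false 0) (x 1))
          omega
        · show 1 + 3 * (z + A 1 / 3) < A' (glue (E false 1) (x 1))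
          omega
        · show 2 + 3 * (z + A 1 / 3) < A' (glue (E false 2) (x 1))
          omega
      · -- W1
        have hX1 : cX a x c = 1 := by omega
        have hx' := hfail (by omega) (Or.inr hX1)
        rw [hX1] at hx'
        obtain ⟨wc, wc'⟩ := hweak _ _ h2
        obtain ⟨f1, f2⟩ := F2 (zs := zs) wc wc'
        have f1' : A 0 = A 1 := f1
        have f2' : A 2 = A 1 + 3 := f2
        have hF : Fw (x :: c :: c' :: zs) (1 + 1 + 0)
            (fun l => A (glue (E true l) (x 1))) :=
          Fw.cons (Fop.cut 1) (Fw.base _)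
        have hlow : ∀ l, A (E true l) + 3 * z ≤ A (glue (E true l) (x 1)) := by
          intro l
          rw [← hAmp.add]
          exact hAmp.mono (glue_ge hx')
        have l0 := hlow 0
        have l1 := hlow 1
        have l2 := hlow 2
        have e0 : E true 0 = 2 := by rw [E_true]; norm_num
        have e1 : E true 1 = 2 := by rw [E_true]; norm_num
        have e2 : E true 2 = 5 := by rw [E_true]; norm_num
        rw [e0] at l0
        rw [e1] at l1
        rw [e2] at l2
        have hz0 := hAmp.add 0 z
        rw [zero_add] at hz0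
        have hz1 := hAmp.add 1 z
        have hz3 := hAmp.add 3 z
        have b0 : A (glue (E false 0) (x 0)) ≤ 3 * z + A 1 := by
          rw [E_false]
          rcases (by omega : x 0 = 3 * z ∨ x 0 = 3 * z + 1) with e | e
          · rw [e, show (0 : ℤ) + 1 = 3 * 0 + 1 by norm_num, glue10, zero_add, hz0]
            omega
          · rw [e, show (0 : ℤ) + 1 = 3 * 0 + 1 by norm_num, glue11, zero_add,
              show 3 * z + 1 = 1 + 3 * z by ring, hz1]
            omega
        have b2 : A (glue (E false 2) (x 0)) ≤ 3 * z + A 1 + 3 := by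
          rw [E_false]
          rcases (by omega : x 0 = 3 * z ∨ x 0 = 3 * z + 1) with e | e
          · rw [e, show (2 : ℤ) + 1 = 3 * 1 by norm_num, glue00,
              show 3 * (1 + z - 1) = 3 * z by ring, hz0]
            omega
          · rw [e, show (2 : ℤ) + 1 = 3 * 1 by norm_num, glue01,
              show 3 * (1 + z) = 3 + 3 * z by ring, hz3]
            omega
        have hG2' : Good ((x :: c :: c' :: zs) ++ []) := by rw [List.append_nil]; exact hG2
        refine not_good_of_raise (k := 1 + 1 + 0) (by norm_num) hF ?_ hG2'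
        refine mp_le (mp_base _) hF.mp ?_ ?_ ?_
        · show A (glue (E false 0) (x 0)) + 3 ≤ A (glue (E true 0) (x 1))
          rw [e0]
          omega
        · show A (glue (E false 1) (x 0)) + 3 ≤ A (glue (E true 1) (x 1))
          rw [e1]
          omega
        · show A (glue (E false 2) (x 0)) + 3 ≤ A (glue (E true 2) (x 1))
          rw [e2]
          omega
      · omega

end Pool.Agent.H44.Cac
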