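import Pool.Agent.H44.Cac.FailC
import Pool.Agent.H44.Cac.OutP
import Pool.Agent.H44.Cac.CertDefs

/-! three deletions always suffice -/

namespace Pool.Agent.H44.Cac

open Classical

variable {V : Type*}

/-- classes of profiles for three deletions: trivial, pendant, or rising by three -/
def Cl (g : Pf) : Prop :=
  (∀ k, g k = 2) ∨ (∀ k, g k = ex (fun _ => 2) k) ∨ g 0 + 3 ≤ g 3

/-! ### explicit values -/

theorem three_Ef (l : ℤ) : E false l = l + 1 := by simp [E]

theorem three_Et (l : ℤ) : E true l = 3 * ((l + 1) / 3) + 2 := by simp [E]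

theorem three_g3 (l : ℤ) : glue l 3 = 3 * ((l + 2) / 3) := by
  obtain ⟨p, rfl | rfl | rfl⟩ := split3 l
  · have := glue00 p 1; rw [mul_one] at this; rw [this]; omega
  · have := glue10 p 1; rw [mul_one] at this; rw [this]; omega
  · have := glue20 p 1; rw [mul_one] at this; rw [this]; omega

theorem three_g5 (l : ℤ) : glue l 5 = l + 3 := by
  obtain ⟨p, rfl | rfl | rfl⟩ := split3 l
  · have := glue02 p 1; norm_num at this; rw [this]; omega
  · have := glue12 p 1; norm_num at this; rw [this]; omega
  · have := glue22 p 1; norm_num at this; rw [this]; omega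

theorem three_g1 (l : ℤ) : glue l 1 = min l (3 * (l / 3) + 1) := by
  obtain ⟨p, rfl | rfl | rfl⟩ := split3 l
  · have := glue01 p 0; norm_num at this; rw [this]; omega
  · have := glue11 p 0; norm_num at this; rw [this]; omega
  · have := glue21 p 0; norm_num at this; rw [this]; omega

theorem three_g2 (l : ℤ) : glue l 2 = l := by rw [glue_comm, glue_two]

theorem three_clo (P : ℤ → ℤ) (e : Bool) :
    clo P e = min (E e (P 1)) (min (3 * ((E e (P 0) + 2) / 3))
      (min (E e (P 2)) (3 * (E e (P 2) / 3) + 1))) := by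
  unfold clo
  rw [glue_comm 3, glue_comm 1, three_g3, three_g1]

/-! ### profiles -/

theorem three_pend_zero : ex (fun _ => 2) 0 = 3 := by simp [ex]

theorem three_pend_succ (k : ℕ) : ex (fun _ => 2) (k + 1) = 5 := by simp [ex, E]

/-- pendant or rising profiles -/
def ThX (g : Pf) : Prop := (∀ k, g k = ex (fun _ => 2) k) ∨ g 0 + 3 ≤ g 3

theorem three_ex {g : Pf} (h : Cl g) : ThX (ex g) := by
  rcases h with h | h | h
  · left
    have : g = fun _ => 2 := funext h
    rw [this]; intro k; rfl
  · right
    have e0 : g 0 = 3 := by rw [h 0, three_pend_zero]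
    have e2 : g 2 = 5 := by rw [h 2]; exact three_pend_succ 1
    have e3 : g 3 = 5 := by rw [h 3]; exact three_pend_succ 2
    simp [ex, E, e0, e2, e3]
  · right
    have : g 3 + 1 ≤ ex g 3 := by simp [ex]
    have e : ex g 0 = g 0 + 1 := by simp [ex]
    omega

theorem three_gl_two {f g : Pf} (hf : ∀ k, f k = 2) (hg : Monotone g) (k : ℕ) :
    gl f g k = g k := by
  apply le_antisymm
  · obtain ⟨i, j, h, e⟩ := gl_attained f g k
    rw [e, hf, glue_two]
    exact hg (by omega)
  · have := le_gl f g (i := 0) (j := k) (k := k) (by omega)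
    rwa [hf, glue_two] at this

theorem three_gl_left {f g : Pf} (h : f 0 + 3 ≤ f 3) : gl f g 0 + 3 ≤ gl f g 3 := by
  rw [gl_zero]
  have h1 := le_gl f g (i := 3) (j := 0) (k := 3) rfl
  have h2 := glue_add (f 0) (g 0) 1
  have h3 : glue (f 0 + 3 * 1) (g 0) ≤ glue (f 3) (g 0) := glue_mono_left (by omega) _
  omega

theorem three_gl_right {f g : Pf} (h : g 0 + 3 ≤ g 3) : gl f g 0 + 3 ≤ gl f g 3 := by
  rw [gl_comm f g 0, gl_comm f g 3]
  exact three_gl_left h

theorem three_gl {f g : Pf} (hg : Monotone g) (h : Cl f) (h' : ThX g) : ThX (gl f g) := by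
  rcases h with h | h | h
  · rcases h' with h' | h'
    · left; intro k; rw [three_gl_two h hg, h' k]
    · right; rw [three_gl_two h hg, three_gl_two h hg]; exact h'
  · rcases h' with h' | h'
    · right
      have e0 : f 0 = 3 := by rw [h 0, three_pend_zero]
      have e1 : f 1 = 5 := by rw [h 1]; exact three_pend_succ 0
      have g0 : g 0 = 3 := by rw [h' 0, three_pend_zero]
      have g2 : g 2 = 5 := by rw [h' 2]; exact three_pend_succ 1
      have h1 := le_gl f g (i := 1) (j := 2) (k := 3) rfl
      have h2 : glue 5 5 = 8 := by simpa using glue22 1 1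
      have h3 : glue 3 3 = 3 := by simpa using glue00 1 1
      rw [gl_zero, e0, g0, h3]
      rw [e1, g2, h2] at h1
      omega
    · right; exact three_gl_right h'
  · right; exact three_gl_left h

theorem ThX.cl {g : Pf} (h : ThX g) : Cl g := Or.inr h

theorem ThX.ne {g : Pf} (h : ThX g) : ¬ ∀ k, g k = 2 := by
  intro h2
  rcases h with h | h
  · have := h 0
    rw [h2, three_pend_zero] at this
    omega
  · rw [h2, h2] at h; omega

/-! ### closing -/

theorem three_clo_mono {P Q : ℤ → ℤ} {e e' : Bool} (h : ∀ l, E e (P l) + 3 ≤ E e' (Q l)) :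
    clo P e + 3 ≤ clo Q e' := by
  have h1 := h 1
  have h0 := h 0
  have h2 := h 2
  have a0 := glue_add (E e (P 0)) 3 1
  have a2 := glue_add (E e (P 2)) 1 1
  have b0 : glue (E e (P 0) + 3 * 1) 3 ≤ glue (E e' (Q 0)) 3 := glue_mono_left (by omega) _
  have b2 : glue (E e (P 2) + 3 * 1) 1 ≤ glue (E e' (Q 2)) 1 := glue_mono_left (by omega) _
  unfold clo
  rw [glue_comm 3 (E e (P 0)), glue_comm 1 (E e (P 2)), glue_comm 3 (E e' (Q 0)),
    glue_comm 1 (E e' (Q 2))]
  omega

theorem three_zero {gs : List Pf} {α : Pf} (hα : IsOut gs α) : α 0 = clo (base gs) false := by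
  obtain ⟨j, hj, i, P, hP, h⟩ := hα.2.1 0
  have hj0 : j = 0 := by omega
  subst hj0
  rcases h with ⟨hi, hL⟩ | ⟨hi, hL⟩
  · subst hi
    rw [hL, fw_zero hP]
  · omega

theorem three_of {gs : List Pf} {α : Pf} (hα : IsOut gs α) {i : ℕ} {P : ℤ → ℤ} (hP : Fw gs i P)
    {e : Bool} (hi : i + (if e then 1 else 0) ≤ 3)
    (h : ∀ l, E false (base gs l) + 3 ≤ E e (P l)) : α 0 + 3 ≤ α 3 := by
  rw [three_zero hα]
  refine (three_clo_mono h).trans ?_
  cases e
  · refine (hα.1 i _ ⟨i, P, hP, Or.inl ⟨rfl, rfl⟩⟩).trans (hα.2.2 ?_)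
    simpa using hi
  · refine (hα.1 (i + 1) _ ⟨i, P, hP, Or.inr ⟨rfl, rfl⟩⟩).trans (hα.2.2 ?_)
    simpa using hi

/-- a rising letter -/
theorem three_rise_key {g : Pf} (h : g 0 + 3 ≤ g 3) (x : ℤ) :
    glue x (g 0) + 3 ≤ glue x (g 3) := by
  have h2 := glue_add (g 0) x 1
  have h3 : glue (g 0 + 3 * 1) x ≤ glue (g 3) x := glue_mono_left (by omega) _
  rw [glue_comm x, glue_comm x]
  omega

theorem three_rise {xs ys : List Pf} {g : Pf} (h : g 0 + 3 ≤ g 3) {α : Pf}
    (hα : IsOut (xs ++ g :: ys) α) : α 0 + 3 ≤ α 3 := by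
  have hF : Fw (xs ++ g :: ys) 3
      (fun l => base ys (glue (E false (base xs l)) (g 3))) :=
    fw_append.mpr ⟨0, 3, base xs, fun l => base ys (glue (E false l) (g 3)), rfl, Fw.base xs,
      Fw.cons (i := 3) (j := 0) (Fop.keep 3) (Fw.base ys), rfl⟩
  refine three_of hα hF (e := false) (by simp) ?_
  intro l
  rw [base_append]
  simp only [base, three_Ef]
  have h1 := (mp_base ys).mono (three_rise_key h (base xs l + 1))
  rw [(mp_base ys).per] at h1
  omega

/-- a pendant letter: fail it and cut both edges -/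
theorem three_pend_key (l : ℤ) :
    E false (glue (E false l) 3) + 3 ≤ E true (glue (E true l) 5) := by
  simp only [three_Ef, three_Et, three_g3, three_g5]
  omega

theorem three_pend {xs ys : List Pf} {g : Pf} (h : ∀ k, g k = ex (fun _ => 2) k) {α : Pf}
    (hα : IsOut (xs ++ g :: ys) α) : α 0 + 3 ≤ α 3 := by
  have e0 : g 0 = 3 := by rw [h 0, three_pend_zero]
  have e1 : g 1 = 5 := by rw [h 1]; exact three_pend_succ 0
  cases ys with
  | nil =>
    have hF : Fw (xs ++ [g]) 2 (fun l => glue (E true (base xs l)) (g 1)) :=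
      fw_append.mpr ⟨0, 2, base xs, fun l => glue (E true l) (g 1), rfl, Fw.base xs,
        Fw.cons (i := 2) (j := 0) (Fop.cut 1) Fw.nil, rfl⟩
    refine three_of hα hF (e := true) (by simp) ?_
    intro l
    rw [base_append]
    simp only [base, e0, e1]
    exact three_pend_key _
  | cons y t =>
    have hF0 : Fw (y :: t) 1 (fun l => base t (glue (E true l) (y 0))) :=
      Fw.cons (P := fun l => glue (E true l) (y 0)) (i := 1) (j := 0) (Fop.cut 0) (Fw.base t)
    have hF : Fw (xs ++ g :: y :: t) 3
        (fun l => base t (glue (E true (glue (E true (base xs l)) (g 1))) (y 0))) :=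
      fw_append.mpr ⟨0, 3, base xs,
        fun l => base t (glue (E true (glue (E true l) (g 1))) (y 0)), rfl, Fw.base xs,
        Fw.cons (P := fun l => glue (E true l) (g 1)) (i := 2) (j := 1) (Fop.cut 1) hF0, rfl⟩
    refine three_of hα hF (e := false) (by simp) ?_
    intro l
    rw [base_append]
    simp only [base, e0, e1]
    have hk := three_pend_key (base xs l)
    have h1 := glue_mono_left hk (y 0)
    have h2 := glue_add (E false (glue (E false (base xs l)) 3)) (y 0) 1
    rw [show (3 : ℤ) * 1 = 3 by ring] at h2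
    rw [h2] at h1
    have h3 := (mp_base t).mono h1
    rw [(mp_base t).per] at h3
    have e2 := three_Ef (base t (glue (E false (glue (E false (base xs l)) 3)) (y 0)))
    have e3 := three_Ef (base t (glue (E true (glue (E true (base xs l)) 5)) (y 0)))
    omega

/-- trivial letters -/
theorem three_base_triv {gs : List Pf} (h : ∀ g ∈ gs, ∀ k, g k = 2) (l : ℤ) :
    base gs l = l + gs.length := by
  induction gs generalizing l with
  | nil => simp [base]
  | cons g gs ih =>
    simp only [base]
    rw [ih (fun g' hg' => h g' (List.mem_cons_of_mem _ hg')), h g List.mem_cons_self 0,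
      three_g2, three_Ef, List.length_cons]
    push_cast
    ring

theorem three_triv {gs : List Pf} (h : ∀ g ∈ gs, ∀ k, g k = 2) (h2 : 2 ≤ gs.length) {α : Pf}
    (hα : IsOut gs α) : α 0 + 3 ≤ α 3 := by
  have hb := three_base_triv h
  have hz := three_zero hα
  by_cases hmod : gs.length % 3 = 1
  · -- n = 3 m + 2, keep the first letter
    obtain ⟨a, t1, rfl⟩ : ∃ a t, gs = a :: t := by
      cases gs with
      | nil => simp at h2
      | cons a t => exact ⟨a, t, rfl⟩
    obtain ⟨b, t2, rfl⟩ : ∃ a t, t1 = a :: t := by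
      cases t1 with
      | nil => simp at h2
      | cons a t => exact ⟨a, t, rfl⟩
    obtain ⟨c, t, rfl⟩ : ∃ a t, t2 = a :: t := by
      cases t2 with
      | nil => simp at hmod
      | cons a t => exact ⟨a, t, rfl⟩
    have ha : a 0 = 2 := h a (by simp) 0
    have hb0 : b 0 = 2 := h b (by simp) 0
    have hc : c 0 = 2 := h c (by simp) 0
    have ht : ∀ l, base t l = l + t.length :=
      three_base_triv (fun g hg => h g (by simp [hg]))
    have hF1 : Fw (c :: t) 1 (fun l => base t (glue (E true l) (c 0))) :=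
      Fw.cons (P := fun l => glue (E true l) (c 0)) (i := 1) (j := 0) (Fop.cut 0) (Fw.base t)
    have hF2 : Fw (b :: c :: t) 2
        (fun l => base t (glue (E true (glue (E true l) (b 0))) (c 0))) :=
      Fw.cons (P := fun l => glue (E true l) (b 0)) (i := 1) (j := 1) (Fop.cut 0) hF1
    have hF : Fw (a :: b :: c :: t) 2
        (fun l => base t (glue (E true (glue (E true (glue (E false l) (a 0))) (b 0))) (c 0))) :=
      Fw.cons (P := fun l => glue (E false l) (a 0)) (i := 0) (j := 2) (Fop.keep 0) hF2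
    have hO := hα.1 3 _ ⟨2, _, hF, Or.inr ⟨rfl, rfl⟩⟩
    obtain ⟨m, hm⟩ : ∃ m : ℤ, (t.length : ℤ) = 3 * m + 1 := by
      refine ⟨(t.length : ℤ) / 3, ?_⟩
      simp only [List.length_cons] at hmod
      omega
    have hL : ((a :: b :: c :: t).length : ℤ) = 3 * m + 4 := by
      simp only [List.length_cons]; push_cast; omega
    refine le_trans ?_ hO
    rw [hz]
    simp only [three_clo, hb, ht, hL, hm, ha, hb0, hc, three_g2, three_Ef, three_Et]
    omega
  · obtain ⟨a, t1, rfl⟩ : ∃ a t, gs = a :: t := by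
      cases gs with
      | nil => simp at h2
      | cons a t => exact ⟨a, t, rfl⟩
    obtain ⟨b, t, rfl⟩ : ∃ a t, t1 = a :: t := by
      cases t1 with
      | nil => simp at h2
      | cons a t => exact ⟨a, t, rfl⟩
    have ha : a 0 = 2 := h a (by simp) 0
    have hb0 : b 0 = 2 := h b (by simp) 0
    have ht : ∀ l, base t l = l + t.length :=
      three_base_triv (fun g hg => h g (by simp [hg]))
    have hF1 : Fw (b :: t) 1 (fun l => base t (glue (E true l) (b 0))) :=
      Fw.cons (P := fun l => glue (E true l) (b 0)) (i := 1) (j := 0) (Fop.cut 0) (Fw.base t)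
    have hF : Fw (a :: b :: t) 2
        (fun l => base t (glue (E true (glue (E true l) (a 0))) (b 0))) :=
      Fw.cons (P := fun l => glue (E true l) (a 0)) (i := 1) (j := 1) (Fop.cut 0) hF1
    have hO := hα.1 3 _ ⟨2, _, hF, Or.inr ⟨rfl, rfl⟩⟩
    have hL : ((a :: b :: t).length : ℤ) = t.length + 2 := by
      simp only [List.length_cons]; push_cast; omega
    have hmod' : (t.length : ℤ) % 3 ≠ 2 := by
      simp only [List.length_cons] at hmod
      omega
    refine le_trans ?_ hO
    rw [hz]
    simp only [three_clo, hb, ht, hL, ha, hb0, three_g2, three_Ef, three_Et]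
    omega

theorem three_out {gs : List Pf} (hc : ∀ g ∈ gs, Cl g) (h2 : 2 ≤ gs.length) {α : Pf}
    (hα : IsOut gs α) : α 0 + 3 ≤ α 3 := by
  by_cases h : ∀ g ∈ gs, ∀ k, g k = 2
  · exact three_triv h h2 hα
  · push Not at h
    obtain ⟨g, hg, k, hk⟩ := h
    obtain ⟨xs, ys, rfl⟩ := List.append_of_mem hg
    rcases hc g hg with h | h | h
    · exact absurd (h k) hk
    · exact three_pend h hα
    · exact three_rise h hα

theorem core_three {G : SimpleGraph V} {R : Finset V} {𝓑 : Finset (Finset V)}
    (h : Core G R 𝓑) : ∀ f : V → Pf, (∀ w, Monotone (f w)) → (∀ w, Cl (f w)) →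
      (2 ≤ R.card ∨ ∃ v ∈ R, ¬ ∀ k, f v k = 2) → GoodW G R f 2 → ¬ GoodW G R f 3 := by
  induction h with
  | single r =>
    intro f hm hc hR h2
    have hr : ¬ ∀ k, f r k = 2 := by
      rcases hR with hR | ⟨v, hv, hv'⟩
      · simp at hR
      · rw [Finset.mem_singleton] at hv
        rwa [hv] at hv'
    rcases hc r with h | h | h
    · exact absurd h hr
    · exfalso
      rw [goodW_single hm] at h2
      have e0 : f r 0 = 3 := by rw [h 0, three_pend_zero]
      have e2 : f r 2 = 5 := by rw [h 2]; exact three_pend_succ 1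
      rw [e0, e2] at h2
      omega
    · exact goodW_dead (Finset.mem_singleton_self r) h
  | @bridge R 𝓑 v u h hv hu ha hn ih =>
    intro f hm hc hR h2
    rw [goodW_bridge hv hu ha hn hm] at h2 ⊢
    have hX : ThX (gl (f v) (ex (f u))) := three_gl (ex_mono (hm u)) (hc v) (three_ex (hc u))
    refine ih _ ?_ ?_ (Or.inr ⟨v, hv, ?_⟩) h2
    · intro w
      by_cases hw : w = v
      · subst hw; rw [Function.update_self]; exact gl_mono (hm w) (ex_mono (hm u))
      · rw [Function.update_of_ne hw]; exact hm w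
    · intro w
      by_cases hw : w = v
      · subst hw; rw [Function.update_self]; exact hX.cl
      · rw [Function.update_of_ne hw]; exact hc w
    · rw [Function.update_self]; exact hX.ne
  | @cycle R 𝓑 n c h hcyc ih =>
    intro f hm hc hR h2
    obtain ⟨α, hα⟩ := exists_isOut (win (fun i => f (c i)) 1 (n - 1)) (by
      intro g hg
      obtain ⟨j, _, rfl⟩ := mem_win.mp hg
      exact hm _)
    have h3 : α 0 + 3 ≤ α 3 := three_out (by
      intro g hg
      obtain ⟨j, _, rfl⟩ := mem_win.mp hg
      exact hc _) (by rw [win_length]; have := hcyc.hn; omega) hα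
    rw [goodW_cycle hcyc hm hα 3]
    refine goodW_dead hcyc.mem ?_
    rw [Function.update_self]
    exact three_gl_right h3

end Pool.Agent.H44.Cac
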