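import Pool.Agent.H44.Cac.Cert
import Pool.Agent.H44.Cac.BlkC
import Pool.Agent.H44.Cac.Three
import Pool.Agent.H44.Cac.Bond

/-!
# Cactus graphs with bondage number three: assembly
-/

namespace Pool.Agent.H44.Cac

open Classical

variable {V : Type*}

theorem adm_two : Adm (fun _ => 2) := by
  refine ⟨monotone_const, Or.inr ?_⟩
  constructor
  · constructor
    · norm_num
    · norm_num
    · norm_num
    · intro h; norm_num
  · intro h; simp [ty] at h
  · intro _ h; norm_num at h

theorem main_theorem [Fintype V] (G : SimpleGraph V) (hG : IsCactus G) (hV : Nontrivial V) :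
    bondage G = 3 ↔ ∃ K m q, Certificate G K m q := by
  have hc := core_of_cactus hG hV
  have h1 := core_main hc (fun _ _ => 2) (fun _ => adm_two)
  rw [bondage_eq_three]
  constructor
  · rintro ⟨h2, -⟩
    obtain ⟨K, m, q, h⟩ := h1.mp h2
    exact ⟨K, m, q, (wcert_iff G K m q).mp h⟩
  · rintro ⟨K, m, q, h⟩
    have h2 := h1.mpr ⟨K, m, q, (wcert_iff G K m q).mpr h⟩
    refine ⟨h2, core_three hc (fun _ _ => 2) (fun _ => monotone_const) (fun _ => Or.inl fun _ => rfl)
      (Or.inl ?_) h2⟩
    rw [Finset.card_univ]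
    exact Fintype.one_lt_card

end Pool.Agent.H44.Cac
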