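import Pool.Agent.H44.Cac.SprBase
import Pool.Agent.H44.Cac.WDomDefs

/-! assignments for spread words after two deletions -/

namespace Pool.Agent.H44.Cac

open Classical

section zmod

variable {n : ℕ} [NeZero n]

/-- the data: profiles, deletions on a cycle -/
structure Dt (P : ZMod n → Pf) (κ : ZMod n → ℕ) (d : ZMod n → Bool) : Prop where
  hn : 3 ≤ n
  live : ∀ x, Live (P x)
  loc : ∀ x, Loc (P (x - 2)) (P (x - 1)) (P x) (P (x + 1)) (P (x + 2))
  sp1 : ∀ x, ty (P x) = 2 → ty (P (x + 1)) ≠ 2
  sp2 : ∀ x, ty (P x) = 2 → ty (P (x + 2)) ≠ 2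
  t3 : n = 3 → ∀ x, ty (P x) = 2 → P x 1 ≤ P x 0 + 1 ∨ (cT (P (x + 1)) = 2 ∧ cT (P (x - 1)) = 2)
  t4 : n = 4 → ∀ x, ty (P x) = 2 → P x 1 ≤ P x 0 ∨ cX (P (x + 1)) (P (x + 2)) (P (x + 3)) ≠ 1
  t5 : n = 5 → ∀ x, ty (P x) = 2 → ¬ (ty (P (x + 2)) = 0 ∧ ty (P (x + 3)) = 0 ∧
    cS (P (x + 2)) = 1 ∧ cS (P (x + 3)) = 1)
  sum : ∑ x, (κ x + if d x then 1 else 0) ≤ 2

/-- dominated -/
def dmd (s : ZMod n → Prop) (d : ZMod n → Bool) (x : ZMod n) : Prop :=
  (s (x - 1) ∧ d x = false) ∨ (s (x + 1) ∧ d (x + 1) = false)

def Goal (P : ZMod n → Pf) (κ : ZMod n → ℕ) (d : ZMod n → Bool) : Prop :=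
  ∃ s : ZMod n → Prop, ∑ x, cost (P x (κ x)) (s x) (dmd s d x) ≤
    ∑ x, (P x 0 / 3 + if ty (P x) = 2 then 1 else 0)

theorem cX_comm (a x c : Pf) : cX a x c = cX c x a := by
  unfold cX
  simp only [or_comm (a := ty a = 2)]

theorem Dt.rev {P : ZMod n → Pf} {κ : ZMod n → ℕ} {d : ZMod n → Bool} (D : Dt P κ d) :
    Dt (fun x => P (-x)) (fun x => κ (-x)) (fun x => d (1 - x)) where
  hn := D.hn
  live x := D.live _
  loc x := by
    have h := D.loc (-x)
    rw [show -x - 2 = -(x + 2) by ring, show -x - 1 = -(x + 1) by ring,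
      show -x + 1 = -(x - 1) by ring, show -x + 2 = -(x - 2) by ring] at h
    refine ⟨fun h2 => (h.1 h2).symm, fun h2 => ?_⟩
    have := h.2 h2
    rw [cX_comm]
    omega
  sp1 x hx h := by
    have := D.sp1 (-(x + 1)) h
    rw [show -(x + 1) + 1 = -x by ring] at this
    exact this hx
  sp2 x hx h := by
    have := D.sp2 (-(x + 2)) h
    rw [show -(x + 2) + 2 = -x by ring] at this
    exact this hx
  t3 h3 x hx := by
    rcases D.t3 h3 (-x) hx with h | h
    · exact Or.inl h
    · right
      rw [show -(x + 1) = -x - 1 by ring, show -(x - 1) = -x + 1 by ring]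
      exact h.symm
  t4 h4 x hx := by
    rcases D.t4 h4 (-x) hx with h | h
    · exact Or.inl h
    · right
      have e : (4 : ZMod n) = 0 := by
        have := ZMod.natCast_self n
        rw [h4] at this ⊢
        exact_mod_cast this
      rw [cX_comm]
      rw [show -(x + 1) = -x + 3 by linear_combination (-1) * e,
        show -(x + 2) = -x + 2 by linear_combination (-1) * e,
        show -(x + 3) = -x + 1 by linear_combination (-1) * e]
      exact h
  t5 h5 x hx := by
    have h := D.t5 h5 (-x) hx
    have e : (5 : ZMod n) = 0 := by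
      have := ZMod.natCast_self n
      rw [h5] at this ⊢
      exact_mod_cast this
    rw [show -(x + 2) = -x + 3 by linear_combination (-1) * e,
      show -(x + 3) = -x + 2 by linear_combination (-1) * e]
    rintro ⟨a, b, c, e⟩
    exact h ⟨b, a, e, c⟩
  sum := by
    have h := D.sum
    rw [Finset.sum_add_distrib] at h ⊢
    rw [← Equiv.sum_comp (Equiv.neg (ZMod n)) κ,
      ← Equiv.sum_comp (Equiv.subLeft (1 : ZMod n)) (fun x => if d x then 1 else 0)] at h
    exact h

theorem Goal.rev {P : ZMod n → Pf} {κ : ZMod n → ℕ} {d : ZMod n → Bool}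
    (h : Goal (fun x => P (-x)) (fun x => κ (-x)) (fun x => d (1 - x))) : Goal P κ d := by
  obtain ⟨s, hs⟩ := h
  refine ⟨fun x => s (-x), ?_⟩
  rw [← Equiv.sum_comp (Equiv.neg (ZMod n)),
    ← Equiv.sum_comp (Equiv.neg (ZMod n)) (fun x => (P x 0 / 3 + if ty (P x) = 2 then (1 : ℤ) else 0))]
  refine le_trans (le_of_eq ?_) hs
  apply Finset.sum_congr rfl
  intro x _
  simp only [Equiv.neg_apply, neg_neg]
  congr 1
  apply propext
  unfold dmd
  beta_reduce
  rw [show -(-x - 1) = x + 1 by ring, show -(-x + 1) = x - 1 by ring,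
    show -x + 1 = 1 - x by ring, show 1 - (x + 1) = -x by ring]
  exact or_comm

/-- positions of the tokens -/
def tok (P : ZMod n → Pf) (Lf Rt : ZMod n → Prop) (x : ZMod n) : Prop :=
  (ty (P x) = 2 ∧ ¬ Lf x ∧ ¬ Rt x) ∨ Lf (x + 1) ∨ Rt (x - 1)

/-- the assignment -/
def sv (P : ZMod n → Pf) (κ : ZMod n → ℕ) (Lf Rt : ZMod n → Prop) (x : ZMod n) : Prop :=
  (ty (P x) = 0 ∧ κ x = 0) ∨ (tok P Lf Rt x ∧ P x (κ x) ≤ 3 * (P x 0 / 3) + 3)

/-- vertices in need -/
def need (P : ZMod n → Pf) (κ : ZMod n → ℕ) (x : ZMod n) : Prop :=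
  ty (P x) ≠ 2 ∧ 3 * (P x 0 / 3) + 2 ≤ P x (κ x)

variable {P : ZMod n → Pf} {κ : ZMod n → ℕ} {d : ZMod n → Bool}

theorem Dt.w_le (D : Dt P κ d) (s : Finset (ZMod n)) :
    ∑ x ∈ s, (κ x + if d x then 1 else 0) ≤ 2 :=
  (Finset.sum_le_sum_of_subset (Finset.subset_univ s)).trans D.sum

theorem Dt.w1 (D : Dt P κ d) (x : ZMod n) : (κ x + if d x then 1 else 0) ≤ 2 := by
  have := D.w_le {x}
  simpa using this

theorem Dt.w2 (D : Dt P κ d) {x y : ZMod n} (h : x ≠ y) :
    (κ x + if d x then 1 else 0) + (κ y + if d y then 1 else 0) ≤ 2 := by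
  have := D.w_le {x, y}
  rwa [Finset.sum_pair h] at this

theorem Dt.w3 (D : Dt P κ d) {x y z : ZMod n} (h : x ≠ y) (h' : x ≠ z) (h'' : y ≠ z) :
    (κ x + if d x then 1 else 0) + (κ y + if d y then 1 else 0) +
      (κ z + if d z then 1 else 0) ≤ 2 := by
  have := D.w_le {x, y, z}
  rw [Finset.sum_insert (by simp [h, h']), Finset.sum_pair h''] at this
  omega

theorem Dt.k2 (D : Dt P κ d) (x : ZMod n) : κ x ≤ 2 := by
  have := D.w1 x; omega

theorem Dt.lv (D : Dt P κ d) (x : ZMod n) : P x (κ x) ≤ P x 0 + 2 := by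
  have h := D.k2 x
  have l := D.live x
  have := l.le1; have := l.le2; have := l.le3
  interval_cases κ x <;> omega

theorem Dt.lv0 (D : Dt P κ d) (x : ZMod n) : P x 0 ≤ P x (κ x) := by
  have h := D.k2 x
  have l := D.live x
  have := l.le1; have := l.le2; have := l.le3
  interval_cases κ x <;> omega

theorem Dt.K0 (D : Dt P κ d) {x : ZMod n} (h : ty (P x) = 2) :
    ty (P (x - 1)) ≠ 0 ∧ ty (P (x + 1)) ≠ 0 := (D.loc x).1 h

theorem ty_cases (g : Pf) : ty g = 0 ∨ ty g = 1 ∨ ty g = 2 := by
  unfold ty; omega

theorem goal_of (D : Dt P κ d) (Lf Rt : ZMod n → Prop)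
    (hL : ∀ x, Lf x → ty (P x) = 2 ∧ P x (κ x) ≤ P x 0 ∧ d x = false)
    (hR : ∀ x, Rt x → ty (P x) = 2 ∧ P x (κ x) ≤ P x 0 ∧ d (x + 1) = false)
    (hLR : ∀ x, ¬ (Lf x ∧ Rt x))
    (hneed : ∀ x, need P κ x → tok P Lf Rt x ∨
      (P x (κ x) ≤ 3 * (P x 0 / 3) + 2 ∧ dmd (sv P κ Lf Rt) d x)) : Goal P κ d := by
  refine ⟨sv P κ Lf Rt, ?_⟩
  -- types of tokens
  have htok : ∀ x, tok P Lf Rt x → ty (P x) ≠ 0 := by
    rintro x (h | h | h)
    · rw [h.1]; decide
    · have := (D.K0 (hL _ h).1).1
      rwa [show x + 1 - 1 = x by ring] at this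
    · have := (D.K0 (hR _ h).1).2
      rwa [show x - 1 + 1 = x by ring] at this
  have hmov : ∀ x, Lf (x + 1) ∨ Rt (x - 1) → sv P κ Lf Rt x := by
    intro x h
    right
    refine ⟨Or.inr h, ?_⟩
    have h0 : ty (P x) ≠ 0 := htok x (Or.inr h)
    have h2 : ty (P x) ≠ 2 := by
      rcases h with h | h
      · intro hx
        exact D.sp1 x hx (hL _ h).1
      · intro hx
        have := D.sp1 (x - 1) (hR _ h).1
        rw [show x - 1 + 1 = x by ring] at this
        exact this hx
    have h1 : ty (P x) = 1 := by rcases ty_cases (P x) with h | h | h <;> tauto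
    have := D.lv x
    unfold ty at h1
    omega
  have hcost : ∀ x, cost (P x (κ x)) (sv P κ Lf Rt x) (dmd (sv P κ Lf Rt) d x) ≤
      P x 0 / 3 + (if tok P Lf Rt x then 1 else 0) := by
    intro x
    have lv := D.lv x
    have lv0 := D.lv0 x
    by_cases hs : sv P κ Lf Rt x
    · simp only [cost, if_pos hs]
      rcases hs with ⟨h0, h1⟩ | ⟨h0, h1⟩
      · rw [h1]
        unfold ty at h0
        split_ifs <;> omega
      · rw [if_pos h0]; omega
    · simp only [cost, if_neg hs]
      by_cases ht : tok P Lf Rt x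
      · rw [if_pos ht]
        -- tok but not s: level 3z+4
        have : ¬ P x (κ x) ≤ 3 * (P x 0 / 3) + 3 := fun h => hs (Or.inr ⟨ht, h⟩)
        have h2 : ty (P x) = 2 := by
          rcases ht with h | h
          · exact h.1
          · exact absurd (hmov x h) hs
        unfold ty at h2
        split_ifs <;> omega
      · rw [if_neg ht]
        by_cases h2 : ty (P x) = 2
        · -- token moved away
          have hm : Lf x ∨ Rt x := by
            by_contra hc
            push Not at hc
            exact ht (Or.inl ⟨h2, hc.1, hc.2⟩)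
          have hdom : dmd (sv P κ Lf Rt) d x := by
            rcases hm with h | h
            · left
              refine ⟨hmov _ (Or.inl ?_), (hL _ h).2.2⟩
              rwa [show x - 1 + 1 = x by ring]
            · right
              refine ⟨hmov _ (Or.inr ?_), (hR _ h).2.2⟩
              rwa [show x + 1 - 1 = x by ring]
          have hle : P x (κ x) ≤ P x 0 := by
            rcases hm with h | h
            · exact (hL _ h).2.1
            · exact (hR _ h).2.1
          rw [if_pos hdom]
          omega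
        · by_cases hn : need P κ x
          · rcases hneed x hn with h | ⟨h, h'⟩
            · exact absurd h ht
            · rw [if_pos h']; omega
          · have : P x (κ x) < 3 * (P x 0 / 3) + 2 := by
              by_contra hc
              exact hn ⟨h2, by omega⟩
            split_ifs <;> omega
  refine (Finset.sum_le_sum fun x _ => hcost x).trans ?_
  rw [Finset.sum_add_distrib, Finset.sum_add_distrib]
  refine add_le_add le_rfl ?_
  have e1 : ∑ x, (if tok P Lf Rt x then (1 : ℤ) else 0) ≤
      ∑ x, ((if ty (P x) = 2 ∧ ¬ Lf x ∧ ¬ Rt x then (1 : ℤ) else 0) +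
        (if Lf (x + 1) then 1 else 0) + (if Rt (x - 1) then 1 else 0)) := by
    apply Finset.sum_le_sum
    intro x _
    unfold tok
    split_ifs <;> first | omega | tauto
  refine e1.trans ?_
  have e2 : ∑ x, (if Lf (x + 1) then (1 : ℤ) else 0) = ∑ x, (if Lf x then (1 : ℤ) else 0) :=
    Equiv.sum_comp (Equiv.addRight (1 : ZMod n)) (fun x => if Lf x then (1 : ℤ) else 0)
  have e3 : ∑ x, (if Rt (x - 1) then (1 : ℤ) else 0) = ∑ x, (if Rt x then (1 : ℤ) else 0) :=
    Equiv.sum_comp (Equiv.subRight (1 : ZMod n)) (fun x => if Rt x then (1 : ℤ) else 0)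
  rw [Finset.sum_add_distrib, Finset.sum_add_distrib, e2, e3,
    ← Finset.sum_add_distrib, ← Finset.sum_add_distrib]
  apply Finset.sum_le_sum
  intro x _
  have a1 := hL x
  have a2 := hR x
  have a3 := hLR x
  split_ifs <;> first | omega | tauto

omit [NeZero n] in
/-- distinct positions -/
theorem natCast_ne {a : ℕ} (h1 : 0 < a) (h2 : a < n) : ((a : ℕ) : ZMod n) ≠ 0 := by
  intro h
  rw [ZMod.natCast_eq_zero_iff] at h
  exact absurd (Nat.le_of_dvd h1 h) (by omega)

theorem Dt.ne1 (D : Dt P κ d) (x y : ZMod n) (h : y = x + 1) : x ≠ y := by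
  intro e
  have hn := D.hn
  apply natCast_ne (n := n) (a := 1) (by norm_num) (by omega)
  push_cast
  rw [h] at e
  linear_combination -e

theorem Dt.ne2 (D : Dt P κ d) (x y : ZMod n) (h : y = x + 2) : x ≠ y := by
  intro e
  have hn := D.hn
  apply natCast_ne (n := n) (a := 2) (by norm_num) (by omega)
  push_cast
  rw [h] at e
  linear_combination -e

/-- strong from the left, from the right -/
def SL (P : ZMod n → Pf) (x : ZMod n) : Prop := ty (P (x - 1)) ≠ 1 ∨ ty (P (x - 2)) = 2
def SR (P : ZMod n → Pf) (x : ZMod n) : Prop := ty (P (x + 1)) ≠ 1 ∨ ty (P (x + 2)) = 2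

theorem Dt.str_sum (D : Dt P κ d) {x : ZMod n} (h2 : ty (P x) ≠ 2) :
    3 ≤ cX (P (x - 1)) (P x) (P (x + 1)) + (if SL P x then 1 else 0) +
      (if SR P x then 1 else 0) := by
  have hloc := (D.loc x).2 h2
  have s1 : str (P (x - 2)) (P (x - 1)) = if SL P x then 1 else 0 := by
    unfold str SL; split_ifs <;> first | rfl | tauto
  have s2 : str (P (x + 2)) (P (x + 1)) = if SR P x then 1 else 0 := by
    unfold str SR; split_ifs <;> first | rfl | tauto
  rwa [s1, s2] at hloc

omit [NeZero n] in
theorem need_pos {x : ZMod n} (h : need P κ x) : 1 ≤ κ x := by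
  by_contra hc
  have : κ x = 0 := by omega
  obtain ⟨h1, h2⟩ := h
  rw [this] at h2
  unfold ty at h1
  omega

theorem Dt.need_one (D : Dt P κ d) {x : ZMod n} (h : need P κ x) (hk : κ x = 1) :
    SL P x ∧ SR P x ∧ cX (P (x - 1)) (P x) (P (x + 1)) = 1 ∧ P x 0 + 1 ≤ P x 1 ∧
      P x (κ x) ≤ 3 * (P x 0 / 3) + 2 := by
  obtain ⟨h2, hlv⟩ := h
  have hs := D.str_sum h2
  have l := D.live x
  have l1 := l.le1; have l2 := l.le2; have l3 := l.le3; have l4 := l.no12
  rw [hk] at hlv ⊢
  have key : cX (P (x - 1)) (P x) (P (x + 1)) ≤ 1 ∧ P x 0 + 1 ≤ P x 1 ∧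
      P x 1 ≤ 3 * (P x 0 / 3) + 2 := by
    rcases ty_cases (P x) with h | h | h
    · have : cX (P (x - 1)) (P x) (P (x + 1)) = 1 := by
        unfold cX cS
        rw [if_pos h]
        unfold ty at h
        rw [if_neg (by omega), if_neg (by omega)]
      unfold ty at h
      refine ⟨this.le, by omega, by omega⟩
    · have h5 := l4 h
      have : cX (P (x - 1)) (P x) (P (x + 1)) ≤ 1 := by
        unfold cX cT cN
        rw [if_neg (by omega)]
        unfold ty at h
        split_ifs <;> omega
      unfold ty at h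
      refine ⟨this, by omega, by omega⟩
    · exact absurd h h2
  refine ⟨?_, ?_, ?_, key.2.1, key.2.2⟩
  · by_contra hc
    rw [if_neg hc] at hs
    split_ifs at hs <;> omega
  · by_contra hc
    rw [if_neg hc] at hs
    split_ifs at hs <;> omega
  · split_ifs at hs <;> omega

theorem Dt.need_two (D : Dt P κ d) {x : ZMod n} (h : need P κ x) (hk : κ x = 2)
    (hw : ty (P x) = 0 ∨ (ty (P (x - 1)) ≠ 2 ∧ ty (P (x + 1)) ≠ 2)) :
    (SL P x ∨ SR P x) ∧ P x (κ x) ≤ 3 * (P x 0 / 3) + 2 := by
  obtain ⟨h2, hlv⟩ := h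
  have hs := D.str_sum h2
  have l := D.live x
  have l1 := l.le1; have l2 := l.le2; have l3 := l.le3; have l4 := l.no12
  rw [hk] at hlv ⊢
  have key : cX (P (x - 1)) (P x) (P (x + 1)) ≤ 2 ∧
      (1 ≤ cX (P (x - 1)) (P x) (P (x + 1)) → P x 2 ≤ 3 * (P x 0 / 3) + 2) := by
    rcases ty_cases (P x) with h | h | h
    · unfold cX cS
      rw [if_pos h]
      unfold ty at h
      rw [if_neg (by omega)]
      constructor
      · split_ifs <;> omega
      · intro _; omega
    · rcases hw with hw | hw
      · omega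
      · unfold cX cN
        rw [if_neg (by omega), if_neg (by tauto)]
        unfold ty at h
        constructor
        · split_ifs <;> omega
        · split_ifs <;> intro _ <;> omega
    · exact absurd h h2
  constructor
  · by_contra hc
    push Not at hc
    rw [if_neg hc.1, if_neg hc.2] at hs
    omega
  · apply key.2
    split_ifs at hs <;> omega

/-- the left option is feasible -/
def LF (P : ZMod n → Pf) (κ : ZMod n → ℕ) (d : ZMod n → Bool) (x : ZMod n) : Prop :=
  d x = false ∧
  ((ty (P (x - 1)) = 0 ∧ κ (x - 1) = 0) ∨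
   (ty (P (x - 1)) = 2 ∧ P (x - 1) (κ (x - 1)) ≤ 3 * (P (x - 1) 0 / 3) + 3) ∨
   (ty (P (x - 1)) = 1 ∧ ty (P (x - 2)) = 2 ∧ P (x - 2) (κ (x - 2)) ≤ P (x - 2) 0 ∧
      d (x - 1) = false))

/-- the right option is feasible -/
def RF (P : ZMod n → Pf) (κ : ZMod n → ℕ) (d : ZMod n → Bool) (x : ZMod n) : Prop :=
  d (x + 1) = false ∧
  ((ty (P (x + 1)) = 0 ∧ κ (x + 1) = 0) ∨
   (ty (P (x + 1)) = 2 ∧ P (x + 1) (κ (x + 1)) ≤ 3 * (P (x + 1) 0 / 3) + 3) ∨
   (ty (P (x + 1)) = 1 ∧ ty (P (x + 2)) = 2 ∧ P (x + 2) (κ (x + 2)) ≤ P (x + 2) 0 ∧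
      d (x + 2) = false))

theorem Dt.left_goal (D : Dt P κ d) {x : ZMod n} (hx : P x (κ x) ≤ 3 * (P x 0 / 3) + 2)
    (hu : ∀ y, need P κ y → y = x) (h : LF P κ d x) : Goal P κ d := by
  obtain ⟨hd, h | h | h⟩ := h
  · refine goal_of D (fun _ => False) (fun _ => False) (by simp) (by simp) (by simp) ?_
    intro y hy
    rw [hu y hy]
    exact Or.inr ⟨hx, Or.inl ⟨Or.inl h, hd⟩⟩
  · refine goal_of D (fun _ => False) (fun _ => False) (by simp) (by simp) (by simp) ?_
    intro y hy
    rw [hu y hy]
    exact Or.inr ⟨hx, Or.inl ⟨Or.inr ⟨Or.inl ⟨h.1, not_false, not_false⟩, h.2⟩, hd⟩⟩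
  · refine goal_of D (fun _ => False) (fun y => y = x - 2) (by simp) ?_ (by simp) ?_
    · rintro y rfl
      rw [show x - 2 + 1 = x - 1 by ring]
      exact h.2
    · intro y hy
      rw [hu y hy]
      refine Or.inr ⟨hx, Or.inl ⟨Or.inr ⟨Or.inr (Or.inr ?_), ?_⟩, hd⟩⟩
      · ring
      · have := D.lv (x - 1)
        have h1 := h.1
        unfold ty at h1
        omega

theorem Dt.right_goal (D : Dt P κ d) {x : ZMod n} (hx : P x (κ x) ≤ 3 * (P x 0 / 3) + 2)
    (hu : ∀ y, need P κ y → y = x) (h : RF P κ d x) : Goal P κ d := by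
  apply Goal.rev
  apply D.rev.left_goal (x := -x)
  · simpa using hx
  · intro y hy
    have := hu (-y) hy
    rw [← this]; ring
  · unfold LF
    beta_reduce
    rw [show (1 : ZMod n) - -x = x + 1 by ring, show (1 : ZMod n) - (-x - 1) = x + 2 by ring,
      show -(-x - 1) = x + 1 by ring, show -(-x - 2) = x + 2 by ring]
    exact h

theorem Dt.single (D : Dt P κ d) {x : ZMod n} (hx : need P κ x)
    (hu : ∀ y, need P κ y → y = x) : Goal P κ d := by
  have hpos := need_pos hx
  have hk2 := D.k2 x
  have n1 : x ≠ x + 1 := D.ne1 _ _ rfl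
  have n2 : x - 1 ≠ x := D.ne1 _ _ (by ring)
  have n3 : x ≠ x + 2 := D.ne2 _ _ rfl
  have n4 : x - 2 ≠ x := D.ne2 _ _ (by ring)
  have n5 : x - 1 ≠ x + 1 := D.ne2 _ _ (by ring)
  rcases (by omega : κ x = 2 ∨ κ x = 1) with hk | hk
  · have hd : d x = false := by
      have := D.w1 x
      cases hdx : d x
      · rfl
      · rw [hdx, hk] at this; simp at this
    have ho : ∀ y, x ≠ y → κ y = 0 ∧ d y = false := by
      intro y hy
      have := D.w2 hy
      rw [hk] at this
      constructor
      · omega
      · cases hdy : d y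
        · rfl
        · rw [hdy] at this; simp at this; omega
    by_cases hw : ty (P x) = 0 ∨ (ty (P (x - 1)) ≠ 2 ∧ ty (P (x + 1)) ≠ 2)
    · obtain ⟨h1, h2⟩ := D.need_two hx hk hw
      rcases h1 with h1 | h1
      · apply D.left_goal h2 hu
        refine ⟨hd, ?_⟩
        rcases ty_cases (P (x - 1)) with t | t | t
        · exact Or.inl ⟨t, (ho _ n2.symm).1⟩
        · right; right
          refine ⟨t, ?_, ?_, (ho _ n2.symm).2⟩
          · rcases h1 with h1 | h1
            · exact absurd t h1
            · exact h1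
          · rw [(ho _ n4.symm).1]
        · right; left
          refine ⟨t, ?_⟩
          rw [(ho _ n2.symm).1]
          unfold ty at t
          omega
      · apply D.right_goal h2 hu
        refine ⟨(ho _ n1).2, ?_⟩
        rcases ty_cases (P (x + 1)) with t | t | t
        · exact Or.inl ⟨t, (ho _ n1).1⟩
        · right; right
          refine ⟨t, ?_, ?_, (ho _ n3).2⟩
          · rcases h1 with h1 | h1
            · exact absurd t h1
            · exact h1
          · rw [(ho _ n3).1]
        · right; left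
          refine ⟨t, ?_⟩
          rw [(ho _ n1).1]
          unfold ty at t
          omega
    · push Not at hw
      obtain ⟨hw1, hw2⟩ := hw
      by_cases hl : ty (P (x - 1)) = 2
      · refine goal_of D (fun _ => False) (fun y => y = x - 1) (by simp) ?_ (by simp) ?_
        · rintro y rfl
          rw [show x - 1 + 1 = x by ring, (ho _ n2.symm).1]
          exact ⟨hl, le_rfl, hd⟩
        · intro y hy
          rw [hu y hy]
          exact Or.inl (Or.inr (Or.inr rfl))
      · have hr := hw2 hl
        refine goal_of D (fun y => y = x + 1) (fun _ => False) ?_ (by simp) (by simp) ?_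
        · rintro y rfl
          rw [(ho _ n1).1]
          exact ⟨hr, le_rfl, (ho _ n1).2⟩
        · intro y hy
          rw [hu y hy]
          exact Or.inl (Or.inr (Or.inl rfl))
  · obtain ⟨hSL, hSR, hcX, hP, hlv⟩ := D.need_one hx hk
    by_contra hg
    have hnL : ¬ LF P κ d x := fun h => hg (D.left_goal hlv hu h)
    have hnR : ¬ RF P κ d x := fun h => hg (D.right_goal hlv hu h)
    -- distances
    have e3 : (3 : ZMod n) = 0 → n = 3 := by
      intro h
      have h' : ((3 : ℕ) : ZMod n) = 0 := by exact_mod_cast h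
      rw [ZMod.natCast_eq_zero_iff] at h'
      have := Nat.le_of_dvd (by norm_num) h'
      have := D.hn
      omega
    have e4 : (4 : ZMod n) = 0 → n = 4 := by
      intro h
      have h' : ((4 : ℕ) : ZMod n) = 0 := by exact_mod_cast h
      rw [ZMod.natCast_eq_zero_iff] at h'
      have h5 := Nat.le_of_dvd (by norm_num) h'
      have := D.hn
      have : n ≠ 3 := by rintro rfl; revert h'; decide
      omega
    have t1 : ty (P x) = 1 → (ty (P (x - 1)) = 2 ∨ ty (P (x + 1)) = 2) → cT (P x) = 1 := by
      intro ha hb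
      unfold cX at hcX
      rwa [if_neg (by omega), if_pos hb] at hcX
    have nx2 : ty (P x) ≠ 2 := hx.1
    -- left damage
    have left : (d x = true) ∨
        (1 ≤ (κ (x - 1) + if d (x - 1) then 1 else 0) ∧ ty (P (x - 1)) ≠ 2) ∨
        (ty (P (x - 1)) = 2 ∧ 1 ≤ κ (x - 1) ∧
          3 * (P (x - 1) 0 / 3) + 3 < P (x - 1) (κ (x - 1))) ∨
        (ty (P (x - 1)) = 1 ∧ ty (P (x - 2)) = 2 ∧ 1 ≤ κ (x - 2) ∧
          P (x - 2) 0 < P (x - 2) (κ (x - 2))) := by
      by_contra hc
      push Not at hc
      obtain ⟨c1, c2, c3, c4⟩ := hc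
      apply hnL
      refine ⟨by simpa using c1, ?_⟩
      rcases ty_cases (P (x - 1)) with t | t | t
      · left
        refine ⟨t, ?_⟩
        by_contra h0
        exact absurd (c2 (by omega)) (by omega)
      · right; right
        have hK : ty (P (x - 2)) = 2 := by
          rcases hSL with h | h
          · exact absurd t h
          · exact h
        refine ⟨t, hK, ?_, ?_⟩
        · by_contra h0
          have : 1 ≤ κ (x - 2) := by
            by_contra h1
            have h1 : κ (x - 2) = 0 := by omega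
            rw [h1] at h0
            exact h0 le_rfl
          exact h0 (c4 t hK this)
        · by_contra h0
          have h0 : d (x - 1) = true := by simpa using h0
          rw [h0] at c2
          exact absurd (c2 (by simp)) (by omega)
      · right; left
        refine ⟨t, ?_⟩
        by_contra h0
        have : 1 ≤ κ (x - 1) := by
          by_contra h1
          have h1 : κ (x - 1) = 0 := by omega
          rw [h1] at h0
          unfold ty at t
          omega
        exact h0 (c3 t this)
    have right : (1 ≤ (κ (x + 1) + if d (x + 1) then 1 else 0) ∧ ty (P (x + 1)) ≠ 2) ∨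
        (ty (P (x + 1)) = 2 ∧ (d (x + 1) = true ∨ (1 ≤ κ (x + 1) ∧
          3 * (P (x + 1) 0 / 3) + 3 < P (x + 1) (κ (x + 1))))) ∨
        (ty (P (x + 1)) = 1 ∧ ty (P (x + 2)) = 2 ∧ (d (x + 2) = true ∨ (1 ≤ κ (x + 2) ∧
          P (x + 2) 0 < P (x + 2) (κ (x + 2))))) := by
      by_contra hc
      push Not at hc
      obtain ⟨c2, c3, c4⟩ := hc
      apply hnR
      have hd1 : d (x + 1) = false := by
        by_contra h0
        have h0 : d (x + 1) = true := by simpa using h0
        rw [h0] at c2
        have t := c2 (by simp)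
        exact (c3 t).1 h0
      refine ⟨hd1, ?_⟩
      rcases ty_cases (P (x + 1)) with t | t | t
      · left
        refine ⟨t, ?_⟩
        by_contra h0
        exact absurd (c2 (by omega)) (by omega)
      · right; right
        have hK : ty (P (x + 2)) = 2 := by
          rcases hSR with h | h
          · exact absurd t h
          · exact h
        have c5 := c4 t hK
        refine ⟨t, hK, ?_, by simpa using c5.1⟩
        by_contra h0
        have : 1 ≤ κ (x + 2) := by
          by_contra h1
          have h1 : κ (x + 2) = 0 := by omega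
          rw [h1] at h0
          exact h0 le_rfl
        exact h0 (c5.2 this)
      · right; left
        refine ⟨t, ?_⟩
        by_contra h0
        have : 1 ≤ κ (x + 1) := by
          by_contra h1
          have h1 : κ (x + 1) = 0 := by omega
          rw [h1] at h0
          unfold ty at t
          omega
        exact h0 ((c3 t).2 this)
    -- positions of the right damage
    have right' : (1 ≤ (κ (x + 1) + if d (x + 1) then 1 else 0)) ∨
        (1 ≤ (κ (x + 2) + if d (x + 2) then 1 else 0) ∧ ty (P (x + 2)) = 2 ∧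
          ty (P (x + 1)) = 1) := by
      rcases right with h | ⟨h, h' | h'⟩ | ⟨h, h', h'' | h''⟩
      · exact Or.inl h.1
      · left; rw [h']; simp
      · left; omega
      · right; refine ⟨?_, h', h⟩; rw [h'']; simp
      · right; refine ⟨?_, h', h⟩; omega
    have w1 := D.w1 x
    rcases left with hl | ⟨hl, hl'⟩ | ⟨hl, hl', hl''⟩ | ⟨hl, hl', hl'', hl3⟩
    · rw [hl, hk] at w1
      rcases right' with hr | ⟨hr, -⟩
      · have := D.w2 n1
        rw [hl, hk] at this; simp only [if_true] at this; omega
      · have := D.w2 n3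
        rw [hl, hk] at this; simp only [if_true] at this; omega
    · rcases right' with hr | ⟨hr, hr', -⟩
      · have := D.w3 n2.symm n1 n5
        rw [hk] at this; omega
      · by_cases e : x - 1 = x + 2
        · rw [← e] at hr'; exact hl' hr'
        · have := D.w3 n2.symm n3 e
          rw [hk] at this; omega
    · -- x-1 critical, failed
      have hkl : κ (x - 1) = 1 := by
        have := D.w2 n2.symm
        rw [hk] at this; omega
      have hx1 : ty (P x) = 1 := by
        rcases ty_cases (P x) with t | t | t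
        · have := (D.K0 hl).2
          rw [show x - 1 + 1 = x by ring] at this
          exact absurd t this
        · exact t
        · exact absurd t nx2
      rcases right' with hr | ⟨hr, hr', -⟩
      · have := D.w3 n2.symm n1 n5
        rw [hk] at this; omega
      · by_cases e : x - 1 = x + 2
        · have h3 : (3 : ZMod n) = 0 := by linear_combination -e
          rcases D.t3 (e3 h3) (x - 1) hl with h | h
          · rw [hkl] at hl''
            unfold ty at hl
            omega
          · have h4 := h.1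
            rw [show x - 1 + 1 = x by ring] at h4
            have := t1 hx1 (Or.inl hl)
            omega
        · have := D.w3 n2.symm n3 e
          rw [hk] at this; omega
    · -- x-2 critical, failed
      have hkl : κ (x - 2) = 1 := by
        have := D.w2 n4.symm
        rw [hk] at this; omega
      by_cases e : x - 2 = x + 1
      · -- n = 3
        have h3 : (3 : ZMod n) = 0 := by linear_combination -e
        rw [← e] at right
        rcases right with ⟨-, h⟩ | ⟨h, h'⟩ | ⟨h, -⟩
        · exact h hl'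
        · have hx1 : ty (P x) = 1 := by
            rcases ty_cases (P x) with t | t | t
            · have := (D.K0 hl').1
              rw [e, show x + 1 - 1 = x by ring] at this
              exact absurd t this
            · exact t
            · exact absurd t nx2
          have hcT := t1 hx1 (Or.inr (by rw [← e]; exact hl'))
          rcases h' with h' | ⟨-, h'⟩
          · have := D.w2 n4.symm
            rw [hk, hkl, h'] at this
            simp at this
          · rcases D.t3 (e3 h3) (x - 2) hl' with h5 | h5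
            · rw [hkl] at h'
              unfold ty at hl'
              omega
            · have h4 := h5.2
              rw [e, show x + 1 - 1 = x by ring] at h4
              omega
        · omega
      · by_cases e' : x - 2 = x + 2
        · have h4 : (4 : ZMod n) = 0 := by linear_combination -e'
          rcases D.t4 (e4 h4) (x - 2) hl' with h5 | h5
          · rw [hkl] at hl3
            omega
          · rw [show x - 2 + 1 = x - 1 by ring, show x - 2 + 2 = x by ring,
              show x - 2 + 3 = x + 1 by ring] at h5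
            exact h5 hcX
        · rcases right' with hr | ⟨hr, -, -⟩
          · have := D.w3 n4.symm n1 e
            rw [hk, hkl] at this; omega
          · have := D.w3 n4.symm n3 e'
            rw [hk, hkl] at this; omega

/-- two vertices in need, not adjacent -/
theorem Dt.two_far (D : Dt P κ d) {x y : ZMod n} (hx : need P κ x) (hy : need P κ y)
    (hxy : x ≠ y) (h1 : y ≠ x + 1) (h2 : x ≠ y + 1) : Goal P κ d := by
  have px := need_pos hx
  have py := need_pos hy
  have w2 := D.w2 hxy
  have kx : κ x = 1 := by omega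
  have ky : κ y = 1 := by omega
  have dx : d x = false := by
    cases h : d x
    · rfl
    · rw [h, kx, ky] at w2; simp at w2
  have dy : d y = false := by
    cases h : d y
    · rfl
    · rw [h, kx, ky] at w2; simp at w2
  have ho : ∀ z, x ≠ z → y ≠ z → κ z = 0 ∧ d z = false := by
    intro z hz hz'
    have := D.w3 hxy hz hz'
    rw [kx, ky] at this
    constructor
    · omega
    · cases h : d z
      · rfl
      · rw [h] at this; simp at this; omega
  have hall : ∀ z, d z = false := by
    intro z
    by_cases e : x = z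
    · rw [← e]; exact dx
    · by_cases e' : y = z
      · rw [← e']; exact dy
      · exact (ho z e e').2
  obtain ⟨hSL, hSR, hcX, hP, hlv⟩ := D.need_one hx kx
  obtain ⟨hSL', hSR', hcX', hP', hlv'⟩ := D.need_one hy ky
  have hK : ∀ z, ty (P z) = 2 → κ z = 0 := by
    intro z hz
    refine (ho z ?_ ?_).1
    · rintro rfl; exact hx.1 hz
    · rintro rfl; exact hy.1 hz
  refine goal_of D (fun _ => False) (fun z => (z = x - 2 ∧ ty (P (x - 1)) = 1) ∨
    (z = y - 2 ∧ ty (P (y - 1)) = 1)) (by simp) ?_ (by simp) ?_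
  · rintro z (⟨rfl, h⟩ | ⟨rfl, h⟩)
    · have hz : ty (P (x - 2)) = 2 := by
        rcases hSL with h' | h'
        · exact absurd h h'
        · exact h'
      rw [hK _ hz]
      exact ⟨hz, le_rfl, hall _⟩
    · have hz : ty (P (y - 2)) = 2 := by
        rcases hSL' with h' | h'
        · exact absurd h h'
        · exact h'
      rw [hK _ hz]
      exact ⟨hz, le_rfl, hall _⟩
  · have key : ∀ a b : ZMod n, need P κ a → a ≠ b → b ≠ a + 1 → a ≠ b + 1 →
        P a (κ a) ≤ 3 * (P a 0 / 3) + 2 → SL P a →
        (∀ z, a ≠ z → b ≠ z → κ z = 0) →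
        sv P κ (fun _ => False) (fun z => (z = a - 2 ∧ ty (P (a - 1)) = 1) ∨
          (z = b - 2 ∧ ty (P (b - 1)) = 1)) (a - 1) := by
      intro a b ha hab hb1 hb2 hla hSa hoa
      have n2 : a ≠ a - 1 := (D.ne1 (a - 1) a (by ring)).symm
      have hb3 : b ≠ a - 1 := by
        intro e; apply hb2; rw [e]; ring
      have k0 := hoa (a - 1) n2 hb3
      rcases ty_cases (P (a - 1)) with t | t | t
      · exact Or.inl ⟨t, k0⟩
      · right
        constructor
        · right; right; left
          exact ⟨by ring, t⟩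
        · rw [k0]; unfold ty at t; omega
      · right
        constructor
        · left
          refine ⟨t, not_false, ?_⟩
          rintro (⟨h, -⟩ | ⟨h, -⟩)
          · apply D.ne1 (a - 2) (a - 1) (by ring)
            exact h.symm
          · apply hb1
            linear_combination -h
        · rw [k0]; unfold ty at t; omega
    intro z hz
    have pz := need_pos hz
    by_cases e : x = z
    · subst e
      refine Or.inr ⟨hlv, Or.inl ⟨?_, dx⟩⟩
      exact key x y hx hxy h1 h2 hlv hSL (fun z a b => (ho z a b).1)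
    · by_cases e' : y = z
      · subst e'
        refine Or.inr ⟨hlv', Or.inl ⟨?_, dy⟩⟩
        have := key y x hy hxy.symm h2 h1 hlv' hSL' (fun z a b => (ho z b a).1)
        have e5 : (fun z => (z = x - 2 ∧ ty (P (x - 1)) = 1) ∨ (z = y - 2 ∧ ty (P (y - 1)) = 1)) =
          (fun z => (z = y - 2 ∧ ty (P (y - 1)) = 1) ∨ (z = x - 2 ∧ ty (P (x - 1)) = 1)) := by
          funext z; exact propext or_comm
        rw [e5]
        exact this
      · have := (ho z e e').1
        omega

/-- two vertices in need, adjacent -/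
theorem Dt.two_near (D : Dt P κ d) {x : ZMod n} (hx : need P κ x) (hy : need P κ (x + 1)) :
    Goal P κ d := by
  have hxy : x ≠ x + 1 := D.ne1 _ _ rfl
  have px := need_pos hx
  have py := need_pos hy
  have w2 := D.w2 hxy
  have kx : κ x = 1 := by omega
  have ky : κ (x + 1) = 1 := by omega
  have dx : d x = false := by
    cases h : d x
    · rfl
    · rw [h, kx, ky] at w2; simp at w2
  have dy : d (x + 1) = false := by
    cases h : d (x + 1)
    · rfl
    · rw [h, kx, ky] at w2; simp at w2
  have ho : ∀ z, x ≠ z → x + 1 ≠ z → κ z = 0 ∧ d z = false := by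
    intro z hz hz'
    have := D.w3 hxy hz hz'
    rw [kx, ky] at this
    constructor
    · omega
    · cases h : d z
      · rfl
      · rw [h] at this; simp at this; omega
  have hall : ∀ z, d z = false := by
    intro z
    by_cases e : x = z
    · rw [← e]; exact dx
    · by_cases e' : x + 1 = z
      · rw [← e']; exact dy
      · exact (ho z e e').2
  obtain ⟨hSL, hSR, hcX, hP, hlv⟩ := D.need_one hx kx
  obtain ⟨hSL', hSR', hcX', hP', hlv'⟩ := D.need_one hy ky
  unfold SR at hSR'
  unfold SL at hSL'
  rw [show x + 1 - 1 = x by ring, show x + 1 - 2 = x - 1 by ring] at hSL'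
  rw [show x + 1 + 1 = x + 2 by ring, show x + 1 + 2 = x + 3 by ring] at hSR'
  rw [show x + 1 - 1 = x by ring, show x + 1 + 1 = x + 2 by ring] at hcX'
  have hK : ∀ z, ty (P z) = 2 → κ z = 0 := by
    intro z hz
    refine (ho z ?_ ?_).1
    · rintro rfl; exact hx.1 hz
    · rintro rfl; exact hy.1 hz
  have hneeds : ∀ z, need P κ z → z = x ∨ z = x + 1 := by
    intro z hz
    have pz := need_pos hz
    by_contra hc
    push Not at hc
    have := (ho z hc.1.symm hc.2.symm).1
    omega
  by_cases A1 : ty (P (x - 1)) = 2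
  · refine goal_of D (fun _ => False) (fun z => z = x - 1) (by simp) ?_ (by simp) ?_
    · rintro z rfl
      rw [hK _ A1]
      exact ⟨A1, le_rfl, hall _⟩
    · intro z hz
      rcases hneeds z hz with rfl | rfl
      · exact Or.inl (Or.inr (Or.inr rfl))
      · refine Or.inr ⟨hlv', Or.inl ⟨Or.inr ⟨Or.inr (Or.inr ?_), ?_⟩, dy⟩⟩
        · ring
        · rw [show x + 1 - 1 = x by ring]; omega
  by_cases A2 : ty (P (x + 2)) = 2
  · refine goal_of D (fun z => z = x + 2) (fun _ => False) ?_ (by simp) (by simp) ?_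
    · rintro z rfl
      rw [hK _ A2]
      exact ⟨A2, le_rfl, hall _⟩
    · intro z hz
      rcases hneeds z hz with rfl | rfl
      · refine Or.inr ⟨hlv, Or.inr ⟨Or.inr ⟨Or.inr (Or.inl ?_), ?_⟩, dy⟩⟩
        · ring
        · omega
      · refine Or.inl (Or.inr (Or.inl ?_))
        ring
  · refine goal_of D (fun z => z = x + 3 ∧ ty (P (x + 2)) = 1)
      (fun z => z = x - 2 ∧ ty (P (x - 1)) = 1) ?_ ?_ ?_ ?_
    · rintro z ⟨rfl, h⟩
      have hz : ty (P (x + 3)) = 2 := by
        rcases hSR' with h' | h'
        · exact absurd h h'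
        · exact h'
      rw [hK _ hz]
      exact ⟨hz, le_rfl, hall _⟩
    · rintro z ⟨rfl, h⟩
      have hz : ty (P (x - 2)) = 2 := by
        rcases hSL with h' | h'
        · exact absurd h h'
        · exact h'
      rw [hK _ hz]
      exact ⟨hz, le_rfl, hall _⟩
    · rintro z ⟨⟨h1, h2⟩, h3, h4⟩
      have h5 : (5 : ZMod n) = 0 := by linear_combination h3 - h1
      have hn5 : n = 5 := by
        have h' : ((5 : ℕ) : ZMod n) = 0 := by exact_mod_cast h5
        rw [ZMod.natCast_eq_zero_iff] at h'
        have h6 := Nat.le_of_dvd (by norm_num) h'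
        have := D.hn
        have : n ≠ 3 := by rintro rfl; revert h'; decide
        have : n ≠ 4 := by rintro rfl; revert h'; decide
        omega
      have hz : ty (P (x - 2)) = 2 := by
        rcases hSL with h' | h'
        · exact absurd h4 h'
        · exact h'
      have tx : ty (P x) = 0 := by
        rcases ty_cases (P x) with t | t | t
        · exact t
        · rcases hSL' with h' | h'
          · exact absurd t h'
          · omega
        · exact absurd t hx.1
      have txy : ty (P (x + 1)) = 0 := by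
        rcases ty_cases (P (x + 1)) with t | t | t
        · exact t
        · rcases hSR with h' | h'
          · exact absurd t h'
          · omega
        · exact absurd t hy.1
      apply D.t5 hn5 (x - 2) hz
      rw [show x - 2 + 2 = x by ring, show x - 2 + 3 = x + 1 by ring]
      unfold cX at hcX hcX'
      rw [if_pos tx] at hcX
      rw [if_pos txy] at hcX'
      exact ⟨tx, txy, hcX, hcX'⟩
    · have n2 : x ≠ x - 1 := (D.ne1 (x - 1) x (by ring)).symm
      have n3 : x + 1 ≠ x - 1 := (D.ne2 (x - 1) (x + 1) (by ring)).symm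
      have n4 : x ≠ x + 2 := D.ne2 _ _ rfl
      have n5 : x + 1 ≠ x + 2 := D.ne1 _ _ (by ring)
      intro z hz
      rcases hneeds z hz with rfl | rfl
      · refine Or.inr ⟨hlv, Or.inl ⟨?_, dx⟩⟩
        have k0 := (ho _ n2 n3).1
        rcases ty_cases (P (z - 1)) with t | t | t
        · exact Or.inl ⟨t, k0⟩
        · refine Or.inr ⟨Or.inr (Or.inr ⟨by ring, t⟩), ?_⟩
          rw [k0]; unfold ty at t; omega
        · exact absurd t A1
      · refine Or.inr ⟨hlv', Or.inr ⟨?_, hall _⟩⟩
        have k0 := (ho _ n4 n5).1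
        rw [show x + 1 + 1 = x + 2 by ring]
        rcases ty_cases (P (x + 2)) with t | t | t
        · exact Or.inl ⟨t, k0⟩
        · refine Or.inr ⟨Or.inr (Or.inl ⟨by ring, t⟩), ?_⟩
          rw [k0]; unfold ty at t; omega
        · exact absurd t A2

theorem Dt.goal (D : Dt P κ d) : Goal P κ d := by
  by_cases h : ∃ x, need P κ x
  · obtain ⟨x, hx⟩ := h
    by_cases h' : ∀ y, need P κ y → y = x
    · exact D.single hx h'
    · push Not at h'
      obtain ⟨y, hy, hne⟩ := h'
      by_cases e : y = x + 1
      · rw [e] at hy; exact D.two_near hx hy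
      · by_cases e' : x = y + 1
        · rw [e'] at hx; exact D.two_near hy hx
        · exact D.two_far hx hy hne.symm e e'
  · push Not at h
    exact goal_of D (fun _ => False) (fun _ => False) (by simp) (by simp) (by simp)
      (fun x hx => absurd hx (h x))

theorem sum_zmod {M : Type*} [AddCommMonoid M] (f : ℕ → M) :
    ∑ i ∈ Finset.range n, f i = ∑ x : ZMod n, f x.val := by
  symm
  refine Finset.sum_nbij' (fun x => x.val) (fun i => (i : ZMod n)) ?_ ?_ ?_ ?_ ?_
  · intro x _; exact Finset.mem_range.mpr (ZMod.val_lt x)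
  · intro i _; exact Finset.mem_univ _
  · intro x _; exact ZMod.natCast_zmod_val x
  · intro i hi; exact ZMod.val_natCast_of_lt (Finset.mem_range.mp hi)
  · intro x _; rfl

omit [NeZero n] in
/-- transfer of a periodic sequence -/
theorem zP {α : Type*} {f : ℕ → α} (hf : ∀ i, f (i + n) = f i) (i : ℕ) :
    f (i : ZMod n).val = f i := by
  rw [ZMod.val_natCast]
  exact Function.Periodic.map_mod_nat hf i

theorem zc (x : ZMod n) (k : ℕ) (hn : 3 ≤ n) :
    ((x.val + (n - 2) + k : ℕ) : ZMod n) = x + k - 2 := by
  have : ((n - 2 : ℕ) : ZMod n) = -2 := by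
    rw [Nat.cast_sub (by omega), ZMod.natCast_self]
    push_cast; ring
  push_cast
  rw [this, ZMod.natCast_zmod_val]
  ring

theorem zK {p : ℕ → Pf} (hn : n = 3 ∨ n = 4 ∨ n = 5) {x : ZMod n} (hx : ty (p x.val) = 2)
    (s1 : ∀ x : ZMod n, ty (p x.val) = 2 → ty (p (x + 1).val) ≠ 2)
    (s2 : ∀ x : ZMod n, ty (p x.val) = 2 → ty (p (x + 2).val) ≠ 2) : nK p n = 1 := by
  have e : nK p n = ∑ y : ZMod n, if ty (p y.val) = 2 then 1 else 0 := by
    unfold nK
    rw [Finset.card_filter, sum_zmod (fun i => if ty (p i) = 2 then 1 else 0)]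
  have key : ∀ y : ZMod n, ty (p y.val) = 2 → y = x := by
    intro y hy
    by_contra hne
    have c : (y = x + 1 ∨ y = x + 2) ∨ (x = y + 1 ∨ x = y + 2) := by
      clear hy hx s1 s2 e
      rcases hn with rfl | rfl | rfl
      · revert x y; decide
      · revert x y; decide
      · revert x y; decide
    rcases c with (rfl | rfl) | (rfl | rfl)
    · exact s1 x hx hy
    · exact s2 x hx hy
    · exact s1 y hy hx
    · exact s2 y hy hx
  rw [e, Finset.sum_eq_single x]
  · rw [if_pos hx]
  · intro y _ hy
    rw [if_neg (fun h => hy (key y h))]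
  · intro h; exact absurd (Finset.mem_univ x) h

end zmod

theorem serve {p : ℕ → Pf} {n : ℕ} (hn : 3 ≤ n) (hp : ∀ i, p (i + n) = p i)
    (hl : ∀ i, Live (p i))
    (hloc : ∀ i, Loc (p i) (p (i + 1)) (p (i + 2)) (p (i + 3)) (p (i + 4)))
    (h : AllW p ∨ Spr p n) {d : ℕ → Bool} {κ : ℕ → ℕ} (hd : ∀ i, d (i + n) = d i)
    (hκ : ∀ i, κ (i + n) = κ i)
    (hs : (∑ i ∈ Finset.range n, (κ i + if d i then 1 else 0)) ≤ 2) :
    ∃ s : ℕ → Prop, (∀ i, s (i + n) ↔ s i) ∧
      ∑ i ∈ Finset.range n, cost (p i (κ i)) (s i)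
        ((s (i + (n - 1)) ∧ d i = false) ∨ (s (i + 1) ∧ d (i + 1) = false)) ≤ c0 p n := by
  have : NeZero n := ⟨by omega⟩
  have hsp : ∀ i, ty (p i) = 2 → ty (p (i + 1)) ≠ 2 ∧ ty (p (i + 2)) ≠ 2 := by
    rcases h with h | h
    · exact fun i _ => ⟨h _, h _⟩
    · exact h.2.1
  have ev : ∀ (x : ZMod n) (k : ℕ), p (x + k).val = p (x.val + k) := by
    intro x k
    rw [← zP hp (x.val + k)]
    congr 2
    push_cast
    rw [ZMod.natCast_zmod_val]
  have ev1 : ∀ (x : ZMod n), p (x + 1).val = p (x.val + 1) := by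
    intro x; have := ev x 1; simpa using this
  have ev2 : ∀ (x : ZMod n), p (x + 2).val = p (x.val + 2) := by
    intro x; have := ev x 2; simpa using this
  have ev3 : ∀ (x : ZMod n), p (x + 3).val = p (x.val + 3) := by
    intro x; have := ev x 3; simpa using this
  have s1 : ∀ x : ZMod n, ty (p x.val) = 2 → ty (p (x + 1).val) ≠ 2 := by
    intro x hx
    rw [ev1]
    exact (hsp _ hx).1
  have s2 : ∀ x : ZMod n, ty (p x.val) = 2 → ty (p (x + 2).val) ≠ 2 := by
    intro x hx
    rw [ev2]
    exact (hsp _ hx).2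
  have D : Dt (fun x : ZMod n => p x.val) (fun x => κ x.val) (fun x => d x.val) := by
    refine ⟨hn, fun x => hl _, ?_, s1, s2, ?_, ?_, ?_, ?_⟩
    · intro x
      have h := hloc (x.val + (n - 2))
      have e : ∀ k : ℕ, p (x.val + (n - 2) + k) = p (x + k - 2).val := by
        intro k
        rw [← zP hp (x.val + (n - 2) + k), zc x k hn]
      have e0 := e 0
      have e1 := e 1
      have e2 := e 2
      have e3 := e 3
      have e4 := e 4
      rw [show x + ((0 : ℕ) : ZMod n) - 2 = x - 2 by push_cast; ring, Nat.add_zero] at e0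
      rw [show x + ((1 : ℕ) : ZMod n) - 2 = x - 1 by push_cast; ring] at e1
      rw [show x + ((2 : ℕ) : ZMod n) - 2 = x by push_cast; ring] at e2
      rw [show x + ((3 : ℕ) : ZMod n) - 2 = x + 1 by push_cast; ring] at e3
      rw [show x + ((4 : ℕ) : ZMod n) - 2 = x + 2 by push_cast; ring] at e4
      rw [e0, e1, e2, e3, e4] at h
      exact h
    · intro h3 x hx
      rcases h with h | h
      · exact absurd hx (h _)
      · have hk := zK (Or.inl h3) hx s1 s2
        rcases (h.2.2 hk x.val hx).1 h3 with h4 | h4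
        · exact Or.inl h4
        · right
          have e3 : (3 : ZMod n) = 0 := by
            have := ZMod.natCast_self n
            rw [h3] at this ⊢
            exact_mod_cast this
          have em : x - 1 = x + 2 := by linear_combination (-1) * e3
          rw [em, ev1, ev2]
          exact h4
    · intro h4' x hx
      rcases h with h | h
      · exact absurd hx (h _)
      · have hk := zK (Or.inr (Or.inl h4')) hx s1 s2
        rw [ev1, ev2, ev3]
        exact (h.2.2 hk x.val hx).2.1 h4'
    · intro h5' x hx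
      rcases h with h | h
      · exact absurd hx (h _)
      · have hk := zK (Or.inr (Or.inr h5')) hx s1 s2
        rw [ev2, ev3]
        exact (h.2.2 hk x.val hx).2.2 h5'
    · rw [sum_zmod (n := n) (fun i => (κ i + if d i then 1 else 0))] at hs
      exact hs
  obtain ⟨s, hs'⟩ := D.goal
  refine ⟨fun i => s (i : ZMod n), ?_, ?_⟩
  · intro i
    push_cast
    rw [ZMod.natCast_self, add_zero]
  · unfold c0
    rw [sum_zmod (n := n) (fun i => (p i 0 / 3 + if ty (p i) = 2 then (1 : ℤ) else 0)),
      sum_zmod (n := n)]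
    refine le_trans (le_of_eq ?_) hs'
    apply Finset.sum_congr rfl
    intro x _
    congr 1
    · beta_reduce
      rw [ZMod.natCast_zmod_val]
    · apply propext
      unfold dmd
      have e1 : ((x.val + (n - 1) : ℕ) : ZMod n) = x - 1 := by
        rw [Nat.cast_add, Nat.cast_sub (by omega), ZMod.natCast_self, ZMod.natCast_zmod_val]
        push_cast; ring
      have e2 : ((x.val + 1 : ℕ) : ZMod n) = x + 1 := by
        push_cast; rw [ZMod.natCast_zmod_val]
      have e3 : d (x + 1).val = d (x.val + 1) := by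
        rw [← zP hd (x.val + 1), e2]
      beta_reduce
      rw [e1, e2, e3]

end Pool.Agent.H44.Cac
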