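import Pool.Agent.H44.Cac.Words

/-! the value of a spread word -/

namespace Pool.Agent.H44.Cac

/-- sum of the floors plus the number of critical vertices -/
def c0 (p : ℕ → Pf) (n : ℕ) : ℤ :=
  ∑ i ∈ Finset.range n, (p i 0 / 3 + if ty (p i) = 2 then 1 else 0)

/-- the potential of the level after vertex `i` -/
def sbPot (p : ℕ → Pf) (i : ℕ) (l : ℤ) : ℤ :=
  if ty (p i) = 2 then (l + 1) / 3 else if ty (p (i + 1)) = 2 then (l - 1) / 3 else l / 3

lemma sbPot_mono (p : ℕ → Pf) (i : ℕ) {l l' : ℤ} (h : l ≤ l') : sbPot p i l ≤ sbPot p i l' := by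
  unfold sbPot; split_ifs <;> omega

lemma sbPot_add (p : ℕ → Pf) (i : ℕ) (l c : ℤ) : sbPot p i (l + 3 * c) = sbPot p i l + c := by
  unfold sbPot; split_ifs <;> omega

lemma sb_step {p : ℕ → Pf}
    (h0 : ∀ i, ty (p i) = 2 → ty (p (i + 1)) ≠ 0) (h0' : ∀ i, ty (p i) = 0 → ty (p (i + 1)) ≠ 2)
    (h1 : ∀ i, ty (p i) = 2 → ty (p (i + 1)) ≠ 2 ∧ ty (p (i + 2)) ≠ 2) (i : ℕ) (l : ℤ) :
    sbPot p i l + (p (i + 1) 0 / 3 + if ty (p (i + 1)) = 2 then 1 else 0) ≤
      sbPot p (i + 1) (glue (E false l) (p (i + 1) 0)) := by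
  have hE : E false l = l + 1 := by simp [E]
  rw [hE]
  have a1 := h0 i
  have a2 := h0' (i + 1)
  have a3 := h1 i
  have a4 := h1 (i + 1)
  have hb : p (i + 1) 0 = 3 * (p (i + 1) 0 / 3) + ty (p (i + 1)) := by unfold ty; omega
  have ht : ty (p (i + 1)) = 0 ∨ ty (p (i + 1)) = 1 ∨ ty (p (i + 1)) = 2 := by unfold ty; omega
  set z := p (i + 1) 0 / 3 with hz
  rw [hb]
  unfold sbPot
  obtain ⟨q, hq⟩ := split3 (l + 1)
  rcases ht with ht | ht | ht <;> rw [ht] at a1 a2 a3 a4 ⊢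
  · have b1 : ty (p i) ≠ 2 := fun h => a1 h rfl
    have b2 : ty (p (i + 1 + 1)) ≠ 2 := a2 rfl
    rw [if_neg (by norm_num : ¬ (0 : ℤ) = 2), if_neg b1, if_neg b2, add_zero]
    simp only [if_neg (by norm_num : ¬ (0 : ℤ) = 2)]
    rcases hq with h | h | h <;> rw [h]
    · rw [glue00]; omega
    · rw [glue10]; omega
    · rw [glue20]; omega
  · simp only [if_neg (by norm_num : ¬ (1 : ℤ) = 2)]
    by_cases c1 : ty (p i) = 2
    · have b2 : ty (p (i + 1 + 1)) ≠ 2 := (a3 c1).2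
      rw [if_pos c1, if_neg b2]
      rcases hq with h | h | h <;> rw [h]
      · rw [glue01]; omega
      · rw [glue11]; omega
      · rw [glue21]; omega
    · rw [if_neg c1]
      split_ifs
      · rcases hq with h | h | h <;> rw [h]
        · rw [glue01]; omega
        · rw [glue11]; omega
        · rw [glue21]; omega
      · rcases hq with h | h | h <;> rw [h]
        · rw [glue01]; omega
        · rw [glue11]; omega
        · rw [glue21]; omega
  · have b1 : ty (p i) ≠ 2 := fun h => (a3 h).1 rfl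
    rw [if_neg b1]
    simp only [if_true]
    rcases hq with h | h | h <;> rw [h]
    · rw [glue02]; omega
    · rw [glue12]; omega
    · rw [glue22]; omega

lemma sb_steps {p : ℕ → Pf}
    (h0 : ∀ i, ty (p i) = 2 → ty (p (i + 1)) ≠ 0) (h0' : ∀ i, ty (p i) = 0 → ty (p (i + 1)) ≠ 2)
    (h1 : ∀ i, ty (p i) = 2 → ty (p (i + 1)) ≠ 2 ∧ ty (p (i + 2)) ≠ 2) (m : ℕ) :
    ∀ (i : ℕ) (l : ℤ), sbPot p i l + ∑ j ∈ Finset.range m,
      (p (i + 1 + j) 0 / 3 + if ty (p (i + 1 + j)) = 2 then 1 else 0) ≤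
      sbPot p (i + m) (base (win p (i + 1) m) l) := by
  induction m with
  | zero => intro i l; simp [win_zero, base]
  | succ m ih =>
    intro i l
    rw [Finset.sum_range_succ', win_succ]
    have e1 := sb_step h0 h0' h1 i l
    have e2 := ih (i + 1) (glue (E false l) (p (i + 1) 0))
    have e3 : base (p (i + 1) :: win p (i + 1 + 1) m) l =
      base (win p (i + 1 + 1) m) (glue (E false l) (p (i + 1) 0)) := rfl
    rw [e3, show i + (m + 1) = i + 1 + m by ring]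
    have e4 : ∑ j ∈ Finset.range m,
        (p (i + 1 + (j + 1)) 0 / 3 + if ty (p (i + 1 + (j + 1))) = 2 then (1 : ℤ) else 0) =
        ∑ j ∈ Finset.range m,
        (p (i + 1 + 1 + j) 0 / 3 + if ty (p (i + 1 + 1 + j)) = 2 then (1 : ℤ) else 0) := by
      apply Finset.sum_congr rfl
      intro j _
      rw [show i + 1 + (j + 1) = i + 1 + 1 + j by ring]
    rw [e4]
    simp only [add_zero]
    linarith

theorem spr_base {p : ℕ → Pf} {n : ℕ} (hn : 3 ≤ n) (hp : ∀ i, p (i + n) = p i)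
    (h0 : ∀ i, ty (p i) = 2 → ty (p (i + 1)) ≠ 0) (h0' : ∀ i, ty (p i) = 0 → ty (p (i + 1)) ≠ 2)
    (h1 : ∀ i, ty (p i) = 2 → ty (p (i + 1)) ≠ 2 ∧ ty (p (i + 2)) ≠ 2) {c : ℤ}
    (h : Tr (base (win p 0 n)) c) : c0 p n ≤ c := by
  obtain ⟨l, hl⟩ := h
  have e1 := sb_steps h0 h0' h1 n (n - 1) l
  rw [show n - 1 + 1 = n by omega] at e1
  have e2 : win p n n = win p 0 n := by
    have := win_period hp 0 n
    rwa [zero_add] at this
  rw [e2] at e1
  have e3 : ∑ j ∈ Finset.range n, (p (n + j) 0 / 3 + if ty (p (n + j)) = 2 then (1 : ℤ) else 0) =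
      c0 p n := by
    unfold c0
    apply Finset.sum_congr rfl
    intro j _
    rw [add_comm n j, hp]
  rw [e3] at e1
  have e4 : ∀ x, sbPot p (n - 1 + n) x = sbPot p (n - 1) x := by
    intro x
    unfold sbPot
    rw [hp, show n - 1 + n + 1 = n - 1 + 1 + n by ring, hp]
  rw [e4] at e1
  have e5 := sbPot_mono p (n - 1) hl
  rw [sbPot_add] at e5
  linarith

end Pool.Agent.H44.Cac
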