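import Pool.Agent.H44.Cac.Alg

/-!
Cyclic words of profiles: definitions.
-/

namespace Pool.Agent.H44.Cac

/-- profile of a rooted piece: `g k` is the highest level that can be reached by deleting at most
`k` edges of the piece -/
abbrev Pf := ℕ → ℤ

/-- the type of a profile -/
def ty (g : Pf) : ℤ := g 0 % 3

/-- possible actions of a vertex of a chain (with a branch of profile `g`) on the level of the
previous vertex, after `k` deletions (in the branch, and of the edge to the previous vertex) -/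
inductive Fop (g : Pf) : ℕ → (ℤ → ℤ) → Prop
  | keep (i : ℕ) : Fop g i (fun l => glue (E false l) (g i))
  | cut (i : ℕ) : Fop g (i + 1) (fun l => glue (E true l) (g i))

/-- possible actions of a chain of vertices after `k` deletions -/
inductive Fw : List Pf → ℕ → (ℤ → ℤ) → Prop
  | nil : Fw [] 0 id
  | cons {g : Pf} {gs : List Pf} {i j : ℕ} {P Q : ℤ → ℤ} :
      Fop g i P → Fw gs j Q → Fw (g :: gs) (i + j) (fun l => Q (P l))

/-- the action of a chain without deletions -/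
def base : List Pf → ℤ → ℤ
  | [], l => l
  | g :: gs, l => base gs (glue (E false l) (g 0))

/-- the closed chain with action `P` has value at most `c` -/
def Tr (P : ℤ → ℤ) (c : ℤ) : Prop := ∃ l, P l ≤ l + 3 * c

/-- two deletions do not raise the value of the closed chain -/
def Good (gs : List Pf) : Prop :=
  ∀ c, Tr (base gs) c → ∀ k ≤ 2, ∀ P, Fw gs k P → Tr P c

/-- live profiles -/
structure Live (g : Pf) : Prop where
  le1 : g 0 ≤ g 1
  le2 : g 1 ≤ g 2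
  le3 : g 2 ≤ g 0 + 2
  no12 : ty g = 1 → g 1 ≤ g 0 + 1

/-- window of length `n` of a sequence, from index `i` on -/
def win (p : ℕ → Pf) (i n : ℕ) : List Pf := (List.range n).map (fun j => p (i + j))

/-- count of a vertex of type 0 -/
def cS (g : Pf) : ℕ := if g 2 ≤ g 0 + 1 then 3 else if g 1 ≤ g 0 + 1 then 2 else 1
/-- count of a vertex of type 1 with a critical neighbour -/
def cT (g : Pf) : ℕ := if g 1 ≤ g 0 then 2 else 1
/-- count of a vertex of type 1 without critical neighbour -/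
def cN (g : Pf) : ℕ :=
  if g 2 ≤ g 0 then 3 else if g 1 ≤ g 0 ∧ g 2 ≤ g 0 + 1 then 2 else if g 2 ≤ g 0 + 1 then 1 else 0

/-- count of `x` between `a` and `c` -/
def cX (a x c : Pf) : ℕ :=
  if ty x = 0 then cS x else if ty a = 2 ∨ ty c = 2 then cT x else cN x

/-- `a` (with further neighbour `a'`, not `x`, where `x` is not critical) is strong -/
def str (a' a : Pf) : ℕ := if ty a = 1 ∧ ty a' ≠ 2 then 0 else 1

/-- the local rule -/
def Loc (a' a x c c' : Pf) : Prop :=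
  (ty x = 2 → ty a ≠ 0 ∧ ty c ≠ 0) ∧ (ty x ≠ 2 → 3 ≤ cX a x c + str a' a + str c' c)

/-- number of critical vertices -/
def nK (p : ℕ → Pf) (n : ℕ) : ℕ := ((Finset.range n).filter (fun i => ty (p i) = 2)).card

def AllK (p : ℕ → Pf) (n : ℕ) : Prop :=
  (∀ i, ty (p i) = 2) ∧ n % 3 = 1 ∧ ∀ i, p i 1 ≤ p i 0 + 1

def AllW (p : ℕ → Pf) : Prop := ∀ i, ty (p i) ≠ 2

def Alt (p : ℕ → Pf) (n : ℕ) : Prop :=
  (∃ i, ty (p i) ≠ 2) ∧
  (∀ i, ty (p i) = 2 ∨ ty (p (i + 1)) = 2) ∧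
  (∀ i, ty (p i) = 2 → ty (p (i + 1)) = 2 → ty (p (i + 2)) ≠ 2) ∧
  nK p n % 2 = 1 ∧
  (∀ i, ty (p i) ≠ 2 → ty (p (i + 1)) = 2 → ty (p (i + 2)) ≠ 2 → p (i + 1) 1 ≤ p (i + 1) 0) ∧
  (∀ i, ty (p i) = 2 → ty (p (i + 1)) = 2 →
    p i 1 + p (i + 1) 1 ≤ p i 0 + p (i + 1) 0 + 1)

def Spr (p : ℕ → Pf) (n : ℕ) : Prop :=
  (∃ i, ty (p i) = 2) ∧
  (∀ i, ty (p i) = 2 → ty (p (i + 1)) ≠ 2 ∧ ty (p (i + 2)) ≠ 2) ∧
  (nK p n = 1 → ∀ i, ty (p i) = 2 →
    (n = 3 → (p i 1 ≤ p i 0 + 1 ∨ (cT (p (i + 1)) = 2 ∧ cT (p (i + 2)) = 2))) ∧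
    (n = 4 → (p i 1 ≤ p i 0 ∨ cX (p (i + 1)) (p (i + 2)) (p (i + 3)) ≠ 1)) ∧
    (n = 5 → ¬ (ty (p (i + 2)) = 0 ∧ ty (p (i + 3)) = 0 ∧
      cS (p (i + 2)) = 1 ∧ cS (p (i + 3)) = 1)))

/-- the rule for cyclic words -/
def Rule (p : ℕ → Pf) (n : ℕ) : Prop :=
  (∀ i, Loc (p i) (p (i + 1)) (p (i + 2)) (p (i + 3)) (p (i + 4))) ∧
  (AllK p n ∨ AllW p ∨ Alt p n ∨ Spr p n)

end Pool.Agent.H44.Cac
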